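import Mathlib

set_option autoImplicit false

open NumberField Height IsDedekindDomain

namespace H645.ABC

variable (K : Type) [Field K] [NumberField K]

theorem one_le_finprod_fin (w : K) : (1 : ℝ) ≤ ∏ᶠ v : FinitePlace K, max (v w) 1 :=
  finprod_induction (fun x : ℝ => 1 ≤ x) le_rfl (fun _ _ hx hy => one_le_mul_of_one_le_of_one_le hx hy)
    (fun _ => le_max_right _ _)

theorem place_le (w : K) (v : InfinitePlace K) : v w ≤ mulHeight₁ w := by
  classical
  rw [NumberField.mulHeight₁_eq, ← Finset.mul_prod_erase _ _ (Finset.mem_univ v)]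
  have h1 : (1 : ℝ) ≤ ∏ x ∈ Finset.univ.erase v, max (x w) 1 ^ x.mult :=
    Finset.prod_induction _ (fun x : ℝ => 1 ≤ x) (fun _ _ hx hy => one_le_mul_of_one_le_of_one_le hx hy)
      le_rfl (fun x _ => one_le_pow₀ (le_max_right _ _))
  have h2 := one_le_finprod_fin K w
  have h3 : v w ≤ max (v w) 1 ^ v.mult := by
    calc v w ≤ max (v w) 1 := le_max_left _ _
      _ = max (v w) 1 ^ 1 := (pow_one _).symm
      _ ≤ max (v w) 1 ^ v.mult := pow_le_pow_right₀ (le_max_right _ _) v.mult_pos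
  have h4 : (1 : ℝ) ≤ max (v w) 1 ^ v.mult := one_le_pow₀ (le_max_right _ _)
  calc v w ≤ max (v w) 1 ^ v.mult := h3
    _ = max (v w) 1 ^ v.mult * 1 := (mul_one _).symm
    _ ≤ max (v w) 1 ^ v.mult * ∏ x ∈ Finset.univ.erase v, max (x w) 1 ^ x.mult :=
        mul_le_mul_of_nonneg_left h1 (by linarith)
    _ = (max (v w) 1 ^ v.mult * ∏ x ∈ Finset.univ.erase v, max (x w) 1 ^ x.mult) * 1 := (mul_one _).symm
    _ ≤ _ := mul_le_mul_of_nonneg_left h2 (by nlinarith)

theorem house_le (w : K) : house w ≤ mulHeight₁ w := by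
  rw [house_eq_sup']
  have : (Finset.univ.sup' Finset.univ_nonempty (fun φ : K →+* ℂ ↦ ‖φ w‖₊)) ≤
      (⟨mulHeight₁ w, mulHeight₁_nonneg w⟩ : NNReal) := by
    apply Finset.sup'_le
    intro φ _
    change ‖φ w‖ ≤ mulHeight₁ w
    exact place_le K w (InfinitePlace.mk φ)
  exact this

/-- polynomial bound for the number of elements of bounded height -/
theorem poly_count : ∃ (κ : ℕ) (C : ℝ), 0 < C ∧ ∀ B : ℝ, 1 ≤ B →
    ((Nat.card {w : K // mulHeight₁ w ≤ B} : ℕ) : ℝ) ≤ C * B ^ κ := by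
  classical
  obtain ⟨c, hc⟩ : ∃ c : ℝ, ∀ (α : 𝓞 K) (i : K →+* ℂ),
      ‖((((integralBasis K).reindex (equivReindex K).symm).repr α i : ℚ) : ℂ)‖ ≤
      c * house (algebraMap (𝓞 K) K α) := ⟨_, fun α i => house.basis_repr_norm_le_const_mul_house K α i⟩
  let b := (integralBasis K).reindex (equivReindex K).symm
  let c' : ℝ := max c 0
  have hc' : 0 ≤ c' := le_max_right _ _
  let d := Fintype.card (K →+* ℂ)
  refine ⟨2 * d + 1, 2 * (2 * c' + 1) ^ d, by positivity, fun B hB => ?_⟩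
  let M : ℕ := ⌊c' * B ^ 2⌋₊
  let T := Fin (⌊B⌋₊ + 1) × ((K →+* ℂ) → (Finset.Icc (-(M : ℤ)) M))
  -- the coordinates of an integral element are integers
  have hint : ∀ (a : 𝓞 K) (i : K →+* ℂ), ∃ m : ℤ, (m : ℚ) = b.repr (a : K) i := by
    intro a i
    refine ⟨(RingOfIntegers.basis K).repr a ((equivReindex K) i), ?_⟩
    simp only [b, Module.Basis.repr_reindex_apply, Equiv.symm_symm, integralBasis_repr_apply]
    simp
  have hkey : ∀ w : {w : K // mulHeight₁ w ≤ B}, ∃ t : T,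
      ((t.1 : ℕ) : K) ≠ 0 ∧ w.1 = (∑ i, ((t.2 i : ℤ) : ℚ) • b i) / ((t.1 : ℕ) : K) := by
    intro w
    obtain ⟨n, hn0, hnB, hni⟩ := exists_nat_le_mulHeight₁ w.1
    have hnB' : (n : ℝ) ≤ B := hnB.trans w.2
    have hnK : (n : K) ≠ 0 := Nat.cast_ne_zero.2 hn0
    let a : 𝓞 K := ⟨(n : K) * w.1, hni⟩
    have ha : ((a : 𝓞 K) : K) = n * w.1 := rfl
    choose m hm using hint a
    have hmM : ∀ i, m i ∈ Finset.Icc (-(M : ℤ)) M := by
      intro i
      have h1 := hc a i
      have h2 : ‖((b.repr (a : K) i : ℚ) : ℂ)‖ = |(m i : ℝ)| := by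
        rw [← hm i]
        simp
      have h3 : house ((a : 𝓞 K) : K) ≤ B ^ 2 := by
        rw [ha, house_nat_mul]
        have := (house_le K w.1).trans w.2
        have h0 := house_nonneg w.1
        have h00 : (0 : ℝ) ≤ n := Nat.cast_nonneg n
        nlinarith
      have h4 : |(m i : ℝ)| ≤ c' * B ^ 2 := by
        rw [← h2]
        refine h1.trans ?_
        have h5 : c * house ((a : 𝓞 K) : K) ≤ c' * house ((a : 𝓞 K) : K) :=
          mul_le_mul_of_nonneg_right (le_max_left _ _) (house_nonneg _)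
        exact h5.trans (mul_le_mul_of_nonneg_left h3 hc')
      have h6 : (((m i).natAbs : ℕ) : ℝ) ≤ c' * B ^ 2 := by
        rw [Nat.cast_natAbs]
        simpa using h4
      have h7 : (m i).natAbs ≤ M := Nat.le_floor h6
      rw [Finset.mem_Icc]
      omega
    refine ⟨⟨⟨n, ?_⟩, fun i => ⟨m i, hmM i⟩⟩, hnK, ?_⟩
    · have : n ≤ ⌊B⌋₊ := Nat.le_floor hnB'
      omega
    · have h8 : (∑ i, ((m i : ℤ) : ℚ) • b i) = (a : K) := by
        conv_rhs => rw [← b.sum_repr (a : K)]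
        exact Finset.sum_congr rfl fun i _ => by rw [hm i]
      change w.1 = (∑ i, ((m i : ℤ) : ℚ) • b i) / (n : K)
      rw [h8, ha]
      field_simp
  choose t ht0 ht using hkey
  have hinj : Function.Injective t := by
    intro w w' hww
    apply Subtype.ext
    rw [ht w, ht w', hww]
  have hcard : Nat.card {w : K // mulHeight₁ w ≤ B} ≤ Nat.card T :=
    Nat.card_le_card_of_injective t hinj
  have hT : Nat.card T = (⌊B⌋₊ + 1) * (2 * M + 1) ^ d := by
    simp only [T, Nat.card_eq_fintype_card, Fintype.card_prod, Fintype.card_fin, Fintype.card_pi,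
      Fintype.card_coe, Int.card_Icc, Finset.prod_const, Finset.card_univ, d]
    congr 2
    omega
  have h1 : ((⌊B⌋₊ + 1 : ℕ) : ℝ) ≤ 2 * B := by
    push_cast
    have := Nat.floor_le (show (0 : ℝ) ≤ B by linarith)
    linarith
  have h2 : ((2 * M + 1 : ℕ) : ℝ) ≤ (2 * c' + 1) * B ^ 2 := by
    push_cast
    have := Nat.floor_le (show (0 : ℝ) ≤ c' * B ^ 2 by positivity)
    have h3 : (1 : ℝ) ≤ B ^ 2 := one_le_pow₀ hB
    change (M : ℝ) ≤ c' * B ^ 2 at this
    nlinarith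
  calc ((Nat.card {w : K // mulHeight₁ w ≤ B} : ℕ) : ℝ) ≤ (Nat.card T : ℝ) := by exact_mod_cast hcard
    _ = ((⌊B⌋₊ + 1 : ℕ) : ℝ) * ((2 * M + 1 : ℕ) : ℝ) ^ d := by rw [hT]; push_cast; ring
    _ ≤ (2 * B) * ((2 * c' + 1) * B ^ 2) ^ d := by
        apply mul_le_mul h1 _ (by positivity) (by positivity)
        exact pow_le_pow_left₀ (by positivity) h2 d
    _ = 2 * (2 * c' + 1) ^ d * B ^ (2 * d + 1) := by
        rw [mul_pow, ← pow_mul, pow_succ B (2 * d)]
        ring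

end H645.ABC
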