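import Pool.Agent.H645R3.ABC6

set_option autoImplicit false

open NumberField Height IsDedekindDomain Filter Topology nonZeroDivisors

namespace H645.ABC

variable {K : Type} [Field K] [NumberField K]

theorem absv (v : HeightOneSpectrum (𝓞 K)) (y : Kˣ) :
    (FinitePlace.equivHeightOneSpectrum.symm v) (y : K) = (Ideal.absNorm v.asIdeal : ℝ) ^ (vl v y) := by
  rw [FinitePlace.equivHeightOneSpectrum_symm_apply, FinitePlace.norm_embedding',
    ← HeightOneSpectrum.valuationOfNeZero_eq]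
  rw [WithZeroMulInt.toNNReal_neg_apply _ WithZero.coe_ne_zero]
  rw [WithZero.unzero_coe]
  push_cast
  rfl

/-- the primes where `y` is small have product at most the height -/
theorem NS_neg_le (y : Kˣ) (W : Finset (HeightOneSpectrum (𝓞 K))) (hW : ∀ v ∈ W, vl v y < 0) :
    NS K W ≤ mulHeight₁ (y : K) := by
  classical
  rw [← mulHeight₁_inv, NumberField.mulHeight₁_eq]
  have h1 : (1 : ℝ) ≤ ∏ v : InfinitePlace K, max (v ((y : K)⁻¹)) 1 ^ v.mult :=
    Finset.prod_induction _ (fun x : ℝ => 1 ≤ x)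
      (fun _ _ hx hy => one_le_mul_of_one_le_of_one_le hx hy) le_rfl
      (fun x _ => one_le_pow₀ (le_max_right _ _))
  have h2 : (∏ᶠ v : FinitePlace K, max (v ((y : K)⁻¹)) 1) =
      ∏ᶠ v : HeightOneSpectrum (𝓞 K),
        max ((FinitePlace.equivHeightOneSpectrum.symm v) ((y : K)⁻¹)) 1 := by
    rw [← finprod_comp_equiv (FinitePlace.equivHeightOneSpectrum (K := K)).symm]
  have h3 : ∀ v : HeightOneSpectrum (𝓞 K),
      max ((FinitePlace.equivHeightOneSpectrum.symm v) ((y : K)⁻¹)) 1 =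
        max ((Ideal.absNorm v.asIdeal : ℝ) ^ (-(vl v y))) 1 := by
    intro v
    have := absv v y⁻¹
    rw [vl_inv, Units.val_inv_eq_inv_val] at this
    rw [this]
  rw [h2, finprod_congr h3]
  have hsupp : (Function.mulSupport fun v : HeightOneSpectrum (𝓞 K) =>
      max ((Ideal.absNorm v.asIdeal : ℝ) ^ (-(vl v y))) 1) ⊆ (sF y ∪ W : Finset _) := by
    intro v hv
    rw [Function.mem_mulSupport] at hv
    rw [Finset.mem_coe, Finset.mem_union]
    left
    rw [mem_sF]
    intro h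
    apply hv
    rw [h, neg_zero, zpow_zero, max_self]
  rw [finprod_eq_prod_of_mulSupport_subset _ hsupp]
  have h4 : NS K W ≤ ∏ v ∈ (sF y ∪ W), max ((Ideal.absNorm v.asIdeal : ℝ) ^ (-(vl v y))) 1 := by
    rw [← Finset.prod_sdiff (Finset.subset_union_right : W ⊆ sF y ∪ W)]
    have h5 : (1 : ℝ) ≤ ∏ v ∈ (sF y ∪ W) \ W, max ((Ideal.absNorm v.asIdeal : ℝ) ^ (-(vl v y))) 1 :=
      Finset.prod_induction _ (fun x : ℝ => 1 ≤ x)
        (fun _ _ hx hy => one_le_mul_of_one_le_of_one_le hx hy) le_rfl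
        (fun x _ => le_max_right _ _)
    have h6 : NS K W ≤ ∏ v ∈ W, max ((Ideal.absNorm v.asIdeal : ℝ) ^ (-(vl v y))) 1 := by
      unfold NS
      apply Finset.prod_le_prod
      · intro v _
        positivity
      · intro v hv
        refine le_max_of_le_left ?_
        have h7 := hW v hv
        have h8 := one_le_absNorm_real v
        calc (Ideal.absNorm v.asIdeal : ℝ) = (Ideal.absNorm v.asIdeal : ℝ) ^ (1 : ℤ) := (zpow_one _).symm
          _ ≤ (Ideal.absNorm v.asIdeal : ℝ) ^ (-(vl v y)) := zpow_le_zpow_right₀ h8 (by omega)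
    have h9 := one_le_NS W
    nlinarith
  have h10 := one_le_NS W
  nlinarith

/-- scaling -/
theorem ht_smul (s : K) (hs : s ≠ 0) (x : Fin 3 → K) : ht (s • x) = ht x := by
  unfold ht
  rw [logHeight_smul_eq_logHeight _ hs]

theorem bad_smul (s : K) (hs : s ≠ 0) (x : Fin 3 → K) : badPrimes (s • x) = badPrimes x := by
  ext v
  have h0 : v.valuation K s ≠ 0 := (Valuation.ne_zero_iff _).2 hs
  simp only [badPrimes, Set.mem_ofPred_eq, Pi.smul_apply, smul_eq_mul, map_mul, mul_right_inj' h0]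

theorem rad_smul (s : K) (hs : s ≠ 0) (x : Fin 3 → K) : rad (s • x) = rad x := by
  unfold rad
  rw [bad_smul s hs]

theorem rep_mk (x : Fin 3 → K) (hx : x ≠ 0) : ∃ s : K, s ≠ 0 ∧
    (Projectivization.mk K x hx).rep = s • x := by
  obtain ⟨t, ht⟩ := Projectivization.exists_smul_eq_mk_rep K x hx
  exact ⟨t, t.ne_zero, ht.symm⟩

/-- height of `1 + t + ... + t^(n-1)` -/
theorem geom_height (n : ℕ) : ∃ C : ℝ, 0 < C ∧ ∀ t : K,
    mulHeight₁ (∑ i ∈ Finset.range n, t ^ i) ≤ C * mulHeight₁ t ^ (n - 1) := by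
  let p : Fin 2 → MvPolynomial (Fin 2) K :=
    ![∑ i ∈ Finset.range n, MvPolynomial.X 0 ^ i * MvPolynomial.X 1 ^ (n - 1 - i),
      MvPolynomial.X 1 ^ (n - 1)]
  have hp : ∀ i, (p i).IsHomogeneous (n - 1) := by
    intro i
    fin_cases i
    · change (∑ i ∈ Finset.range n, MvPolynomial.X 0 ^ i * MvPolynomial.X 1 ^ (n - 1 - i) :
        MvPolynomial (Fin 2) K).IsHomogeneous (n - 1)
      apply MvPolynomial.IsHomogeneous.sum
      intro i hi
      have h1 := (MvPolynomial.isHomogeneous_X_pow (R := K) (0 : Fin 2) i).mul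
        (MvPolynomial.isHomogeneous_X_pow (R := K) (1 : Fin 2) (n - 1 - i))
      have h2 : i + (n - 1 - i) = n - 1 := by
        have := Finset.mem_range.1 hi
        omega
      rwa [h2] at h1
    · exact MvPolynomial.isHomogeneous_X_pow (R := K) (1 : Fin 2) (n - 1)
  obtain ⟨C, hC, h⟩ := mulHeight_eval_le' hp
  refine ⟨C, hC, fun t => ?_⟩
  have h1 := h ![t, 1]
  rw [mulHeight₁_eq_mulHeight, mulHeight₁_eq_mulHeight]
  convert h1 using 2
  funext j
  fin_cases j
  · simp [p, MvPolynomial.eval_sum]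
  · simp [p]

/-- height of the triple -/
theorem tri_height : ∃ C : ℝ, 0 < C ∧ ∀ a b : K, mulHeight ![a, b, -(a + b)] ≤ C * mulHeight ![a, b] := by
  let p : Fin 3 → MvPolynomial (Fin 2) K :=
    ![MvPolynomial.X 0, MvPolynomial.X 1, -(MvPolynomial.X 0 + MvPolynomial.X 1)]
  have hp : ∀ i, (p i).IsHomogeneous 1 := by
    intro i
    fin_cases i
    · exact MvPolynomial.isHomogeneous_X K 0
    · exact MvPolynomial.isHomogeneous_X K 1
    · exact ((MvPolynomial.isHomogeneous_X K 0).add (MvPolynomial.isHomogeneous_X K 1)).neg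
  obtain ⟨C, hC, h⟩ := mulHeight_eval_le' hp
  refine ⟨C, hC, fun a b => ?_⟩
  have h1 := h ![a, b]
  rw [pow_one] at h1
  convert h1 using 2
  funext j
  fin_cases j <;> simp [p]

end H645.ABC
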