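import Pool.Agent.H645R3.ABCDef

set_option autoImplicit false

open NumberField IsDedekindDomain

namespace H645.ABC

/-- The abc inequality for the points of a set `𝒮`: for every `ε > 0` there is `C` with
`h(P) < (1 + ε) rad(P) + C` for all `P ∈ 𝒮`. For `𝒮` the set of all points `(a : b : c)` with
`a + b + c = 0`, `abc ≠ 0` this is the abc conjecture over `K`. -/
def abcOn (K : Type) [Field K] [NumberField K] (𝒮 : Set (Projectivization K (Fin 3 → K))) : Prop :=
  ∀ ε : ℝ, 0 < ε → ∃ C : ℝ, ∀ p ∈ 𝒮, ht p.rep < (1 + ε) * rad p.rep + C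

/-- The points `(a : b : c)` with `a + b + c = 0`, `abc ≠ 0` for which `-a/b` is an `n`-th power
in `K`, that is, the points `(-t^n : 1 : t^n - 1)`. -/
def powSet (K : Type) [Field K] [NumberField K] (n : ℕ) : Set (Projectivization K (Fin 3 → K)) :=
  {p | IsABC p ∧ ∃ t : K, p.rep 0 = -(t ^ n * p.rep 1)}

end H645.ABC
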