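import Pool.Agent.H645R3.ABC10
import Pool.Agent.H645R3.ABCDef2

set_option autoImplicit false

open NumberField Height IsDedekindDomain Filter Topology nonZeroDivisors

namespace H645.ABC

variable {K : Type} [Field K] [NumberField K]

theorem rad_eq_log {x : Fin 3 → K} (hx : (badPrimes x).Finite) :
    Module.finrank ℚ K * rad x = Real.log (NS K hx.toFinset) := by
  unfold rad
  rw [mul_div_cancel₀ _ finrank_pos'.ne', log_NS, finsum_mem_eq_finite_toFinset_sum]

theorem NS_union_le [DecidableEq (HeightOneSpectrum (𝓞 K))] (S T : Finset (HeightOneSpectrum (𝓞 K))) :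
    NS K (S ∪ T) ≤ NS K S * NS K T := by
  have h1 : NS K (S ∪ T) * NS K (S ∩ T) = NS K S * NS K T := by
    unfold NS
    exact Finset.prod_union_inter
  have h2 := one_le_NS (S ∩ T)
  have h3 := one_le_NS (S ∪ T)
  nlinarith

/-- main inequality: from `(-t : 1 : t - 1)` to `(-t^n : 1 : t^n - 1)` -/
theorem bad_pow (n : ℕ) (t : Kˣ) (g : Kˣ)
    (hg : (g : K) = ∑ i ∈ Finset.range n, (t : K) ^ i) (v : HeightOneSpectrum (𝓞 K))
    (hv : v ∈ badPrimes ![-(t : K) ^ n, 1, (t : K) ^ n - 1]) :
    v ∈ badPrimes ![-(t : K), 1, (t : K) - 1] ∨ vl v g < 0 := by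
  by_contra hcon
  rw [not_or] at hcon
  obtain ⟨h1, h2⟩ := hcon
  have h3 : v.valuation K (-(t : K)) = v.valuation K 1 ∧
      v.valuation K 1 = v.valuation K ((t : K) - 1) := by
    by_contra h
    exact h1 h
  rw [Valuation.map_neg, map_one] at h3
  obtain ⟨h4, h5⟩ := h3
  apply hv
  change v.valuation K (-(t : K) ^ n) = v.valuation K 1 ∧
    v.valuation K 1 = v.valuation K ((t : K) ^ n - 1)
  rw [Valuation.map_neg, map_pow, h4, one_pow, map_one]
  refine ⟨rfl, ?_⟩
  have h6 : (t : K) ^ n - 1 = (g : K) * ((t : K) - 1) := by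
    rw [hg, geom_sum_mul]
  rw [h6, map_mul, ← h5, mul_one]
  have h7 : v.valuation K (g : K) ≤ 1 := by
    rw [hg]
    apply Valuation.map_sum_le
    intro i _
    rw [map_pow, h4, one_pow]
  have h8 : ¬ v.valuation K (g : K) < 1 := by
    intro h
    apply h2
    rw [← HeightOneSpectrum.valuationOfNeZero_eq] at h
    have h9 : ((v.valuationOfNeZero g : Multiplicative ℤ) : WithZero (Multiplicative ℤ)) <
      ((1 : Multiplicative ℤ) : WithZero (Multiplicative ℤ)) := h
    rw [WithZero.coe_lt_coe] at h9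
    exact h9
  exact (le_antisymm h7 (not_lt.1 h8)).symm

theorem rad_nonneg (x : Fin 3 → K) : 0 ≤ rad x := by
  unfold rad
  apply div_nonneg _ finrank_pos'.le
  exact finsum_nonneg fun v => finsum_nonneg fun _ => Real.log_nonneg (one_le_absNorm_real v)

theorem bad_fin (t : K) (ht : t ≠ 0) (ht1 : t - 1 ≠ 0) :
    (badPrimes ![-t, 1, t - 1]).Finite := by
  let a : Kˣ := Units.mk0 (-t) (neg_ne_zero.2 ht)
  let c : Kˣ := Units.mk0 (t - 1) ht1
  refine ((supp_finite a).union (supp_finite c)).subset ?_
  intro v hv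
  by_contra hcon
  rw [Set.mem_union, not_or] at hcon
  apply hv
  have h1 : vl v a = 0 := by
    by_contra h
    exact hcon.1 h
  have h2 : vl v c = 0 := by
    by_contra h
    exact hcon.2 h
  have h3 : vl v (1 : Kˣ) = 0 := by
    unfold vl
    rw [map_one, toAdd_one]
  exact ⟨(vl_eq_iff v a 1).1 (h1.trans h3.symm), (vl_eq_iff v 1 c).1 (h3.trans h2.symm)⟩

theorem reduction (n : ℕ) (hn : 1 ≤ n) (h : abcOn K (powSet K n)) :
    abcOn K {p | IsABC p} := by
  classical
  intro ε hε
  have hn1 : (0 : ℝ) ≤ n - 1 := by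
    have : (1 : ℝ) ≤ n := by exact_mod_cast hn
    linarith
  set d : ℝ := ((Module.finrank ℚ K : ℕ) : ℝ) with hd
  have hd0 : 0 < d := finrank_pos'
  let η : ℝ := ε / (1 + (1 + ε) * (n - 1))
  have hη : 0 < η := by positivity
  have hη1 : (1 + η) = (1 + ε) * (1 - η * (n - 1)) := by
    have h1 : (1 + (1 + ε) * ((n : ℝ) - 1)) ≠ 0 := by positivity
    simp only [η]
    field_simp
    ring
  obtain ⟨C', hC'⟩ := h η hη
  obtain ⟨C1, hC1, hg1⟩ := geom_height (K := K) n
  obtain ⟨C2, hC2, hg2⟩ := tri_height (K := K)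
  -- constants
  let c1 : ℝ := |Real.log C1| / d
  let c2 : ℝ := |Real.log C2| / d
  have hc1 : 0 ≤ c1 := by positivity
  have hc2 : 0 ≤ c2 := by positivity
  let C'' : ℝ := (1 + η) * c1 + |C'|
  refine ⟨C'' * ((1 + ε) / (1 + η)) + c2 + 1, fun p hp => ?_⟩
  have hC''0 : 0 ≤ C'' * ((1 + ε) / (1 + η)) := by positivity
  have hpb := hp.ne 1
  have hpa := hp.ne 0
  -- the parameter
  let t : K := -(p.rep 0 / p.rep 1)
  have ht0 : t ≠ 0 := neg_ne_zero.2 (div_ne_zero hpa hpb)
  have hrep : p.rep = p.rep 1 • ![-t, 1, t - 1] := by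
    funext i
    fin_cases i
    · change p.rep 0 = p.rep 1 * -t
      simp only [t]
      field_simp
    · change p.rep 1 = p.rep 1 * 1
      ring
    · change p.rep 2 = p.rep 1 * (t - 1)
      simp only [t]
      field_simp
      linear_combination hp.1
  have ht1 : t - 1 ≠ 0 := by
    intro h0
    have h2 := congrFun hrep 2
    change p.rep 2 = p.rep 1 * (t - 1) at h2
    rw [h0, mul_zero] at h2
    exact hp.ne 2 h2
  have hht : ht p.rep = ht ![-t, 1, t - 1] := by
    rw [hrep]
    have := ht_smul (p.rep 1) hpb ![-t, 1, t - 1]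
    rw [← hrep] at this ⊢
    exact this
  have hrad : rad p.rep = rad ![-t, 1, t - 1] := by
    have := rad_smul (p.rep 1) hpb ![-t, 1, t - 1]
    rw [← hrep] at this
    exact this
  let L : ℝ := Real.log (mulHeight₁ t) / d
  have hL : 0 ≤ L := div_nonneg (Real.log_nonneg (one_le_mulHeight₁ t)) hd0.le
  -- upper bound for the height
  have hup : ht p.rep ≤ L + c2 := by
    rw [hht]
    have h1 := hg2 (-t) 1
    have h2 : ![-t, 1, -(-t + 1)] = ![-t, 1, t - 1] := by
      congr 2
      funext i
      fin_cases i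
      change -(-t + 1) = t - 1
      ring
    rw [h2, ← mulHeight₁_eq_mulHeight, mulHeight₁_neg] at h1
    unfold ht
    rw [div_le_iff₀ hd0, logHeight_eq_log_mulHeight]
    calc Real.log (mulHeight ![-t, 1, t - 1]) ≤ Real.log (C2 * mulHeight₁ t) :=
          Real.log_le_log (mulHeight_pos _) h1
      _ = Real.log C2 + Real.log (mulHeight₁ t) := Real.log_mul hC2.ne' (mulHeight₁_ne_zero t)
      _ ≤ |Real.log C2| + Real.log (mulHeight₁ t) := by
          have := le_abs_self (Real.log C2)
          linarith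
      _ = (L + c2) * d := by
          simp only [L, c2]
          field_simp
          ring
  by_cases htn : t ^ n = 1
  · have h1 : mulHeight₁ t = 1 := by
      have h2 : mulHeight₁ t ^ n = 1 := by
        rw [← mulHeight₁_pow, htn, mulHeight₁_one]
      exact (pow_eq_one_iff_of_nonneg (mulHeight₁_nonneg t) (by omega)).1 h2
    have h2 : L = 0 := by
      simp only [L]
      rw [h1, Real.log_one, zero_div]
    rw [h2] at hup
    have h3 := rad_nonneg p.rep
    have h4 : 0 ≤ (1 + ε) * rad p.rep := by positivity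
    linarith
  · -- the new point
    have htn1 : t ^ n - 1 ≠ 0 := sub_ne_zero.2 htn
    let x : Fin 3 → K := ![-t ^ n, 1, t ^ n - 1]
    have hx : x ≠ 0 := by
      intro h0
      have := congrFun h0 1
      exact one_ne_zero this
    obtain ⟨s, hs, hsr⟩ := rep_mk x hx
    let q := Projectivization.mk K x hx
    have hq : q ∈ powSet K n := by
      have e0 : q.rep 0 = s * (-t ^ n) := by rw [hsr]; rfl
      have e1 : q.rep 1 = s * 1 := by rw [hsr]; rfl
      have e2 : q.rep 2 = s * (t ^ n - 1) := by rw [hsr]; rfl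
      refine ⟨⟨?_, ?_, ?_, ?_⟩, ⟨t, ?_⟩⟩
      · rw [e0, e1, e2]; ring
      · rw [e0]; exact mul_ne_zero hs (neg_ne_zero.2 (pow_ne_zero _ ht0))
      · rw [e1]; exact mul_ne_zero hs one_ne_zero
      · rw [e2]; exact mul_ne_zero hs htn1
      · rw [e0, e1]; ring
    have h1 := hC' q hq
    have hqh : ht q.rep = ht x := by
      change ht (Projectivization.mk K x hx).rep = _
      rw [hsr, ht_smul s hs]
    have hqr : rad q.rep = rad x := by
      change rad (Projectivization.mk K x hx).rep = _
      rw [hsr, rad_smul s hs]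
    rw [hqh, hqr] at h1
    -- lower bound for the height of the new point
    have hlow : n * L ≤ ht x := by
      have h2 : mulHeight₁ t ^ n ≤ mulHeight x := by
        have h3 := ratio_height x 0 1
        have h4 : x 0 / x 1 = -(t ^ n) := by
          change -t ^ n / 1 = -(t ^ n)
          ring
        rw [h4, mulHeight₁_neg, mulHeight₁_pow] at h3
        exact h3
      unfold ht
      rw [le_div_iff₀ hd0, logHeight_eq_log_mulHeight]
      calc n * L * d = Real.log (mulHeight₁ t ^ n) := by
            rw [Real.log_pow]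
            simp only [L]
            field_simp
        _ ≤ Real.log (mulHeight x) := Real.log_le_log (pow_pos (mulHeight₁_pos t) n) h2
    -- upper bound for the radical
    have hgne : (∑ i ∈ Finset.range n, t ^ i) ≠ 0 := by
      intro h0
      apply htn1
      rw [← geom_sum_mul, h0, zero_mul]
    let tu : Kˣ := Units.mk0 t ht0
    let g : Kˣ := Units.mk0 _ hgne
    have hbf := bad_fin (t ^ n) (pow_ne_zero _ ht0) htn1
    have hbf' := bad_fin t ht0 ht1
    let W : Finset (HeightOneSpectrum (𝓞 K)) := (sF g).filter (fun v => vl v g < 0)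
    have hsub : hbf.toFinset ⊆ hbf'.toFinset ∪ W := by
      intro v hv
      rw [Set.Finite.mem_toFinset] at hv
      rw [Finset.mem_union, Set.Finite.mem_toFinset, Finset.mem_filter]
      rcases bad_pow n tu g rfl v hv with h2 | h2
      · exact Or.inl h2
      · exact Or.inr ⟨(mem_sF _ _).2 h2.ne, h2⟩
    have hNS : NS K hbf.toFinset ≤ NS K hbf'.toFinset * (C1 * mulHeight₁ t ^ (n - 1)) := by
      refine (NS_mono hsub).trans ((NS_union_le _ _).trans ?_)
      apply mul_le_mul_of_nonneg_left _ (by linarith [one_le_NS hbf'.toFinset])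
      refine (NS_neg_le g W (fun v hv => (Finset.mem_filter.1 hv).2)).trans ?_
      exact hg1 t
    have hradx : rad x ≤ rad p.rep + c1 + (n - 1) * L := by
      have h2 := rad_eq_log hbf
      have h3 := rad_eq_log hbf'
      have h4 : Real.log (NS K hbf.toFinset) ≤
          Real.log (NS K hbf'.toFinset) + (Real.log C1 + (n - 1 : ℕ) * Real.log (mulHeight₁ t)) := by
        calc Real.log (NS K hbf.toFinset)
            ≤ Real.log (NS K hbf'.toFinset * (C1 * mulHeight₁ t ^ (n - 1))) :=
              Real.log_le_log (by linarith [one_le_NS hbf.toFinset]) hNS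
          _ = _ := by
              rw [Real.log_mul (by linarith [one_le_NS hbf'.toFinset]) (by
                have := mulHeight₁_pos t
                positivity), Real.log_mul hC1.ne' (by
                have := mulHeight₁_pos t
                positivity), Real.log_pow]
      rw [← h2, ← h3, ← hrad] at h4
      have h5 : ((n - 1 : ℕ) : ℝ) = n - 1 := by
        push_cast [Nat.cast_sub hn]
        ring
      rw [h5] at h4
      have h6 : (Module.finrank ℚ K : ℝ) * rad x ≤ d * (rad p.rep + c1 + (n - 1) * L) := by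
        refine h4.trans ?_
        have h7 : d * (rad p.rep + c1 + (n - 1) * L) =
            d * rad p.rep + |Real.log C1| + (n - 1) * Real.log (mulHeight₁ t) := by
          simp only [c1, L]
          field_simp
        rw [h7]
        have := le_abs_self (Real.log C1)
        linarith
      exact le_of_mul_le_mul_left h6 hd0
    -- conclusion
    have h2 : n * L < (1 + η) * (rad p.rep + c1 + (n - 1) * L) + C' := by
      have : (1 + η) * rad x ≤ (1 + η) * (rad p.rep + c1 + (n - 1) * L) :=
        mul_le_mul_of_nonneg_left hradx (by linarith)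
      linarith
    have h3 : L * (1 - η * (n - 1)) < (1 + η) * rad p.rep + C'' := by
      have := le_abs_self C'
      simp only [C'']
      nlinarith
    have h4 : L < (1 + ε) * rad p.rep + C'' * ((1 + ε) / (1 + η)) := by
      have h5 : 0 < (1 + ε) / (1 + η) := by positivity
      have h6 : (1 - η * (n - 1)) * ((1 + ε) / (1 + η)) = 1 := by
        rw [mul_div_assoc', mul_comm (1 - η * ((n : ℝ) - 1)), ← hη1]
        exact div_self (by positivity)
      have h7 := mul_lt_mul_of_pos_right h3 h5
      have h8 : L * (1 - η * (n - 1)) * ((1 + ε) / (1 + η)) = L := by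
        rw [mul_assoc, h6, mul_one]
      rw [h8] at h7
      have h9 : ((1 + η) * rad p.rep + C'') * ((1 + ε) / (1 + η)) =
          (1 + ε) * rad p.rep + C'' * ((1 + ε) / (1 + η)) := by
        field_simp
      rw [h9] at h7
      exact h7
    linarith

/-- the points of `powSet K n` are sparse -/
theorem powSet_count : ∃ A : ℝ, 0 < A ∧ ∀ n : ℕ, 1 ≤ n → ∃ C : ℝ, 0 < C ∧ ∀ T : ℝ, 0 ≤ T →
    {p : Projectivization K (Fin 3 → K) | p ∈ powSet K n ∧ ht p.rep ≤ T}.Finite ∧
    ({p : Projectivization K (Fin 3 → K) | p ∈ powSet K n ∧ ht p.rep ≤ T}.ncard : ℝ) ≤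
      C * Real.exp (A / n * T) := by
  obtain ⟨κ, C, hC, h⟩ := poly_count K
  have hd0 : (0 : ℝ) < Module.finrank ℚ K := finrank_pos'
  refine ⟨(κ + 1) * Module.finrank ℚ K, by positivity, fun n hn => ⟨C, hC, fun T hT => ?_⟩⟩
  have hn0 : (0 : ℝ) < n := by exact_mod_cast hn
  have hfin : {p : Projectivization K (Fin 3 → K) | p ∈ powSet K n ∧ ht p.rep ≤ T}.Finite :=
    (points_finite T).subset fun p hp => ⟨hp.1.1, hp.2⟩
  refine ⟨hfin, ?_⟩
  let B : ℝ := Real.exp (Module.finrank ℚ K * T / n)
  have hB : 1 ≤ B := Real.one_le_exp (by positivity)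
  let E := {p : Projectivization K (Fin 3 → K) | p ∈ powSet K n ∧ ht p.rep ≤ T}
  have hex : ∀ p : E, ∃ t : {w : K // mulHeight₁ w ≤ B}, p.1.rep 0 = -(t.1 ^ n * p.1.rep 1) := by
    rintro ⟨p, ⟨hp, t, ht'⟩, hpT⟩
    refine ⟨⟨t, ?_⟩, ht'⟩
    have h1 : p.rep 0 / p.rep 1 = -(t ^ n) := by
      rw [ht', neg_div, mul_div_cancel_right₀ _ (hp.ne 1)]
    have h2 := ratio_height p.rep 0 1
    rw [h1, mulHeight₁_neg, mulHeight₁_pow, mulHeight_eq_exp] at h2
    have h3 : mulHeight₁ t ^ n ≤ B ^ n := by
      refine h2.trans ?_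
      simp only [B]
      rw [← Real.exp_nat_mul]
      apply Real.exp_le_exp.2
      have h4 : (n : ℝ) * (Module.finrank ℚ K * T / n) = Module.finrank ℚ K * T := by field_simp
      rw [h4]
      exact mul_le_mul_of_nonneg_left hpT hd0.le
    exact le_of_pow_le_pow_left₀ (by omega) (by positivity) h3
  choose f hf using hex
  have hinj : Function.Injective f := by
    intro p q hpq
    apply Subtype.ext
    have h1 := hf p
    have h2 := hf q
    rw [hpq] at h1
    have hpa := p.2.1.1
    have hqa := q.2.1.1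
    refine ratio_inj hpa hqa 0 1 2 (by decide) hpa.1 hqa.1 ?_
    rw [h1, h2, neg_div, neg_div, mul_div_cancel_right₀ _ (hpa.ne 1),
      mul_div_cancel_right₀ _ (hqa.ne 1)]
  have hBf : Finite {w : K // mulHeight₁ w ≤ B} := (finite_setOfPred_mulHeight₁_le K B).to_subtype
  have h1 : (E.ncard : ℝ) ≤ (Nat.card {w : K // mulHeight₁ w ≤ B} : ℝ) := by
    have := Nat.card_le_card_of_injective f hinj
    exact_mod_cast this
  refine h1.trans ((h B hB).trans ?_)
  apply mul_le_mul_of_nonneg_left _ hC.le
  simp only [B]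
  rw [← Real.exp_nat_mul]
  apply Real.exp_le_exp.2
  have h5 : (κ : ℝ) * (Module.finrank ℚ K * T / n) = (κ * Module.finrank ℚ K) / n * T := by
    field_simp
  rw [h5]
  apply mul_le_mul_of_nonneg_right _ hT
  apply div_le_div_of_nonneg_right _ hn0.le
  nlinarith

end H645.ABC
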