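import Mathlib

set_option autoImplicit false

open NumberField Height IsDedekindDomain Filter Topology

namespace H645.ABC

variable (K : Type) [Field K] [NumberField K]

/-- norm of a finite set of primes -/
noncomputable def NS (S : Finset (HeightOneSpectrum (𝓞 K))) : ℝ := ∏ v ∈ S, (Ideal.absNorm v.asIdeal : ℝ)

variable {K}

theorem one_lt_absNorm (v : HeightOneSpectrum (𝓞 K)) : 1 < Ideal.absNorm v.asIdeal := by
  have h0 : Ideal.absNorm v.asIdeal ≠ 0 := by
    rw [Ne, Ideal.absNorm_eq_zero_iff]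
    exact v.ne_bot
  have h1 : Ideal.absNorm v.asIdeal ≠ 1 := by
    rw [Ne, Ideal.absNorm_eq_one_iff]
    exact v.isPrime.ne_top
  omega

theorem one_le_absNorm_real (v : HeightOneSpectrum (𝓞 K)) : (1 : ℝ) ≤ Ideal.absNorm v.asIdeal := by
  exact_mod_cast (one_lt_absNorm v).le

theorem one_le_NS (S : Finset (HeightOneSpectrum (𝓞 K))) : 1 ≤ NS K S :=
  Finset.prod_induction _ (fun x : ℝ => 1 ≤ x)
    (fun _ _ hx hy => one_le_mul_of_one_le_of_one_le hx hy) le_rfl (fun v _ => one_le_absNorm_real v)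

theorem NS_mono {S T : Finset (HeightOneSpectrum (𝓞 K))} (h : S ⊆ T) : NS K S ≤ NS K T := by
  classical
  unfold NS
  rw [← Finset.prod_sdiff h]
  have h1 : (1 : ℝ) ≤ ∏ v ∈ T \ S, (Ideal.absNorm v.asIdeal : ℝ) := one_le_NS (T \ S)
  have h2 : (1 : ℝ) ≤ ∏ v ∈ S, (Ideal.absNorm v.asIdeal : ℝ) := one_le_NS S
  nlinarith

/-- the ideal attached to a finite set of primes -/
noncomputable def idl (S : Finset (HeightOneSpectrum (𝓞 K))) : Ideal (𝓞 K) := ∏ v ∈ S, v.asIdeal

theorem idl_inj : Function.Injective (idl (K := K)) := by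
  intro S T h
  have key : ∀ (S : Finset (HeightOneSpectrum (𝓞 K))) (v : HeightOneSpectrum (𝓞 K)),
      v ∈ S ↔ v.asIdeal ∣ idl S := by
    intro S v
    constructor
    · intro hv
      exact Finset.dvd_prod_of_mem _ hv
    · intro hv
      obtain ⟨w, hw, hvw⟩ := (Prime.dvd_finsetProd_iff (v.prime) _).1 hv
      have h1 : v.asIdeal = w.asIdeal := by
        have h2 : w.asIdeal ≤ v.asIdeal := Ideal.dvd_iff_le.1 hvw
        exact (w.isMaximal.eq_of_le v.isPrime.ne_top h2).symm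
      have : v = w := HeightOneSpectrum.ext h1
      rw [this]
      exact hw
  ext v
  rw [key S, key T, h]

theorem absNorm_idl (S : Finset (HeightOneSpectrum (𝓞 K))) :
    ((Ideal.absNorm (idl S) : ℕ) : ℝ) = NS K S := by
  unfold idl NS
  rw [map_prod]
  push_cast
  rfl

variable (K)

/-- the number of ideals of bounded norm -/
theorem ideal_count : ∃ C : ℝ, 0 < C ∧ ∀ s : ℝ, 1 ≤ s →
    (Nat.card {I : Ideal (𝓞 K) // (Ideal.absNorm I : ℝ) ≤ s} : ℝ) ≤ C * s := by
  have h := NumberField.Ideal.tendsto_norm_le_div_atTop K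
  set κ := ((2 ^ InfinitePlace.nrRealPlaces K * (2 * Real.pi) ^ InfinitePlace.nrComplexPlaces K *
    Units.regulator K * classNumber K) / (Units.torsionOrder K * Real.sqrt |discr K|)) with hκ
  have h1 : ∀ᶠ s : ℝ in atTop,
      (Nat.card {I : Ideal (𝓞 K) // (Ideal.absNorm I : ℝ) ≤ s} : ℝ) / s < κ + 1 :=
    h.eventually (gt_mem_nhds (lt_add_one κ))
  obtain ⟨s0, hs0⟩ := eventually_atTop.1 h1
  have hfin : ∀ s : ℝ, Finite {I : Ideal (𝓞 K) // (Ideal.absNorm I : ℝ) ≤ s} := by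
    intro s
    have := Ideal.finite_setOfPred_absNorm_le (S := 𝓞 K) ⌊s⌋₊
    refine (this.subset ?_).to_subtype
    intro I hI
    exact Nat.le_floor hI
  let s1 := max s0 1
  let D : ℝ := Nat.card {I : Ideal (𝓞 K) // (Ideal.absNorm I : ℝ) ≤ s1}
  refine ⟨max (κ + 1) 0 + D + 1, ?_, fun s hs => ?_⟩
  · have : 0 ≤ D := Nat.cast_nonneg _
    have h2 := le_max_right (κ + 1) 0
    linarith
  · have hD : 0 ≤ D := Nat.cast_nonneg _
    rcases le_total s1 s with h2 | h2
    · have h3 := hs0 s ((le_max_left _ _).trans h2)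
      have hspos : 0 < s := by linarith
      rw [div_lt_iff₀ hspos] at h3
      have h4 := le_max_left (κ + 1) 0
      nlinarith
    · have h3 : (Nat.card {I : Ideal (𝓞 K) // (Ideal.absNorm I : ℝ) ≤ s} : ℝ) ≤ D := by
        have := hfin s1
        apply Nat.cast_le.2
        exact Nat.card_le_card_of_injective
          (fun I : {I : Ideal (𝓞 K) // (Ideal.absNorm I : ℝ) ≤ s} =>
            (⟨I.1, I.2.trans h2⟩ : {I : Ideal (𝓞 K) // (Ideal.absNorm I : ℝ) ≤ s1}))
          (fun a b hab => Subtype.ext (congrArg (fun x => x.1) hab))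
      have h4 := le_max_right (κ + 1) 0
      nlinarith

/-- the number of sets of primes of bounded norm -/
theorem sets_count : ∃ C : ℝ, 0 < C ∧ ∀ s : ℝ, 1 ≤ s →
    Finite {S : Finset (HeightOneSpectrum (𝓞 K)) // NS K S ≤ s} ∧
    (Nat.card {S : Finset (HeightOneSpectrum (𝓞 K)) // NS K S ≤ s} : ℝ) ≤ C * s := by
  obtain ⟨C, hC, hCs⟩ := ideal_count K
  refine ⟨C, hC, fun s hs => ?_⟩
  have hfin : Finite {I : Ideal (𝓞 K) // (Ideal.absNorm I : ℝ) ≤ s} := by
    have := Ideal.finite_setOfPred_absNorm_le (S := 𝓞 K) ⌊s⌋₊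
    refine (this.subset ?_).to_subtype
    intro I hI
    exact Nat.le_floor hI
  let f : {S : Finset (HeightOneSpectrum (𝓞 K)) // NS K S ≤ s} →
      {I : Ideal (𝓞 K) // (Ideal.absNorm I : ℝ) ≤ s} := fun S => ⟨idl S.1, by
        rw [absNorm_idl]
        exact S.2⟩
  have hf : Function.Injective f := by
    intro S T hST
    apply Subtype.ext
    apply idl_inj
    exact congrArg Subtype.val hST
  refine ⟨Finite.of_injective f hf, ?_⟩
  refine le_trans ?_ (hCs s hs)
  exact_mod_cast Nat.card_le_card_of_injective f hf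

/-- `m ^ |S|` is small compared with the norm of `S` -/
theorem pow_card_le (m : ℕ) (hm : 1 ≤ m) (δ : ℝ) (hδ : 0 < δ) : ∃ C : ℝ, 0 < C ∧
    ∀ S : Finset (HeightOneSpectrum (𝓞 K)), (m : ℝ) ^ S.card ≤ C * (NS K S) ^ δ := by
  classical
  have hfin : {v : HeightOneSpectrum (𝓞 K) | (Ideal.absNorm v.asIdeal : ℝ) ^ δ < m}.Finite := by
    have h1 := Ideal.finite_setOfPred_absNorm_le (S := 𝓞 K) ⌊(m : ℝ) ^ (1 / δ)⌋₊
    have h2 : Set.InjOn (fun v : HeightOneSpectrum (𝓞 K) => v.asIdeal)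
        {v : HeightOneSpectrum (𝓞 K) | (Ideal.absNorm v.asIdeal : ℝ) ^ δ < m} := by
      intro v _ w _ hvw
      exact HeightOneSpectrum.ext hvw
    refine Set.Finite.of_finite_image (h1.subset ?_) h2
    rintro _ ⟨v, hv, rfl⟩
    apply Nat.le_floor
    have hv' : (Ideal.absNorm v.asIdeal : ℝ) ^ δ < m := hv
    have h3 : (0 : ℝ) ≤ Ideal.absNorm v.asIdeal := Nat.cast_nonneg _
    calc (Ideal.absNorm v.asIdeal : ℝ) = ((Ideal.absNorm v.asIdeal : ℝ) ^ δ) ^ (1 / δ) := by
          rw [← Real.rpow_mul h3, mul_one_div_cancel hδ.ne', Real.rpow_one]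
      _ ≤ (m : ℝ) ^ (1 / δ) := Real.rpow_le_rpow (by positivity) hv'.le (by positivity)
  let F : Finset (HeightOneSpectrum (𝓞 K)) := hfin.toFinset
  have hm' : (1 : ℝ) ≤ m := by exact_mod_cast hm
  refine ⟨(m : ℝ) ^ F.card, by positivity, fun S => ?_⟩
  have h1 : (m : ℝ) ^ S.card = ∏ v ∈ S, (m : ℝ) := by rw [Finset.prod_const]
  have h2 : (NS K S) ^ δ = ∏ v ∈ S, (Ideal.absNorm v.asIdeal : ℝ) ^ δ := by
    unfold NS
    rw [Real.finsetProd_rpow]
    intro v _
    exact Nat.cast_nonneg _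
  have h3 : (∏ v ∈ S, (m : ℝ)) ≤ ∏ v ∈ S, ((if v ∈ F then (m : ℝ) else 1) *
      (Ideal.absNorm v.asIdeal : ℝ) ^ δ) := by
    apply Finset.prod_le_prod
    · intro v _
      positivity
    · intro v _
      have h4 : (1 : ℝ) ≤ (Ideal.absNorm v.asIdeal : ℝ) ^ δ :=
        Real.one_le_rpow (one_le_absNorm_real v) hδ.le
      split_ifs with h5
      · nlinarith
      · have h6 : ¬ ((Ideal.absNorm v.asIdeal : ℝ) ^ δ < m) := fun h => h5 (hfin.mem_toFinset.2 h)
        rw [one_mul]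
        exact not_lt.1 h6
  rw [h1, h2]
  refine h3.trans ?_
  rw [Finset.prod_mul_distrib]
  apply mul_le_mul_of_nonneg_right
  · rw [← Finset.prod_filter, Finset.prod_const]
    apply pow_le_pow_right₀ hm'
    apply Finset.card_le_card
    intro v hv
    exact (Finset.mem_filter.1 hv).2
  · exact Finset.prod_nonneg fun v _ => by positivity

end H645.ABC
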