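import Mathlib

set_option autoImplicit false

open NumberField Height IsDedekindDomain Filter Topology nonZeroDivisors

namespace H645.ABC

variable {K : Type} [Field K] [NumberField K]

/-- the additive valuation (with sign: `-ord`) -/
noncomputable def vl (v : HeightOneSpectrum (𝓞 K)) (y : Kˣ) : ℤ :=
  Multiplicative.toAdd (v.valuationOfNeZero y)

theorem vl_mul (v : HeightOneSpectrum (𝓞 K)) (y z : Kˣ) : vl v (y * z) = vl v y + vl v z := by
  unfold vl
  rw [map_mul, toAdd_mul]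

theorem vl_pow (v : HeightOneSpectrum (𝓞 K)) (y : Kˣ) (n : ℕ) : vl v (y ^ n) = n * vl v y := by
  unfold vl
  rw [map_pow, toAdd_pow, nsmul_eq_mul]

theorem vl_inv (v : HeightOneSpectrum (𝓞 K)) (y : Kˣ) : vl v y⁻¹ = - vl v y := by
  unfold vl
  rw [map_inv, toAdd_inv]

theorem vl_div (v : HeightOneSpectrum (𝓞 K)) (y z : Kˣ) : vl v (y / z) = vl v y - vl v z := by
  rw [div_eq_mul_inv, vl_mul, vl_inv]
  ring

theorem int_pow (m : ℕ) (r : 𝓞 K) (hr : r ≠ 0) (y : Kˣ) (hy : (y : K) = algebraMap (𝓞 K) K r)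
    (h : ∀ v : HeightOneSpectrum (𝓞 K), (m : ℤ) ∣ vl v y) :
    ∃ I : Ideal (𝓞 K), Ideal.span {r} = I ^ m := by
  classical
  have hspan : Ideal.span {r} ≠ (⊥ : Ideal (𝓞 K)) := by
    rw [Ne, Ideal.span_singleton_eq_bot]
    exact hr
  obtain ⟨b, hb⟩ := Associates.is_pow_of_dvd_count (a := Associates.mk (Ideal.span {r}))
    (by rw [Associates.mk_ne_zero]; exact hspan) (k := m) (by
      intro p hp
      obtain ⟨P, rfl⟩ := Associates.mk_surjective p
      rw [Associates.irreducible_mk] at hp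
      have hPp : Prime P := hp.prime
      have hP0 : P ≠ ⊥ := hPp.ne_zero
      let v : HeightOneSpectrum (𝓞 K) := ⟨P, Ideal.isPrime_of_prime hPp, hP0⟩
      have h1 := h v
      have h2 : ((v.valuationOfNeZero y : Multiplicative ℤ) : WithZero (Multiplicative ℤ)) =
          WithZero.exp (-((Associates.mk v.asIdeal).count (Associates.mk (Ideal.span {r})).factors : ℤ)) := by
        rw [HeightOneSpectrum.valuationOfNeZero_eq, hy, HeightOneSpectrum.valuation_of_algebraMap,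
          HeightOneSpectrum.intValuation_if_neg _ hr]
      have h3 : vl v y = -((Associates.mk v.asIdeal).count (Associates.mk (Ideal.span {r})).factors : ℤ) := by
        unfold vl
        have h4 : v.valuationOfNeZero y = Multiplicative.ofAdd
          (-((Associates.mk v.asIdeal).count (Associates.mk (Ideal.span {r})).factors : ℤ)) := by
          rw [← WithZero.coe_inj]
          exact h2
        rw [h4, toAdd_ofAdd]
      rw [h3, dvd_neg] at h1
      exact Int.natCast_dvd_natCast.1 h1)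
  obtain ⟨I, rfl⟩ := Associates.mk_surjective b
  refine ⟨I, ?_⟩
  rw [← Associates.mk_pow, Associates.mk_eq_mk_iff_associated, associated_iff_eq] at hb
  exact hb

/-- units modulo `m`-th powers -/
theorem unit_color (m : ℕ) (hm : 0 < m) : ∃ (ι : Type) (_ : Finite ι) (c : (𝓞 K)ˣ → ι),
    ∀ u u', c u = c u' → ∃ w : (𝓞 K)ˣ, u = u' * w ^ m := by
  have hne : NeZero m := ⟨hm.ne'⟩
  choose f hf _ using Units.exist_unique_eq_mul_prod K
  refine ⟨Units.torsion K × (Fin (Units.rank K) → ZMod m), inferInstance,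
    fun u => ((f u).1, fun i => ((f u).2 i : ZMod m)), ?_⟩
  intro u u' h
  beta_reduce at h
  rw [Prod.mk.injEq] at h
  obtain ⟨h1, h2'⟩ := h
  have h2 : ∀ i, ((f u).2 i : ZMod m) = ((f u').2 i : ZMod m) := fun i => congrFun h2' i
  have h3 : ∀ i, ∃ k : ℤ, (f u).2 i = (f u').2 i + m * k := by
    intro i
    have := (ZMod.intCast_eq_intCast_iff_dvd_sub _ _ m).1 (h2 i).symm
    obtain ⟨k, hk⟩ := this
    exact ⟨k, by linarith⟩
  choose k hk using h3
  refine ⟨∏ i, Units.fundSystem K i ^ k i, ?_⟩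
  rw [hf u, hf u', h1, mul_assoc, ← Finset.prod_pow, ← Finset.prod_mul_distrib]
  congr 1
  apply Finset.prod_congr rfl
  intro i _
  rw [hk i, zpow_add, zpow_mul, zpow_natCast, ← zpow_natCast (_ ^ k i) m, ← zpow_mul, mul_comm (k i),
    zpow_mul, zpow_natCast]

/-- finiteness of the group of elements with all valuations divisible by `m`, modulo `m`-th powers -/
theorem selmer (m : ℕ) (hm : 0 < m) : ∃ (ι : Type) (_ : Finite ι) (c : Kˣ → ι),
    ∀ z z' : Kˣ, (∀ v : HeightOneSpectrum (𝓞 K), (m : ℤ) ∣ vl v z) →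
      (∀ v : HeightOneSpectrum (𝓞 K), (m : ℤ) ∣ vl v z') → c z = c z' → ∃ w : Kˣ, z = z' * w ^ m := by
  classical
  obtain ⟨ι, hι, c, hc⟩ := unit_color (K := K) m hm
  -- integral representatives
  have hrep : ∀ z : Kˣ, ∃ (a d : 𝓞 K), a ≠ 0 ∧ d ≠ 0 ∧
      (z : K) * (algebraMap (𝓞 K) K d) ^ m = algebraMap (𝓞 K) K a := by
    intro z
    obtain ⟨n, d, hd, hnd⟩ := IsFractionRing.div_surjective (A := 𝓞 K) (z : K)
    have hd0 : d ≠ 0 := nonZeroDivisors.ne_zero hd
    have hdK : algebraMap (𝓞 K) K d ≠ 0 := by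
      rw [Ne, FaithfulSMul.algebraMap_eq_zero_iff]
      exact hd0
    have hn0 : n ≠ 0 := by
      rintro rfl
      rw [map_zero, zero_div] at hnd
      exact z.ne_zero hnd.symm
    refine ⟨n * d ^ (m - 1), d, mul_ne_zero hn0 (pow_ne_zero _ hd0), hd0, ?_⟩
    rw [← hnd, map_mul, map_pow]
    have : (algebraMap (𝓞 K) K d) ^ m = (algebraMap (𝓞 K) K d) ^ (m - 1) * algebraMap (𝓞 K) K d := by
      rw [← pow_succ]
      congr 1
      omega
    rw [this]
    field_simp
  choose a d ha hd had using hrep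
  have hideal : ∀ z : Kˣ, ∃ I : (Ideal (𝓞 K))⁰, (∀ v : HeightOneSpectrum (𝓞 K), (m : ℤ) ∣ vl v z) →
      Ideal.span {a z} = (I : Ideal (𝓞 K)) ^ m := by
    intro z
    by_cases hz : ∀ v : HeightOneSpectrum (𝓞 K), (m : ℤ) ∣ vl v z
    · have hdK : algebraMap (𝓞 K) K (d z) ≠ 0 := by
        rw [Ne, FaithfulSMul.algebraMap_eq_zero_iff]
        exact hd z
      obtain ⟨I, hI⟩ := int_pow m (a z) (ha z) (z * (Units.mk0 _ hdK) ^ m) (by
        rw [← had z]
        simp) (by
        intro v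
        rw [vl_mul, vl_pow]
        exact (hz v).add (Dvd.intro _ rfl))
      have hI0 : I ≠ ⊥ := by
        rintro rfl
        rw [← Ideal.zero_eq_bot, zero_pow hm.ne', Ideal.zero_eq_bot, Ideal.span_singleton_eq_bot] at hI
        exact ha z hI
      exact ⟨⟨I, mem_nonZeroDivisors_iff_ne_zero.2 hI0⟩, fun _ => hI⟩
    · exact ⟨1, fun h => absurd h hz⟩
  choose I hI using hideal
  -- representatives for the ideal classes
  let rp : ClassGroup (𝓞 K) → Kˣ := fun C =>
    if h : ∃ z : Kˣ, (∀ v : HeightOneSpectrum (𝓞 K), (m : ℤ) ∣ vl v z) ∧ ClassGroup.mk0 (I z) = C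
    then h.choose else 1
  have hrp : ∀ z : Kˣ, (∀ v : HeightOneSpectrum (𝓞 K), (m : ℤ) ∣ vl v z) →
      (∀ v : HeightOneSpectrum (𝓞 K), (m : ℤ) ∣ vl v (rp (ClassGroup.mk0 (I z)))) ∧
      ClassGroup.mk0 (I (rp (ClassGroup.mk0 (I z)))) = ClassGroup.mk0 (I z) := by
    intro z hz
    have h : ∃ z' : Kˣ, (∀ v : HeightOneSpectrum (𝓞 K), (m : ℤ) ∣ vl v z') ∧
      ClassGroup.mk0 (I z') = ClassGroup.mk0 (I z) := ⟨z, hz, rfl⟩
    have : rp (ClassGroup.mk0 (I z)) = h.choose := dif_pos h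
    rw [this]
    exact h.choose_spec
  -- the unit
  have hunit : ∀ z : Kˣ, ∃ u : (𝓞 K)ˣ, (∀ v : HeightOneSpectrum (𝓞 K), (m : ℤ) ∣ vl v z) →
      ∃ w : Kˣ, (z : K) = algebraMap (𝓞 K) K u * (rp (ClassGroup.mk0 (I z)) : K) * (w : K) ^ m := by
    intro z
    by_cases hz : ∀ v : HeightOneSpectrum (𝓞 K), (m : ℤ) ∣ vl v z
    · obtain ⟨h1, h2⟩ := hrp z hz
      set z' := rp (ClassGroup.mk0 (I z)) with hz'
      obtain ⟨x, y, hx, hy, hxy⟩ := ClassGroup.mk0_eq_mk0_iff.1 h2
      have h3 : Ideal.span {x ^ m * a z'} = Ideal.span {y ^ m * a z} := by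
        rw [← Ideal.span_singleton_mul_span_singleton, ← Ideal.span_singleton_mul_span_singleton,
          hI z' h1, hI z hz, ← Ideal.span_singleton_pow, ← Ideal.span_singleton_pow, ← mul_pow,
          ← mul_pow, hxy]
      rw [Ideal.span_singleton_eq_span_singleton] at h3
      obtain ⟨u, hu⟩ := h3
      have hxK : algebraMap (𝓞 K) K x ≠ 0 := by
        rw [Ne, FaithfulSMul.algebraMap_eq_zero_iff]; exact hx
      have hyK : algebraMap (𝓞 K) K y ≠ 0 := by
        rw [Ne, FaithfulSMul.algebraMap_eq_zero_iff]; exact hy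
      have hdK : algebraMap (𝓞 K) K (d z) ≠ 0 := by
        rw [Ne, FaithfulSMul.algebraMap_eq_zero_iff]; exact hd z
      have hdK' : algebraMap (𝓞 K) K (d z') ≠ 0 := by
        rw [Ne, FaithfulSMul.algebraMap_eq_zero_iff]; exact hd z'
      refine ⟨u, fun _ => ⟨Units.mk0 (algebraMap (𝓞 K) K x * algebraMap (𝓞 K) K (d z') /
        (algebraMap (𝓞 K) K y * algebraMap (𝓞 K) K (d z)))
        (div_ne_zero (mul_ne_zero hxK hdK') (mul_ne_zero hyK hdK)), ?_⟩⟩
      have h4 := congrArg (algebraMap (𝓞 K) K) hu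
      rw [map_mul, map_mul, map_mul, map_pow, map_pow, ← had z, ← had z'] at h4
      rw [Units.val_mk0, div_pow, mul_pow, mul_pow]
      have h5 : (algebraMap (𝓞 K) K y ^ m * algebraMap (𝓞 K) K (d z) ^ m) ≠ 0 :=
        mul_ne_zero (pow_ne_zero _ hyK) (pow_ne_zero _ hdK)
      rw [eq_comm, mul_div_assoc', div_eq_iff h5]
      linear_combination h4
    · exact ⟨1, fun h => absurd h hz⟩
  choose u hu using hunit
  refine ⟨ClassGroup (𝓞 K) × ι, inferInstance, fun z => (ClassGroup.mk0 (I z), c (u z)), ?_⟩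
  intro z z' hz hz' hcc
  have h1 : ClassGroup.mk0 (I z) = ClassGroup.mk0 (I z') := congrArg Prod.fst hcc
  have h2 : c (u z) = c (u z') := congrArg Prod.snd hcc
  obtain ⟨t, ht⟩ := hc _ _ h2
  obtain ⟨w, hw⟩ := hu z hz
  obtain ⟨w', hw'⟩ := hu z' hz'
  refine ⟨Units.map (algebraMap (𝓞 K) K : 𝓞 K →* K) t * w * w'⁻¹, ?_⟩
  apply Units.ext
  have hw0 : (w' : K) ≠ 0 := w'.ne_zero
  simp only [Units.val_mul, Units.val_pow_eq_pow_val, Units.coe_map, MonoidHom.coe_coe,
    Units.val_inv_eq_inv_val, mul_pow, inv_pow]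
  rw [hw, hw', h1, ht]
  simp only [Units.val_mul, Units.val_pow_eq_pow_val, map_mul, map_pow]
  field_simp

end H645.ABC
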