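import Pool.Agent.H645R3.ABC1
import Pool.Agent.H645R3.ABC2
import Pool.Agent.H645R3.ABC3

set_option autoImplicit false

open NumberField Height IsDedekindDomain Filter Topology nonZeroDivisors

namespace H645.ABC

variable {K : Type} [Field K] [NumberField K]

theorem vl_int (v : HeightOneSpectrum (𝓞 K)) (r : 𝓞 K) (_hr : r ≠ 0) (y : Kˣ)
    (hy : (y : K) = algebraMap (𝓞 K) K r) (h : ¬ v.asIdeal ∣ Ideal.span {r}) : vl v y = 0 := by
  have h1 : v.intValuation r = 1 := by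
    have h2 := v.intValuation_le_one r
    have h3 : ¬ v.intValuation r < 1 := fun h4 => h ((v.intValuation_lt_one_iff_dvd r).1 h4)
    exact le_antisymm h2 (not_lt.1 h3)
  have h2 : ((v.valuationOfNeZero y : Multiplicative ℤ) : WithZero (Multiplicative ℤ)) =
      ((1 : Multiplicative ℤ) : WithZero (Multiplicative ℤ)) := by
    rw [HeightOneSpectrum.valuationOfNeZero_eq, hy, HeightOneSpectrum.valuation_of_algebraMap, h1]
    rfl
  have h4 := WithZero.coe_inj.1 h2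
  unfold vl
  rw [h4, toAdd_one]

theorem supp_finite (y : Kˣ) : {v : HeightOneSpectrum (𝓞 K) | vl v y ≠ 0}.Finite := by
  obtain ⟨n, d, hd, hnd⟩ := IsFractionRing.div_surjective (A := 𝓞 K) (y : K)
  have hd0 : d ≠ 0 := nonZeroDivisors.ne_zero hd
  have hn0 : n ≠ 0 := by
    rintro rfl
    rw [map_zero, zero_div] at hnd
    exact y.ne_zero hnd.symm
  have hdK : algebraMap (𝓞 K) K d ≠ 0 := by
    rw [Ne, FaithfulSMul.algebraMap_eq_zero_iff]; exact hd0
  have hnK : algebraMap (𝓞 K) K n ≠ 0 := by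
    rw [Ne, FaithfulSMul.algebraMap_eq_zero_iff]; exact hn0
  have h1 := Ideal.finite_factors (I := Ideal.span {n}) (by
    rw [Ne, Ideal.zero_eq_bot, Ideal.span_singleton_eq_bot]; exact hn0)
  have h2 := Ideal.finite_factors (I := Ideal.span {d}) (by
    rw [Ne, Ideal.zero_eq_bot, Ideal.span_singleton_eq_bot]; exact hd0)
  refine (h1.union h2).subset ?_
  intro v hv
  by_contra hcon
  rw [Set.mem_union, not_or] at hcon
  apply hv
  have h3 : y = Units.mk0 _ hnK / Units.mk0 _ hdK := by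
    apply Units.ext
    rw [Units.val_div_eq_div_val, Units.val_mk0, Units.val_mk0, hnd]
  rw [h3, vl_div, vl_int v n hn0 _ rfl hcon.1, vl_int v d hd0 _ rfl hcon.2, sub_zero]

/-- support of `y` -/
noncomputable def sF (y : Kˣ) : Finset (HeightOneSpectrum (𝓞 K)) := (supp_finite y).toFinset

theorem mem_sF (y : Kˣ) (v : HeightOneSpectrum (𝓞 K)) : v ∈ sF y ↔ vl v y ≠ 0 :=
  (supp_finite y).mem_toFinset

theorem finite_units (X : ℝ) : Finite {y : Kˣ // mulHeight₁ (y : K) ≤ X} := by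
  have h := finite_setOfPred_mulHeight₁_le K X
  have : Finite {w : K // mulHeight₁ w ≤ X} := h.to_subtype
  refine Finite.of_injective (fun y : {y : Kˣ // mulHeight₁ (y : K) ≤ X} =>
    (⟨(y.1 : K), y.2⟩ : {w : K // mulHeight₁ w ≤ X})) ?_
  intro a b hab
  apply Subtype.ext
  apply Units.ext
  exact congrArg Subtype.val hab

theorem S_count (m : ℕ) (hm : 0 < m) : ∃ N : ℕ, ∀ (S : Finset (HeightOneSpectrum (𝓞 K))) (X : ℝ),
    1 ≤ X → Nat.card {y : Kˣ // sF y ⊆ S ∧ mulHeight₁ (y : K) ≤ X} ≤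
      m ^ S.card * N * Nat.card {w : K // mulHeight₁ w ≤ X ^ (2 / (m : ℝ))} := by
  classical
  have hne : NeZero m := ⟨hm.ne'⟩
  obtain ⟨ι, hι, c, hc⟩ := selmer (K := K) m hm
  refine ⟨Nat.card ι, fun S X hX => ?_⟩
  let Y := {y : Kˣ // sF y ⊆ S ∧ mulHeight₁ (y : K) ≤ X}
  let ρ : Y → (S → ZMod m) := fun y v => (vl v.1 y.1 : ZMod m)
  let r1 : (S → ZMod m) → Kˣ := fun f => if h : ∃ y : Y, ρ y = f then h.choose.1 else 1
  have hr1 : ∀ y : Y, ∃ y' : Y, r1 (ρ y) = y'.1 ∧ ρ y' = ρ y := by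
    intro y
    have h : ∃ y' : Y, ρ y' = ρ y := ⟨y, rfl⟩
    exact ⟨h.choose, dif_pos h, h.choose_spec⟩
  have hz : ∀ (y : Y) (v : HeightOneSpectrum (𝓞 K)), (m : ℤ) ∣ vl v (y.1 / r1 (ρ y)) := by
    intro y v
    obtain ⟨y', hy', hρ⟩ := hr1 y
    rw [hy', vl_div]
    by_cases hv : v ∈ S
    · have h1 := congrFun hρ ⟨v, hv⟩
      exact (ZMod.intCast_eq_intCast_iff_dvd_sub _ _ m).1 h1
    · have h1 : vl v y.1 = 0 := by
        by_contra h
        exact hv (y.2.1 ((mem_sF _ _).2 h))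
      have h2 : vl v y'.1 = 0 := by
        by_contra h
        exact hv (y'.2.1 ((mem_sF _ _).2 h))
      rw [h1, h2, sub_zero]
      exact dvd_zero _
  let γ : Y → ι := fun y => c (y.1 / r1 (ρ y))
  let r2 : (S → ZMod m) × ι → Kˣ := fun f => if h : ∃ y : Y, (ρ y, γ y) = f then h.choose.1 else 1
  have hr2 : ∀ y : Y, ∃ y' : Y, r2 (ρ y, γ y) = y'.1 ∧ ρ y' = ρ y ∧ γ y' = γ y := by
    intro y
    have h : ∃ y' : Y, (ρ y', γ y') = (ρ y, γ y) := ⟨y, rfl⟩
    have h2 := h.choose_spec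
    exact ⟨h.choose, dif_pos h, congrArg Prod.fst h2, congrArg Prod.snd h2⟩
  have hkey : ∀ y : Y, ∃ w : {w : K // mulHeight₁ w ≤ X ^ (2 / (m : ℝ))},
      (y.1 : K) = (r2 (ρ y, γ y) : K) * w.1 ^ m := by
    intro y
    obtain ⟨y', hy', hρ, hγ⟩ := hr2 y
    have h1 : c (y.1 / r1 (ρ y)) = c (y'.1 / r1 (ρ y')) := hγ.symm
    obtain ⟨w, hw⟩ := hc _ _ (hz y) (hz y') h1
    have h2 : y.1 = y'.1 * w ^ m := by
      rw [hρ] at hw
      have : y.1 = (y.1 / r1 (ρ y)) * r1 (ρ y) := by rw [div_mul_cancel]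
      rw [this, hw, mul_right_comm, div_mul_cancel]
    refine ⟨⟨(w : K), ?_⟩, ?_⟩
    · have h3 : ((w : K)) ^ m = (y.1 : K) * ((y'.1 : K))⁻¹ := by
        have h4 := congrArg (Units.val) h2
        rw [Units.val_mul, Units.val_pow_eq_pow_val] at h4
        have h5 : (y'.1 : K) ≠ 0 := y'.1.ne_zero
        rw [h4]
        field_simp
      have h4 : mulHeight₁ (w : K) ^ m ≤ X ^ 2 := by
        rw [← mulHeight₁_pow, h3]
        refine (mulHeight₁_mul_le _ _).trans ?_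
        rw [mulHeight₁_inv, sq]
        exact mul_le_mul y.2.2 y'.2.2 (mulHeight₁_nonneg _) (by linarith)
      have h5 : (0 : ℝ) ≤ mulHeight₁ (w : K) := mulHeight₁_nonneg _
      have hm' : (m : ℝ) ≠ 0 := Nat.cast_ne_zero.2 hm.ne'
      calc mulHeight₁ (w : K) = (mulHeight₁ (w : K) ^ m) ^ (1 / (m : ℝ)) := by
            rw [← Real.rpow_natCast, ← Real.rpow_mul h5, mul_one_div_cancel hm', Real.rpow_one]
        _ ≤ (X ^ 2) ^ (1 / (m : ℝ)) := Real.rpow_le_rpow (by positivity) h4 (by positivity)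
        _ = X ^ (2 / (m : ℝ)) := by
            rw [← Real.rpow_natCast, ← Real.rpow_mul (by linarith)]
            congr 1
            push_cast
            ring
    · rw [hy']
      have h4 := congrArg (Units.val) h2
      rw [Units.val_mul, Units.val_pow_eq_pow_val] at h4
      exact h4
  choose w hw using hkey
  have hfin : Finite {w : K // mulHeight₁ w ≤ X ^ (2 / (m : ℝ))} :=
    (finite_setOfPred_mulHeight₁_le K _).to_subtype
  let Φ : Y → ((S → ZMod m) × ι) × {w : K // mulHeight₁ w ≤ X ^ (2 / (m : ℝ))} :=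
    fun y => ((ρ y, γ y), w y)
  have hΦ : Function.Injective Φ := by
    intro y y' h
    apply Subtype.ext
    apply Units.ext
    rw [hw y, hw y']
    have h1 : (ρ y, γ y) = (ρ y', γ y') := congrArg Prod.fst h
    have h2 : w y = w y' := congrArg Prod.snd h
    rw [h1, h2]
  have h1 := Nat.card_le_card_of_injective Φ hΦ
  refine h1.trans (le_of_eq ?_)
  rw [Nat.card_prod, Nat.card_prod, Nat.card_fun, Nat.card_zmod, Nat.card_eq_fintype_card,
    Fintype.card_coe]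

theorem V_count (δ : ℝ) (hδ : 0 < δ) : ∃ C : ℝ, 0 < C ∧ ∀ X Z : ℝ, 1 ≤ X → 1 ≤ Z →
    (Nat.card {y : Kˣ // mulHeight₁ (y : K) ≤ X ∧ NS K (sF y) ≤ Z} : ℝ) ≤
      C * Z ^ (1 + δ) * X ^ δ := by
  classical
  obtain ⟨κ, C1, hC1, h1⟩ := poly_count K
  obtain ⟨C2, hC2, h2⟩ := sets_count K
  let m : ℕ := ⌈2 * κ / δ⌉₊ + 1
  have hm : 0 < m := Nat.succ_pos _
  have hmδ : 2 * (κ : ℝ) / m ≤ δ := by
    have h3 : 2 * (κ : ℝ) / δ ≤ m := by
      refine (Nat.le_ceil _).trans ?_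
      push_cast [m]
      linarith
    rw [div_le_iff₀ (by positivity)]
    rw [div_le_iff₀ hδ] at h3
    linarith
  obtain ⟨C3, hC3, h3⟩ := pow_card_le K m hm δ hδ
  obtain ⟨N, hN⟩ := S_count (K := K) m hm
  refine ⟨C2 * (C3 * (N + 1) * C1), by positivity, fun X Z hX hZ => ?_⟩
  obtain ⟨hfS, hcS⟩ := h2 Z hZ
  let 𝒮 := {S : Finset (HeightOneSpectrum (𝓞 K)) // NS K S ≤ Z}
  let _ : Fintype 𝒮 := Fintype.ofFinite _
  have hfY : ∀ S : 𝒮, Finite {y : Kˣ // sF y ⊆ S.1 ∧ mulHeight₁ (y : K) ≤ X} := by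
    intro S
    have := finite_units (K := K) X
    exact Finite.of_injective (fun y : {y : Kˣ // sF y ⊆ S.1 ∧ mulHeight₁ (y : K) ≤ X} =>
      (⟨y.1, y.2.2⟩ : {y : Kˣ // mulHeight₁ (y : K) ≤ X})) (by
        intro a b hab
        apply Subtype.ext
        have h6 := congrArg Subtype.val hab
        exact h6)
  let Ψ : {y : Kˣ // mulHeight₁ (y : K) ≤ X ∧ NS K (sF y) ≤ Z} →
      (Σ S : 𝒮, {y : Kˣ // sF y ⊆ S.1 ∧ mulHeight₁ (y : K) ≤ X}) := fun y =>
    ⟨⟨sF y.1, y.2.2⟩, ⟨y.1, Finset.Subset.refl _, y.2.1⟩⟩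
  have hΨ : Function.Injective Ψ := by
    intro a b hab
    apply Subtype.ext
    have : (Ψ a).2.1 = (Ψ b).2.1 := by rw [hab]
    exact this
  have hcard := Nat.card_le_card_of_injective Ψ hΨ
  rw [Nat.card_sigma] at hcard
  have hX' : 1 ≤ X ^ (2 / (m : ℝ)) := Real.one_le_rpow hX (by positivity)
  have hterm : ∀ S : 𝒮, (Nat.card {y : Kˣ // sF y ⊆ S.1 ∧ mulHeight₁ (y : K) ≤ X} : ℝ) ≤
      C3 * (N + 1) * C1 * (Z ^ δ * X ^ δ) := by
    intro S
    have e1 : (Nat.card {y : Kˣ // sF y ⊆ S.1 ∧ mulHeight₁ (y : K) ≤ X} : ℝ) ≤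
        (m : ℝ) ^ S.1.card * N * Nat.card {w : K // mulHeight₁ w ≤ X ^ (2 / (m : ℝ))} := by
      have := hN S.1 X hX
      exact_mod_cast this
    have e2 : (m : ℝ) ^ S.1.card ≤ C3 * Z ^ δ := by
      refine (h3 S.1).trans ?_
      apply mul_le_mul_of_nonneg_left _ hC3.le
      exact Real.rpow_le_rpow (by linarith [one_le_NS S.1]) S.2 hδ.le
    have e3 : (Nat.card {w : K // mulHeight₁ w ≤ X ^ (2 / (m : ℝ))} : ℝ) ≤ C1 * X ^ δ := by
      refine (h1 _ hX').trans ?_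
      apply mul_le_mul_of_nonneg_left _ hC1.le
      rw [← Real.rpow_natCast, ← Real.rpow_mul (by linarith)]
      apply Real.rpow_le_rpow_of_exponent_le hX
      calc 2 / (m : ℝ) * κ = 2 * κ / m := by ring
        _ ≤ δ := hmδ
    calc (Nat.card {y : Kˣ // sF y ⊆ S.1 ∧ mulHeight₁ (y : K) ≤ X} : ℝ)
        ≤ (m : ℝ) ^ S.1.card * N * Nat.card {w : K // mulHeight₁ w ≤ X ^ (2 / (m : ℝ))} := e1
      _ ≤ (C3 * Z ^ δ) * (N + 1) * (C1 * X ^ δ) := by
          apply mul_le_mul _ e3 (by positivity) (by positivity)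
          apply mul_le_mul e2 (by linarith) (by positivity) (by positivity)
      _ = C3 * (N + 1) * C1 * (Z ^ δ * X ^ δ) := by ring
  calc (Nat.card {y : Kˣ // mulHeight₁ (y : K) ≤ X ∧ NS K (sF y) ≤ Z} : ℝ)
      ≤ ((∑ S : 𝒮, Nat.card {y : Kˣ // sF y ⊆ S.1 ∧ mulHeight₁ (y : K) ≤ X} : ℕ) : ℝ) := by
        exact_mod_cast hcard
    _ = ∑ S : 𝒮, (Nat.card {y : Kˣ // sF y ⊆ S.1 ∧ mulHeight₁ (y : K) ≤ X} : ℝ) := by push_cast; rfl
    _ ≤ ∑ _S : 𝒮, C3 * (N + 1) * C1 * (Z ^ δ * X ^ δ) := Finset.sum_le_sum fun S _ => hterm S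
    _ = (Nat.card 𝒮 : ℝ) * (C3 * (N + 1) * C1 * (Z ^ δ * X ^ δ)) := by
        rw [Finset.sum_const, Finset.card_univ, nsmul_eq_mul, Nat.card_eq_fintype_card]
    _ ≤ (C2 * Z) * (C3 * (N + 1) * C1 * (Z ^ δ * X ^ δ)) :=
        mul_le_mul_of_nonneg_right hcS (by positivity)
    _ = C2 * (C3 * (N + 1) * C1) * Z ^ (1 + δ) * X ^ δ := by
        rw [Real.rpow_add (by linarith), Real.rpow_one]
        ring

end H645.ABC
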