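import Pool.Agent.H645R3.ABC4

set_option autoImplicit false

open NumberField Height IsDedekindDomain Filter Topology nonZeroDivisors

namespace H645.ABC

variable {K : Type} [Field K] [NumberField K]

theorem vl_eq_iff (v : HeightOneSpectrum (𝓞 K)) (a b : Kˣ) :
    vl v a = vl v b ↔ v.valuation K (a : K) = v.valuation K (b : K) := by
  rw [← HeightOneSpectrum.valuationOfNeZero_eq, ← HeightOneSpectrum.valuationOfNeZero_eq,
    WithZero.coe_inj]
  exact Multiplicative.toAdd.injective.eq_iff

theorem two_equal (a b c : Kˣ) (h : (a : K) + b + c = 0) (v : HeightOneSpectrum (𝓞 K)) :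
    vl v a = vl v b ∨ vl v b = vl v c ∨ vl v c = vl v a := by
  simp only [vl_eq_iff]
  by_cases hab : v.valuation K (a : K) = v.valuation K (b : K)
  · exact Or.inl hab
  · right
    have hc : (c : K) = -(a + b) := by linear_combination h
    have h1 : v.valuation K (c : K) = max (v.valuation K (a : K)) (v.valuation K (b : K)) := by
      rw [hc, Valuation.map_neg, Valuation.map_add_of_distinct_val _ hab]
    rcases max_choice (v.valuation K (a : K)) (v.valuation K (b : K)) with h2 | h2
    · right
      rw [h1, h2]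
    · left
      rw [h1, h2]

theorem NS_prod_le (a b c : Kˣ) (h : (a : K) + b + c = 0) (I : Finset (HeightOneSpectrum (𝓞 K)))
    (hI : ∀ v, v ∉ I → vl v a = vl v b ∧ vl v b = vl v c) :
    NS K (sF (a / b)) * NS K (sF (b / c)) * NS K (sF (c / a)) ≤ NS K I ^ 2 := by
  classical
  have hsub : ∀ x y : Kˣ, (∀ v, v ∉ I → vl v x = vl v y) → NS K (sF (x / y)) =
      ∏ v ∈ I, if vl v x = vl v y then (1 : ℝ) else (Ideal.absNorm v.asIdeal : ℝ) := by
    intro x y hxy
    unfold NS
    have h1 : sF (x / y) = I.filter (fun v => ¬ vl v x = vl v y) := by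
      ext v
      rw [mem_sF, Finset.mem_filter, vl_div]
      constructor
      · intro h2
        refine ⟨?_, fun h3 => h2 (by rw [h3, sub_self])⟩
        by_contra h3
        exact h2 (by rw [hxy v h3, sub_self])
      · rintro ⟨-, h2⟩ h3
        exact h2 (sub_eq_zero.1 h3)
    rw [h1, Finset.prod_filter]
    apply Finset.prod_congr rfl
    intro v _
    by_cases h2 : vl v x = vl v y
    · rw [if_neg (not_not.2 h2), if_pos h2]
    · rw [if_pos h2, if_neg h2]
  rw [hsub a b (fun v hv => (hI v hv).1), hsub b c (fun v hv => (hI v hv).2),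
    hsub c a (fun v hv => ((hI v hv).1.trans (hI v hv).2).symm), ← Finset.prod_mul_distrib,
    ← Finset.prod_mul_distrib]
  unfold NS
  rw [← Finset.prod_pow]
  apply Finset.prod_le_prod
  · intro v _
    have := one_le_absNorm_real v
    split_ifs <;> positivity
  · intro v _
    have h1 := one_le_absNorm_real v
    rcases two_equal a b c h v with h2 | h2 | h2
    · rw [if_pos h2]
      split_ifs <;> nlinarith
    · rw [if_pos h2]
      split_ifs <;> nlinarith
    · rw [if_pos h2]
      split_ifs <;> nlinarith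

/-- one of the three ratios has small radical -/
theorem exists_small (a b c : Kˣ) (h : (a : K) + b + c = 0) (I : Finset (HeightOneSpectrum (𝓞 K)))
    (hI : ∀ v, v ∉ I → vl v a = vl v b ∧ vl v b = vl v c) (Q : ℝ) (hQ : 0 ≤ Q)
    (hIQ : NS K I ^ 2 ≤ Q ^ 3) :
    NS K (sF (a / b)) ≤ Q ∨ NS K (sF (b / c)) ≤ Q ∨ NS K (sF (c / a)) ≤ Q := by
  by_contra hcon
  push Not at hcon
  obtain ⟨h1, h2, h3⟩ := hcon
  have h4 := NS_prod_le a b c h I hI
  have h5 : Q * Q < NS K (sF (a / b)) * NS K (sF (b / c)) := by
    have := mul_lt_mul'' h1 h2 hQ hQ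
    exact this
  have h6 : Q * Q * Q < NS K (sF (a / b)) * NS K (sF (b / c)) * NS K (sF (c / a)) :=
    mul_lt_mul'' h5 h3 (by positivity) hQ
  nlinarith

/-- heights of ratios -/
theorem ratio_height (P : Fin 3 → K) (i j : Fin 3) : mulHeight₁ (P i / P j) ≤ mulHeight P := by
  rw [mulHeight₁_div_eq_mulHeight]
  have : ![P i, P j] = P ∘ ![i, j] := by
    funext k
    fin_cases k <;> rfl
  rw [this]
  exact mulHeight_comp_le _ _

end H645.ABC
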