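import Mathlib

set_option autoImplicit false

open NumberField IsDedekindDomain

namespace H645.ABC

variable {K : Type} [Field K] [NumberField K]

/-- The height `h(P) = (1/d) ∑_v log max_i ‖x_i‖_v` of a nonzero triple over the number field `K`
of degree `d` (the sum over all places, with the normalised absolute values; `Height.logHeight` is
Mathlib's logarithmic height, normalised relative to `K`). -/
noncomputable def ht (P : Fin 3 → K) : ℝ := Height.logHeight P / Module.finrank ℚ K

/-- The set `I_K(P)` of nonzero primes at which the three valuations are not all equal. -/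
def badPrimes (P : Fin 3 → K) : Set (HeightOneSpectrum (𝓞 K)) :=
  {v | ¬ (v.valuation K (P 0) = v.valuation K (P 1) ∧ v.valuation K (P 1) = v.valuation K (P 2))}

/-- `rad(P) = (1/d) ∑_{𝔭 ∈ I_K(P)} log N(𝔭)`. -/
noncomputable def rad (P : Fin 3 → K) : ℝ :=
  (∑ᶠ v ∈ badPrimes P, Real.log (Ideal.absNorm v.asIdeal)) / Module.finrank ℚ K

/-- A point `(a : b : c)` of the projective plane over `K` with `a + b + c = 0` and `abc ≠ 0`. -/
def IsABC (p : Projectivization K (Fin 3 → K)) : Prop :=
  p.rep 0 + p.rep 1 + p.rep 2 = 0 ∧ p.rep 0 ≠ 0 ∧ p.rep 1 ≠ 0 ∧ p.rep 2 ≠ 0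

end H645.ABC
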