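import Pool.Agent.H645R3.ABC5
import Pool.Agent.H645R3.ABCDef

set_option autoImplicit false

open NumberField Height IsDedekindDomain Filter Topology nonZeroDivisors

namespace H645.ABC

variable {K : Type} [Field K] [NumberField K]

theorem IsABC.ne {p : Projectivization K (Fin 3 → K)} (h : IsABC p) (i : Fin 3) : p.rep i ≠ 0 := by
  fin_cases i
  · exact h.2.1
  · exact h.2.2.1
  · exact h.2.2.2

/-- a point is determined by one ratio -/
theorem ratio_inj {p q : Projectivization K (Fin 3 → K)} (hp : IsABC p) (hq : IsABC q)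
    (i j k : Fin 3) (hall : ∀ l : Fin 3, l = i ∨ l = j ∨ l = k)
    (hsp : p.rep i + p.rep j + p.rep k = 0) (hsq : q.rep i + q.rep j + q.rep k = 0)
    (h : p.rep i / p.rep j = q.rep i / q.rep j) : p = q := by
  rw [← p.mk_rep, ← q.mk_rep, Projectivization.mk_eq_mk_iff']
  refine ⟨p.rep j / q.rep j, ?_⟩
  have h1 := hp.ne j
  have h2 := hq.ne j
  have hj : p.rep j / q.rep j * q.rep j = p.rep j := by field_simp
  have hi : p.rep j / q.rep j * q.rep i = p.rep i := by
    rw [div_eq_div_iff h1 h2] at h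
    field_simp
    linear_combination -h
  funext l
  rw [Pi.smul_apply, smul_eq_mul]
  rcases hall l with rfl | rfl | rfl
  · exact hi
  · exact hj
  · have h3 : q.rep l = -(q.rep i + q.rep j) := by linear_combination hsq
    have h4 : p.rep l = -(p.rep i + p.rep j) := by linear_combination hsp
    rw [h3, h4, mul_neg, mul_add, hi, hj]

theorem bad_finite {p : Projectivization K (Fin 3 → K)} (hp : IsABC p) :
    (badPrimes p.rep).Finite := by
  let a : Kˣ := Units.mk0 _ (hp.ne 0)
  let b : Kˣ := Units.mk0 _ (hp.ne 1)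
  let c : Kˣ := Units.mk0 _ (hp.ne 2)
  refine ((supp_finite (a / b)).union (supp_finite (b / c))).subset ?_
  intro v hv
  by_contra hcon
  rw [Set.mem_union, not_or] at hcon
  apply hv
  have h1 : vl v (a / b) = 0 := by
    by_contra h
    exact hcon.1 h
  have h2 : vl v (b / c) = 0 := by
    by_contra h
    exact hcon.2 h
  rw [vl_div, sub_eq_zero] at h1 h2
  exact ⟨(vl_eq_iff v a b).1 h1, (vl_eq_iff v b c).1 h2⟩

theorem log_NS (S : Finset (HeightOneSpectrum (𝓞 K))) :
    Real.log (NS K S) = ∑ v ∈ S, Real.log (Ideal.absNorm v.asIdeal) := by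
  unfold NS
  rw [Real.log_prod]
  intro v _
  have := one_le_absNorm_real v
  positivity

theorem finrank_pos' : (0 : ℝ) < Module.finrank ℚ K := by
  exact_mod_cast Module.finrank_pos

theorem NS_eq {p : Projectivization K (Fin 3 → K)} (hp : IsABC p) :
    NS K (bad_finite hp).toFinset = Real.exp (Module.finrank ℚ K * rad p.rep) := by
  have h1 : Module.finrank ℚ K * rad p.rep = Real.log (NS K (bad_finite hp).toFinset) := by
    unfold rad
    rw [mul_div_cancel₀ _ finrank_pos'.ne', log_NS, finsum_mem_eq_finite_toFinset_sum]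
  rw [h1, Real.exp_log]
  have := one_le_NS (bad_finite hp).toFinset
  linarith

theorem mulHeight_eq_exp (P : Fin 3 → K) :
    mulHeight P = Real.exp (Module.finrank ℚ K * ht P) := by
  unfold ht
  rw [mul_div_cancel₀ _ finrank_pos'.ne', logHeight_eq_log_mulHeight, Real.exp_log (mulHeight_pos P)]

/-- Northcott for points -/
theorem points_finite (T : ℝ) : {p : Projectivization K (Fin 3 → K) | IsABC p ∧ ht p.rep ≤ T}.Finite := by
  have h := finite_setOfPred_mulHeight₁_le K (Real.exp (Module.finrank ℚ K * T))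
  refine Set.Finite.of_finite_image (f := fun p : Projectivization K (Fin 3 → K) => p.rep 0 / p.rep 1)
    (h.subset ?_) ?_
  · rintro _ ⟨p, ⟨hp, hpT⟩, rfl⟩
    refine (ratio_height p.rep 0 1).trans ?_
    rw [mulHeight_eq_exp]
    apply Real.exp_le_exp.2
    exact mul_le_mul_of_nonneg_left hpT finrank_pos'.le
  · intro p hp q hq hpq
    exact ratio_inj hp.1 hq.1 0 1 2 (by decide) hp.1.1 hq.1.1 hpq

/-- the main count -/
theorem count (δ : ℝ) (hδ : 0 < δ) : ∃ C : ℝ, 0 < C ∧ ∀ T R : ℝ, 0 ≤ T → 0 ≤ R →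
    ({p : Projectivization K (Fin 3 → K) | IsABC p ∧ ht p.rep ≤ T ∧ rad p.rep ≤ R}.ncard : ℝ) ≤
      C * Real.exp (Module.finrank ℚ K * ((2 / 3 + δ) * R + δ * T)) := by
  classical
  obtain ⟨C, hC, hV⟩ := V_count (K := K) δ hδ
  refine ⟨3 * C, by positivity, fun T R hT hR => ?_⟩
  set d : ℝ := ((Module.finrank ℚ K : ℕ) : ℝ) with hd
  have hd0 : 0 < d := finrank_pos'
  let X : ℝ := Real.exp (d * T)
  let Z : ℝ := Real.exp (d * (2 / 3 * R))
  have hX : 1 ≤ X := Real.one_le_exp (by positivity)
  have hZ : 1 ≤ Z := Real.one_le_exp (by positivity)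
  let E := {p : Projectivization K (Fin 3 → K) | IsABC p ∧ ht p.rep ≤ T ∧ rad p.rep ≤ R}
  let V := {y : Kˣ // mulHeight₁ (y : K) ≤ X ∧ NS K (sF y) ≤ Z}
  have hVf : Finite V := by
    have := finite_units (K := K) X
    exact Finite.of_injective (fun y : V => (⟨y.1, y.2.1⟩ : {y : Kˣ // mulHeight₁ (y : K) ≤ X})) (by
      intro a b hab
      apply Subtype.ext
      have h6 := congrArg Subtype.val hab
      exact h6)
  -- the map
  have hkey : ∀ p : E, ∃ iy : Fin 3 × V, (iy.2.1 : K) = p.1.rep iy.1 / p.1.rep (iy.1 + 1) := by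
    rintro ⟨p, hp, hpT, hpR⟩
    let a : Kˣ := Units.mk0 _ (hp.ne 0)
    let b : Kˣ := Units.mk0 _ (hp.ne 1)
    let c : Kˣ := Units.mk0 _ (hp.ne 2)
    have hI : ∀ v, v ∉ (bad_finite hp).toFinset → vl v a = vl v b ∧ vl v b = vl v c := by
      intro v hv
      rw [Set.Finite.mem_toFinset] at hv
      have : v.valuation K (p.rep 0) = v.valuation K (p.rep 1) ∧
        v.valuation K (p.rep 1) = v.valuation K (p.rep 2) := by
        by_contra h
        exact hv h
      exact ⟨(vl_eq_iff v a b).2 this.1, (vl_eq_iff v b c).2 this.2⟩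
    have hNS : NS K (bad_finite hp).toFinset ^ 2 ≤ Z ^ 3 := by
      rw [NS_eq hp, ← Real.exp_nat_mul, ← Real.exp_nat_mul]
      apply Real.exp_le_exp.2
      push_cast
      have : d * rad p.rep ≤ d * R := mul_le_mul_of_nonneg_left hpR hd0.le
      linarith
    have hH : ∀ i j : Fin 3, mulHeight₁ (p.rep i / p.rep j) ≤ X := by
      intro i j
      refine (ratio_height p.rep i j).trans ?_
      rw [mulHeight_eq_exp]
      apply Real.exp_le_exp.2
      exact mul_le_mul_of_nonneg_left hpT finrank_pos'.le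
    rcases exists_small a b c hp.1 _ hI Z (by linarith) hNS with h | h | h
    · refine ⟨(0, ⟨a / b, ?_, h⟩), ?_⟩
      · rw [Units.val_div_eq_div_val]; exact hH 0 1
      · exact Units.val_div_eq_div_val a b
    · refine ⟨(1, ⟨b / c, ?_, h⟩), ?_⟩
      · rw [Units.val_div_eq_div_val]; exact hH 1 2
      · exact Units.val_div_eq_div_val b c
    · refine ⟨(2, ⟨c / a, ?_, h⟩), ?_⟩
      · rw [Units.val_div_eq_div_val]; exact hH 2 0
      · exact Units.val_div_eq_div_val c a
  choose f hf using hkey
  have hinj : Function.Injective f := by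
    intro p q hpq
    apply Subtype.ext
    have h1 := hf p
    have h2 := hf q
    rw [hpq] at h1
    rw [h1] at h2
    have hi : ∀ (p q : Projectivization K (Fin 3 → K)), IsABC p → IsABC q → ∀ i : Fin 3,
        p.rep i / p.rep (i + 1) = q.rep i / q.rep (i + 1) → p = q := by
      intro p q hp hq i h
      fin_cases i
      · exact ratio_inj hp hq 0 1 2 (by decide) hp.1 hq.1 h
      · refine ratio_inj hp hq 1 2 0 (by decide) ?_ ?_ h
        · have := hp.1; linear_combination this
        · have := hq.1; linear_combination this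
      · refine ratio_inj hp hq 2 0 1 (by decide) ?_ ?_ h
        · have := hp.1; linear_combination this
        · have := hq.1; linear_combination this
    exact hi p.1 q.1 p.2.1 q.2.1 _ h2
  have h1 : (E.ncard : ℝ) ≤ 3 * (Nat.card V : ℝ) := by
    have := Nat.card_le_card_of_injective f hinj
    rw [Nat.card_prod, Nat.card_eq_fintype_card (α := Fin 3), Fintype.card_fin] at this
    exact_mod_cast this
  have h2 := hV X Z hX hZ
  calc (E.ncard : ℝ) ≤ 3 * (Nat.card V : ℝ) := h1
    _ ≤ 3 * (C * Z ^ (1 + δ) * X ^ δ) := by linarith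
    _ = 3 * C * (Z ^ (1 + δ) * X ^ δ) := by ring
    _ ≤ 3 * C * Real.exp (d * ((2 / 3 + δ) * R + δ * T)) := by
        apply mul_le_mul_of_nonneg_left _ (by positivity)
        rw [← Real.exp_mul, ← Real.exp_mul, ← Real.exp_add]
        apply Real.exp_le_exp.2
        have : d * (2 / 3 * R) * δ ≤ d * R * δ := by
          apply mul_le_mul_of_nonneg_right _ hδ.le
          nlinarith
        nlinarith

end H645.ABC
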