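import Pool.Agent.H645R3.ABC6

set_option autoImplicit false

open NumberField Height IsDedekindDomain Filter Topology nonZeroDivisors

namespace H645.ABC

variable {K : Type} [Field K] [NumberField K]

theorem place_le_house (x : K) (v : InfinitePlace K) : v x ≤ house x := by
  rw [← InfinitePlace.norm_embedding_eq]
  exact norm_embedding_le_house x v.embedding

theorem fin_le_one (v : FinitePlace K) (x : 𝓞 K) : v ((x : 𝓞 K) : K) ≤ 1 := by
  rw [← FinitePlace.norm_embedding_eq]
  exact FinitePlace.norm_le_one K v.maximalIdeal x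

/-- height of an integral triple -/
theorem mulHeight_int_le (P : Fin 3 → 𝓞 K) (hP : (fun i => ((P i : 𝓞 K) : K)) ≠ 0) (B : ℝ)
    (hB : ∀ i, house ((P i : 𝓞 K) : K) ≤ B) :
    mulHeight (fun i => ((P i : 𝓞 K) : K)) ≤ B ^ Module.finrank ℚ K := by
  rw [NumberField.mulHeight_eq hP]
  have h0 : 0 ≤ B := (house_nonneg _).trans (hB 0)
  have h1 : (∏ᶠ v : FinitePlace K, ⨆ i, v ((P i : 𝓞 K) : K)) ≤ 1 := by
    refine finprod_induction (fun x : ℝ => 0 ≤ x ∧ x ≤ 1) ⟨zero_le_one, le_rfl⟩ ?_ ?_ |>.2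
    · rintro x y ⟨hx0, hx1⟩ ⟨hy0, hy1⟩
      exact ⟨mul_nonneg hx0 hy0, mul_le_one₀ hx1 hy0 hy1⟩
    · intro v
      exact ⟨Real.iSup_nonneg_of_nonnegHomClass _ _, ciSup_le fun i => fin_le_one v (P i)⟩
  have h2 : (∏ v : InfinitePlace K, (⨆ i, v ((P i : 𝓞 K) : K)) ^ v.mult) ≤ B ^ Module.finrank ℚ K := by
    calc (∏ v : InfinitePlace K, (⨆ i, v ((P i : 𝓞 K) : K)) ^ v.mult)
        ≤ ∏ v : InfinitePlace K, B ^ v.mult := by
          apply Finset.prod_le_prod
          · intro v _
            exact pow_nonneg (Real.iSup_nonneg_of_nonnegHomClass _ _) _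
          · intro v _
            apply pow_le_pow_left₀ (Real.iSup_nonneg_of_nonnegHomClass _ _)
            exact ciSup_le fun i => (place_le_house _ v).trans (hB i)
      _ = B ^ Module.finrank ℚ K := by
          rw [Finset.prod_pow_eq_pow_sum, InfinitePlace.sum_mult_eq]
  have h3 : 0 ≤ ∏ᶠ v : FinitePlace K, ⨆ i, v ((P i : 𝓞 K) : K) :=
    finprod_nonneg fun v => Real.iSup_nonneg_of_nonnegHomClass _ _
  calc _ ≤ B ^ Module.finrank ℚ K * 1 := mul_le_mul h2 h1 h3 (by positivity)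
    _ = _ := mul_one _

theorem mulHeight₁_int_le (x : 𝓞 K) (B : ℝ) (hB1 : 1 ≤ B) (hB : house ((x : 𝓞 K) : K) ≤ B) :
    mulHeight₁ ((x : 𝓞 K) : K) ≤ B ^ Module.finrank ℚ K := by
  rw [NumberField.mulHeight₁_eq]
  have h0 : 0 ≤ B := by linarith
  have h1 : (∏ᶠ v : FinitePlace K, max (v ((x : 𝓞 K) : K)) 1) = 1 := by
    apply finprod_eq_one_of_forall_eq_one
    intro v
    exact max_eq_right (fin_le_one v x)
  rw [h1, mul_one]
  calc (∏ v : InfinitePlace K, max (v ((x : 𝓞 K) : K)) 1 ^ v.mult)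
      ≤ ∏ v : InfinitePlace K, B ^ v.mult := by
        apply Finset.prod_le_prod
        · intro v _
          positivity
        · intro v _
          apply pow_le_pow_left₀ (by positivity)
          exact max_le ((place_le_house _ v).trans hB) hB1
    _ = B ^ Module.finrank ℚ K := by
        rw [Finset.prod_pow_eq_pow_sum, InfinitePlace.sum_mult_eq]

theorem vl_int_nonpos (v : HeightOneSpectrum (𝓞 K)) (r : 𝓞 K) (y : Kˣ)
    (hy : (y : K) = algebraMap (𝓞 K) K r) : vl v y ≤ 0 := by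
  have h1 := v.intValuation_le_one r
  have h2 : ((v.valuationOfNeZero y : Multiplicative ℤ) : WithZero (Multiplicative ℤ)) ≤
      ((1 : Multiplicative ℤ) : WithZero (Multiplicative ℤ)) := by
    rw [HeightOneSpectrum.valuationOfNeZero_eq, hy, HeightOneSpectrum.valuation_of_algebraMap]
    exact h1
  have h4 := WithZero.coe_le_coe.1 h2
  unfold vl
  exact h4

/-- radical of an integral element is at most its norm -/
theorem NS_int_le (r : 𝓞 K) (hr : r ≠ 0) (y : Kˣ) (hy : (y : K) = algebraMap (𝓞 K) K r) (B : ℝ)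
    (hB : house ((r : 𝓞 K) : K) ≤ B) : NS K (sF y) ≤ B ^ Module.finrank ℚ K := by
  classical
  have h1 : idl (sF y) ∣ Ideal.span {r} := by
    unfold idl
    apply Finset.prod_dvd_of_coprime
    · intro v _ w _ hvw
      change IsCoprime v.asIdeal w.asIdeal
      rw [Ideal.isCoprime_iff_sup_eq]
      apply Ideal.IsMaximal.coprime_of_ne v.isMaximal w.isMaximal
      intro h
      exact hvw (HeightOneSpectrum.ext h)
    · intro v hv
      by_contra hcon
      exact (mem_sF y v).1 hv (vl_int v r hr y hy hcon)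
  have h2 : Ideal.absNorm (idl (sF y)) ∣ Ideal.absNorm (Ideal.span {r}) := map_dvd _ h1
  have h3 : Ideal.absNorm (Ideal.span {r}) ≠ 0 := by
    rw [Ne, Ideal.absNorm_eq_zero_iff, Ideal.span_singleton_eq_bot]
    exact hr
  have h4 : (Ideal.absNorm (idl (sF y)) : ℝ) ≤ (Ideal.absNorm (Ideal.span {r}) : ℝ) := by
    exact_mod_cast Nat.le_of_dvd (Nat.pos_of_ne_zero h3) h2
  rw [absNorm_idl] at h4
  refine h4.trans ?_
  rw [Ideal.absNorm_span_singleton, Nat.cast_natAbs]
  have h5 : (((|Algebra.norm ℤ r| : ℤ)) : ℝ) = |((Algebra.norm ℚ ((r : 𝓞 K) : K) : ℚ) : ℝ)| := by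
    rw [← Algebra.coe_norm_int]
    push_cast
    rfl
  have h6 : |((Algebra.norm ℚ ((r : 𝓞 K) : K) : ℚ) : ℝ)| =
      ∏ v : InfinitePlace K, v ((r : 𝓞 K) : K) ^ v.mult := by
    rw [InfinitePlace.prod_eq_abs_norm]
    push_cast
    rfl
  rw [h5, h6]
  have h0 : 0 ≤ B := (house_nonneg _).trans hB
  calc (∏ v : InfinitePlace K, v ((r : 𝓞 K) : K) ^ v.mult)
      ≤ ∏ v : InfinitePlace K, B ^ v.mult := by
        apply Finset.prod_le_prod
        · intro v _
          positivity
        · intro v _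
          apply pow_le_pow_left₀ (by positivity)
          exact (place_le_house _ v).trans hB
    _ = B ^ Module.finrank ℚ K := by
        rw [Finset.prod_pow_eq_pow_sum, InfinitePlace.sum_mult_eq]

end H645.ABC
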