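import Pool.Agent.H645R3.ABC7

set_option autoImplicit false

open NumberField Height IsDedekindDomain Filter Topology nonZeroDivisors

namespace H645.ABC

variable (K : Type) [Field K] [NumberField K]

/-- elements of a box -/
noncomputable def el (N : ℕ) (n : Module.Free.ChooseBasisIndex ℤ (𝓞 K) → Fin N) : 𝓞 K :=
  ∑ i, (((n i : ℕ) : ℤ) + 1) • (RingOfIntegers.basis K) i

variable {K}

theorem el_repr (N : ℕ) (n : Module.Free.ChooseBasisIndex ℤ (𝓞 K) → Fin N) (i) :
    (RingOfIntegers.basis K).repr (el K N n) i = ((n i : ℕ) : ℤ) + 1 := by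
  unfold el
  rw [Module.Basis.repr_sum_self]

theorem el_inj (N : ℕ) : Function.Injective (el K N) := by
  intro n m h
  funext i
  apply Fin.ext
  have h1 := el_repr N n i
  have h2 := el_repr N m i
  rw [h] at h1
  rw [h1] at h2
  omega

theorem el_ne (N : ℕ) (n) : el K N n ≠ 0 := by
  intro h
  have : Nonempty (Module.Free.ChooseBasisIndex ℤ (𝓞 K)) := inferInstance
  obtain ⟨i⟩ := this
  have h1 := el_repr N n i
  rw [h, map_zero, Finsupp.zero_apply] at h1
  omega

theorem el_add_ne (N : ℕ) (n m) : el K N n + el K N m ≠ 0 := by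
  intro h
  have : Nonempty (Module.Free.ChooseBasisIndex ℤ (𝓞 K)) := inferInstance
  obtain ⟨i⟩ := this
  have h1 := el_repr N n i
  have h2 := el_repr N m i
  have h3 : (RingOfIntegers.basis K).repr (el K N n + el K N m) i = 0 := by
    rw [h, map_zero, Finsupp.zero_apply]
  rw [map_add, Finsupp.add_apply, h1, h2] at h3
  omega

variable (K) in
/-- constant -/
noncomputable def AA : ℝ := 1 + ∑ i, house ((RingOfIntegers.basis K i : 𝓞 K) : K)

theorem one_le_AA : 1 ≤ AA K := by
  unfold AA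
  have : 0 ≤ ∑ i, house ((RingOfIntegers.basis K i : 𝓞 K) : K) :=
    Finset.sum_nonneg fun i _ => house_nonneg _
  linarith

theorem house_el (N : ℕ) (n) : house ((el K N n : 𝓞 K) : K) ≤ N * AA K := by
  unfold el
  have h1 : (((∑ i, (((n i : ℕ) : ℤ) + 1) • (RingOfIntegers.basis K) i : 𝓞 K)) : K) =
      ∑ i, (((n i : ℕ) + 1 : ℕ) : K) * ((RingOfIntegers.basis K i : 𝓞 K) : K) := by
    rw [RingOfIntegers.coe_eq_algebraMap, map_sum]
    apply Finset.sum_congr rfl
    intro i _
    rw [zsmul_eq_mul, map_mul]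
    push_cast
    rfl
  rw [h1]
  refine (house_sum_le_sum_house _ _).trans ?_
  calc ∑ i, house ((((n i : ℕ) + 1 : ℕ) : K) * ((RingOfIntegers.basis K i : 𝓞 K) : K))
      ≤ ∑ i, (N : ℝ) * house ((RingOfIntegers.basis K i : 𝓞 K) : K) := by
        apply Finset.sum_le_sum
        intro i _
        rw [house_nat_mul]
        apply mul_le_mul_of_nonneg_right _ (house_nonneg _)
        have := (n i).2
        exact_mod_cast this
    _ ≤ N * AA K := by
        rw [← Finset.mul_sum]
        apply mul_le_mul_of_nonneg_left _ (Nat.cast_nonneg _)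
        unfold AA
        linarith

/-- the triple -/
noncomputable def tri (a b : 𝓞 K) : Fin 3 → 𝓞 K := ![a, b, -(a + b)]

theorem house_tri (a b : 𝓞 K) (B : ℝ) (ha : house (a : K) ≤ B) (hb : house (b : K) ≤ B) (i : Fin 3) :
    house ((tri a b i : 𝓞 K) : K) ≤ 2 * B := by
  have h0 : 0 ≤ B := (house_nonneg _).trans ha
  fin_cases i
  · change house (a : K) ≤ _
    linarith
  · change house (b : K) ≤ _
    linarith
  · change house ((-(a + b) : 𝓞 K) : K) ≤ _
    have h1 : ((-(a + b) : 𝓞 K) : K) = -((a : K) + b) := by push_cast; rfl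
    rw [h1]
    have h2 : house (-((a : K) + b)) = house ((a : K) + b) := by
      unfold house
      rw [map_neg, norm_neg]
    rw [h2]
    have := house_add_le (a : K) b
    linarith

theorem tri_ne (a b : 𝓞 K) (ha : a ≠ 0) : (fun i => ((tri a b i : 𝓞 K) : K)) ≠ 0 := by
  intro h
  have := congrFun h 0
  change ((a : 𝓞 K) : K) = 0 at this
  exact ha (RingOfIntegers.coe_eq_zero_iff.1 this)

/-- the point -/
noncomputable def pt (a b : 𝓞 K) (ha : a ≠ 0) : Projectivization K (Fin 3 → K) :=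
  Projectivization.mk K (fun i => ((tri a b i : 𝓞 K) : K)) (tri_ne a b ha)

theorem pt_abc (a b : 𝓞 K) (ha : a ≠ 0) (hb : b ≠ 0) (hab : a + b ≠ 0) : IsABC (pt a b ha) := by
  obtain ⟨t, ht⟩ := Projectivization.exists_smul_eq_mk_rep K (fun i => ((tri a b i : 𝓞 K) : K))
    (tri_ne a b ha)
  have h : ∀ i, (pt a b ha).rep i = (t : K) * ((tri a b i : 𝓞 K) : K) := by
    intro i
    have := congrFun ht i
    exact this.symm
  have ht0 : (t : K) ≠ 0 := t.ne_zero
  unfold IsABC
  rw [h 0, h 1, h 2]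
  refine ⟨?_, ?_, ?_, ?_⟩
  · change (t : K) * ((a : 𝓞 K) : K) + (t : K) * ((b : 𝓞 K) : K) + (t : K) * ((-(a + b) : 𝓞 K) : K) = 0
    push_cast
    ring
  · exact mul_ne_zero ht0 (RingOfIntegers.coe_ne_zero_iff.2 ha)
  · exact mul_ne_zero ht0 (RingOfIntegers.coe_ne_zero_iff.2 hb)
  · exact mul_ne_zero ht0 (RingOfIntegers.coe_ne_zero_iff.2 (neg_ne_zero.2 hab))

theorem pt_ht (a b : 𝓞 K) (ha : a ≠ 0) (B : ℝ) (hha : house (a : K) ≤ B)
    (hhb : house (b : K) ≤ B) : ht (pt a b ha).rep ≤ Real.log (2 * B) := by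
  obtain ⟨t, ht'⟩ := Projectivization.exists_smul_eq_mk_rep K (fun i => ((tri a b i : 𝓞 K) : K))
    (tri_ne a b ha)
  have h1 : ht (pt a b ha).rep = ht (fun i => ((tri a b i : 𝓞 K) : K)) := by
    unfold ht
    congr 1
    change logHeight (Projectivization.mk K (fun i => ((tri a b i : 𝓞 K) : K)) (tri_ne a b ha)).rep = _
    rw [← ht']
    exact logHeight_smul_eq_logHeight _ t.ne_zero
  rw [h1]
  unfold ht
  rw [div_le_iff₀ finrank_pos', logHeight_eq_log_mulHeight]
  calc Real.log (mulHeight (fun i => ((tri a b i : 𝓞 K) : K)))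
      ≤ Real.log ((2 * B) ^ Module.finrank ℚ K) := by
        apply Real.log_le_log (mulHeight_pos _)
        exact mulHeight_int_le _ (tri_ne a b ha) _ (house_tri a b B hha hhb)
    _ = Real.log (2 * B) * Module.finrank ℚ K := by rw [Real.log_pow]; ring

theorem pt_eq (a b a' b' : 𝓞 K) (ha : a ≠ 0) (ha' : a' ≠ 0) (h : pt a b ha = pt a' b' ha') :
    a * b' = a' * b := by
  unfold pt at h
  rw [Projectivization.mk_eq_mk_iff'] at h
  obtain ⟨t, ht⟩ := h
  have h0 : t * ((a' : 𝓞 K) : K) = ((a : 𝓞 K) : K) := congrFun ht 0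
  have h1 : t * ((b' : 𝓞 K) : K) = ((b : 𝓞 K) : K) := congrFun ht 1
  have hh : ((a : 𝓞 K) : K) * ((b' : 𝓞 K) : K) = ((a' : 𝓞 K) : K) * ((b : 𝓞 K) : K) := by
    rw [← h0, ← h1]
    ring
  exact_mod_cast hh

end H645.ABC
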