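import Pool.Agent.H645R3.ABC8

set_option autoImplicit false

open NumberField Height IsDedekindDomain Filter Topology nonZeroDivisors

namespace H645.ABC

variable {K : Type} [Field K] [NumberField K]

variable (K) in
/-- boxes -/
abbrev Bx (N : ℕ) : Type :=
  (Module.Free.ChooseBasisIndex ℤ (𝓞 K) → Fin N) × (Module.Free.ChooseBasisIndex ℤ (𝓞 K) → Fin N)

theorem div_count (δ : ℝ) (hδ : 0 < δ) : ∃ C : ℝ, 0 < C ∧ ∀ N : ℕ, 1 ≤ N → ∀ r : 𝓞 K, r ≠ 0 →
    house ((r : 𝓞 K) : K) ≤ (N * AA K) ^ 2 →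
    (Nat.card {q : Bx K N // r = el K N q.1 * el K N q.2} : ℝ) ≤ C * (N * AA K) ^ δ := by
  classical
  obtain ⟨κ, C1, hC1, h1⟩ := poly_count K
  set d : ℕ := Module.finrank ℚ K with hd
  have hd0 : 0 < d := Module.finrank_pos
  have hdR : (0 : ℝ) < d := by exact_mod_cast hd0
  let η : ℝ := δ / (3 * d)
  have hη : 0 < η := by positivity
  let m : ℕ := ⌈2 * κ / η⌉₊ + 1
  have hm : 0 < m := Nat.succ_pos _
  have hmη : 2 * (κ : ℝ) / m ≤ η := by
    have h3 : 2 * (κ : ℝ) / η ≤ m := by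
      refine (Nat.le_ceil _).trans ?_
      push_cast [m]
      linarith
    rw [div_le_iff₀ (by positivity)]
    rw [div_le_iff₀ hη] at h3
    linarith
  obtain ⟨C3, hC3, h3⟩ := pow_card_le K m hm η hη
  obtain ⟨N0, hN0⟩ := S_count (K := K) m hm
  refine ⟨C3 * (N0 + 1) * C1, by positivity, fun N hN r hr hrN => ?_⟩
  have hA := one_le_AA (K := K)
  have hN' : (1 : ℝ) ≤ N := by exact_mod_cast hN
  have hNA : (1 : ℝ) ≤ N * AA K := by nlinarith
  let X : ℝ := (N * AA K) ^ d
  have hX : 1 ≤ X := one_le_pow₀ hNA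
  have hrK : ((r : 𝓞 K) : K) ≠ 0 := RingOfIntegers.coe_ne_zero_iff.2 hr
  let ru : Kˣ := Units.mk0 _ hrK
  let S := sF ru
  let Y := {y : Kˣ // sF y ⊆ S ∧ mulHeight₁ (y : K) ≤ X}
  have hYf : Finite Y := by
    have := finite_units (K := K) X
    exact Finite.of_injective (fun y : Y => (⟨y.1, y.2.2⟩ : {y : Kˣ // mulHeight₁ (y : K) ≤ X})) (by
      intro a b hab
      apply Subtype.ext
      have h6 := congrArg Subtype.val hab
      exact h6)
  have hel : ∀ n, ((el K N n : 𝓞 K) : K) ≠ 0 := fun n => RingOfIntegers.coe_ne_zero_iff.2 (el_ne N n)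
  have hmem : ∀ q : {q : Bx K N // r = el K N q.1 * el K N q.2},
      sF (Units.mk0 _ (hel q.1.1)) ⊆ S ∧
        mulHeight₁ ((Units.mk0 _ (hel q.1.1) : Kˣ) : K) ≤ X := by
    intro q
    constructor
    · intro v hv
      rw [mem_sF] at hv ⊢
      have e1 : ru = Units.mk0 _ (hel q.1.1) * Units.mk0 _ (hel q.1.2) := by
        apply Units.ext
        rw [Units.val_mul, Units.val_mk0, Units.val_mk0, Units.val_mk0]
        have := congrArg (fun x : 𝓞 K => (x : K)) q.2
        beta_reduce at this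
        rw [this]
        push_cast
        rfl
      have e2 := vl_int_nonpos v (el K N q.1.1) (Units.mk0 _ (hel q.1.1)) rfl
      have e3 := vl_int_nonpos v (el K N q.1.2) (Units.mk0 _ (hel q.1.2)) rfl
      rw [e1, vl_mul]
      omega
    · rw [Units.val_mk0]
      exact mulHeight₁_int_le _ _ hNA (house_el N _)
  let f : {q : Bx K N // r = el K N q.1 * el K N q.2} → Y := fun q => ⟨_, hmem q⟩
  have hf : Function.Injective f := by
    intro p q hpq
    have e1 : Units.mk0 _ (hel p.1.1) = Units.mk0 _ (hel q.1.1) := congrArg Subtype.val hpq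
    have e2 : ((el K N p.1.1 : 𝓞 K) : K) = ((el K N q.1.1 : 𝓞 K) : K) := congrArg Units.val e1
    have e3 : el K N p.1.1 = el K N q.1.1 := RingOfIntegers.ext e2
    have e4 : el K N p.1.2 = el K N q.1.2 := by
      have e5 : el K N p.1.1 * el K N p.1.2 = el K N q.1.1 * el K N q.1.2 := p.2.symm.trans q.2
      rw [e3] at e5
      exact mul_left_cancel₀ (el_ne N _) e5
    apply Subtype.ext
    apply Prod.ext
    · exact el_inj N e3
    · exact el_inj N e4
  have hcard := Nat.card_le_card_of_injective f hf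
  have hS : NS K S ≤ ((N * AA K) ^ 2) ^ d := NS_int_le r hr ru rfl _ hrN
  have hX' : 1 ≤ X ^ (2 / (m : ℝ)) := Real.one_le_rpow hX (by positivity)
  have e1 : (Nat.card Y : ℝ) ≤
      (m : ℝ) ^ S.card * N0 * Nat.card {w : K // mulHeight₁ w ≤ X ^ (2 / (m : ℝ))} := by
    have := hN0 S X hX
    exact_mod_cast this
  have e2 : (m : ℝ) ^ S.card ≤ C3 * (((N * AA K) ^ 2) ^ d) ^ η := by
    refine (h3 S).trans ?_
    apply mul_le_mul_of_nonneg_left _ hC3.le
    exact Real.rpow_le_rpow (by linarith [one_le_NS S]) hS hη.le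
  have e3 : (Nat.card {w : K // mulHeight₁ w ≤ X ^ (2 / (m : ℝ))} : ℝ) ≤ C1 * X ^ η := by
    refine (h1 _ hX').trans ?_
    apply mul_le_mul_of_nonneg_left _ hC1.le
    rw [← Real.rpow_natCast, ← Real.rpow_mul (by linarith)]
    apply Real.rpow_le_rpow_of_exponent_le hX
    calc 2 / (m : ℝ) * κ = 2 * κ / m := by ring
      _ ≤ η := hmη
  have e4 : (((N * AA K) ^ 2) ^ d) ^ η * X ^ η = (N * AA K) ^ δ := by
    have hpos : (0 : ℝ) ≤ N * AA K := by linarith
    change (((N * AA K) ^ 2) ^ d) ^ η * ((N * AA K) ^ d) ^ η = (N * AA K) ^ δ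
    rw [← pow_mul, ← Real.rpow_natCast, ← Real.rpow_natCast, ← Real.rpow_mul hpos,
      ← Real.rpow_mul hpos, ← Real.rpow_add (by linarith)]
    congr 1
    push_cast [η]
    field_simp
    ring
  calc (Nat.card {q : Bx K N // r = el K N q.1 * el K N q.2} : ℝ) ≤ (Nat.card Y : ℝ) := by
        exact_mod_cast hcard
    _ ≤ (m : ℝ) ^ S.card * N0 * Nat.card {w : K // mulHeight₁ w ≤ X ^ (2 / (m : ℝ))} := e1
    _ ≤ (C3 * (((N * AA K) ^ 2) ^ d) ^ η) * (N0 + 1) * (C1 * X ^ η) := by
        apply mul_le_mul _ e3 (by positivity) (by positivity)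
        apply mul_le_mul e2 (by linarith) (by positivity) (by positivity)
    _ = C3 * (N0 + 1) * C1 * ((((N * AA K) ^ 2) ^ d) ^ η * X ^ η) := by ring
    _ = C3 * (N0 + 1) * C1 * (N * AA K) ^ δ := by rw [e4]

/-- the map to points -/
noncomputable def phi (N : ℕ) (x : Bx K N) : Projectivization K (Fin 3 → K) :=
  pt (el K N x.1) (el K N x.2) (el_ne N x.1)

theorem image_count (δ : ℝ) (hδ : 0 < δ) : ∃ C : ℝ, 0 < C ∧ ∀ N : ℕ, 1 ≤ N →
    (N : ℝ) ^ (2 * Module.finrank ℚ K) ≤ (Set.range (phi (K := K) N)).ncard * (C * (N * AA K) ^ δ) := by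
  classical
  obtain ⟨C, hC, hD⟩ := div_count (K := K) δ hδ
  refine ⟨C, hC, fun N hN => ?_⟩
  have hA := one_le_AA (K := K)
  have hN' : (1 : ℝ) ≤ N := by exact_mod_cast hN
  let D : ℝ := C * (N * AA K) ^ δ
  have hD0 : 0 < D := by
    have : (0 : ℝ) < N * AA K := by nlinarith
    positivity
  let im : Finset (Projectivization K (Fin 3 → K)) := Finset.univ.image (phi (K := K) N)
  have him : (Set.range (phi (K := K) N)).ncard = im.card := by
    rw [← Set.ncard_coe_finset]
    congr 1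
    simp [im]
  let fib : Projectivization K (Fin 3 → K) → Finset (Bx K N) := fun p =>
    Finset.univ.filter (fun x => phi N x = p)
  have hsum : (Fintype.card (Bx K N)) = ∑ p ∈ im, (fib p).card := by
    rw [← Finset.card_univ]
    exact Finset.card_eq_sum_card_image (phi (K := K) N) Finset.univ
  let E : Finset (Bx K N × Bx K N) := Finset.univ.filter (fun xy => phi N xy.1 = phi N xy.2)
  have hE : E.card = ∑ p ∈ im, (fib p).card ^ 2 := by
    rw [Finset.card_eq_sum_card_fiberwise (f := fun xy : Bx K N × Bx K N => phi N xy.1) (t := im)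
      (fun xy _ => Finset.mem_image_of_mem _ (Finset.mem_univ _))]
    apply Finset.sum_congr rfl
    intro p _
    rw [sq, ← Finset.card_product]
    congr 1
    ext ⟨x, y⟩
    simp only [E, fib, Finset.mem_filter, Finset.mem_univ, true_and, Finset.mem_product]
    constructor
    · rintro ⟨h1, h2⟩
      exact ⟨h2, by rw [← h1, h2]⟩
    · rintro ⟨h1, h2⟩
      exact ⟨by rw [h1, h2], h1⟩
  have hEle : (E.card : ℝ) ≤ (Fintype.card (Bx K N) : ℝ) * D := by
    let g : E → (Σ z : Bx K N, {q : Bx K N // el K N z.1 * el K N z.2 = el K N q.1 * el K N q.2}) :=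
      fun e => ⟨(e.1.1.1, e.1.2.2), ⟨(e.1.2.1, e.1.1.2), by
        have h1 := (Finset.mem_filter.1 e.2).2
        exact pt_eq _ _ _ _ _ _ h1⟩⟩
    have hg : Function.Injective g := by
      rintro ⟨⟨⟨n, m⟩, ⟨n', m'⟩⟩, h⟩ ⟨⟨⟨k, l⟩, ⟨k', l'⟩⟩, h'⟩ heq
      have h1 := congrArg (fun s => s.1) heq
      have h2 : ((n, m') : Bx K N) = (k, l') := h1
      have h3 := congrArg (fun s => (s.2.1 : Bx K N)) heq
      have h4 : ((n', m) : Bx K N) = (k', l) := h3
      rw [Prod.mk.injEq] at h2 h4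
      apply Subtype.ext
      simp only [Prod.mk.injEq]
      exact ⟨⟨h2.1, h4.2⟩, ⟨h4.1, h2.2⟩⟩
    have h1 := Nat.card_le_card_of_injective g hg
    rw [Nat.card_sigma, Nat.card_eq_fintype_card, Fintype.card_coe] at h1
    calc (E.card : ℝ) ≤ ((∑ z : Bx K N, Nat.card {q : Bx K N //
            el K N z.1 * el K N z.2 = el K N q.1 * el K N q.2} : ℕ) : ℝ) := by exact_mod_cast h1
      _ = ∑ z : Bx K N, (Nat.card {q : Bx K N //
            el K N z.1 * el K N z.2 = el K N q.1 * el K N q.2} : ℝ) := by push_cast; rfl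
      _ ≤ ∑ _z : Bx K N, D := by
          apply Finset.sum_le_sum
          intro z _
          apply hD N hN _ (mul_ne_zero (el_ne N _) (el_ne N _))
          have e1 := house_el (K := K) N z.1
          have e2 := house_el (K := K) N z.2
          have e3 := house_mul_le ((el K N z.1 : 𝓞 K) : K) ((el K N z.2 : 𝓞 K) : K)
          have e4 : (((el K N z.1 * el K N z.2 : 𝓞 K)) : K) =
            ((el K N z.1 : 𝓞 K) : K) * ((el K N z.2 : 𝓞 K) : K) := by push_cast; rfl
          rw [e4, sq]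
          refine e3.trans (mul_le_mul e1 e2 (house_nonneg _) (by nlinarith))
      _ = (Fintype.card (Bx K N) : ℝ) * D := by
          rw [Finset.sum_const, Finset.card_univ, nsmul_eq_mul]
  have hcs : ((Fintype.card (Bx K N) : ℝ)) ^ 2 ≤ im.card * (E.card : ℝ) := by
    rw [hE, hsum]
    push_cast
    exact sq_sum_le_card_mul_sum_sq
  have hB : (Fintype.card (Bx K N) : ℝ) = (N : ℝ) ^ (2 * Module.finrank ℚ K) := by
    have hc : Fintype.card (Module.Free.ChooseBasisIndex ℤ (𝓞 K)) = Module.finrank ℚ K := by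
      rw [← Module.finrank_eq_card_chooseBasisIndex, RingOfIntegers.rank]
    simp only [Bx, Fintype.card_prod, Fintype.card_fun, Fintype.card_fin, hc]
    push_cast
    ring
  have hBpos : (0 : ℝ) < Fintype.card (Bx K N) := by
    rw [hB]
    positivity
  rw [him, ← hB]
  have h5 : (Fintype.card (Bx K N) : ℝ) ^ 2 ≤ im.card * ((Fintype.card (Bx K N) : ℝ) * D) :=
    hcs.trans (mul_le_mul_of_nonneg_left hEle (Nat.cast_nonneg _))
  have h6 : (Fintype.card (Bx K N) : ℝ) * Fintype.card (Bx K N) ≤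
      (Fintype.card (Bx K N) : ℝ) * (im.card * D) := by nlinarith
  exact le_of_mul_le_mul_left h6 hBpos

/-- lower bound for the number of points -/
theorem lower (δ : ℝ) (hδ : 0 < δ) : ∃ c T0 : ℝ, 0 < c ∧ ∀ T : ℝ, T0 ≤ T →
    c * Real.exp ((2 - δ) * Module.finrank ℚ K * T) ≤
      ({p : Projectivization K (Fin 3 → K) | IsABC p ∧ ht p.rep ≤ T}.ncard : ℝ) := by
  set d : ℕ := Module.finrank ℚ K with hd
  have hd0 : 0 < d := Module.finrank_pos
  have hdR : (0 : ℝ) < d := by exact_mod_cast hd0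
  obtain ⟨C, hC, hI⟩ := image_count (K := K) (δ * d) (by positivity)
  have hA := one_le_AA (K := K)
  refine ⟨1 / (C * (4 * AA K) ^ (2 * d)), Real.log (4 * AA K), by positivity, fun T hT => ?_⟩
  have hexp : 4 * AA K ≤ Real.exp T := by
    rw [← Real.exp_log (show 0 < 4 * AA K by positivity)]
    exact Real.exp_le_exp.2 hT
  let N : ℕ := ⌊Real.exp T / (2 * AA K)⌋₊
  have hN1 : (N : ℝ) ≤ Real.exp T / (2 * AA K) := Nat.floor_le (by positivity)
  have hN2 : Real.exp T / (4 * AA K) ≤ N := by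
    have h1 := Nat.lt_floor_add_one (Real.exp T / (2 * AA K))
    have h2 : Real.exp T / (2 * AA K) = 2 * (Real.exp T / (4 * AA K)) := by field_simp; ring
    have h3 : 1 ≤ Real.exp T / (4 * AA K) := by
      rw [le_div_iff₀ (by positivity)]
      linarith
    change Real.exp T / (2 * AA K) < (N : ℝ) + 1 at h1
    linarith
  have hN : 1 ≤ N := by
    have h3 : 1 ≤ Real.exp T / (4 * AA K) := by
      rw [le_div_iff₀ (by positivity)]
      linarith
    have : (1 : ℝ) ≤ N := h3.trans hN2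
    exact_mod_cast this
  have hNA : N * AA K * 2 ≤ Real.exp T := by
    rw [le_div_iff₀ (by positivity)] at hN1
    linarith
  have hNA1 : (1 : ℝ) ≤ N * AA K := by
    have : (1 : ℝ) ≤ N := by exact_mod_cast hN
    nlinarith
  have hsub : Set.range (phi (K := K) N) ⊆
      {p : Projectivization K (Fin 3 → K) | IsABC p ∧ ht p.rep ≤ T} := by
    rintro _ ⟨x, rfl⟩
    refine ⟨pt_abc _ _ _ (el_ne N _) (el_add_ne N _ _), ?_⟩
    refine (pt_ht _ _ _ (N * AA K) (house_el N _) (house_el N _)).trans ?_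
    rw [← Real.log_exp T]
    apply Real.log_le_log (by positivity)
    linarith
  have h1 : ((Set.range (phi (K := K) N)).ncard : ℝ) ≤
      ({p : Projectivization K (Fin 3 → K) | IsABC p ∧ ht p.rep ≤ T}.ncard : ℝ) := by
    exact_mod_cast Set.ncard_le_ncard hsub (points_finite T)
  refine le_trans ?_ h1
  have h2 := hI N hN
  have h3 : (N * AA K) ^ (δ * d) ≤ (Real.exp T) ^ (δ * d) :=
    Real.rpow_le_rpow (by linarith) (by linarith) (by positivity)
  have h4 : (Real.exp T / (4 * AA K)) ^ (2 * d) ≤ (N : ℝ) ^ (2 * d) :=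
    pow_le_pow_left₀ (by positivity) hN2 _
  have h5 : (Real.exp T / (4 * AA K)) ^ (2 * d) ≤
      (Set.range (phi (K := K) N)).ncard * (C * (Real.exp T) ^ (δ * d)) := by
    refine h4.trans (h2.trans ?_)
    apply mul_le_mul_of_nonneg_left _ (Nat.cast_nonneg _)
    exact mul_le_mul_of_nonneg_left h3 hC.le
  have h6 : Real.exp ((2 - δ) * d * T) * (Real.exp T) ^ (δ * (d : ℝ)) = Real.exp T ^ (2 * d) := by
    rw [← Real.exp_mul, ← Real.exp_add, ← Real.exp_nat_mul]
    congr 1
    push_cast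
    ring
  rw [div_pow, ← h6] at h5
  have h7 : 0 < (Real.exp T) ^ (δ * (d : ℝ)) := by positivity
  have h8 : 0 < (4 * AA K) ^ (2 * d) := by positivity
  rw [div_le_iff₀ h8] at h5
  have h9 : Real.exp ((2 - δ) * d * T) ≤
      (Set.range (phi (K := K) N)).ncard * C * (4 * AA K) ^ (2 * d) := by
    by_contra hcon
    push Not at hcon
    have := mul_lt_mul_of_pos_right hcon h7
    linarith
  rw [one_div, inv_mul_le_iff₀ (by positivity)]
  linarith

end H645.ABC
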