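import Mathlib

set_option autoImplicit false
set_option linter.style.haveILetI false

open Cardinal

namespace H645

theorem card_finsupp_le {J k : Type} [Zero k] {κ : Cardinal.{0}} (hκ : ℵ₀ ≤ κ) (hJ : #J ≤ κ)
    [Countable k] : #(J →₀ k) ≤ κ := by
  cases finite_or_infinite J with
  | inl h =>
    have : Countable (J →₀ k) := inferInstance
    exact (Cardinal.mk_le_aleph0_iff.2 this).trans hκ
  | inr h =>
    cases subsingleton_or_nontrivial k with
    | inl h' =>
      have : Countable (J →₀ k) := inferInstance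
      exact (Cardinal.mk_le_aleph0_iff.2 this).trans hκ
    | inr h' =>
      rw [Cardinal.mk_finsupp_of_infinite]
      exact max_le hJ ((Cardinal.mk_le_aleph0_iff.2 inferInstance).trans hκ)

theorem vec_surj {k M I : Type} [Field k] [Countable k] [AddCommGroup M] [Module k M]
    {κ : Cardinal.{0}} (hκ : ℵ₀ ≤ κ) (hM : κ < #M) (hI : #I ≤ Order.succ κ) :
    ∃ Φ : M →+ (I →₀ k), Function.Surjective Φ := by
  let b := Module.Free.chooseBasis k M
  have hJ : κ < #(Module.Free.ChooseBasisIndex k M) := by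
    by_contra hle
    push Not at hle
    have h1 : #M = #(Module.Free.ChooseBasisIndex k M →₀ k) := Cardinal.mk_congr b.repr.toEquiv
    rw [h1] at hM
    exact absurd (card_finsupp_le hκ hle) (not_le.2 hM)
  have hIJ : #I ≤ #(Module.Free.ChooseBasisIndex k M) := hI.trans (Order.succ_le_of_lt hJ)
  rw [Cardinal.le_def] at hIJ
  obtain ⟨f⟩ := hIJ
  refine ⟨((Finsupp.lcomapDomain (R := k) (M := k) f f.injective).comp
    (b.repr : M →ₗ[k] _)).toAddMonoidHom, ?_⟩
  intro g
  refine ⟨b.repr.symm (Finsupp.embDomain f g), ?_⟩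
  change Finsupp.comapDomain f (b.repr (b.repr.symm (Finsupp.embDomain f g)))
    f.injective.injOn = g
  rw [LinearEquiv.apply_symm_apply]
  ext i
  simp

/-- The Prüfer group as a subgroup of `ℚ / ℤ`. -/
noncomputable def Pr (p : ℕ) : AddSubgroup (AddCircle (1 : ℚ)) where
  carrier := {x | ∃ n : ℕ, p ^ n • x = 0}
  zero_mem' := ⟨0, by simp⟩
  add_mem' := by
    rintro a b ⟨n, hn⟩ ⟨m, hm⟩
    refine ⟨n + m, ?_⟩
    rw [smul_add, pow_add]
    nth_rewrite 1 [mul_comm]
    rw [mul_smul, hn, mul_smul, hm]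
    simp
  neg_mem' := by
    rintro a ⟨n, hn⟩
    exact ⟨n, by rw [smul_neg, hn, neg_zero]⟩

instance countable_Pr (p : ℕ) : Countable (Pr p) := by
  have : Countable (AddCircle (1 : ℚ)) := Quotient.countable
  infer_instance

theorem Pr_div (p : ℕ) (hp : p.Prime) (n : ℤ) (hn : n ≠ 0) (x : Pr p) : ∃ y : Pr p, n • y = x := by
  -- first natural numbers
  have hnat : ∀ n : ℕ, n ≠ 0 → ∀ x : Pr p, ∃ y : Pr p, n • y = x := by
    intro n hn x
    obtain ⟨a, m, hm, hnm⟩ := Nat.exists_eq_pow_mul_and_not_dvd hn p hp.one_lt.ne'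
    obtain ⟨x, k, hk⟩ := x
    obtain ⟨q, rfl⟩ := QuotientAddGroup.mk_surjective x
    let y : AddCircle (1 : ℚ) := ((q / (p ^ a : ℚ) : ℚ) : AddCircle (1 : ℚ))
    have hpa : ((p : ℚ) ^ a) ≠ 0 := pow_ne_zero _ (by exact_mod_cast hp.ne_zero)
    have hy : p ^ a • y = (q : AddCircle (1 : ℚ)) := by
      rw [← AddCircle.coe_nsmul]
      congr 1
      rw [nsmul_eq_mul]
      push_cast
      field_simp
    have hy2 : p ^ (k + a) • y = 0 := by
      rw [pow_add, mul_smul, hy]
      exact hk
    have hcop : IsCoprime (m : ℤ) ((p ^ (k + a) : ℕ) : ℤ) := by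
      rw [Nat.isCoprime_iff_coprime]
      exact Nat.Coprime.pow_right _ ((Nat.Prime.coprime_iff_not_dvd hp).2 hm).symm
    obtain ⟨u, v, huv⟩ := hcop
    refine ⟨⟨u • y, k + a, by rw [smul_comm, hy2, smul_zero]⟩, ?_⟩
    apply Subtype.ext
    change n • (u • y) = (q : AddCircle (1 : ℚ))
    have h1 : m • (u • y) = y := by
      have h2 : (u * m + v * ((p ^ (k + a) : ℕ) : ℤ)) • y = y := by rw [huv, one_smul]
      rw [add_smul, mul_smul, mul_smul, natCast_zsmul, natCast_zsmul, hy2, smul_zero, add_zero] at h2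
      rw [smul_comm]
      exact h2
    rw [hnm, mul_smul, h1, hy]
  rcases Int.natAbs_eq n with h | h
  · obtain ⟨y, hy⟩ := hnat n.natAbs (Int.natAbs_ne_zero.2 hn) x
    refine ⟨y, ?_⟩
    rw [h, natCast_zsmul, hy]
  · obtain ⟨y, hy⟩ := hnat n.natAbs (Int.natAbs_ne_zero.2 hn) x
    refine ⟨-y, ?_⟩
    rw [h, neg_smul, smul_neg, neg_neg, natCast_zsmul, hy]

theorem Pr_ne (p : ℕ) (hp : p.Prime) : Nontrivial (Pr p) := by
  refine ⟨⟨⟨((1 / p : ℚ) : AddCircle (1 : ℚ)), 1, ?_⟩, 0, ?_⟩⟩
  · rw [← AddCircle.coe_nsmul, AddCircle.coe_eq_zero_iff]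
    refine ⟨1, ?_⟩
    have : (p : ℚ) ≠ 0 := by exact_mod_cast hp.ne_zero
    simp [this]
  · intro h
    have h1 := congrArg Subtype.val h
    change ((1 / p : ℚ) : AddCircle (1 : ℚ)) = 0 at h1
    rw [AddCircle.coe_eq_zero_iff] at h1
    obtain ⟨n, hn⟩ := h1
    have hp0 : (p : ℚ) ≠ 0 := by exact_mod_cast hp.ne_zero
    rw [zsmul_eq_mul, mul_one, eq_div_iff hp0] at hn
    have h2 : n * (p : ℤ) = 1 := by exact_mod_cast hn
    have h3 : (p : ℤ) ∣ 1 := ⟨n, by rw [← h2]; ring⟩
    have h4 : p ∣ 1 := by exact_mod_cast h3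
    exact hp.one_lt.ne' (Nat.dvd_one.1 h4)

/-- the embedding of `ZMod p` onto the elements of order `p` -/
theorem exists_j (p : ℕ) (hp : p.Prime) : ∃ j : ZMod p →+ Pr p, ∀ e : Pr p, p • e = 0 →
    ∃ t, j t = e := by
  have hp0 : (p : ℚ) ≠ 0 := by exact_mod_cast hp.ne_zero
  let c : Pr p := ⟨((1 / p : ℚ) : AddCircle (1 : ℚ)), 1, by
    rw [← AddCircle.coe_nsmul, AddCircle.coe_eq_zero_iff]
    exact ⟨1, by simp [hp0]⟩⟩
  have hc : (p : ℕ) • c = 0 := by
    apply Subtype.ext
    change p • ((1 / p : ℚ) : AddCircle (1 : ℚ)) = 0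
    rw [← AddCircle.coe_nsmul, AddCircle.coe_eq_zero_iff]
    exact ⟨1, by simp [hp0]⟩
  refine ⟨ZMod.lift p ⟨zmultiplesHom _ c, ?_⟩, ?_⟩
  · rw [zmultiplesHom_apply, natCast_zsmul]
    exact hc
  · intro e he
    have h1 : p • (e : AddCircle (1 : ℚ)) = 0 := congrArg Subtype.val he
    obtain ⟨m, _, hm⟩ := (AddCircle.nsmul_eq_zero_iff hp.pos).1 h1
    refine ⟨((m : ℤ) : ZMod p), ?_⟩
    rw [ZMod.lift_coe]
    apply Subtype.ext
    change (m : ℤ) • ((1 / p : ℚ) : AddCircle (1 : ℚ)) = _
    rw [← hm, natCast_zsmul, ← AddCircle.coe_nsmul]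
    congr 1
    rw [nsmul_eq_mul]
    field_simp

theorem finsupp_div {I E : Type} [AddCommGroup E]
    (h : ∀ n : ℤ, n ≠ 0 → ∀ x : E, ∃ y, n • y = x) (n : ℤ) (hn : n ≠ 0) (f : I →₀ E) :
    ∃ g : I →₀ E, n • g = f := by
  classical
  choose d hd using h n hn
  let d' : E → E := fun x => if x = 0 then 0 else d x
  have hd' : ∀ x, n • d' x = x := by
    intro x
    by_cases hx : x = 0
    · simp [d', hx]
    · simp [d', hx, hd]
  refine ⟨f.mapRange d' (by simp [d']), ?_⟩
  ext i
  simp [hd']

/-- surjection in the case of large `p`-socle -/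
theorem div_surj {D I : Type} [AddCommGroup D] (hD : ∀ n : ℤ, n ≠ 0 → ∀ x : D, ∃ y, n • y = x)
    {κ : Cardinal.{0}} (hκ : ℵ₀ ≤ κ) (p : ℕ) (hp : p.Prime)
    (hM : κ < #{x : D // p • x = 0}) (hI : #I ≤ Order.succ κ) :
    ∃ Φ : D →+ (I →₀ Pr p), Function.Surjective Φ := by
  classical
  have : Fact p.Prime := ⟨hp⟩
  let S : AddSubgroup D := (nsmulAddMonoidHom (α := D) p).ker
  have hS : ∀ x, x ∈ S ↔ p • x = 0 := fun x => Iff.rfl
  let _ : Module (ZMod p) S := AddCommGroup.zmodModule (fun x => Subtype.ext x.2)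
  have hcard : κ < #S := hM
  obtain ⟨g, hg⟩ := vec_surj (k := ZMod p) (M := S) (I := I) hκ hcard hI
  obtain ⟨j, hj⟩ := exists_j p hp
  let g' : S →+ (I →₀ Pr p) := (Finsupp.mapRange.addMonoidHom j).comp g
  let _ : DivisibleBy (I →₀ Pr p) ℤ := divisibleByOfSMulRightSurj _ _
    (fun {n} hn f => finsupp_div (Pr_div p hp) n hn f)
  obtain ⟨Φ, hΦ⟩ := (Module.Baer.of_divisible (I →₀ Pr p)).extension_property_addMonoidHom
    S.subtype S.subtype_injective g'
  have hΦ' : ∀ x : S, Φ x = g' x := fun x => DFunLike.congr_fun hΦ x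
  refine ⟨Φ, ?_⟩
  -- the range
  have hsoc : ∀ w : I →₀ Pr p, p • w = 0 → ∃ d, Φ d = w := by
    intro w hw
    have hw' : ∀ i, ∃ t, j t = w i := fun i => hj (w i) (by
      have := DFunLike.congr_fun hw i
      simpa using this)
    choose t ht using hw'
    let t' : I →₀ ZMod p := Finsupp.onFinset w.support (fun i => if w i = 0 then 0 else t i) (by
      intro i hi
      rw [Finsupp.mem_support_iff]
      intro h0
      apply hi
      simp [h0])
    obtain ⟨x, hx⟩ := hg t'
    refine ⟨x, ?_⟩
    rw [hΦ']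
    change Finsupp.mapRange.addMonoidHom j (g x) = w
    rw [hx]
    ext1 i
    rw [Finsupp.mapRange.addMonoidHom_apply, Finsupp.mapRange_apply]
    change j (if w i = 0 then 0 else t i) = w i
    split_ifs with h0
    · rw [h0, map_zero]
    · exact ht i
  have hord : ∀ n : ℕ, ∀ w : I →₀ Pr p, p ^ n • w = 0 → ∃ d, Φ d = w := by
    intro n
    induction n with
    | zero =>
      intro w hw
      refine ⟨0, ?_⟩
      rw [map_zero]
      simpa using hw.symm
    | succ n ih =>
      intro w hw
      obtain ⟨d, hd⟩ := ih (p • w) (by rw [smul_smul, ← pow_succ]; exact hw)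
      obtain ⟨d', hd'⟩ := hD p (by exact_mod_cast hp.ne_zero) d
      obtain ⟨d'', hd''⟩ := hsoc (w - Φ d') (by
        rw [smul_sub, ← map_nsmul, ← natCast_zsmul d', hd', hd, sub_self])
      exact ⟨d'' + d', by rw [map_add, hd'']; abel⟩
  intro w
  induction w using Finsupp.induction_linear with
  | zero => exact ⟨0, map_zero _⟩
  | add f g hf hg =>
    obtain ⟨a, ha⟩ := hf
    obtain ⟨b, hb⟩ := hg
    exact ⟨a + b, by rw [map_add, ha, hb]⟩
  | single i e =>
    obtain ⟨x, n, hn⟩ := e
    apply hord n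
    rw [Finsupp.smul_single]
    have : p ^ n • (⟨x, n, hn⟩ : Pr p) = 0 := Subtype.ext hn
    rw [this, Finsupp.single_zero]

/-- a divisible group of cardinality `> κ` maps onto a large direct sum -/
theorem div_surj' {D I : Type} [AddCommGroup D]
    (hD : ∀ n : ℤ, n ≠ 0 → ∀ x : D, ∃ y, n • y = x)
    {κ : Cardinal.{0}} (hκ : ℵ₀ ≤ κ) (hM : κ < #D) (hI : #I ≤ Order.succ κ) :
    ∃ (E : Type) (_ : AddCommGroup E), Countable E ∧ Nontrivial E ∧
      ∃ Φ : D →+ (I →₀ E), Function.Surjective Φ := by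
  classical
  let L := LocalizedModule (nonZeroDivisors ℤ) D
  let f : D →+ L := (LocalizedModule.mkLinearMap (nonZeroDivisors ℤ) D).toAddMonoidHom
  have hfd : ∀ x, f x = LocalizedModule.mk x 1 := fun x => rfl
  have hf : Function.Surjective f := by
    intro x
    induction x using LocalizedModule.induction_on with
    | h m s =>
      obtain ⟨m', hm'⟩ := hD s.1 (nonZeroDivisors.ne_zero s.2) m
      refine ⟨m', ?_⟩
      rw [hfd, LocalizedModule.mk_eq]
      refine ⟨1, ?_⟩
      simp only [one_smul]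
      exact hm'
  by_cases hL : κ < #L
  · have : Countable (FractionRing ℤ) := by
      have : Function.Surjective (fun q : ℤ × nonZeroDivisors ℤ =>
          (Localization.mk q.1 q.2 : FractionRing ℤ)) := by
        intro x
        induction x using Localization.induction_on with
        | H y => exact ⟨y, rfl⟩
      exact this.countable
    let _ : Module (FractionRing ℤ) L := inferInstanceAs
      (Module (Localization (nonZeroDivisors ℤ)) (LocalizedModule (nonZeroDivisors ℤ) D))
    obtain ⟨g, hg⟩ := vec_surj (k := FractionRing ℤ) (M := L) (I := I) hκ hL hI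
    exact ⟨FractionRing ℤ, inferInstance, this, inferInstance, g.comp f,
      hg.comp hf⟩
  · push Not at hL
    -- the torsion subgroup is large
    by_cases hp : ∃ p : ℕ, p.Prime ∧ κ < #{x : D // p • x = 0}
    · obtain ⟨p, hpp, hcard⟩ := hp
      obtain ⟨Φ, hΦ⟩ := div_surj hD hκ p hpp hcard hI
      exact ⟨Pr p, inferInstance, inferInstance, Pr_ne p hpp, Φ, hΦ⟩
    · exfalso
      push Not at hp
      have hn : ∀ n : ℕ, n ≠ 0 → #{x : D // n • x = 0} ≤ κ := by
        intro n
        induction n using Nat.strong_induction_on with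
        | _ n ih =>
          intro hn0
          by_cases h1 : n = 1
          · subst h1
            have : Subsingleton {x : D // 1 • x = 0} :=
              ⟨fun a b => Subtype.ext (by
                have ha := a.2
                have hb := b.2
                rw [one_smul] at ha hb
                rw [ha, hb])⟩
            exact (Cardinal.mk_le_aleph0_iff.2 inferInstance).trans hκ
          · obtain ⟨p, hpp, m, rfl⟩ := Nat.exists_prime_and_dvd h1
            have hm0 : m ≠ 0 := fun h => hn0 (by rw [h, mul_zero])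
            have hlt : m < p * m := by
              have := hpp.two_le
              nlinarith [Nat.pos_of_ne_zero hm0]
            let q : {x : D // (p * m) • x = 0} → {x : D // m • x = 0} :=
              fun x => ⟨p • x.1, by rw [smul_smul, mul_comm]; exact x.2⟩
            choose r hr using fun y : {y : {x : D // m • x = 0} // ∃ x, q x = y} => y.2
            let F : {x : D // (p * m) • x = 0} → {x : D // m • x = 0} × {x : D // p • x = 0} :=
              fun x => (q x, ⟨x.1 - (r ⟨q x, x, rfl⟩).1, by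
                have := congrArg Subtype.val (hr ⟨q x, x, rfl⟩)
                rw [smul_sub, sub_eq_zero]
                exact this.symm⟩)
            have hF : Function.Injective F := by
              intro x y hxy
              have h2 : q x = q y := congrArg Prod.fst hxy
              have h3 := congrArg Subtype.val (congrArg Prod.snd hxy)
              change x.1 - (r ⟨q x, x, rfl⟩).1 = y.1 - (r ⟨q y, y, rfl⟩).1 at h3
              have h4 : r ⟨q x, x, rfl⟩ = r ⟨q y, y, rfl⟩ := by
                congr 1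
                exact Subtype.ext h2
              rw [h4] at h3
              exact Subtype.ext (sub_left_injective h3)
            refine (Cardinal.mk_le_of_injective hF).trans ?_
            rw [Cardinal.mk_prod, Cardinal.lift_id, Cardinal.lift_id]
            exact (mul_le_mul' (ih m hlt hm0) (hp p hpp)).trans (Cardinal.mul_eq_self hκ).le
      have hker : #{x : D // f x = 0} ≤ κ := by
        have hsub : ∀ x : {x : D // f x = 0}, ∃ n : ℕ, n ≠ 0 ∧ n • x.1 = 0 := by
          intro x
          have h1 : f x.1 = LocalizedModule.mk 0 1 :=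
            x.2.trans (LocalizedModule.zero_mk (S := nonZeroDivisors ℤ) (M := D) 1).symm
          rw [hfd, LocalizedModule.mk_eq] at h1
          obtain ⟨c, hc⟩ := h1
          simp only [one_smul, smul_zero] at hc
          have hc0 : (c : ℤ) ≠ 0 := nonZeroDivisors.ne_zero c.2
          refine ⟨(c : ℤ).natAbs, Int.natAbs_ne_zero.2 hc0, ?_⟩
          have hc' : (c : ℤ) • x.1 = 0 := hc
          rcases Int.natAbs_eq (c : ℤ) with h | h
          · rw [← natCast_zsmul, ← h]; exact hc'
          · have : (((c : ℤ).natAbs : ℕ) : ℤ) = -(c : ℤ) := by omega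
            rw [← natCast_zsmul, this, neg_smul, hc', neg_zero]
        choose n hn0 hnx using hsub
        let F : {x : D // f x = 0} → Σ n : {n : ℕ // n ≠ 0}, {x : D // n.1 • x = 0} :=
          fun x => ⟨⟨n x, hn0 x⟩, ⟨x.1, hnx x⟩⟩
        have hF : Function.Injective F := by
          intro x y hxy
          apply Subtype.ext
          have h1 : (F x).2.1 = (F y).2.1 := by rw [hxy]
          exact h1
        refine (Cardinal.mk_le_of_injective hF).trans ?_
        rw [Cardinal.mk_sigma]
        refine (Cardinal.sum_le_sum _ (fun _ => κ) (fun i : {n : ℕ // n ≠ 0} => hn i.1 i.2)).trans ?_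
        rw [Cardinal.sum_const, Cardinal.lift_id, Cardinal.lift_id]
        exact (mul_le_mul' ((Cardinal.mk_le_aleph0_iff.2 inferInstance).trans hκ) le_rfl).trans
          (Cardinal.mul_eq_self hκ).le
      have hle : #D ≤ κ := by
        choose r hr using hf
        let F : D → L × {x : D // f x = 0} := fun x => (f x, ⟨x - r (f x), by
          rw [map_sub, hr, sub_self]⟩)
        have hF : Function.Injective F := by
          intro x y hxy
          have h2 : f x = f y := congrArg Prod.fst hxy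
          have h3 := congrArg Subtype.val (congrArg Prod.snd hxy)
          change x - r (f x) = y - r (f y) at h3
          rw [h2] at h3
          exact sub_left_injective h3
        refine (Cardinal.mk_le_of_injective hF).trans ?_
        rw [Cardinal.mk_prod, Cardinal.lift_id, Cardinal.lift_id]
        exact (mul_le_mul' hL hker).trans (Cardinal.mul_eq_self hκ).le
      exact absurd hM (not_lt.2 hle)

theorem card_sigma_le {κ : Cardinal.{0}} (hκ : ℵ₀ ≤ κ) {ι : Type} [Countable ι] (f : ι → Type)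
    (h : ∀ i, #(f i) ≤ κ) : #(Σ i, f i) ≤ κ := by
  rw [Cardinal.mk_sigma]
  refine (Cardinal.sum_le_sum _ (fun _ => κ) h).trans ?_
  rw [Cardinal.sum_const, Cardinal.lift_id, Cardinal.lift_id]
  exact (mul_le_mul' ((Cardinal.mk_le_aleph0_iff.2 inferInstance).trans hκ) le_rfl).trans
    (Cardinal.mul_eq_self hκ).le

theorem card_quot_le {X : Type} [AddCommGroup X] {κ : Cardinal.{0}} (hκ : ℵ₀ ≤ κ)
    (S : AddSubgroup X) (h1 : #(X ⧸ S) ≤ κ) (h2 : #S ≤ κ) : #X ≤ κ := by
  have h4 : #X = #(X ⧸ S) * #S := by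
    rw [Cardinal.mk_congr (AddSubgroup.addGroupEquivQuotientProdAddSubgroup (s := S)),
      Cardinal.mk_prod, Cardinal.lift_id, Cardinal.lift_id]
  rw [h4]
  exact (mul_le_mul' h1 h2).trans (Cardinal.mul_eq_self hκ).le

/-- Every abelian group of cardinality `> κ` maps onto a direct sum of `κ⁺` copies of a
nontrivial countable group. -/
theorem exists_surj {X I : Type} [AddCommGroup X] {κ : Cardinal.{0}} (hκ : ℵ₀ ≤ κ) (hX : κ < #X)
    (hI : #I ≤ Order.succ κ) :
    ∃ (E : Type) (_ : AddCommGroup E), Countable E ∧ Nontrivial E ∧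
      ∃ Φ : X →+ (I →₀ E), Function.Surjective Φ := by
  classical
  by_cases h1 : ∃ p : ℕ, p.Prime ∧ κ < #(X ⧸ (nsmulAddMonoidHom (α := X) p).range)
  · obtain ⟨p, hp, hcard⟩ := h1
    have : Fact p.Prime := ⟨hp⟩
    let _ : Module (ZMod p) (X ⧸ (nsmulAddMonoidHom (α := X) p).range) :=
      AddCommGroup.zmodModule (fun x => by
        obtain ⟨x, rfl⟩ := QuotientAddGroup.mk_surjective x
        rw [← QuotientAddGroup.mk_nsmul, QuotientAddGroup.eq_zero_iff]
        exact ⟨x, rfl⟩)
    obtain ⟨g, hg⟩ := vec_surj (k := ZMod p)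
      (M := X ⧸ (nsmulAddMonoidHom (α := X) p).range) (I := I) hκ hcard hI
    exact ⟨ZMod p, inferInstance, inferInstance, inferInstance,
      g.comp (QuotientAddGroup.mk' _), hg.comp (QuotientAddGroup.mk'_surjective _)⟩
  · push Not at h1
    let J := Σ p : {p : ℕ // p.Prime}, X ⧸ (nsmulAddMonoidHom (α := X) p.1).range
    have hJ : #J ≤ κ := card_sigma_le hκ _ (fun i => h1 i.1 i.2)
    let s : J → X := fun q => Quotient.out q.2
    let A : (J →₀ ℤ) →+ X := Finsupp.liftAddHom (fun q => zmultiplesHom X (s q))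
    let S : AddSubgroup X := A.range
    have hsS : ∀ q, s q ∈ S := fun q => ⟨Finsupp.single q 1, by simp [A]⟩
    have hS : #S ≤ κ := by
      have h2 : #S ≤ #(J →₀ ℤ) := Cardinal.mk_le_of_surjective A.rangeRestrict_surjective
      exact h2.trans (card_finsupp_le hκ hJ)
    have hprime : ∀ p : ℕ, p.Prime → ∀ x : X ⧸ S, ∃ y : X ⧸ S, p • y = x := by
      intro p hp x
      obtain ⟨x, rfl⟩ := QuotientAddGroup.mk_surjective x
      let q : J := ⟨⟨p, hp⟩, (x : X ⧸ (nsmulAddMonoidHom (α := X) p).range)⟩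
      have h3 : ((s q : X) : X ⧸ (nsmulAddMonoidHom (α := X) p).range) = x :=
        Quotient.out_eq' _
      rw [QuotientAddGroup.eq] at h3
      obtain ⟨y, hy⟩ := h3
      refine ⟨(y : X ⧸ S), ?_⟩
      rw [← QuotientAddGroup.mk_nsmul, QuotientAddGroup.eq]
      have hy' : p • y = -s q + x := hy
      rw [hy']
      have : -(-s q + x) + x = s q := by abel
      rw [this]
      exact hsS q
    have hnat : ∀ n : ℕ, n ≠ 0 → ∀ x : X ⧸ S, ∃ y : X ⧸ S, n • y = x := by
      intro n
      induction n using Nat.strong_induction_on with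
      | _ n ih =>
        intro hn0 x
        by_cases h1 : n = 1
        · subst h1
          exact ⟨x, one_smul _ _⟩
        · obtain ⟨p, hpp, m, rfl⟩ := Nat.exists_prime_and_dvd h1
          have hm0 : m ≠ 0 := fun h => hn0 (by rw [h, mul_zero])
          have hlt : m < p * m := by
            have := hpp.two_le
            nlinarith [Nat.pos_of_ne_zero hm0]
          obtain ⟨y, hy⟩ := hprime p hpp x
          obtain ⟨z, hz⟩ := ih m hlt hm0 y
          exact ⟨z, by rw [mul_smul, hz, hy]⟩
    have hdiv : ∀ n : ℤ, n ≠ 0 → ∀ x : X ⧸ S, ∃ y, n • y = x := by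
      intro n hn x
      obtain ⟨y, hy⟩ := hnat n.natAbs (Int.natAbs_ne_zero.2 hn) x
      rcases Int.natAbs_eq n with h | h
      · exact ⟨y, by rw [h, natCast_zsmul, hy]⟩
      · exact ⟨-y, by rw [h, neg_smul, smul_neg, neg_neg, natCast_zsmul, hy]⟩
    have hcard : κ < #(X ⧸ S) := by
      by_contra hle
      push Not at hle
      exact absurd (card_quot_le hκ S hle hS) (not_le.2 hX)
    obtain ⟨E, i1, i2, i3, Φ, hΦ⟩ := div_surj' hdiv hκ hcard hI
    exact ⟨E, i1, i2, i3, Φ.comp (QuotientAddGroup.mk' S),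
      hΦ.comp (QuotientAddGroup.mk'_surjective S)⟩

end H645
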