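import Mathlib

set_option autoImplicit false
set_option linter.style.haveILetI false

open Filter Topology Pointwise

namespace H645

/-- minimality of a Hausdorff abelian topological group -/
def IsMin (G : Type) [AddCommGroup G] [τ : TopologicalSpace G] : Prop :=
  ∀ σ : TopologicalSpace G, @IsTopologicalAddGroup G σ _ → @T2Space G σ → τ ≤ σ → σ = τ

/-- tightness at most `κ` -/
def Tight (κ : Cardinal.{0}) (G : Type) [TopologicalSpace G] : Prop :=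
  ∀ A : Set G, ∀ x ∈ closure A, ∃ B ⊆ A, Cardinal.mk B ≤ κ ∧ x ∈ closure B

/-- pseudocharacter at most `κ` -/
def Psi (κ : Cardinal.{0}) (G : Type) [AddCommGroup G] [TopologicalSpace G] : Prop :=
  ∃ 𝒱 : Set (Set G), Cardinal.mk 𝒱 ≤ κ ∧ (∀ V ∈ 𝒱, V ∈ 𝓝 (0 : G)) ∧
    ∀ x, (∀ V ∈ 𝒱, x ∈ V) → x = 0

theorem le_of_nhds_zero {G : Type} [AddCommGroup G] (τ σ : TopologicalSpace G)
    (hτ : @IsTopologicalAddGroup G τ _) (hσ : @IsTopologicalAddGroup G σ _)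
    (h : @nhds G τ 0 ≤ @nhds G σ 0) : τ ≤ σ := by
  refine le_of_nhds_le_nhds ?_
  intro x
  have e1 := @map_add_left_nhds_zero G τ _ hτ x
  have e2 := @map_add_left_nhds_zero G σ _ hσ x
  rw [← e1, ← e2]
  exact Filter.map_mono h

/-- Coarsening a group topology by a base of small sets. -/
theorem mkTop {G : Type} [AddCommGroup G] [τ : TopologicalSpace G] [IsTopologicalAddGroup G]
    (B : Set (Set G)) (h1 : B.Nonempty) (h2 : ∀ D ∈ B, (0 : G) ∈ D)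
    (h3 : ∀ D ∈ B, ∀ D' ∈ B, ∃ D'' ∈ B, D'' ⊆ D ∩ D')
    (h4 : ∀ D ∈ B, ∃ D' ∈ B, D' + D' ⊆ D)
    (h5 : ∀ D ∈ B, ∃ D' ∈ B, -D' ⊆ D)
    (h6 : ∀ x : G, x ≠ 0 → ∃ V ∈ 𝓝 (0 : G), ∃ D ∈ B, x ∉ V + D) :
    ∃ σ : TopologicalSpace G, @IsTopologicalAddGroup G σ _ ∧ @T2Space G σ ∧ τ ≤ σ ∧
      ∀ S : Set G, S ∈ @nhds G σ 0 ↔ ∃ V ∈ @nhds G τ (0 : G), ∃ D ∈ B, V + D ⊆ S := by
  let FB : AddGroupFilterBasis G :=
    { sets := {S | ∃ V ∈ 𝓝 (0 : G), ∃ D ∈ B, S = V + D}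
      nonempty := by
        obtain ⟨D, hD⟩ := h1
        exact ⟨Set.univ + D, Set.univ, univ_mem, D, hD, rfl⟩
      inter_sets := by
        rintro _ _ ⟨V, hV, D, hD, rfl⟩ ⟨V', hV', D', hD', rfl⟩
        obtain ⟨D'', hD'', hs⟩ := h3 D hD D' hD'
        refine ⟨(V ∩ V') + D'', ⟨V ∩ V', inter_mem hV hV', D'', hD'', rfl⟩, ?_⟩
        refine Set.subset_inter ?_ ?_
        · exact Set.add_subset_add Set.inter_subset_left (hs.trans Set.inter_subset_left)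
        · exact Set.add_subset_add Set.inter_subset_right (hs.trans Set.inter_subset_right)
      zero' := by
        rintro _ ⟨V, hV, D, hD, rfl⟩
        exact ⟨0, mem_of_mem_nhds hV, 0, h2 D hD, add_zero 0⟩
      add' := by
        rintro _ ⟨V, hV, D, hD, rfl⟩
        obtain ⟨D', hD', hs⟩ := h4 D hD
        obtain ⟨W, hW, hWs⟩ := exists_nhds_zero_half hV
        refine ⟨W + D', ⟨W, hW, D', hD', rfl⟩, ?_⟩
        rintro _ ⟨_, ⟨a, ha, b, hb, rfl⟩, _, ⟨c, hc, d, hd, rfl⟩, rfl⟩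
        refine ⟨a + c, hWs a ha c hc, b + d, hs ⟨b, hb, d, hd, rfl⟩, ?_⟩
        simp only
        abel
      neg' := by
        rintro _ ⟨V, hV, D, hD, rfl⟩
        obtain ⟨D', hD', hs⟩ := h5 D hD
        refine ⟨(-V) + D', ⟨-V, neg_mem_nhds_zero G hV, D', hD', rfl⟩, ?_⟩
        rintro _ ⟨a, ha, b, hb, rfl⟩
        refine ⟨-a, ha, -b, hs (by simpa using hb), ?_⟩
        simp only
        abel
      conj' := by
        rintro x _ ⟨V, hV, D, hD, rfl⟩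
        refine ⟨V + D, ⟨V, hV, D, hD, rfl⟩, ?_⟩
        intro y hy
        simpa using hy }
  have key : ∀ S : Set G, S ∈ @nhds G FB.topology 0 ↔
      ∃ V ∈ @nhds G τ (0 : G), ∃ D ∈ B, V + D ⊆ S := by
    intro S
    rw [(FB.nhds_zero_hasBasis).mem_iff]
    constructor
    · rintro ⟨_, ⟨V, hV, D, hD, rfl⟩, hs⟩
      exact ⟨V, hV, D, hD, hs⟩
    · rintro ⟨V, hV, D, hD, hs⟩
      exact ⟨_, ⟨V, hV, D, hD, rfl⟩, hs⟩
  have hgrp : @IsTopologicalAddGroup G FB.topology _ := FB.isTopologicalAddGroup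
  have h6' : ∀ x : G, x ≠ 0 → ∃ U ∈ @nhds G FB.topology 0, x ∉ U := by
    intro x hx
    obtain ⟨V, hV, D, hD, hxn⟩ := h6 x hx
    exact ⟨V + D, (key _).2 ⟨V, hV, D, hD, subset_rfl⟩, hxn⟩
  refine ⟨FB.topology, hgrp, ?_, ?_, key⟩
  · exact @IsTopologicalAddGroup.t2Space_of_zero_sep G FB.topology _ hgrp h6'
  · apply le_of_nhds_zero τ FB.topology inferInstance hgrp
    intro S hS
    obtain ⟨V, hV, D, hD, hs⟩ := (key S).1 hS
    refine mem_of_superset hV ?_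
    intro v hv
    exact hs ⟨v, hv, 0, h2 D hD, add_zero v⟩

/-- The minimality criterion used throughout. -/
theorem IsMin.subset {G : Type} [AddCommGroup G] [τ : TopologicalSpace G] [IsTopologicalAddGroup G]
    (hG : IsMin G)
    (B : Set (Set G)) (h1 : B.Nonempty) (h2 : ∀ D ∈ B, (0 : G) ∈ D)
    (h3 : ∀ D ∈ B, ∀ D' ∈ B, ∃ D'' ∈ B, D'' ⊆ D ∩ D')
    (h4 : ∀ D ∈ B, ∃ D' ∈ B, D' + D' ⊆ D)
    (h5 : ∀ D ∈ B, ∃ D' ∈ B, -D' ⊆ D)
    (h6 : ∀ x : G, x ≠ 0 → ∃ V ∈ 𝓝 (0 : G), ∃ D ∈ B, x ∉ V + D)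
    (V : Set G) (hV : V ∈ 𝓝 (0 : G)) : ∃ D ∈ B, D ⊆ V := by
  obtain ⟨σ, hσ, hσ2, hle, hn⟩ := mkTop B h1 h2 h3 h4 h5 h6
  have h := hG σ hσ hσ2 hle
  rw [h] at hn
  obtain ⟨W, hW, D, hD, hs⟩ := (hn V).1 hV
  refine ⟨D, hD, ?_⟩
  intro d hd
  exact hs ⟨0, @mem_of_mem_nhds G τ 0 W hW, d, hd, zero_add d⟩

/-- Closed subgroups of a locally minimal abelian group which are contained, together with a
neighbourhood, in the witnessing neighbourhood, are minimal. -/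
theorem isMin_of_closed {G : Type} [AddCommGroup G] [τ : TopologicalSpace G]
    [IsTopologicalAddGroup G]
    (U : Set G) (hG : ∀ σ : TopologicalSpace G, @IsTopologicalAddGroup G σ _ → @T2Space G σ →
      τ ≤ σ → U ∈ @nhds G σ 0 → σ = τ)
    (S : AddSubgroup G) (hS : IsClosed (S : Set G))
    (hSU : ∃ W ∈ 𝓝 (0 : G), W + (S : Set G) ⊆ U) : IsMin S := by
  let τS : TopologicalSpace S := instTopologicalSpaceSubtype
  have hτS : @IsTopologicalAddGroup S τS _ := inferInstance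
  have hcomap : ∀ O : Set S, O ∈ @nhds S τS 0 ↔ ∃ V ∈ @nhds G τ 0, (Subtype.val : S → G) ⁻¹' V ⊆ O := by
    intro O
    have e : @nhds S τS 0 = comap (Subtype.val : S → G) (@nhds G τ ((0 : S) : G)) :=
      nhds_subtype_eq_comap
    rw [e, mem_comap]
    simp
  intro σ hσ hσ2 hle
  change τS ≤ σ at hle
  have hnle : @nhds S τS 0 ≤ @nhds S σ 0 := nhds_mono hle
  let B : Set (Set G) := {D | ∃ W ∈ @nhds S σ 0, D = (Subtype.val : S → G) '' W}
  have hhalf : ∀ W ∈ @nhds S σ 0, ∃ W' ∈ @nhds S σ 0, W' + W' ⊆ W := by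
    intro W hW
    obtain ⟨W', hW', h⟩ := @exists_nhds_zero_half S σ _ _ W hW
    refine ⟨W', hW', ?_⟩
    rintro _ ⟨a, ha, b, hb, rfl⟩
    exact h a ha b hb
  have H := mkTop (τ := τ) B ?_ ?_ ?_ ?_ ?_ ?_
  · obtain ⟨σ', hσ', hσ2', hle', hn'⟩ := H
    have hU : U ∈ @nhds G σ' 0 := by
      obtain ⟨W, hW, hWU⟩ := hSU
      refine (hn' U).2 ⟨W, hW, _, ⟨Set.univ, univ_mem, rfl⟩, ?_⟩
      refine (Set.add_subset_add subset_rfl ?_).trans hWU
      rintro _ ⟨s, -, rfl⟩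
      exact s.2
    have heq := hG σ' hσ' hσ2' hle' hU
    rw [heq] at hn'
    have h8 : @nhds S σ 0 ≤ @nhds S τS 0 := by
      intro O hO
      obtain ⟨V, hV, hVO⟩ := (hcomap O).1 hO
      obtain ⟨V1, hV1, _, ⟨W, hW, rfl⟩, hs⟩ := (hn' V).1 hV
      refine mem_of_superset hW ?_
      intro w hw
      apply hVO
      exact hs ⟨0, @mem_of_mem_nhds G τ 0 V1 hV1, _, ⟨w, hw, rfl⟩, by simp⟩
    have h9 : σ ≤ τS := le_of_nhds_zero σ τS hσ hτS h8
    exact le_antisymm h9 hle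
  · exact ⟨_, Set.univ, univ_mem, rfl⟩
  · rintro _ ⟨W, hW, rfl⟩
    exact ⟨0, @mem_of_mem_nhds S σ 0 W hW, rfl⟩
  · rintro _ ⟨W, hW, rfl⟩ _ ⟨W', hW', rfl⟩
    exact ⟨_, ⟨W ∩ W', inter_mem hW hW', rfl⟩, Set.image_inter_subset _ _ _⟩
  · rintro _ ⟨W, hW, rfl⟩
    obtain ⟨W', hW', hs⟩ := hhalf W hW
    refine ⟨_, ⟨W', hW', rfl⟩, ?_⟩
    rintro _ ⟨_, ⟨a, ha, rfl⟩, _, ⟨b, hb, rfl⟩, rfl⟩
    exact ⟨a + b, hs ⟨a, ha, b, hb, rfl⟩, by simp⟩
  · rintro _ ⟨W, hW, rfl⟩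
    refine ⟨_, ⟨-W, @neg_mem_nhds_zero S σ _ _ W hW, rfl⟩, ?_⟩
    rintro x ⟨a, ha, hax⟩
    exact ⟨-a, ha, by simp [hax]⟩
  · intro x hx
    by_contra hcon
    push Not at hcon
    -- x in the closure of S
    have hxS : x ∈ S := by
      have : x ∈ closure (S : Set G) := by
        rw [mem_closure_iff_nhds]
        intro T hT
        have h1 : (fun v => x - v) ⁻¹' T ∈ 𝓝 (0 : G) := by
          have hc : ContinuousAt (fun v : G => x - v) 0 := by fun_prop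
          apply hc
          simpa using hT
        obtain ⟨v, hv, _, ⟨w, -, rfl⟩, hvw⟩ := hcon _ h1 _ ⟨Set.univ, univ_mem, rfl⟩
        refine ⟨(w : G), ?_, w.2⟩
        have : x - v = (w : G) := by
          simp only at hvw
          rw [← hvw]; abel
        rw [← this]
        exact hv
      rwa [hS.closure_eq] at this
    let s : S := ⟨x, hxS⟩
    have hs0 : s ≠ 0 := fun h => hx (congrArg Subtype.val h)
    obtain ⟨O, hO, hsO⟩ : ∃ O ∈ @nhds S σ 0, s ∉ O := by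
      have hopen : @IsOpen S σ {s}ᶜ := @isOpen_compl_singleton S σ _ s
      exact ⟨{s}ᶜ, hopen.mem_nhds (fun h => hs0 h.symm), by simp⟩
    obtain ⟨W, hW, hWO⟩ := hhalf O hO
    obtain ⟨V, hV, hVW⟩ := (hcomap W).1 (hnle hW)
    obtain ⟨v, hv, _, ⟨w, hw, rfl⟩, hvw⟩ := hcon V hV _ ⟨W, hW, rfl⟩
    have hsw : s - w ∈ W := by
      apply hVW
      change ((s - w : S) : G) ∈ V
      have : ((s - w : S) : G) = v := by
        simp only at hvw
        change x - (w : G) = v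
        rw [← hvw]; abel
      rw [this]
      exact hv
    apply hsO
    apply hWO
    exact ⟨s - w, hsw, w, hw, by simp⟩

theorem IsMin.closed {G : Type} [AddCommGroup G] [τ : TopologicalSpace G]
    [IsTopologicalAddGroup G] (hG : IsMin G)
    (S : AddSubgroup G) (hS : IsClosed (S : Set G)) : IsMin S :=
  isMin_of_closed Set.univ (fun σ h1 h2 h3 _ => hG σ h1 h2 h3) S hS
    ⟨Set.univ, univ_mem, Set.subset_univ _⟩

end H645
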