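import Pool.Agent.Helper472.Lat_PW

set_option autoImplicit false
set_option linter.style.haveILetI false

open Filter Topology Pointwise

namespace H645

theorem common_eigen {K : Type} [CommGroup K] {V : Type} [AddCommGroup V] [Module ℂ V]
    [FiniteDimensional ℂ V] (ρ : K →* (V →ₗ[ℂ] V)) (n : ℕ) : ∀ W : Submodule ℂ V,
    Module.finrank ℂ W = n → W ≠ ⊥ → (∀ g, ∀ w ∈ W, ρ g w ∈ W) →
    ∃ v ∈ W, v ≠ 0 ∧ ∀ g, ∃ c : ℂ, ρ g v = c • v := by
  induction n using Nat.strong_induction_on with
  | _ n ih =>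
    intro W hn hW hinv
    have hnt : Nontrivial W := (Submodule.nontrivial_iff_ne_bot).2 hW
    by_cases hall : ∀ g, ∃ c : ℂ, ∀ w ∈ W, ρ g w = c • w
    · obtain ⟨v, hv, hv0⟩ := (Submodule.ne_bot_iff W).1 hW
      exact ⟨v, hv, hv0, fun g => (hall g).imp fun c hc => hc v hv⟩
    · push Not at hall
      obtain ⟨g, hg⟩ := hall
      obtain ⟨c, hc⟩ := Module.End.exists_eigenvalue ((ρ g).restrict (hinv g))
      let E : Submodule ℂ V := W ⊓ Module.End.eigenspace (ρ g) c
      have hE : ∀ x, x ∈ E ↔ x ∈ W ∧ ρ g x = c • x := fun x => by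
        simp only [E, Submodule.mem_inf, Module.End.mem_eigenspace_iff]
      have hEW : E ≤ W := inf_le_left
      have hEne : E ≠ ⊥ := by
        obtain ⟨w, hw⟩ := hc.exists_hasEigenvector
        rw [Submodule.ne_bot_iff]
        refine ⟨w, (hE _).2 ⟨w.2, ?_⟩, ?_⟩
        · have := Module.End.mem_eigenspace_iff.1 hw.1
          exact congrArg Subtype.val this
        · intro h0
          exact hw.2 (Subtype.ext h0)
      have hlt : E < W := by
        refine lt_of_le_of_ne hEW ?_
        intro he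
        obtain ⟨w, hw, hne⟩ := hg c
        rw [← he] at hw
        exact hne ((hE w).1 hw).2
      obtain ⟨v, hv, hv0, hvg⟩ := ih _ (by rw [← hn]; exact Submodule.finrank_lt_finrank_of_lt hlt)
        E rfl hEne (by
          intro h w hw
          rw [hE] at hw ⊢
          refine ⟨hinv h w hw.1, ?_⟩
          have : ρ g (ρ h w) = ρ h (ρ g w) := by
            rw [← Module.End.mul_apply, ← Module.End.mul_apply, ← map_mul, ← map_mul, mul_comm]
          rw [this, hw.2, map_smul])
      exact ⟨v, hEW hv, hv0, hvg⟩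

open Matrix ComplexOrder in
theorem char_sep_mul (K : Type) [CommGroup K] [TopologicalSpace K] [IsTopologicalGroup K]
    [CompactSpace K] [T2Space K] (k : K) (hk : k ≠ 1) :
    ∃ χ : K →* Circle, Continuous χ ∧ χ k ≠ 1 := by
  obtain ⟨ι, _, _, ρ, hρ, hρk⟩ := Pool.LatH472.PW K k hk
  let R : K →* ((ι → ℂ) →ₗ[ℂ] (ι → ℂ)) :=
    { toFun := fun g => Matrix.toLin' (ρ g : Matrix ι ι ℂ)
      map_one' := by simp; rfl
      map_mul' := fun g h => by
        rw [map_mul]
        change Matrix.toLin' ((ρ g : Matrix ι ι ℂ) * (ρ h : Matrix ι ι ℂ)) = _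
        rw [Matrix.toLin'_mul]
        rfl }
  have hR : ∀ g v, R g v = (ρ g : Matrix ι ι ℂ) *ᵥ v := fun g v => Matrix.toLin'_apply _ _
  have hun : ∀ g (v w : ι → ℂ), star (R g v) ⬝ᵥ (R g w) = star v ⬝ᵥ w := by
    intro g v w
    rw [hR, hR, Matrix.star_mulVec, ← Matrix.dotProduct_mulVec, Matrix.mulVec_mulVec]
    have := (Matrix.mem_unitaryGroup_iff'.1 (ρ g).2)
    rw [Matrix.star_eq_conjTranspose] at this
    rw [this, Matrix.one_mulVec]
  let W : Submodule ℂ (ι → ℂ) := LinearMap.range (R k - 1)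
  have hW : W ≠ ⊥ := by
    intro h0
    rw [LinearMap.range_eq_bot, sub_eq_zero] at h0
    apply hρk
    apply Subtype.ext
    have h1 : Matrix.toLin' (ρ k : Matrix ι ι ℂ) = Matrix.toLin' 1 := by
      rw [Matrix.toLin'_one]; exact h0
    exact Matrix.toLin'.injective h1
  have hinv : ∀ g, ∀ w ∈ W, R g w ∈ W := by
    rintro g _ ⟨v, rfl⟩
    refine ⟨R g v, ?_⟩
    have : R k (R g v) = R g (R k v) := by
      rw [← Module.End.mul_apply, ← Module.End.mul_apply, ← map_mul, ← map_mul, mul_comm]
    simp only [LinearMap.sub_apply, Module.End.one_apply, map_sub, this]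
  have hfix : ∀ w ∈ W, R k w = w → w = 0 := by
    rintro _ ⟨v, rfl⟩ hw
    have h1 : star (R k v - v) ⬝ᵥ (R k v - v) = 0 := by
      have hw' : R k (R k v - v) = R k v - v := hw
      have e1 : star (R k v) ⬝ᵥ (R k v - v) = star v ⬝ᵥ (R k v - v) := by
        conv_lhs => rw [← hw']
        exact hun k v _
      rw [star_sub, sub_dotProduct, e1, sub_self]
    have h2 : R k v - v = 0 := dotProduct_star_self_eq_zero.1 h1
    exact h2
  obtain ⟨v, hvW, hv0, hv⟩ := common_eigen R _ W rfl hW hinv
  choose c hc using hv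
  obtain ⟨i, hi⟩ : ∃ i, v i ≠ 0 := by
    by_contra hcon
    push Not at hcon
    exact hv0 (funext hcon)
  have hcv : ∀ g, c g = (R g v) i / v i := by
    intro g
    rw [hc]
    simp [hi]
  have hvv : star v ⬝ᵥ v ≠ 0 := by
    intro h
    exact hv0 (dotProduct_star_self_eq_zero.1 h)
  have hcn : ∀ g, ‖c g‖ = 1 := by
    intro g
    have h1 := hun g v v
    rw [hc, star_smul, smul_dotProduct, dotProduct_smul, smul_smul] at h1
    have h2 : star (c g) * c g = 1 := by
      have h3 : (star (c g) * c g - 1) * (star v ⬝ᵥ v) = 0 := by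
        rw [sub_mul, one_mul, sub_eq_zero]
        exact h1
      rcases mul_eq_zero.1 h3 with h | h
      · exact sub_eq_zero.1 h
      · exact absurd h hvv
    have h4 : ((‖c g‖ ^ 2 : ℝ) : ℂ) = 1 := by
      rw [← h2]
      have := Complex.conj_mul' (c g)
      rw [Complex.ofReal_pow]
      exact this.symm
    have h5 : ‖c g‖ ^ 2 = 1 := by exact_mod_cast h4
    nlinarith [norm_nonneg (c g)]
  have hc1 : c 1 = 1 := by
    rw [hcv, map_one]
    simp [hi]
  have hcm : ∀ g h, c (g * h) = c g * c h := by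
    intro g h
    have h1 : c (g * h) • v = (c g * c h) • v := by
      rw [← hc, map_mul, Module.End.mul_apply, hc h, map_smul, hc g, smul_smul, mul_comm]
    have := congrFun h1 i
    simpa [hi] using this
  refine ⟨{ toFun := fun g => ⟨c g, mem_sphere_zero_iff_norm.2 (hcn g)⟩
            map_one' := by
              apply Subtype.ext
              exact hc1
            map_mul' := fun g h => by
              apply Subtype.ext
              exact hcm g h }, ?_, ?_⟩
  · apply Continuous.subtype_mk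
    have : c = fun g => ((ρ g : Matrix ι ι ℂ) *ᵥ v) i / v i := by
      funext g
      rw [hcv, hR]
    rw [this]
    fun_prop
  · intro h1
    have h2 : c k = 1 := congrArg Subtype.val h1
    apply hv0
    apply hfix v hvW
    rw [hc, h2, one_smul]

theorem char_sep (K : Type) [AddCommGroup K] [TopologicalSpace K] [IsTopologicalAddGroup K]
    [CompactSpace K] [T2Space K] (k : K) (hk : k ≠ 0) :
    ∃ χ : K →+ UnitAddCircle, Continuous χ ∧ χ k ≠ 0 := by
  have : T2Space (Multiplicative K) := inferInstanceAs (T2Space K)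
  obtain ⟨χ, hχ, hχk⟩ := char_sep_mul (Multiplicative K) (Multiplicative.ofAdd k) (by simpa using hk)
  have hT : (1 : ℝ) ≠ 0 := one_ne_zero
  have hcirc : Function.Injective (AddCircle.toCircle : AddCircle (1 : ℝ) → Circle) :=
    AddCircle.injective_toCircle hT
  let H := AddCircle.homeomorphCircle (T := (1 : ℝ)) hT
  have hH : ∀ z, AddCircle.toCircle (H.symm z) = z := by
    intro z
    rw [← AddCircle.homeomorphCircle_apply hT]
    exact H.apply_symm_apply z
  refine ⟨{ toFun := fun x => H.symm (χ (Multiplicative.ofAdd x))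
            map_zero' := ?_
            map_add' := ?_ }, ?_, ?_⟩
  · apply hcirc
    rw [hH]
    simp
  · intro x y
    apply hcirc
    rw [hH, AddCircle.toCircle_add, hH, hH, ofAdd_add, map_mul]
  · exact H.symm.continuous.comp (hχ.comp continuous_ofAdd)
  · intro h
    apply hχk
    have h1 : H.symm (χ (Multiplicative.ofAdd k)) = 0 := h
    rw [← hH (χ _), h1]
    simp

theorem no_small {x : UnitAddCircle} (h : ∀ n : ℕ, ‖n • x‖ < 1 / 4) : x = 0 := by
  have hd : ∀ y : UnitAddCircle, ‖y‖ < 1 / 4 → ‖2 • y‖ = 2 * ‖y‖ := by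
    intro y hy
    obtain ⟨t, ht, hty⟩ : ∃ t : ℝ, (t : UnitAddCircle) = y ∧ |t| = ‖y‖ := by
      induction y using QuotientAddGroup.induction_on with
      | H z =>
        refine ⟨z - round z, ?_, ?_⟩
        · have : ((round z : ℝ) : UnitAddCircle) = 0 := by
            rw [AddCircle.coe_eq_zero_iff]
            exact ⟨round z, by simp⟩
          rw [AddCircle.coe_sub, this, sub_zero]
        · have := UnitAddCircle.norm_eq (x := z)
          exact this.symm
    have h1 : ‖((2 * t : ℝ) : UnitAddCircle)‖ = |2 * t| := by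
      rw [AddCircle.norm_coe_eq_abs_iff (1 : ℝ) one_ne_zero]
      rw [abs_mul, abs_one, hty]
      norm_num
      linarith
    have h2 : 2 • y = ((2 * t : ℝ) : UnitAddCircle) := by
      rw [← ht, two_mul, AddCircle.coe_add, two_smul]
    rw [h2, h1, abs_mul, hty]
    norm_num
  have h2 : ∀ n : ℕ, ‖(2 ^ n) • x‖ = 2 ^ n * ‖x‖ := by
    intro n
    induction n with
    | zero => simp
    | succ n ih =>
      rw [pow_succ, mul_comm, mul_smul, hd _ (h _), ih]
      ring
  by_contra hx
  have hpos : 0 < ‖x‖ := norm_pos_iff.2 hx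
  obtain ⟨n, hn⟩ := pow_unbounded_of_one_lt (1 / ‖x‖) (by norm_num : (1 : ℝ) < 2)
  have h3 := h (2 ^ n)
  rw [h2 n] at h3
  rw [div_lt_iff₀ hpos] at hn
  linarith

end H645
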