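import Pool.Agent.H645R3.PAdic

set_option autoImplicit false
set_option linter.style.haveILetI false

open Filter Topology Pointwise Cardinal

namespace H645

/-- total boundedness -/
def Precpt (G : Type) [AddCommGroup G] [TopologicalSpace G] : Prop :=
  ∀ U ∈ 𝓝 (0 : G), ∃ F : Finset G, ∀ x, ∃ f ∈ F, x - f ∈ U

def PsiIn {G : Type} [AddCommGroup G] [TopologicalSpace G] (κ : Cardinal.{0})
    (S : AddSubgroup G) : Prop :=
  ∃ 𝒱 : Set (Set G), Cardinal.mk 𝒱 ≤ κ ∧ (∀ V ∈ 𝒱, V ∈ 𝓝 (0 : G)) ∧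
    ∀ x ∈ S, (∀ V ∈ 𝒱, x ∈ V) → x = 0

theorem nhds_sub {G : Type} [AddCommGroup G] [TopologicalSpace G] (S : AddSubgroup G) (O : Set S) :
    O ∈ 𝓝 (0 : S) ↔ ∃ V ∈ 𝓝 (0 : G), (Subtype.val : S → G) ⁻¹' V ⊆ O := by
  rw [nhds_subtype_eq_comap, mem_comap]
  simp

theorem Tight.sub {G : Type} [TopologicalSpace G] {κ : Cardinal.{0}} (h : Tight κ G) (S : Set G) :
    Tight κ S := by
  intro A x hx
  rw [closure_subtype] at hx
  obtain ⟨B, hBA, hB, hxB⟩ := h _ _ hx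
  refine ⟨Subtype.val ⁻¹' B, ?_, ?_, ?_⟩
  · intro y hy
    obtain ⟨z, hz, hzy⟩ := hBA hy
    rwa [← Subtype.ext hzy]
  · refine le_trans ?_ hB
    exact Cardinal.mk_preimage_of_injective _ _ Subtype.val_injective
  · rw [closure_subtype]
    rw [Set.image_preimage_eq_of_subset]
    · exact hxB
    · intro y hy
      obtain ⟨z, _, hzy⟩ := hBA hy
      exact ⟨z, hzy⟩

theorem psi_of_psiIn {G : Type} [AddCommGroup G] [TopologicalSpace G] {κ : Cardinal.{0}}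
    {S : AddSubgroup G} (h : PsiIn κ S) : Psi κ S := by
  obtain ⟨𝒱, h1, h2, h3⟩ := h
  refine ⟨(fun V : Set G => (Subtype.val : S → G) ⁻¹' V) '' 𝒱, ?_, ?_, ?_⟩
  · exact Cardinal.mk_image_le.trans h1
  · rintro _ ⟨V, hV, rfl⟩
    exact (nhds_sub S _).2 ⟨V, h2 V hV, subset_rfl⟩
  · intro x hx
    apply Subtype.ext
    apply h3 x.1 x.2
    intro V hV
    exact hx _ ⟨V, hV, rfl⟩

theorem psiIn_of_psi {G : Type} [AddCommGroup G] [TopologicalSpace G] {κ : Cardinal.{0}}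
    {S : AddSubgroup G} (h : Psi κ S) : PsiIn κ S := by
  obtain ⟨𝒱, h1, h2, h3⟩ := h
  have : ∀ V : Set S, ∃ W ∈ 𝓝 (0 : G), V ∈ 𝒱 → (Subtype.val : S → G) ⁻¹' W ⊆ V := by
    intro V
    by_cases hV : V ∈ 𝒱
    · obtain ⟨W, hW, hs⟩ := (nhds_sub S _).1 (h2 V hV)
      exact ⟨W, hW, fun _ => hs⟩
    · exact ⟨Set.univ, univ_mem, fun h => absurd h hV⟩
  choose f hf hfs using this
  refine ⟨f '' 𝒱, Cardinal.mk_image_le.trans h1, ?_, ?_⟩
  · rintro _ ⟨V, _, rfl⟩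
    exact hf V
  · intro x hx hall
    have := h3 ⟨x, hx⟩ (fun V hV => hfs V hV (hall _ ⟨V, hV, rfl⟩))
    exact congrArg Subtype.val this

theorem exists_chain {G : Type} [AddCommGroup G] [TopologicalSpace G] [IsTopologicalAddGroup G]
    (V : Set G) (hV : V ∈ 𝓝 (0 : G)) :
    ∃ c : ℕ → Set G, c 0 ⊆ V ∧ (∀ n, c n ∈ 𝓝 (0 : G)) ∧ (∀ n, IsClosed (c n)) ∧
      ∀ n, ∀ x ∈ c (n + 1), ∀ y ∈ c (n + 1), x - y ∈ c n := by
  have hstep : ∀ A : Set G, A ∈ 𝓝 (0 : G) → ∃ C : Set G, C ∈ 𝓝 (0 : G) ∧ IsClosed C ∧ C ⊆ A ∧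
      ∀ x ∈ C, ∀ y ∈ C, x - y ∈ A := by
    intro A hA
    obtain ⟨U, hU, hs⟩ := exists_nhds_half_neg hA
    obtain ⟨C, hC, hCc, hCU⟩ := exists_mem_nhds_isClosed_subset hU
    refine ⟨C, hC, hCc, ?_, fun x hx y hy => hs x (hCU hx) y (hCU hy)⟩
    intro x hx
    have := hs x (hCU hx) 0 (mem_of_mem_nhds hU)
    simpa using this
  obtain ⟨C0, hC0, hC0c, hC0V, _⟩ := hstep V hV
  choose! f hf1 hf2 hf3 hf4 using hstep
  let c : ℕ → Set G := fun n => Nat.rec C0 (fun _ A => f A) n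
  have hc0 : c 0 = C0 := rfl
  have hcs : ∀ n, c (n + 1) = f (c n) := fun n => rfl
  have hcn : ∀ n, c n ∈ 𝓝 (0 : G) := by
    intro n
    induction n with
    | zero => exact hC0
    | succ n ih => rw [hcs]; exact hf1 _ ih
  refine ⟨c, hC0V, hcn, ?_, ?_⟩
  · intro n
    cases n with
    | zero => exact hC0c
    | succ n => rw [hcs]; exact hf2 _ (hcn n)
  · intro n x hx y hy
    rw [hcs] at hx hy
    exact hf4 _ (hcn n) x hx y hy

theorem exists_Gk {G : Type} [AddCommGroup G] [TopologicalSpace G] [IsTopologicalAddGroup G]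
    {κ : Cardinal.{0}} (hκ : ℵ₀ ≤ κ) (𝒲 : Set (Set G)) (hW : Cardinal.mk 𝒲 ≤ κ)
    (hWn : ∀ W ∈ 𝒲, W ∈ 𝓝 (0 : G)) :
    ∃ S : AddSubgroup G, IsClosed (S : Set G) ∧ (∀ x ∈ S, ∀ W ∈ 𝒲, x ∈ W) ∧
      (PsiIn κ S → Psi κ G) := by
  have hch : ∀ W : Set G, ∃ c : ℕ → Set G, (W ∈ 𝒲 → c 0 ⊆ W) ∧ (∀ n, c n ∈ 𝓝 (0 : G)) ∧
      (∀ n, IsClosed (c n)) ∧ ∀ n, ∀ x ∈ c (n + 1), ∀ y ∈ c (n + 1), x - y ∈ c n := by
    intro W
    by_cases h : W ∈ 𝒲
    · obtain ⟨c, h1, h2, h3, h4⟩ := exists_chain W (hWn W h)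
      exact ⟨c, fun _ => h1, h2, h3, h4⟩
    · exact ⟨fun _ => Set.univ, fun h' => absurd h' h, fun _ => univ_mem, fun _ => isClosed_univ,
        fun _ _ _ _ _ => Set.mem_univ _⟩
  choose c hc1 hc2 hc3 hc4 using hch
  let S : AddSubgroup G :=
    { carrier := {x | ∀ W ∈ 𝒲, ∀ n, x ∈ c W n}
      zero_mem' := fun W _ n => mem_of_mem_nhds (hc2 W n)
      add_mem' := by
        intro x y hx hy W hW n
        have h0 : ∀ n, -y ∈ c W n := by
          intro n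
          have := hc4 W n 0 (mem_of_mem_nhds (hc2 W (n + 1))) y (hy W hW (n + 1))
          simpa using this
        have := hc4 W n x (hx W hW (n + 1)) (-y) (h0 (n + 1))
        simpa using this
      neg_mem' := by
        intro x hx W hW n
        have := hc4 W n 0 (mem_of_mem_nhds (hc2 W (n + 1))) x (hx W hW (n + 1))
        simpa using this }
  refine ⟨S, ?_, ?_, ?_⟩
  · have : (S : Set G) = ⋂ W ∈ 𝒲, ⋂ n, c W n := by
      ext x
      simp only [Set.mem_iInter]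
      exact Iff.rfl
    rw [this]
    exact isClosed_biInter fun W _ => isClosed_iInter fun n => hc3 W n
  · intro x hx W hW
    exact hc1 W hW (hx W hW 0)
  · rintro ⟨𝒱, h1, h2, h3⟩
    refine ⟨𝒱 ∪ (fun q : Set G × ℕ => c q.1 q.2) '' (𝒲 ×ˢ Set.univ), ?_, ?_, ?_⟩
    · refine (Cardinal.mk_union_le _ _).trans ?_
      refine (add_le_add h1 (Cardinal.mk_image_le.trans ?_)).trans (Cardinal.add_eq_self hκ).le
      rw [Cardinal.mk_setProd]
      rw [Cardinal.mk_univ]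
      simp only [Cardinal.mk_nat]
      refine (mul_le_mul' hW hκ).trans (Cardinal.mul_eq_self hκ).le
    · rintro V (hV | ⟨⟨W, n⟩, _, rfl⟩)
      · exact h2 V hV
      · exact hc2 W n
    · intro x hx
      apply h3 x
      · intro W hW n
        exact hx _ (Or.inr ⟨(W, n), ⟨hW, Set.mem_univ _⟩, rfl⟩)
      · intro V hV
        exact hx _ (Or.inl hV)

/-- a counterexample group -/
structure Bad (κ : Cardinal.{0}) (G : Type) [AddCommGroup G] [TopologicalSpace G] : Prop where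
  tg : IsTopologicalAddGroup G
  t2 : T2Space G
  min : IsMin G
  tight : Tight κ G
  psi : ¬ Psi κ G

theorem Bad.sub {κ : Cardinal.{0}} {G : Type} [AddCommGroup G] [TopologicalSpace G] (h : Bad κ G)
    (S : AddSubgroup G) (hS : IsClosed (S : Set G)) (hn : ¬ PsiIn κ S) : Bad κ S := by
  have := h.tg
  have := h.t2
  refine ⟨inferInstance, inferInstance, h.min.closed S hS, h.tight.sub _, fun h' => hn (psiIn_of_psi h')⟩

theorem Bad.avoid {κ : Cardinal.{0}} (hκ : ℵ₀ ≤ κ) {G : Type} [AddCommGroup G] [TopologicalSpace G]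
    (h : Bad κ G) (T : ℕ → AddSubgroup G) (hT : ∀ i, PsiIn κ (T i)) :
    ∃ S : AddSubgroup G, IsClosed (S : Set G) ∧ Bad κ S ∧ ∀ i, ∀ x ∈ S, x ∈ T i → x = 0 := by
  have := h.tg
  choose 𝒱 h1 h2 h3 using hT
  obtain ⟨S, hSc, hSW, hS⟩ := exists_Gk hκ (⋃ i, 𝒱 i) (by
    refine (Cardinal.mk_iUnion_le _).trans ?_
    refine (mul_le_mul' (by simpa using hκ) (ciSup_le' h1)).trans (Cardinal.mul_eq_self hκ).le) (by
    intro W hW
    obtain ⟨i, hi⟩ := Set.mem_iUnion.1 hW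
    exact h2 i W hi)
  refine ⟨S, hSc, h.sub S hSc (fun hp => h.psi (hS hp)), fun i x hx hxT => ?_⟩
  exact h3 i x hxT (fun V hV => hSW x hx V (Set.mem_iUnion.2 ⟨i, hV⟩))

theorem not_bad_subsingleton {κ : Cardinal.{0}} {G : Type} [AddCommGroup G] [TopologicalSpace G]
    (h : ∀ x : G, x = 0) : ¬ Bad κ G := by
  intro hb
  exact hb.psi ⟨∅, by simp, by simp, fun x _ => h x⟩

/-- `closure (j G)` -/
def clm (G : Type) [AddCommGroup G] [TopologicalSpace G] [IsTopologicalAddGroup G] (j : ℕ) :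
    AddSubgroup G := (nsmulAddMonoidHom (α := G) j).range.topologicalClosure

theorem mem_clm {G : Type} [AddCommGroup G] [TopologicalSpace G] [IsTopologicalAddGroup G] (j : ℕ)
    (x : G) : x ∈ clm G j ↔ ∀ V ∈ 𝓝 (0 : G), ∃ y : G, x - j • y ∈ V := by
  unfold clm
  rw [← SetLike.mem_coe, AddSubgroup.topologicalClosure_coe, mem_closure_iff_nhds]
  constructor
  · intro h V hV
    have h1 : (fun z => x - z) ⁻¹' V ∈ 𝓝 x := by
      have hc : ContinuousAt (fun z : G => x - z) x := by fun_prop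
      apply hc
      simpa using hV
    obtain ⟨z, hz, ⟨y, rfl⟩⟩ := h _ h1
    exact ⟨y, hz⟩
  · intro h V hV
    have h1 : (fun z => x - z) ⁻¹' V ∈ 𝓝 (0 : G) := by
      have hc : ContinuousAt (fun z : G => x - z) 0 := by fun_prop
      apply hc
      simpa using hV
    obtain ⟨y, hy⟩ := h _ h1
    refine ⟨j • y, ?_, ⟨y, rfl⟩⟩
    simpa using hy

theorem isClosed_clm {G : Type} [AddCommGroup G] [TopologicalSpace G] [IsTopologicalAddGroup G]
    (j : ℕ) : IsClosed (clm G j : Set G) :=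
  AddSubgroup.isClosed_topologicalClosure _

theorem not_mem_clm {G : Type} [AddCommGroup G] [TopologicalSpace G] [IsTopologicalAddGroup G]
    (j : ℕ) (x : G) (h : x ∉ clm G j) : ∃ V ∈ 𝓝 (0 : G), ∀ v ∈ V, ∀ y : G, x ≠ v + j • y := by
  rw [mem_clm] at h
  push Not at h
  obtain ⟨V, hV, h⟩ := h
  refine ⟨V, hV, fun v hv y hxy => h y ?_⟩
  rw [hxy, add_sub_cancel_right]
  exact hv

theorem Precpt.of_cover {G : Type} [AddCommGroup G] [TopologicalSpace G] [IsTopologicalAddGroup G]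
    (S : AddSubgroup G)
    (h : ∀ U ∈ 𝓝 (0 : G), ∃ F : Finset G, ∀ x ∈ S, ∃ f ∈ F, x - f ∈ U) : Precpt S := by
  classical
  intro O hO
  obtain ⟨U, hU, hUO⟩ := (nhds_sub S O).1 hO
  obtain ⟨U1, hU1, hs⟩ := exists_nhds_half_neg hU
  obtain ⟨F, hF⟩ := h U1 hU1
  have : ∀ f : G, ∃ c : S, (∃ x ∈ S, x - f ∈ U1) → (c : G) - f ∈ U1 := by
    intro f
    by_cases hf : ∃ x ∈ S, x - f ∈ U1
    · obtain ⟨x, hx, hxf⟩ := hf
      exact ⟨⟨x, hx⟩, fun _ => hxf⟩
    · exact ⟨0, fun h => absurd h hf⟩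
  choose c hc using this
  refine ⟨F.image c, fun x => ?_⟩
  obtain ⟨f, hf, hx⟩ := hF x x.2
  refine ⟨c f, Finset.mem_image_of_mem _ hf, ?_⟩
  apply hUO
  change ((x - c f : S) : G) ∈ U
  have := hs _ hx _ (hc f ⟨x, x.2, hx⟩)
  rw [sub_sub_sub_cancel_right] at this
  exact this

/-- The precompact core. -/
def CC (G : Type) [AddCommGroup G] [TopologicalSpace G] [IsTopologicalAddGroup G] : AddSubgroup G :=
  ⨅ j : {j : ℕ // 1 ≤ j}, clm G j

theorem mem_CC {G : Type} [AddCommGroup G] [TopologicalSpace G] [IsTopologicalAddGroup G] (x : G) :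
    x ∈ CC G ↔ ∀ j, 1 ≤ j → x ∈ clm G j := by
  unfold CC
  rw [AddSubgroup.mem_iInf]
  exact ⟨fun h j hj => h ⟨j, hj⟩, fun h j => h j.1 j.2⟩

theorem isClosed_CC (G : Type) [AddCommGroup G] [TopologicalSpace G] [IsTopologicalAddGroup G] :
    IsClosed (CC G : Set G) := by
  unfold CC
  rw [AddSubgroup.coe_iInf]
  exact isClosed_iInter fun j => isClosed_clm _

theorem precpt_CC {G : Type} [AddCommGroup G] [TopologicalSpace G] [IsTopologicalAddGroup G]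
    [T2Space G] (hG : IsMin G) : Precpt (CC G) := by
  classical
  apply Precpt.of_cover
  intro U hU
  obtain ⟨V, hV, hs⟩ := exists_nhds_zero_half hU
  obtain ⟨j, hj, F, hF⟩ := hG.big V hV
  refine ⟨F.image (fun f => j • f), fun x hx => ?_⟩
  obtain ⟨y, hy⟩ := (mem_clm j x).1 ((mem_CC x).1 hx j hj) V hV
  obtain ⟨f, hf, hyf⟩ := hF y
  refine ⟨j • f, Finset.mem_image_of_mem _ hf, ?_⟩
  have := hs _ hy _ hyf
  rw [smul_sub, sub_add_sub_cancel] at this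
  exact this

end H645
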