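import Pool.Agent.H645R3.SW
import Pool.Agent.H645R3.Red

set_option autoImplicit false
set_option linter.style.haveILetI false

open Filter Topology Pointwise Cardinal

namespace H645

theorem exists_compl (P : Type) [AddCommGroup P] [TopologicalSpace P] [IsTopologicalAddGroup P]
    (hP : Precpt P) :
    ∃ (K : Type) (_ : AddCommGroup K) (_ : TopologicalSpace K) (_ : IsTopologicalAddGroup K)
      (_ : CompactSpace K) (_ : T2Space K) (i : P →+ K), IsInducing i ∧ DenseRange i ∧
      ∀ χ ∈ XX P, ∃ ψ ∈ XX K, ∀ x, ψ (i x) = χ x := by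
  let _ : UniformSpace P := IsTopologicalAddGroup.rightUniformSpace P
  have _ : IsUniformAddGroup P := isUniformAddGroup_of_addCommGroup
  have htb : TotallyBounded (Set.univ : Set P) := by
    intro d hd
    rw [uniformity_eq_comap_nhds_zero P, mem_comap] at hd
    obtain ⟨U, hU, hUd⟩ := hd
    obtain ⟨F, hF⟩ := hP (-U) (neg_mem_nhds_zero P hU)
    refine ⟨F, F.finite_toSet, ?_⟩
    intro x _
    obtain ⟨f, hf, hx⟩ := hF x
    rw [Set.mem_iUnion₂]
    refine ⟨f, hf, hUd ?_⟩
    rw [Set.mem_neg, neg_sub] at hx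
    exact hx
  have hcomp : CompactSpace (UniformSpace.Completion P) := by
    constructor
    rw [isCompact_iff_totallyBounded_isComplete]
    refine ⟨?_, isClosed_univ.isComplete⟩
    have h1 := (htb.image (UniformSpace.Completion.uniformContinuous_coe P)).closure
    rw [Set.image_univ, UniformSpace.Completion.denseRange_coe.closure_range] at h1
    exact h1
  refine ⟨UniformSpace.Completion P, inferInstance, inferInstance, inferInstance, hcomp,
    inferInstance, UniformSpace.Completion.toCompl, ?_, ?_, ?_⟩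
  · exact (UniformSpace.Completion.isUniformInducing_coe P).isInducing
  · exact UniformSpace.Completion.denseRange_coe
  · intro χ hχ
    let f : P →+ UnitAddCircle := AddMonoidHom.mk' χ hχ.2
    have hf : Continuous f := hχ.1
    refine ⟨f.extension hf, ⟨AddMonoidHom.continuous_extension f hf, fun x y => map_add _ x y⟩, ?_⟩
    intro x
    exact AddMonoidHom.extension_coe f hf x

theorem XX_zero {P : Type} [AddCommGroup P] [TopologicalSpace P] {χ : P → UnitAddCircle}
    (h : χ ∈ XX P) : χ 0 = 0 := by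
  have := h.2 0 0
  simpa using this

theorem XX_sub {P : Type} [AddCommGroup P] [TopologicalSpace P] {χ : P → UnitAddCircle}
    (h : χ ∈ XX P) (x y : P) : χ (x - y) = χ x - χ y := by
  have := h.2 (x - y) y
  rw [sub_add_cancel] at this
  rw [this]; abel

theorem nhds_char_compact {K : Type} [AddCommGroup K] [TopologicalSpace K]
    [IsTopologicalAddGroup K] [CompactSpace K] [T2Space K] (U : Set K) (hU : U ∈ 𝓝 (0 : K)) :
    ∃ F : Finset (K → UnitAddCircle), (∀ χ ∈ F, χ ∈ XX K) ∧ ∃ ε > (0 : ℝ),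
      ∀ x, (∀ χ ∈ F, ‖χ x‖ < ε) → x ∈ U := by
  classical
  let C : Set K := (interior U)ᶜ
  have hC : IsCompact C := isOpen_interior.isClosed_compl.isCompact
  obtain ⟨t, ht⟩ := hC.elim_finite_subcover (fun χ : XX K => {x : K | χ.1 x ≠ 0})
    (fun χ => isOpen_ne.preimage χ.2.1) (by
      intro x hx
      have hx0 : x ≠ 0 := by
        rintro rfl
        exact hx (mem_interior_iff_mem_nhds.2 hU)
      obtain ⟨χ, hχ, hχx⟩ := char_sep K x hx0
      exact Set.mem_iUnion.2 ⟨⟨χ, hχ, fun a b => map_add χ a b⟩, hχx⟩)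
  by_cases hne : C.Nonempty
  · let g : K → ℝ := fun x => ∑ χ ∈ t, ‖χ.1 x‖
    have hg : Continuous g := continuous_finsetSum _ fun χ _ => χ.2.1.norm
    obtain ⟨x0, hx0, hmin⟩ := hC.exists_isMinOn hne hg.continuousOn
    have hpos : 0 < g x0 := by
      obtain ⟨χ, hχt, hχ⟩ := Set.mem_iUnion₂.1 (ht hx0)
      exact lt_of_lt_of_le (norm_pos_iff.2 hχ)
        (Finset.single_le_sum (f := fun χ : XX K => ‖χ.1 x0‖) (fun _ _ => norm_nonneg _) hχt)
    have hcard : (0 : ℝ) < t.card + 1 := by positivity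
    refine ⟨t.image (fun χ => χ.1), ?_, g x0 / (t.card + 1), by positivity, ?_⟩
    · intro χ hχ
      obtain ⟨ψ, _, rfl⟩ := Finset.mem_image.1 hχ
      exact ψ.2
    · intro x hx
      by_contra hxU
      have hxC : x ∈ C := fun h => hxU (interior_subset h)
      have h1 : g x0 ≤ g x := hmin hxC
      have h2 : g x ≤ t.card * (g x0 / (t.card + 1)) := by
        have : g x ≤ ∑ _χ ∈ t, g x0 / (t.card + 1) :=
          Finset.sum_le_sum fun χ hχ => (hx χ.1 (Finset.mem_image_of_mem _ hχ)).le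
        rw [Finset.sum_const, nsmul_eq_mul] at this
        exact this
      have h3 : (t.card : ℝ) * (g x0 / (t.card + 1)) < g x0 := by
        rw [mul_div_assoc', div_lt_iff₀ hcard]
        nlinarith
      linarith
  · refine ⟨∅, by simp, 1, one_pos, fun x _ => ?_⟩
    by_contra hxU
    exact hne ⟨x, fun h => hxU (interior_subset h)⟩

theorem nhds_char {P : Type} [AddCommGroup P] [TopologicalSpace P] [IsTopologicalAddGroup P]
    (hP : Precpt P) (U : Set P) (hU : U ∈ 𝓝 (0 : P)) :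
    ∃ F : Finset (P → UnitAddCircle), (∀ χ ∈ F, χ ∈ XX P) ∧ ∃ ε > (0 : ℝ),
      ∀ x, (∀ χ ∈ F, ‖χ x‖ < ε) → x ∈ U := by
  classical
  obtain ⟨K, _, _, _, _, _, i, hi, hd, _⟩ := exists_compl P hP
  rw [hi.nhds_eq_comap, mem_comap] at hU
  obtain ⟨V, hV, hVU⟩ := hU
  rw [map_zero] at hV
  obtain ⟨F, hF, ε, hε, h⟩ := nhds_char_compact V hV
  refine ⟨F.image (fun ψ x => ψ (i x)), ?_, ε, hε, ?_⟩
  · intro χ hχ
    obtain ⟨ψ, hψ, rfl⟩ := Finset.mem_image.1 hχ
    exact ⟨(hF ψ hψ).1.comp hi.continuous, fun x y => by beta_reduce; rw [map_add, (hF ψ hψ).2]⟩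
  · intro x hx
    apply hVU
    apply h
    intro ψ hψ
    exact hx _ (Finset.mem_image_of_mem _ hψ)

theorem char_sep_precpt {P : Type} [AddCommGroup P] [TopologicalSpace P] [IsTopologicalAddGroup P]
    [T2Space P] (hP : Precpt P) (x : P) (h : ∀ χ ∈ XX P, χ x = 0) : x = 0 := by
  by_contra hx
  obtain ⟨F, hF, ε, hε, h1⟩ := nhds_char hP {x}ᶜ
    (isOpen_compl_singleton.mem_nhds (fun h => hx (by simpa using h.symm)))
  have := h1 x (fun χ hχ => by rw [h χ (hF χ hχ), norm_zero]; exact hε)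
  exact this rfl

theorem psi_of_card {P : Type} [AddCommGroup P] [TopologicalSpace P] [IsTopologicalAddGroup P]
    [T2Space P] (hP : Precpt P) {κ : Cardinal.{0}} (hκ : ℵ₀ ≤ κ)
    (h : Cardinal.mk (XX P) ≤ κ) : Psi κ P := by
  refine ⟨Set.range (fun q : XX P × ℕ => {x : P | ‖q.1.1 x‖ < 1 / ((q.2 : ℝ) + 1)}), ?_, ?_, ?_⟩
  · refine Cardinal.mk_range_le.trans ?_
    rw [Cardinal.mk_prod]
    simp only [Cardinal.lift_id, Cardinal.mk_nat]
    exact (mul_le_mul' h hκ).trans (Cardinal.mul_eq_self hκ).le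
  · rintro _ ⟨⟨χ, n⟩, rfl⟩
    have hc : Continuous fun x => ‖χ.1 x‖ := χ.2.1.norm
    have h1 : {x : P | ‖χ.1 x‖ < 1 / ((n : ℝ) + 1)} ∈ 𝓝 (0 : P) := by
      refine (isOpen_lt hc continuous_const).mem_nhds ?_
      change ‖χ.1 0‖ < _
      rw [XX_zero χ.2, norm_zero]
      positivity
    exact h1
  · intro x hx
    apply char_sep_precpt hP
    intro χ hχ
    by_contra hne
    have hpos : 0 < ‖χ x‖ := norm_pos_iff.2 hne
    obtain ⟨n, hn⟩ := exists_nat_one_div_lt hpos
    have := hx _ ⟨(⟨χ, hχ⟩, n), rfl⟩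
    have h2 : ‖χ x‖ < 1 / ((n : ℝ) + 1) := this
    linarith

/-- In a minimal precompact group a proper subgroup of the character group does not separate
points. -/
theorem IsMin.annihilator {P : Type} [AddCommGroup P] [τ : TopologicalSpace P]
    [IsTopologicalAddGroup P] [T2Space P] (hM : IsMin P) (hP : Precpt P)
    (Y : AddSubgroup (P → UnitAddCircle)) (hY : Y ≤ XX P) (hne : ¬ XX P ≤ Y) :
    ∃ z : P, z ≠ 0 ∧ ∀ χ ∈ Y, χ z = 0 := by
  by_contra hcon
  push Not at hcon
  apply hne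
  let Φ : P →+ (Y → UnitAddCircle) :=
    AddMonoidHom.mk' (fun x χ => χ.1 x) (fun x y => funext fun χ => (hY χ.2).2 x y)
  have hΦc : @Continuous P (Y → UnitAddCircle) τ _ Φ := continuous_pi fun χ => (hY χ.2).1
  have hΦi : Function.Injective Φ := by
    intro x y hxy
    by_contra hne'
    obtain ⟨χ, hχ, h1⟩ := hcon (x - y) (sub_ne_zero.2 hne')
    apply h1
    rw [XX_sub (hY hχ), sub_eq_zero]
    exact congrFun hxy ⟨χ, hχ⟩
  have heq : TopologicalSpace.induced Φ inferInstance = τ := by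
    apply hM
    · exact topologicalAddGroup_induced Φ
    · exact @T2Space.of_injective_continuous P (Y → UnitAddCircle)
        (TopologicalSpace.induced Φ inferInstance) _ _ Φ hΦi continuous_induced_dom
    · exact continuous_iff_le_induced.1 hΦc
  have hind : @IsInducing P (Y → UnitAddCircle) τ _ Φ := ⟨heq.symm⟩
  obtain ⟨K, _, _, _, _, _, i, hi, hd, hext⟩ := exists_compl P hP
  let Y' : AddSubgroup (K → UnitAddCircle) :=
    { carrier := {ψ | ψ ∈ XX K ∧ (fun x => ψ (i x)) ∈ Y}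
      zero_mem' := ⟨(XX K).zero_mem, Y.zero_mem⟩
      add_mem' := fun ha hb => ⟨(XX K).add_mem ha.1 hb.1, Y.add_mem ha.2 hb.2⟩
      neg_mem' := fun ha => ⟨(XX K).neg_mem ha.1, Y.neg_mem ha.2⟩ }
  have hsw := sw Y' (fun ψ hψ => hψ.1) (by
    intro k hk
    by_contra hall
    push Not at hall
    apply hk
    have hNB : (comap i (𝓝 k)).NeBot := by
      rw [comap_neBot_iff]
      intro t ht
      obtain ⟨_, h1, a, rfl⟩ := mem_closure_iff_nhds.1 (hd k) t ht
      exact ⟨a, h1⟩
    have hchar : ∀ χ : Y, Tendsto (fun x => χ.1 x) (comap i (𝓝 k)) (𝓝 0) := by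
      intro χ
      obtain ⟨ψ, hψ, hψχ⟩ := hext χ.1 (hY χ.2)
      have h1 : (fun x => ψ (i x)) = χ.1 := funext hψχ
      have h2 : ψ ∈ Y' := ⟨hψ, by rw [h1]; exact χ.2⟩
      have h3 : Tendsto ψ (𝓝 k) (𝓝 0) := by
        have := hψ.1.tendsto k
        rwa [hall ψ h2] at this
      rw [← h1]
      exact h3.comp tendsto_comap
    have h4 : Tendsto Φ (comap i (𝓝 k)) (𝓝 (Φ 0)) := by
      rw [map_zero]
      exact tendsto_pi_nhds.2 hchar
    have h5 : comap i (𝓝 k) ≤ 𝓝 0 := by
      rw [hind.nhds_eq_comap]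
      exact h4.le_comap
    have h6 : Tendsto i (comap i (𝓝 k)) (𝓝 (i 0)) := (hi.continuous.tendsto 0).mono_left h5
    rw [map_zero] at h6
    exact tendsto_nhds_unique tendsto_comap h6)
  intro χ hχ
  obtain ⟨ψ, hψ, hψχ⟩ := hext χ hχ
  have h1 : (fun x => ψ (i x)) = χ := funext hψχ
  rw [← h1]
  exact (hsw hψ).2

end H645
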