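import Mathlib

set_option autoImplicit false
set_option linter.style.haveILetI false
set_option warn.classDefReducibility false

open Filter Topology Pointwise

noncomputable section

namespace H645.Heis

/-- the countable Boolean group -/
abbrev GG : Type := ℕ →₀ ZMod 2

/-- its algebraic dual -/
abbrev FF : Type := GG →+ ZMod 2

/-- the generalized Heisenberg group -/
@[ext] structure HH : Type where
  a : ZMod 2
  f : FF
  g : GG

namespace HH

instance : One HH := ⟨⟨0, 0, 0⟩⟩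
instance : Mul HH := ⟨fun x y => ⟨x.a + y.a + x.f y.g, x.f + y.f, x.g + y.g⟩⟩
instance : Inv HH := ⟨fun x => ⟨-x.a + x.f x.g, -x.f, -x.g⟩⟩

@[simp] theorem one_a : (1 : HH).a = 0 := rfl
@[simp] theorem one_f : (1 : HH).f = 0 := rfl
@[simp] theorem one_g : (1 : HH).g = 0 := rfl
@[simp] theorem mul_a (x y : HH) : (x * y).a = x.a + y.a + x.f y.g := rfl
@[simp] theorem mul_f (x y : HH) : (x * y).f = x.f + y.f := rfl
@[simp] theorem mul_g (x y : HH) : (x * y).g = x.g + y.g := rfl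
@[simp] theorem inv_a (x : HH) : (x⁻¹).a = -x.a + x.f x.g := rfl
@[simp] theorem inv_f (x : HH) : (x⁻¹).f = -x.f := rfl
@[simp] theorem inv_g (x : HH) : (x⁻¹).g = -x.g := rfl

instance : Group HH :=
  Group.ofLeftAxioms
    (by
      intro x y z
      ext
      · simp only [mul_a, mul_f, mul_g, AddMonoidHom.add_apply, map_add]; ring
      · simp [add_assoc]
      · simp [add_assoc])
    (by intro x; ext <;> simp)
    (by
      intro x
      ext
      · simp only [mul_a, inv_a, inv_f, AddMonoidHom.neg_apply, one_a]; ring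
      · simp
      · simp)

theorem conj_eq (x y : HH) (hy : y.f = 0) :
    x * y * x⁻¹ = ⟨y.a + x.f y.g, 0, y.g⟩ := by
  ext
  · simp only [mul_a, mul_f, inv_a, inv_g, AddMonoidHom.add_apply, map_neg, hy,
      AddMonoidHom.zero_apply, add_zero]
    ring
  · simp [hy]
  · simp

theorem comm_eq (x y : HH) :
    x * y * x⁻¹ * y⁻¹ = ⟨x.f y.g - y.f x.g, 0, 0⟩ := by
  ext
  · simp only [mul_a, mul_f, inv_a, inv_f, mul_g, inv_g, AddMonoidHom.add_apply, map_neg,
      AddMonoidHom.neg_apply, map_add]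
    ring
  · simp
  · simp

end HH

/-- basic neighbourhoods -/
def BB (K : Finset FF) : Set HH := {x | x.a = 0 ∧ x.f = 0 ∧ ∀ k ∈ K, k x.g = 0}

theorem one_mem_BB (K : Finset FF) : (1 : HH) ∈ BB K := ⟨rfl, rfl, fun k _ => map_zero k⟩

theorem BB_anti {K K' : Finset FF} (h : K ⊆ K') : BB K' ⊆ BB K :=
  fun _ hx => ⟨hx.1, hx.2.1, fun k hk => hx.2.2 k (h hk)⟩

/-- the filter basis -/
def fb : GroupFilterBasis HH where
  sets := Set.range BB
  nonempty := ⟨_, ∅, rfl⟩
  inter_sets := by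
    classical
    rintro _ _ ⟨K, rfl⟩ ⟨K', rfl⟩
    exact ⟨_, ⟨K ∪ K', rfl⟩, fun x hx =>
      ⟨BB_anti Finset.subset_union_left hx, BB_anti Finset.subset_union_right hx⟩⟩
  one' := by
    rintro _ ⟨K, rfl⟩
    exact one_mem_BB K
  mul' := by
    rintro _ ⟨K, rfl⟩
    refine ⟨_, ⟨K, rfl⟩, ?_⟩
    rintro _ ⟨x, hx, y, hy, rfl⟩
    refine ⟨?_, ?_, fun k hk => ?_⟩
    · simp [hx.1, hy.1, hx.2.1]
    · simp [hx.2.1, hy.2.1]
    · simp [hx.2.2 k hk, hy.2.2 k hk]
  inv' := by
    rintro _ ⟨K, rfl⟩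
    refine ⟨_, ⟨K, rfl⟩, ?_⟩
    intro x hx
    refine ⟨?_, ?_, fun k hk => ?_⟩
    · simp [hx.1, hx.2.1]
    · simp [hx.2.1]
    · simp [hx.2.2 k hk]
  conj' := by
    classical
    rintro x _ ⟨K, rfl⟩
    refine ⟨_, ⟨insert x.f K, rfl⟩, ?_⟩
    intro y hy
    change x * y * x⁻¹ ∈ BB K
    rw [HH.conj_eq x y hy.2.1]
    refine ⟨?_, rfl, fun k hk => hy.2.2 k (Finset.mem_insert_of_mem hk)⟩
    change y.a + x.f y.g = 0
    rw [hy.1, hy.2.2 _ (Finset.mem_insert_self _ _), add_zero]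

instance : TopologicalSpace HH := fb.topology

instance : IsTopologicalGroup HH := fb.isTopologicalGroup

theorem nhds_one : (𝓝 (1 : HH)).HasBasis (fun S => S ∈ Set.range BB) id := fb.nhds_one_hasBasis

theorem mem_nhds_one (S : Set HH) : S ∈ 𝓝 (1 : HH) ↔ ∃ K, BB K ⊆ S := by
  rw [nhds_one.mem_iff]
  constructor
  · rintro ⟨_, ⟨K, rfl⟩, h⟩
    exact ⟨K, h⟩
  · rintro ⟨K, h⟩
    exact ⟨_, ⟨K, rfl⟩, h⟩

instance : T2Space HH := by
  apply IsTopologicalGroup.t2Space_of_one_sep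
  intro x hx
  by_cases h1 : x.a = 0 ∧ x.f = 0
  · have h2 : x.g ≠ 0 := by
      intro h2
      exact hx (HH.ext h1.1 h1.2 h2)
    obtain ⟨n, hn⟩ := Finsupp.ne_iff.1 h2
    refine ⟨BB {Finsupp.applyAddHom n}, (mem_nhds_one _).2 ⟨_, subset_rfl⟩, ?_⟩
    intro h3
    exact hn (h3.2.2 _ (Finset.mem_singleton_self _))
  · refine ⟨BB ∅, (mem_nhds_one _).2 ⟨_, subset_rfl⟩, ?_⟩
    intro h3
    exact h1 ⟨h3.1, h3.2.1⟩

theorem tight (A : Set HH) (x : HH) (hx : x ∈ closure A) :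
    ∃ B ⊆ A, B.Countable ∧ x ∈ closure B := by
  have hN : (fun y : HH => x⁻¹ * y) ⁻¹' (BB ∅) ∈ 𝓝 x := by
    have hc : ContinuousAt (fun y : HH => x⁻¹ * y) x := by fun_prop
    apply hc
    beta_reduce
    rw [inv_mul_cancel]
    exact (mem_nhds_one _).2 ⟨_, subset_rfl⟩
  refine ⟨A ∩ (fun y : HH => x⁻¹ * y) ⁻¹' (BB ∅), Set.inter_subset_left, ?_, ?_⟩
  · refine Set.Countable.mono Set.inter_subset_right ?_
    have h1 : (BB ∅).Countable := by
      have : BB ∅ ⊆ Set.range (fun g : GG => (⟨0, 0, g⟩ : HH)) := by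
        intro y hy
        exact ⟨y.g, HH.ext hy.1.symm hy.2.1.symm rfl⟩
      exact (Set.countable_range _).mono this
    exact h1.preimage (mul_right_injective x⁻¹)
  · rw [mem_closure_iff_nhds] at hx ⊢
    intro t ht
    obtain ⟨y, hy, hyA⟩ := hx _ (inter_mem ht hN)
    exact ⟨y, hy.1, hyA, hy.2⟩

/-- elements of the finite annihilator -/
theorem finite_ann (K : Finset FF) :
    {f : FF | ∀ g : GG, (∀ k ∈ K, k g = 0) → f g = 0}.Finite := by
  classical
  have hex : ∀ v : K → ZMod 2, ∃ g : GG, (∃ g', ∀ k : K, k.1 g' = v k) → ∀ k : K, k.1 g = v k := by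
    intro v
    by_cases h : ∃ g', ∀ k : K, k.1 g' = v k
    · obtain ⟨g', hg'⟩ := h
      exact ⟨g', fun _ => hg'⟩
    · exact ⟨0, fun h' => absurd h' h⟩
  choose s hs using hex
  refine Set.Finite.of_injOn (f := fun (f : FF) (v : K → ZMod 2) => f (s v))
    (t := Set.univ) (fun _ _ => Set.mem_univ _) ?_ Set.finite_univ
  intro f hf f' hf' hff
  refine DFunLike.ext _ _ fun g => ?_
  have key : ∀ f : FF, (∀ g : GG, (∀ k ∈ K, k g = 0) → f g = 0) →
      f g = f (s (fun k => k.1 g)) := by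
    intro f hf
    have h1 := hs (fun k => k.1 g) ⟨g, fun _ => rfl⟩
    have h2 : f (g - s (fun k => k.1 g)) = 0 := by
      apply hf
      intro k hk
      rw [map_sub, h1 ⟨k, hk⟩, sub_self]
    rw [map_sub, sub_eq_zero] at h2
    exact h2
  rw [key f hf, key f' hf']
  exact congrFun hff _

/-- `HH` is minimal -/
theorem minimal (σ : TopologicalSpace HH) (hσ : @IsTopologicalGroup HH σ _) (hσ2 : @T2Space HH σ)
    (hle : instTopologicalSpaceHH ≤ σ) : σ = instTopologicalSpaceHH := by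
  classical
  refine le_antisymm ?_ hle
  have hn : ∀ S, S ∈ @nhds HH σ 1 → ∃ K, BB K ⊆ S := fun S hS =>
    (mem_nhds_one S).1 (nhds_mono hle hS)
  -- separate the central involution
  let c : HH := ⟨1, 0, 0⟩
  have hc1 : c ≠ 1 := by
    intro h
    have : (1 : ZMod 2) = 0 := congrArg HH.a h
    exact absurd this (by decide)
  have hW : {c}ᶜ ∈ @nhds HH σ 1 :=
    (@isOpen_compl_singleton HH σ _ c).mem_nhds (fun h => hc1 h.symm)
  have hZ : ∀ a : ZMod 2, (⟨a, 0, 0⟩ : HH) ∈ ({c}ᶜ : Set HH) → a = 0 := by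
    intro a ha
    by_contra h
    have : a = 1 := by
      have h01 : ∀ a : ZMod 2, ¬ a = 0 → a = 1 := by decide
      exact h01 a h
    apply ha
    rw [this]
    rfl
  -- commuting neighbourhood
  have hcomm : ∃ V ∈ @nhds HH σ 1, ∀ x ∈ V, ∀ y ∈ V, x.f y.g - y.f x.g = 0 := by
    letI := σ
    have hcont : ContinuousAt (fun p : HH × HH => p.1 * p.2 * p.1⁻¹ * p.2⁻¹) (1, 1) := by fun_prop
    have h1 : (fun p : HH × HH => p.1 * p.2 * p.1⁻¹ * p.2⁻¹) ⁻¹' ({c}ᶜ) ∈ 𝓝 ((1 : HH), (1 : HH)) := by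
      apply hcont
      simpa using hW
    rw [nhds_prod_eq, mem_prod_self_iff] at h1
    obtain ⟨V, hV, hVV⟩ := h1
    refine ⟨V, hV, fun x hx y hy => ?_⟩
    have h2 := hVV (show (x, y) ∈ V ×ˢ V from ⟨hx, hy⟩)
    simp only [Set.mem_preimage] at h2
    rw [HH.comm_eq] at h2
    exact hZ _ h2
  -- centralizers
  have hcent : ∀ y : HH, {x : HH | x.f y.g - y.f x.g = 0} ∈ @nhds HH σ 1 := by
    intro y
    letI := σ
    have hcont : ContinuousAt (fun x : HH => x * y * x⁻¹ * y⁻¹) 1 := by fun_prop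
    have h1 : (fun x : HH => x * y * x⁻¹ * y⁻¹) ⁻¹' ({c}ᶜ) ∈ 𝓝 (1 : HH) := by
      apply hcont
      simpa using hW
    refine mem_of_superset h1 ?_
    intro x hx
    simp only [Set.mem_preimage] at hx
    rw [HH.comm_eq] at hx
    exact hZ _ hx
  obtain ⟨V, hV, hVc⟩ := hcomm
  obtain ⟨K0, hK0⟩ := hn V hV
  have hfin := finite_ann K0
  -- elements of V have f in the finite set
  have hVf : ∀ x ∈ V, x.f ∈ {f : FF | ∀ g : GG, (∀ k ∈ K0, k g = 0) → f g = 0} := by
    intro x hx g hg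
    have h1 := hVc x hx ⟨0, 0, g⟩ (hK0 ⟨rfl, rfl, hg⟩)
    simpa using h1
  have hsep : ∀ f : FF, ∃ g : GG, f ≠ 0 → f g ≠ 0 := by
    intro f
    by_cases h : f = 0
    · exact ⟨0, fun h' => absurd h h'⟩
    · obtain ⟨g, hg⟩ := DFunLike.ne_iff.1 h
      exact ⟨g, fun _ => hg⟩
  choose s hs using hsep
  have hN1 : {x : HH | x.f = 0} ∈ @nhds HH σ 1 := by
    have h1 : (V ∩ ⋂ f ∈ hfin.toFinset, {x : HH | x.f (s f) = 0}) ∈ @nhds HH σ 1 := by
      refine inter_mem hV ?_
      rw [Filter.biInter_finset_mem]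
      intro f _
      have := hcent ⟨0, 0, s f⟩
      simpa using this
    refine mem_of_superset h1 ?_
    rintro x ⟨hxV, hx⟩
    by_contra hne
    simp only [Set.mem_iInter] at hx
    have h2 := hx x.f (hfin.mem_toFinset.2 (hVf x hxV))
    exact hs x.f hne h2
  -- main claim
  have hmain : ∀ K : Finset FF, BB K ∈ @nhds HH σ 1 := by
    intro K
    obtain ⟨W, hWn, hWW⟩ : ∃ W ∈ @nhds HH σ 1, ∀ x ∈ W, ∀ y ∈ W, x / y ∈ ({c}ᶜ : Set HH) := by
      letI := σ
      exact exists_nhds_split_inv hW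
    obtain ⟨K', hK'⟩ := hn W hWn
    have h1 : (W ∩ {x : HH | x.f = 0} ∩ ⋂ k ∈ K ∪ K', {x : HH | k x.g = 0}) ∈ @nhds HH σ 1 := by
      refine inter_mem (inter_mem hWn hN1) ?_
      rw [Filter.biInter_finset_mem]
      intro k _
      have := hcent ⟨0, k, 0⟩
      simpa using this
    refine mem_of_superset h1 ?_
    rintro x ⟨⟨hxW, hxf⟩, hx⟩
    simp only [Set.mem_iInter] at hx
    change x.f = 0 at hxf
    have h2 : (⟨0, 0, x.g⟩ : HH) ∈ W :=
      hK' ⟨rfl, rfl, fun k hk => hx k (Finset.mem_union_right _ hk)⟩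
    have h3 := hWW x hxW _ h2
    have h4 : x / (⟨0, 0, x.g⟩ : HH) = ⟨x.a, 0, 0⟩ := by
      rw [div_eq_mul_inv]
      ext
      · simp [hxf]
      · simp [hxf]
      · simp
    rw [h4] at h3
    exact ⟨hZ _ h3, hxf, fun k hk => hx k (Finset.mem_union_left _ hk)⟩
  -- conclude
  refine le_of_nhds_le_nhds fun x => ?_
  have e1 : Filter.map (x * ·) (@nhds HH σ 1) = @nhds HH σ x := by
    exact @map_mul_left_nhds_one HH σ _ hσ x
  have e2 : Filter.map (x * ·) (@nhds HH instTopologicalSpaceHH 1) = @nhds HH instTopologicalSpaceHH x :=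
    @map_mul_left_nhds_one HH instTopologicalSpaceHH _ instIsTopologicalGroupHH x
  rw [← e1, ← e2]
  apply Filter.map_mono
  intro S hS
  obtain ⟨K, hK⟩ := (mem_nhds_one S).1 hS
  exact mem_of_superset (hmain K) hK

/-- not discrete -/
theorem not_discrete : ({1} : Set HH) ∉ 𝓝 (1 : HH) := by
  classical
  intro h
  obtain ⟨K, hK⟩ := (mem_nhds_one _).1 h
  have : ¬ Function.Injective (fun (g : GG) (k : K) => k.1 g) := by
    intro hinj
    exact not_injective_infinite_finite _ hinj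
  apply this
  intro g g' hgg
  have h1 : (⟨0, 0, g - g'⟩ : HH) ∈ BB K := by
    refine ⟨rfl, rfl, fun k hk => ?_⟩
    change k (g - g') = 0
    rw [map_sub, sub_eq_zero]
    exact congrFun hgg ⟨k, hk⟩
  have h2 : (⟨0, 0, g - g'⟩ : HH) = 1 := hK h1
  have h3 : g - g' = 0 := congrArg HH.g h2
  exact sub_eq_zero.1 h3

theorem exists_functional {K V : Type} [Field K] [AddCommGroup V] [Module K V] (b : Set V)
    (hli : LinearIndepOn K id b) : ∃ φ : V →ₗ[K] K, ∀ v ∈ b, φ v = 1 := by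
  refine ⟨(Module.Basis.extend hli).constr ℕ (fun _ => (1 : K)), fun v hv => ?_⟩
  have h6 := Module.Basis.extend_apply_self hli ⟨v, hli.subset_extend (Set.subset_univ _) hv⟩
  have h7 := Module.Basis.constr_basis (Module.Basis.extend hli) ℕ (fun _ => (1 : K))
    ⟨v, hli.subset_extend (Set.subset_univ _) hv⟩
  rw [h6] at h7
  exact h7

theorem exists_infinite_functional {K V : Type} [Field K] [Finite K] [AddCommGroup V] [Module K V]
    (S : Set V) (hS : S.Infinite) : ∃ b ⊆ S, b.Infinite ∧ ∃ φ : V →ₗ[K] K, ∀ v ∈ b, φ v = 1 := by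
  obtain ⟨b, hb, hspan, hli⟩ := exists_linearIndependent K S
  refine ⟨b, hb, ?_, exists_functional b hli⟩
  intro hfin
  apply hS
  have h3 : FiniteDimensional K (Submodule.span K b) :=
    FiniteDimensional.span_of_finite _ hfin
  have h4 : Finite (Submodule.span K b) := Module.finite_of_finite K
  have h5 : S ⊆ (Submodule.span K b : Set V) := by
    rw [hspan]
    exact Submodule.subset_span
  exact Set.Finite.subset (Set.toFinite _) h5

/-- no nontrivial sequence of `GG` converges to zero in the Bohr topology -/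
theorem no_seq (g : ℕ → GG) (hg0 : ∀ n, g n ≠ 0) :
    ∃ f : FF, ∀ N, ∃ n ≥ N, f (g n) ≠ 0 := by
  classical
  by_contra hcon
  push Not at hcon
  -- the range is infinite
  have hinf : (Set.range g).Infinite := by
    intro hfin
    have h1 : ∀ v : GG, ∃ N, v ≠ 0 → ∀ n ≥ N, g n ≠ v := by
      intro v
      by_cases hv : v = 0
      · exact ⟨0, fun h => absurd hv h⟩
      · obtain ⟨i, hi⟩ := Finsupp.ne_iff.1 hv
        obtain ⟨N, hN⟩ := hcon (Finsupp.applyAddHom i)
        refine ⟨N, fun _ n hn h => hi ?_⟩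
        have := hN n hn
        rw [h] at this
        exact this
    choose N hN using h1
    let M := hfin.toFinset.sup N
    have h2 : g M ∈ hfin.toFinset := hfin.mem_toFinset.2 ⟨M, rfl⟩
    exact hN (g M) (hg0 M) M (Finset.le_sup (f := N) h2) rfl
  obtain ⟨b, hb, hbinf, φ, hφ⟩ := exists_infinite_functional (K := ZMod 2) (Set.range g) hinf
  obtain ⟨N, hN⟩ := hcon φ.toAddMonoidHom
  apply hbinf
  have h7 : b ⊆ g '' (Set.Iio N) := by
    intro v hv
    obtain ⟨n, rfl⟩ := hb hv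
    refine ⟨n, ?_, rfl⟩
    by_contra hn
    have h8 := hN n (not_lt.1 hn)
    have h9 := hφ _ hv
    change φ (g n) = 0 at h8
    rw [h9] at h8
    exact absurd h8 (by decide)
  exact ((Set.finite_Iio N).image g).subset h7

theorem not_sequential : ¬ SequentialSpace HH := by
  intro hseq
  have h1 : IsSeqClosed ({1}ᶜ : Set HH) := by
    intro x p hx hp hp1
    rw [Set.mem_singleton_iff] at hp1
    subst hp1
    have hev := hp ((mem_nhds_one _).2 ⟨∅, subset_rfl⟩)
    obtain ⟨N, hN⟩ := eventually_atTop.1 hev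
    have hg0 : ∀ n, (x (n + N)).g ≠ 0 := by
      intro n h0
      have h2 := hN (n + N) (Nat.le_add_left _ _)
      exact hx (n + N) (HH.ext h2.1 h2.2.1 h0)
    obtain ⟨f, hf⟩ := no_seq (fun n => (x (n + N)).g) hg0
    have hev2 := hp ((mem_nhds_one _).2 ⟨{f}, subset_rfl⟩)
    obtain ⟨M, hM⟩ := eventually_atTop.1 hev2
    obtain ⟨n, hn, hfn⟩ := hf M
    have h3 := hM (n + N) (le_trans hn (Nat.le_add_right _ _))
    exact hfn (h3.2.2 f (Finset.mem_singleton_self _))
  have h2 : IsClosed ({1}ᶜ : Set HH) := h1.isClosed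
  apply not_discrete
  have h3 : IsOpen ({1} : Set HH) := by
    rw [← isClosed_compl_iff]
    exact h2
  exact h3.mem_nhds rfl

end H645.Heis
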