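import Pool.Agent.H645R3.Main

set_option autoImplicit false
set_option linter.style.haveILetI false

open Filter Topology Pointwise Cardinal

namespace H645

/-- locally minimal + small pseudocharacter ⇒ small character -/
theorem char_of_psi {G : Type} [AddCommGroup G] [τ : TopologicalSpace G] [IsTopologicalAddGroup G]
    [T2Space G] {κ : Cardinal.{0}} (hκ : ℵ₀ ≤ κ) (U : Set G) (hU : U ∈ 𝓝 (0 : G))
    (hG : ∀ σ : TopologicalSpace G, @IsTopologicalAddGroup G σ _ → @T2Space G σ →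
      τ ≤ σ → U ∈ @nhds G σ 0 → σ = τ) (hpsi : Psi κ G) :
    ∃ 𝓑 : Set (Set G), (𝓝 (0 : G)).HasBasis (fun s => s ∈ 𝓑) id ∧ #𝓑 ≤ κ := by
  classical
  obtain ⟨𝒱, h1, h2, h3⟩ := hpsi
  let 𝒲 : Set (Set G) := insert U 𝒱
  have hWn : ∀ W ∈ 𝒲, W ∈ 𝓝 (0 : G) := by
    rintro W (rfl | hW)
    · exact hU
    · exact h2 W hW
  have hWc : #𝒲 ≤ κ := by
    refine (Cardinal.mk_insert_le).trans ?_
    refine (add_le_add h1 (Cardinal.one_le_aleph0.trans hκ)).trans (Cardinal.add_eq_self hκ).le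
  have hch : ∀ W : 𝒲, ∃ c : ℕ → Set G, c 0 ⊆ W ∧ (∀ n, c n ∈ 𝓝 (0 : G)) ∧
      (∀ n, IsClosed (c n)) ∧ ∀ n, ∀ x ∈ c (n + 1), ∀ y ∈ c (n + 1), x - y ∈ c n :=
    fun W => exists_chain W.1 (hWn W W.2)
  choose c hc1 hc2 hc3 hc4 using hch
  have hc0 : ∀ W n, (0 : G) ∈ c W n := fun W n => mem_of_mem_nhds (hc2 W n)
  have hc5 : ∀ W n, c W (n + 1) ⊆ c W n := by
    intro W n x hx
    simpa using hc4 W n x hx 0 (hc0 W _)
  have hc6 : ∀ W n, ∀ x ∈ c W (n + 1), -x ∈ c W n := by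
    intro W n x hx
    simpa using hc4 W n 0 (hc0 W _) x hx
  have hc7 : ∀ W n, ∀ x ∈ c W (n + 2), ∀ y ∈ c W (n + 2), x + y ∈ c W n := by
    intro W n x hx y hy
    simpa using hc4 W n x (hc5 W _ hx) (-y) (hc6 W _ y hy)
  let D : Finset (𝒲 × ℕ) → Set G := fun F => ⋂ i ∈ F, c i.1 i.2
  have hD : ∀ F x, x ∈ D F ↔ ∀ i ∈ F, x ∈ c i.1 i.2 := by
    intro F x
    simp only [D, Set.mem_iInter]
  let FB : AddGroupFilterBasis G :=
    { sets := Set.range D
      nonempty := ⟨D ∅, ∅, rfl⟩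
      inter_sets := by
        rintro _ _ ⟨F, rfl⟩ ⟨F', rfl⟩
        refine ⟨D (F ∪ F'), ⟨_, rfl⟩, ?_⟩
        intro x hx
        rw [hD] at hx
        exact ⟨(hD _ _).2 fun i hi => hx i (Finset.mem_union_left _ hi),
          (hD _ _).2 fun i hi => hx i (Finset.mem_union_right _ hi)⟩
      zero' := by
        rintro _ ⟨F, rfl⟩
        exact (hD _ _).2 fun i _ => hc0 _ _
      add' := by
        rintro _ ⟨F, rfl⟩
        refine ⟨D (F.image fun i => (i.1, i.2 + 2)), ⟨_, rfl⟩, ?_⟩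
        rintro _ ⟨x, hx, y, hy, rfl⟩
        rw [hD] at hx hy
        refine (hD _ _).2 fun i hi => ?_
        exact hc7 _ _ x (hx (i.1, i.2 + 2) (Finset.mem_image_of_mem _ hi)) y
          (hy (i.1, i.2 + 2) (Finset.mem_image_of_mem _ hi))
      neg' := by
        rintro _ ⟨F, rfl⟩
        refine ⟨D (F.image fun i => (i.1, i.2 + 1)), ⟨_, rfl⟩, ?_⟩
        intro x hx
        rw [hD] at hx
        refine (hD _ _).2 fun i hi => ?_
        exact hc6 _ _ x (hx (i.1, i.2 + 1) (Finset.mem_image_of_mem _ hi))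
      conj' := by
        rintro x _ ⟨F, rfl⟩
        refine ⟨D F, ⟨_, rfl⟩, ?_⟩
        intro y hy
        simpa using hy }
  have hbasis : (@nhds G FB.topology 0).HasBasis (fun s => s ∈ Set.range D) id := by
    have := FB.nhds_zero_hasBasis
    exact this
  have hgrp : @IsTopologicalAddGroup G FB.topology _ := FB.isTopologicalAddGroup
  have hle : τ ≤ FB.topology := by
    apply le_of_nhds_zero τ FB.topology inferInstance hgrp
    intro S hS
    obtain ⟨_, ⟨F, rfl⟩, hs⟩ := hbasis.mem_iff.1 hS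
    refine mem_of_superset ?_ hs
    simp only [id, D]
    rw [Filter.biInter_finset_mem]
    intro i _
    exact hc2 _ _
  have hsmall : ∀ W (hW : W ∈ 𝒲), W ∈ @nhds G FB.topology 0 := by
    intro W hW
    refine hbasis.mem_iff.2 ⟨D {(⟨W, hW⟩, 0)}, ⟨_, rfl⟩, ?_⟩
    intro x hx
    simp only [id] at hx
    rw [hD] at hx
    exact hc1 ⟨W, hW⟩ (hx _ (Finset.mem_singleton_self _))
  have hT2 : @T2Space G FB.topology := by
    refine @IsTopologicalAddGroup.t2Space_of_zero_sep G FB.topology _ hgrp ?_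
    intro x hx
    by_contra hcon
    push Not at hcon
    exact hx (h3 x fun V hV => hcon V (hsmall V (Or.inr hV)))
  have heq := hG FB.topology hgrp hT2 hle (hsmall U (Or.inl rfl))
  rw [heq] at hbasis
  refine ⟨Set.range D, hbasis, ?_⟩
  refine Cardinal.mk_range_le.trans ?_
  have : Infinite (𝒲 × ℕ) := by
    have : Nonempty 𝒲 := ⟨⟨U, Or.inl rfl⟩⟩
    infer_instance
  rw [Cardinal.mk_finset_of_infinite]
  rw [Cardinal.mk_prod]
  simp only [Cardinal.lift_uzero, Cardinal.mk_nat, Cardinal.lift_id]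
  exact (mul_le_mul' hWc hκ).trans (Cardinal.mul_eq_self hκ).le

/-- The main theorem for locally minimal abelian groups. -/
theorem char_le {G : Type} [AddCommGroup G] [τ : TopologicalSpace G] [IsTopologicalAddGroup G]
    [T2Space G] {κ : Cardinal.{0}} (hκ : ℵ₀ ≤ κ) (U : Set G) (hU : U ∈ 𝓝 (0 : G))
    (hG : ∀ σ : TopologicalSpace G, @IsTopologicalAddGroup G σ _ → @T2Space G σ →
      τ ≤ σ → U ∈ @nhds G σ 0 → σ = τ) (hT : Tight κ G) :
    ∃ 𝓑 : Set (Set G), (𝓝 (0 : G)).HasBasis (fun s => s ∈ 𝓑) id ∧ #𝓑 ≤ κ := by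
  refine char_of_psi hκ U hU hG ?_
  obtain ⟨U1, hU1, hs⟩ := exists_nhds_zero_half hU
  obtain ⟨S, hSc, hSU, hS⟩ := exists_Gk hκ {U1} (by
    rw [Cardinal.mk_singleton]; exact Cardinal.one_le_aleph0.trans hκ) (by
    rintro W hW
    rw [Set.mem_singleton_iff.1 hW]
    exact hU1)
  apply hS
  apply psiIn_of_psi
  have hmin : IsMin S := by
    refine isMin_of_closed U hG S hSc ⟨U1, hU1, ?_⟩
    rintro _ ⟨a, ha, b, hb, rfl⟩
    exact hs a ha b (hSU b hb U1 rfl)
  exact minimal_psi hκ hmin (hT.sub _)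

end H645
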