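import Pool.Agent.H645R3.LM

set_option autoImplicit false
set_option linter.style.haveILetI false

open Filter Topology Pointwise Cardinal

namespace H645

/-- character bound, multiplicative form -/
theorem char_le_mul {G : Type} [CommGroup G] [τ : TopologicalSpace G] [IsTopologicalGroup G]
    [T2Space G] {κ : Cardinal.{0}} (hκ : ℵ₀ ≤ κ)
    (h : ∃ U ∈ nhds (1 : G), ∀ σ : TopologicalSpace G,
          @IsTopologicalGroup G σ _ → @T2Space G σ → τ ≤ σ → U ∈ @nhds G σ 1 → σ = τ)
    (hT : ∀ A : Set G, ∀ x ∈ closure A, ∃ B ⊆ A, Cardinal.mk B ≤ κ ∧ x ∈ closure B) :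
    ∃ 𝓑 : Set (Set G), (nhds (1 : G)).HasBasis (fun s => s ∈ 𝓑) id ∧ Cardinal.mk 𝓑 ≤ κ := by
  obtain ⟨U, hU, hmin⟩ := h
  have hT2 : T2Space (Additive G) := (inferInstance : T2Space G)
  refine H645.char_le (G := Additive G) hκ (U : Set (Additive G)) hU ?_ hT
  intro σ h1 h2 h3 h4
  refine hmin σ ?_ h2 h3 h4
  have hm : @ContinuousMul G σ _ := @ContinuousMul.mk G σ _ h1.toContinuousAdd.continuous_add
  have hi : @ContinuousInv G σ _ := @ContinuousInv.mk G σ _ h1.toContinuousNeg.continuous_neg
  exact @IsTopologicalGroup.mk G σ _ hm hi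

/-- a Hausdorff group with a countable base at the identity is metrizable -/
theorem metrizable_of_countable {G : Type} [Group G] [TopologicalSpace G] [IsTopologicalGroup G]
    [T2Space G] (h : (𝓝 (1 : G)).IsCountablyGenerated) : TopologicalSpace.MetrizableSpace G := by
  let _ : UniformSpace G := IsTopologicalGroup.rightUniformSpace G
  have h1 : (uniformity G).IsCountablyGenerated := by
    rw [uniformity_eq_comap_nhds_one']
    infer_instance
  have h2 : TopologicalSpace.PseudoMetrizableSpace G := UniformSpace.pseudoMetrizableSpace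
  infer_instance

/-- locally minimal abelian groups of countable tightness are metrizable -/
theorem metrizable_of_locMin {G : Type} [CommGroup G] [τ : TopologicalSpace G]
    [IsTopologicalGroup G] [T2Space G]
    (h : ∃ U ∈ nhds (1 : G), ∀ σ : TopologicalSpace G,
          @IsTopologicalGroup G σ _ → @T2Space G σ → τ ≤ σ → U ∈ @nhds G σ 1 → σ = τ)
    (hT : ∀ A : Set G, ∀ x ∈ closure A, ∃ B ⊆ A, B.Countable ∧ x ∈ closure B) :
    TopologicalSpace.MetrizableSpace G := by
  obtain ⟨𝓑, hB, hc⟩ := char_le_mul (le_refl ℵ₀) h (by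
    intro A x hx
    obtain ⟨B, h1, h2, h3⟩ := hT A x hx
    exact ⟨B, h1, Cardinal.le_aleph0_iff_set_countable.2 h2, h3⟩)
  apply metrizable_of_countable
  have hcount : {s : Set G | s ∈ 𝓑}.Countable := Cardinal.le_aleph0_iff_set_countable.1 hc
  exact (HasCountableBasis.mk hB hcount).isCountablyGenerated

end H645
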