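import Pool.Agent.Helper472.Lat_PW

set_option autoImplicit false
set_option linter.style.haveILetI false
set_option linter.unusedSectionVars false

open Filter Topology Pointwise MeasureTheory

noncomputable section

namespace H645.MC

variable {K : Type} [Group K] [TopologicalSpace K] [IsTopologicalGroup K] [CompactSpace K]
  [T2Space K]
variable {ι : Type} [Fintype ι] [DecidableEq ι]

/-- real parts of the coefficients -/
def cRe (ρ : K →* Matrix ι ι ℂ) (hρ : Continuous ρ) (p : ι × ι) : C(K, ℝ) :=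
  ⟨fun x => (ρ x p.1 p.2).re, by fun_prop⟩

/-- imaginary parts of the coefficients -/
def cIm (ρ : K →* Matrix ι ι ℂ) (hρ : Continuous ρ) (p : ι × ι) : C(K, ℝ) :=
  ⟨fun x => (ρ x p.1 p.2).im, by fun_prop⟩

/-- the algebra of coefficients -/
def AA (ρ : K →* Matrix ι ι ℂ) (hρ : Continuous ρ) : Subalgebra ℝ C(K, ℝ) :=
  Algebra.adjoin ℝ (Set.range (cRe ρ hρ) ∪ Set.range (cIm ρ hρ))

theorem noeth_AA (ρ : K →* Matrix ι ι ℂ) (hρ : Continuous ρ) : IsNoetherianRing (AA ρ hρ) := by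
  have hfin : (Set.range (cRe ρ hρ) ∪ Set.range (cIm ρ hρ)).Finite :=
    (Set.finite_range _).union (Set.finite_range _)
  have h1 : (AA ρ hρ).FG := ⟨hfin.toFinset, by rw [Set.Finite.coe_toFinset]; rfl⟩
  have h2 : Algebra.FiniteType ℝ (AA ρ hρ) := (Subalgebra.fg_iff_finiteType _).1 h1
  exact Algebra.FiniteType.isNoetherianRing ℝ (AA ρ hρ)

/-- Stone–Weierstrass -/
theorem approx (ρ : K →* Matrix ι ι ℂ) (hρ : Continuous ρ) (P Q : Set K) (hP : IsClosed P)
    (hQ : IsClosed Q) (hPQ : ∀ x ∈ P, ∀ y ∈ Q, ρ x ≠ ρ y) :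
    ∃ f ∈ AA ρ hρ, (∀ x ∈ P, |f x| ≤ 1 / 3) ∧ (∀ x ∈ Q, |f x - 1| ≤ 1 / 3) := by
  let Y : Set (Matrix ι ι ℂ) := Set.range ρ
  have hY : CompactSpace Y := isCompact_iff_compactSpace.1 (isCompact_range hρ)
  let π : C(K, Y) := ⟨fun x => ⟨ρ x, x, rfl⟩, by fun_prop⟩
  let yRe : ι × ι → C(Y, ℝ) := fun p => ⟨fun y => (y.1 p.1 p.2).re,
    Complex.continuous_re.comp (continuous_subtype_val.matrix_elem _ _)⟩
  let yIm : ι × ι → C(Y, ℝ) := fun p => ⟨fun y => (y.1 p.1 p.2).im,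
    Complex.continuous_im.comp (continuous_subtype_val.matrix_elem _ _)⟩
  let B : Subalgebra ℝ C(Y, ℝ) := Algebra.adjoin ℝ (Set.range yRe ∪ Set.range yIm)
  have hsep : B.SeparatesPoints := by
    intro y y' hne
    have : ∃ i j, y.1 i j ≠ y'.1 i j := by
      by_contra hcon
      push Not at hcon
      exact hne (Subtype.ext (Matrix.ext hcon))
    obtain ⟨i, j, hij⟩ := this
    by_cases hre : (y.1 i j).re = (y'.1 i j).re
    · have him : (y.1 i j).im ≠ (y'.1 i j).im := fun h => hij (Complex.ext hre h)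
      exact ⟨yIm (i, j), ⟨yIm (i, j), Algebra.subset_adjoin (Or.inr ⟨_, rfl⟩), rfl⟩, him⟩
    · exact ⟨yRe (i, j), ⟨yRe (i, j), Algebra.subset_adjoin (Or.inl ⟨_, rfl⟩), rfl⟩, hre⟩
  have hdense := ContinuousMap.subalgebra_topologicalClosure_eq_top_of_separatesPoints B hsep
  have hπc : Continuous π := π.continuous
  have hP' : IsClosed (π '' P) := (hP.isCompact.image hπc).isClosed
  have hQ' : IsClosed (π '' Q) := (hQ.isCompact.image hπc).isClosed
  have hdis : Disjoint (π '' P) (π '' Q) := by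
    rw [Set.disjoint_left]
    rintro _ ⟨x, hx, rfl⟩ ⟨y, hy, hxy⟩
    exact hPQ x hx y hy (congrArg Subtype.val hxy).symm
  obtain ⟨g, hg0, hg1, -⟩ := exists_continuous_zero_one_of_isClosed hP' hQ' hdis
  have hgB : g ∈ closure (B : Set C(Y, ℝ)) := by
    have : g ∈ B.topologicalClosure := by rw [hdense]; trivial
    exact this
  obtain ⟨b, hb, hbg⟩ := Metric.mem_closure_iff.1 hgB (1 / 3) (by norm_num)
  have hB : B ≤ (AA ρ hρ).comap (ContinuousMap.compRightAlgHom ℝ ℝ π) := by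
    apply Algebra.adjoin_le
    rintro _ (⟨p, rfl⟩ | ⟨p, rfl⟩)
    · have : ContinuousMap.compRightAlgHom ℝ ℝ π (yRe p) = cRe ρ hρ p := by ext x; rfl
      change ContinuousMap.compRightAlgHom ℝ ℝ π (yRe p) ∈ AA ρ hρ
      rw [this]
      exact Algebra.subset_adjoin (Or.inl ⟨_, rfl⟩)
    · have : ContinuousMap.compRightAlgHom ℝ ℝ π (yIm p) = cIm ρ hρ p := by ext x; rfl
      change ContinuousMap.compRightAlgHom ℝ ℝ π (yIm p) ∈ AA ρ hρ
      rw [this]
      exact Algebra.subset_adjoin (Or.inr ⟨_, rfl⟩)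
  refine ⟨ContinuousMap.compRightAlgHom ℝ ℝ π b, hB hb, ?_, ?_⟩
  · intro x hx
    have h1 : dist (g (π x)) (b (π x)) < 1 / 3 := lt_of_le_of_lt (ContinuousMap.dist_apply_le_dist _) hbg
    rw [hg0 ⟨x, hx, rfl⟩, Real.dist_eq] at h1
    change |b (π x)| ≤ 1 / 3
    have : |b (π x)| = |(0 : Y → ℝ) (π x) - b (π x)| := by simp
    rw [this]
    exact h1.le
  · intro x hx
    have h1 : dist (g (π x)) (b (π x)) < 1 / 3 := lt_of_le_of_lt (ContinuousMap.dist_apply_le_dist _) hbg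
    rw [hg1 ⟨x, hx, rfl⟩, Real.dist_eq] at h1
    change |b (π x) - 1| ≤ 1 / 3
    rw [abs_sub_comm]
    exact h1.le

/-- decomposable functions -/
def TT (ρ : K →* Matrix ι ι ℂ) (hρ : Continuous ρ) : Submonoid C(K × K, ℝ) where
  carrier := {F | ∃ v ∈ AA ρ hρ, ∃ c : C(K, ℝ), ∀ y z, F (y, z) = v y * c z}
  one_mem' := ⟨1, (AA ρ hρ).one_mem, 1, fun y z => by simp⟩
  mul_mem' := by
    rintro F F' ⟨v, hv, c, hc⟩ ⟨v', hv', c', hc'⟩
    refine ⟨v * v', (AA ρ hρ).mul_mem hv hv', c * c', fun y z => ?_⟩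
    rw [ContinuousMap.mul_apply, hc, hc', ContinuousMap.mul_apply, ContinuousMap.mul_apply]
    ring

/-- comultiplication -/
def Δ : C(K, ℝ) →ₐ[ℝ] C(K × K, ℝ) :=
  ContinuousMap.compRightAlgHom ℝ ℝ ⟨fun p : K × K => p.1 * p.2, by fun_prop⟩

theorem Δ_apply (f : C(K, ℝ)) (y z : K) : Δ f (y, z) = f (y * z) := rfl

theorem comul (ρ : K →* Matrix ι ι ℂ) (hρ : Continuous ρ) (f : C(K, ℝ)) (hf : f ∈ AA ρ hρ) :
    Δ f ∈ Submodule.span ℝ (TT ρ hρ : Set C(K × K, ℝ)) := by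
  have key : AA ρ hρ ≤ (Algebra.adjoin ℝ (TT ρ hρ : Set C(K × K, ℝ))).comap Δ := by
    have hT : ∀ F ∈ TT ρ hρ, F ∈ Algebra.adjoin ℝ (TT ρ hρ : Set C(K × K, ℝ)) :=
      fun F hF => Algebra.subset_adjoin hF
    have hre : ∀ p, cRe ρ hρ p ∈ AA ρ hρ := fun p => Algebra.subset_adjoin (Or.inl ⟨_, rfl⟩)
    have him : ∀ p, cIm ρ hρ p ∈ AA ρ hρ := fun p => Algebra.subset_adjoin (Or.inr ⟨_, rfl⟩)
    let t : C(K, ℝ) → C(K, ℝ) → C(K × K, ℝ) := fun v c =>
      ⟨fun p => v p.1 * c p.2, by fun_prop⟩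
    have ht : ∀ v ∈ AA ρ hρ, ∀ c, t v c ∈ Algebra.adjoin ℝ (TT ρ hρ : Set C(K × K, ℝ)) :=
      fun v hv c => hT _ ⟨v, hv, c, fun _ _ => rfl⟩
    apply Algebra.adjoin_le
    rintro _ (⟨p, rfl⟩ | ⟨p, rfl⟩)
    · have h1 : Δ (cRe ρ hρ p) = ∑ k, (t (cRe ρ hρ (p.1, k)) (cRe ρ hρ (k, p.2)) -
          t (cIm ρ hρ (p.1, k)) (cIm ρ hρ (k, p.2))) := by
        ext ⟨y, z⟩
        rw [Δ_apply, ContinuousMap.sum_apply]
        change (ρ (y * z) p.1 p.2).re = _
        rw [map_mul, Matrix.mul_apply, Complex.re_sum]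
        refine Finset.sum_congr rfl fun k _ => ?_
        rw [Complex.mul_re]
        rfl
      change Δ (cRe ρ hρ p) ∈ Algebra.adjoin ℝ (TT ρ hρ : Set C(K × K, ℝ))
      rw [h1]
      exact Subalgebra.sum_mem _ fun k _ => Subalgebra.sub_mem _ (ht _ (hre _) _) (ht _ (him _) _)
    · have h1 : Δ (cIm ρ hρ p) = ∑ k, (t (cRe ρ hρ (p.1, k)) (cIm ρ hρ (k, p.2)) +
          t (cIm ρ hρ (p.1, k)) (cRe ρ hρ (k, p.2))) := by
        ext ⟨y, z⟩
        rw [Δ_apply, ContinuousMap.sum_apply]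
        change (ρ (y * z) p.1 p.2).im = _
        rw [map_mul, Matrix.mul_apply, Complex.im_sum]
        refine Finset.sum_congr rfl fun k _ => ?_
        rw [Complex.mul_im]
        rfl
      change Δ (cIm ρ hρ p) ∈ Algebra.adjoin ℝ (TT ρ hρ : Set C(K × K, ℝ))
      rw [h1]
      exact Subalgebra.sum_mem _ fun k _ => Subalgebra.add_mem _ (ht _ (hre _) _) (ht _ (him _) _)
  have h2 := key hf
  have h3 : Δ f ∈ Subalgebra.toSubmodule (Algebra.adjoin ℝ (TT ρ hρ : Set C(K × K, ℝ))) := h2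
  rw [Algebra.adjoin_eq_span, Submonoid.closure_eq] at h3
  exact h3

theorem average (ρ : K →* Matrix ι ι ℂ) (hρ : Continuous ρ) (M : Subgroup K) [CompactSpace M]
    [MeasurableSpace M] [BorelSpace M] (μ : Measure M) [IsFiniteMeasure μ]
    (f : C(K, ℝ)) (hf : f ∈ AA ρ hρ) :
    ∃ g ∈ AA ρ hρ, ∀ y, g y = ∫ m : M, f (y * m) ∂μ := by
  have hgen : ∀ F ∈ Submodule.span ℝ (TT ρ hρ : Set C(K × K, ℝ)),
      ∃ g ∈ AA ρ hρ, ∀ y, g y = ∫ m : M, F (y, (m : K)) ∂μ := by
    have hint : ∀ (F : C(K × K, ℝ)) (y : K), Integrable (fun m : M => F (y, (m : K))) μ := by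
      intro F y
      have hc : Continuous (fun m : M => F (y, (m : K))) := by fun_prop
      exact hc.integrable_of_hasCompactSupport (HasCompactSupport.of_compactSpace _)
    intro F hF
    induction hF using Submodule.span_induction with
    | mem F h =>
      obtain ⟨v, hv, c, hc⟩ := h
      refine ⟨(∫ m : M, c m ∂μ) • v, (AA ρ hρ).smul_mem hv _, fun y => ?_⟩
      rw [ContinuousMap.smul_apply, smul_eq_mul]
      simp_rw [hc]
      rw [integral_const_mul]
      ring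
    | zero => exact ⟨0, (AA ρ hρ).zero_mem, fun y => by simp⟩
    | add F F' _ _ h h' =>
      obtain ⟨g, hg, hgy⟩ := h
      obtain ⟨g', hg', hgy'⟩ := h'
      refine ⟨g + g', (AA ρ hρ).add_mem hg hg', fun y => ?_⟩
      rw [ContinuousMap.add_apply, hgy, hgy', ← integral_add (hint F y) (hint F' y)]
      rfl
    | smul a F _ h =>
      obtain ⟨g, hg, hgy⟩ := h
      refine ⟨a • g, (AA ρ hρ).smul_mem hg _, fun y => ?_⟩
      rw [ContinuousMap.smul_apply, hgy, smul_eq_mul, ← integral_const_mul]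
      rfl
  exact hgen _ (comul ρ hρ f hf)

/-- closed subgroups are algebraic -/
theorem algebraic (ρ : K →* Matrix ι ι ℂ) (hρ : Continuous ρ) (M : Subgroup K)
    (hM : IsClosed (M : Set K)) (x : K)
    (hx : ∀ f ∈ AA ρ hρ, (∀ m ∈ M, f m = 0) → f x = 0) : ∃ m ∈ M, ρ m = ρ x := by
  by_contra hcon
  push Not at hcon
  have hMc : CompactSpace M := isCompact_iff_compactSpace.1 hM.isCompact
  let _ : MeasurableSpace M := borel M
  have _ : BorelSpace M := ⟨rfl⟩
  let μ : Measure M := Measure.haar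
  obtain ⟨f, hf, hfP, hfQ⟩ := approx ρ hρ (M : Set K) ((fun m => x * m) '' (M : Set K)) hM
    ((hM.isCompact.image (by fun_prop)).isClosed) (by
      rintro m hm _ ⟨m', hm', rfl⟩ heq
      apply hcon (m * m'⁻¹) (M.mul_mem hm (M.inv_mem hm'))
      rw [map_mul, heq, ← map_mul, mul_inv_cancel_right])
  obtain ⟨g, hg, hgy⟩ := average ρ hρ M μ f hf
  have hinv : ∀ m0 : M, g (m0 : K) = g 1 := by
    intro m0
    rw [hgy, hgy]
    have := integral_mul_left_eq_self (μ := μ) (fun m : M => f ((1 : K) * m)) m0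
    rw [← this]
    congr 1
    ext m
    simp
  have h1 : (g - algebraMap ℝ C(K, ℝ) (g 1)) x = 0 := by
    apply hx
    · exact (AA ρ hρ).sub_mem hg ((AA ρ hρ).algebraMap_mem _)
    · intro m hm
      rw [ContinuousMap.sub_apply]
      have := hinv ⟨m, hm⟩
      simp only at this
      rw [this]
      simp
  have h2 : g x = g 1 := by
    rw [ContinuousMap.sub_apply] at h1
    simpa [sub_eq_zero] using h1
  have hint : ∀ (y : K), Integrable (fun m : M => f (y * m)) μ := by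
    intro y
    have hc : Continuous (fun m : M => f (y * m)) := by fun_prop
    exact hc.integrable_of_hasCompactSupport (HasCompactSupport.of_compactSpace _)
  rw [hgy, hgy] at h2
  have h3 : ∫ m : M, (f (x * m) - f (1 * m)) ∂μ = 0 := by
    rw [integral_sub (hint x) (hint 1), h2, sub_self]
  have h4 : (∫ _m : M, (1 / 3 : ℝ) ∂μ) ≤ ∫ m : M, (f (x * m) - f (1 * m)) ∂μ := by
    apply integral_mono (integrable_const _) ((hint x).sub (hint 1))
    intro m
    have h5 := hfP m m.2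
    have h6 := hfQ (x * m) ⟨m, m.2, rfl⟩
    rw [abs_le] at h5 h6
    simp only [one_mul, Pi.sub_apply]
    linarith
  rw [h3, integral_const, smul_eq_mul] at h4
  have h7 : 0 < μ.real Set.univ := by
    rw [measureReal_def]
    apply ENNReal.toReal_pos
    · exact (isOpen_univ.measure_pos μ Set.univ_nonempty).ne'
    · exact measure_ne_top _ _
  linarith

end H645.MC
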