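import Pool.Agent.H645R3.MC0

set_option autoImplicit false
set_option linter.style.haveILetI false
set_option linter.unusedSectionVars false

open Filter Topology Pointwise

noncomputable section

namespace H645.MC

/-- kernels of finite-dimensional representations -/
def LK (K : Type) [Group K] [TopologicalSpace K] : Set (Subgroup K) :=
  {L | ∃ (ι : Type) (_ : Fintype ι) (_ : DecidableEq ι) (ρ : K →* Matrix ι ι ℂ),
    Continuous ρ ∧ L = ρ.ker}

variable {K : Type} [Group K] [TopologicalSpace K]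

theorem LK.closed {L : Subgroup K} (hL : L ∈ LK K) : IsClosed (L : Set K) := by
  obtain ⟨ι, _, _, ρ, hρ, rfl⟩ := hL
  have : (ρ.ker : Set K) = ρ ⁻¹' {1} := rfl
  rw [this]
  exact isClosed_singleton.preimage hρ

theorem LK.normal {L : Subgroup K} (hL : L ∈ LK K) : L.Normal := by
  obtain ⟨ι, _, _, ρ, hρ, rfl⟩ := hL
  infer_instance

theorem LK.inf {L L' : Subgroup K} (hL : L ∈ LK K) (hL' : L' ∈ LK K) : L ⊓ L' ∈ LK K := by
  classical
  obtain ⟨ι, _, _, ρ, hρ, rfl⟩ := hL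
  obtain ⟨κ, _, _, σ, hσ, rfl⟩ := hL'
  refine ⟨ι ⊕ κ, inferInstance, inferInstance,
    { toFun := fun x => Matrix.fromBlocks (ρ x) 0 0 (σ x)
      map_one' := by rw [map_one, map_one, Matrix.fromBlocks_one]
      map_mul' := fun x y => by
        rw [map_mul, map_mul, Matrix.fromBlocks_multiply]
        simp }, ?_, ?_⟩
  · exact Continuous.matrix_fromBlocks hρ continuous_const continuous_const hσ
  · ext x
    rw [Subgroup.mem_inf, MonoidHom.mem_ker, MonoidHom.mem_ker, MonoidHom.mem_ker]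
    change _ ↔ Matrix.fromBlocks (ρ x) 0 0 (σ x) = 1
    rw [← Matrix.fromBlocks_one, Matrix.fromBlocks_inj]
    simp

theorem LK.top : (⊤ : Subgroup K) ∈ LK K := by
  classical
  refine ⟨Fin 0, inferInstance, inferInstance, 1, ?_, ?_⟩
  · exact continuous_const
  · ext x
    simp

theorem exists_ne_one {H : Subgroup K} (h : H ≠ ⊥) : ∃ y ∈ H, y ≠ 1 := by
  obtain ⟨a, ha⟩ := Subgroup.ne_bot_iff_exists_ne_one.1 h
  exact ⟨a.1, a.2, fun h => ha (Subtype.ext h)⟩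

variable [IsTopologicalGroup K] [CompactSpace K] [T2Space K]

theorem LK.sep {x : K} (hx : x ≠ 1) : ∃ L ∈ LK K, x ∉ L := by
  obtain ⟨N, ρ, hρ, hρx⟩ := Pool.LatH472.PWaux1.exists_rep_ne_one K x hx
  exact ⟨ρ.ker, ⟨Fin N, inferInstance, inferInstance, ρ, hρ, rfl⟩, fun h => hρx h⟩

/-- descending chain condition -/
theorem dcc (𝓝' : Set (Subgroup K)) (hne : 𝓝'.Nonempty) (hch : IsChain (· ≤ ·) 𝓝')
    (hcl : ∀ N ∈ 𝓝', IsClosed (N : Set K)) (L : Subgroup K) (hL : L ∈ LK K) :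
    ∃ N0 ∈ 𝓝', ∀ y ∈ N0, ∃ e ∈ sInf 𝓝', e⁻¹ * y ∈ L := by
  have hLc := LK.closed hL
  obtain ⟨ι, _, _, ρ, hρ, rfl⟩ := hL
  have hnoeth := noeth_AA ρ hρ
  let I : Subgroup K → Ideal (AA ρ hρ) := fun N =>
    { carrier := {f | ∀ m ∈ N, f.1 m = 0}
      zero_mem' := fun m _ => rfl
      add_mem' := by
        intro f g hf hg m hm
        have h1 := hf m hm
        have h2 := hg m hm
        change f.1 m + g.1 m = 0
        rw [h1, h2, add_zero]
      smul_mem' := by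
        intro c f hf m hm
        have h1 := hf m hm
        change c.1 m * f.1 m = 0
        rw [h1, mul_zero] }
  have hI : ∀ N (f : AA ρ hρ), f ∈ I N ↔ ∀ m ∈ N, f.1 m = 0 := fun N f => Iff.rfl
  obtain ⟨J, ⟨N0, hN0, rfl⟩, hmax⟩ := WellFounded.has_min (wellFounded_gt (α := Ideal (AA ρ hρ)))
    (I '' 𝓝') (hne.image _)
  refine ⟨N0, hN0, fun y hy => ?_⟩
  have hex : ∀ N ∈ 𝓝', ∃ e ∈ N, e⁻¹ * y ∈ ρ.ker := by
    intro N hN
    rcases hch.total hN hN0 with hle | hle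
    · have h1 : I N0 ≤ I N := fun f hf m hm => hf m (hle hm)
      have h2 : I N = I N0 := by
        by_contra hne'
        exact hmax (I N) ⟨N, hN, rfl⟩ (lt_of_le_of_ne h1 (Ne.symm hne'))
      obtain ⟨m, hm, hmy⟩ := algebraic ρ hρ N (hcl N hN) y (by
        intro f hf hfm
        have h3 : (⟨f, hf⟩ : AA ρ hρ) ∈ I N := hfm
        rw [h2] at h3
        exact h3 y hy)
      refine ⟨m, hm, ?_⟩
      rw [MonoidHom.mem_ker, map_mul, ← hmy, ← map_mul, inv_mul_cancel, map_one]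
    · exact ⟨y, hle hy, by simp⟩
  let T : 𝓝' → Set K := fun N => {e | e ∈ N.1 ∧ e⁻¹ * y ∈ ρ.ker}
  have hTc : ∀ N, IsClosed (T N) := by
    intro N
    refine (hcl N.1 N.2).inter ?_
    have : Continuous (fun e : K => e⁻¹ * y) := by fun_prop
    exact hLc.preimage this
  have hnn : Nonempty 𝓝' := hne.to_subtype
  obtain ⟨e, he⟩ := IsCompact.nonempty_iInter_of_directed_nonempty_isCompact_isClosed T (by
    intro N N'
    rcases hch.total N.2 N'.2 with hle | hle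
    · exact ⟨N, subset_rfl, fun e he => ⟨hle he.1, he.2⟩⟩
    · exact ⟨N', fun e he => ⟨hle he.1, he.2⟩, subset_rfl⟩) (by
    intro N
    obtain ⟨e, he, he'⟩ := hex N.1 N.2
    exact ⟨e, he, he'⟩) (fun N => (hTc N).isCompact) hTc
  rw [Set.mem_iInter] at he
  refine ⟨e, ?_, ?_⟩
  · rw [Subgroup.mem_sInf]
    intro N hN
    exact (he ⟨N, hN⟩).1
  · obtain ⟨N, hN⟩ := hne
    exact (he ⟨N, hN⟩).2

/-- sequences which are strongly null modulo a closed subgroup -/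
structure PP (K : Type) [Group K] [TopologicalSpace K] where
  /-- the subgroup -/
  N : Subgroup K
  /-- the sequence -/
  x : ℕ → K
  hN : IsClosed (N : Set K)
  hx : ∀ n, x n ∉ N
  sn : ∀ L ∈ LK K, ∀ᶠ n in atTop, ∃ e ∈ N, x n * e ∈ L

/-- refinement -/
def PP.r (p q : PP K) : Prop := q.N ≤ p.N ∧ ∀ n, (p.x n)⁻¹ * q.x n ∈ p.N

theorem PP.r_trans {a b c : PP K} (h1 : PP.r a b) (h2 : PP.r b c) : PP.r a c := by
  refine ⟨h2.1.trans h1.1, fun n => ?_⟩
  have := a.N.mul_mem (h1.2 n) (h1.1 (h2.2 n))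
  rwa [mul_assoc, mul_inv_cancel_left] at this

theorem PP.start (hK : (⊥ : Subgroup K) ∉ LK K) : Nonempty (PP K) := by
  have hnext : ∀ L : LK K, ∃ q : K × LK K, q.1 ∈ L.1 ∧ q.1 ∉ q.2.1 ∧ q.2.1 ≤ L.1 := by
    intro L
    have hne : L.1 ≠ ⊥ := fun h => hK (h ▸ L.2)
    obtain ⟨y, hy, hy1⟩ := exists_ne_one hne
    obtain ⟨L', hL', hyL'⟩ := LK.sep hy1
    exact ⟨(y, ⟨L.1 ⊓ L', LK.inf L.2 hL'⟩), hy, fun h => hyL' h.2, inf_le_left⟩
  choose nx h1 h2 h3 using hnext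
  let s : ℕ → LK K := fun n => Nat.rec ⟨⊤, LK.top⟩ (fun _ L => (nx L).2) n
  have hs : ∀ n, s (n + 1) = (nx (s n)).2 := fun n => rfl
  have hanti : Antitone (fun n => (s n).1) := by
    apply antitone_nat_of_succ_le
    intro n
    rw [hs]
    exact h3 (s n)
  let 𝓝' : Set (Subgroup K) := Set.range (fun n => (s n).1)
  have hch : IsChain (· ≤ ·) 𝓝' := by
    rintro _ ⟨n, rfl⟩ _ ⟨m, rfl⟩ _
    rcases le_total n m with h | h
    · exact Or.inr (hanti h)
    · exact Or.inl (hanti h)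
  have hcl : ∀ N ∈ 𝓝', IsClosed (N : Set K) := by
    rintro _ ⟨n, rfl⟩
    exact LK.closed (s n).2
  refine ⟨⟨sInf 𝓝', fun n => (nx (s n)).1, ?_, ?_, ?_⟩⟩
  · rw [Subgroup.coe_sInf]
    exact isClosed_biInter hcl
  · intro n hmem
    rw [Subgroup.mem_sInf] at hmem
    have : (nx (s n)).1 ∈ (s (n + 1)).1 := hmem _ ⟨n + 1, rfl⟩
    rw [hs] at this
    exact h2 (s n) this
  · intro L hL
    obtain ⟨_, ⟨n0, rfl⟩, hn0⟩ := dcc 𝓝' ⟨_, 0, rfl⟩ hch hcl L hL
    filter_upwards [eventually_ge_atTop n0] with n hn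
    obtain ⟨e, he, heL⟩ := hn0 (nx (s n)).1 (hanti hn (h1 (s n)))
    refine ⟨e⁻¹, inv_mem he, ?_⟩
    have := (LK.normal hL).conj_mem _ heL e
    rwa [mul_inv_cancel_left] at this

theorem PP.bound (hK : (⊥ : Subgroup K) ∉ LK K) (c : Set (PP K)) (hc : IsChain PP.r c) :
    ∃ ub, ∀ a ∈ c, PP.r a ub := by
  rcases c.eq_empty_or_nonempty with rfl | hne
  · exact ⟨(PP.start hK).some, by simp⟩
  let 𝓝' : Set (Subgroup K) := PP.N '' c
  have hch : IsChain (· ≤ ·) 𝓝' := by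
    rintro _ ⟨p, hp, rfl⟩ _ ⟨q, hq, rfl⟩ hne'
    have hpq : p ≠ q := fun h => hne' (by rw [h])
    rcases hc hp hq hpq with h | h
    · exact Or.inr h.1
    · exact Or.inl h.1
  have hcl : ∀ N ∈ 𝓝', IsClosed (N : Set K) := by
    rintro _ ⟨p, _, rfl⟩
    exact p.hN
  have hnn : Nonempty c := hne.to_subtype
  have hex : ∀ n, ∃ z : K, ∀ p ∈ c, (p.x n)⁻¹ * z ∈ p.N := by
    intro n
    let T : c → Set K := fun p => {z | (p.1.x n)⁻¹ * z ∈ p.1.N}
    have hTc : ∀ p, IsClosed (T p) := by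
      intro p
      have : Continuous (fun z : K => (p.1.x n)⁻¹ * z) := by fun_prop
      exact p.1.hN.preimage this
    have hsub : ∀ p q : PP K, PP.r p q → ∀ z, (q.x n)⁻¹ * z ∈ q.N → (p.x n)⁻¹ * z ∈ p.N := by
      intro p q hpq z hz
      have := p.N.mul_mem (hpq.2 n) (hpq.1 hz)
      rwa [mul_assoc, mul_inv_cancel_left] at this
    obtain ⟨z, hz⟩ := IsCompact.nonempty_iInter_of_directed_nonempty_isCompact_isClosed T (by
      intro p q
      by_cases hpq : p = q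
      · subst hpq
        exact ⟨p, subset_rfl, subset_rfl⟩
      · rcases hc p.2 q.2 (fun h => hpq (Subtype.ext h)) with h | h
        · exact ⟨q, fun z hz => hsub p q h z hz, subset_rfl⟩
        · exact ⟨p, subset_rfl, fun z hz => hsub q p h z hz⟩) (by
      intro p
      exact ⟨p.1.x n, by
        change (p.1.x n)⁻¹ * p.1.x n ∈ p.1.N
        rw [inv_mul_cancel]
        exact one_mem _⟩) (fun p => (hTc p).isCompact) hTc
    rw [Set.mem_iInter] at hz
    exact ⟨z, fun p hp => hz ⟨p, hp⟩⟩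
  choose x hx using hex
  refine ⟨⟨sInf 𝓝', x, ?_, ?_, ?_⟩, ?_⟩
  · rw [Subgroup.coe_sInf]
    exact isClosed_biInter hcl
  · intro n hmem
    rw [Subgroup.mem_sInf] at hmem
    obtain ⟨p, hp⟩ := hne
    have h1 := hmem _ ⟨p, hp, rfl⟩
    have h2 := hx n p hp
    apply p.hx n
    have := p.N.mul_mem h1 (p.N.inv_mem h2)
    rwa [mul_inv_rev, inv_inv, mul_inv_cancel_left] at this
  · intro L hL
    obtain ⟨_, ⟨p, hp, rfl⟩, hp0⟩ := dcc 𝓝' (hne.image _) hch hcl L hL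
    filter_upwards [p.sn L hL] with n hn
    obtain ⟨a, ha, haL⟩ := hn
    obtain ⟨e, he, heL⟩ := hp0 (((p.x n)⁻¹ * x n)⁻¹ * a) (p.N.mul_mem (p.N.inv_mem (hx n p hp)) ha)
    refine ⟨e, he, ?_⟩
    have := L.mul_mem haL (L.inv_mem heL)
    have heq : p.x n * a * (e⁻¹ * (((p.x n)⁻¹ * x n)⁻¹ * a))⁻¹ = x n * e := by group
    rwa [heq] at this
  · intro p hp
    refine ⟨sInf_le ⟨p, hp, rfl⟩, fun n => hx n p hp⟩

/-- existence of strongly null sequences -/
theorem exists_strongly_null (hK : (⊥ : Subgroup K) ∉ LK K) :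
    ∃ x : ℕ → K, (∀ n, x n ≠ 1) ∧ ∀ L ∈ LK K, ∀ᶠ n in atTop, x n ∈ L := by
  classical
  obtain ⟨p, hp⟩ := exists_maximal_of_chains_bounded (r := PP.r (K := K)) (PP.bound hK)
    (fun h1 h2 => PP.r_trans h1 h2)
  have hbot : p.N = ⊥ := by
    by_contra hne
    obtain ⟨y, hy, hy1⟩ := exists_ne_one hne
    obtain ⟨L, hL, hyL⟩ := LK.sep hy1
    have hex : ∀ n, ∃ b ∈ p.N, (∃ e ∈ p.N, p.x n * e ∈ L) → p.x n * b ∈ L := by
      intro n
      by_cases h : ∃ e ∈ p.N, p.x n * e ∈ L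
      · obtain ⟨e, he, heL⟩ := h
        exact ⟨e, he, fun _ => heL⟩
      · exact ⟨1, one_mem _, fun h' => absurd h' h⟩
    choose b hb hbL using hex
    have hr : PP.r p ⟨p.N ⊓ L, fun n => p.x n * b n, p.hN.inter (LK.closed hL), (by
      intro n hmem
      apply p.hx n
      have := p.N.mul_mem hmem.1 (p.N.inv_mem (hb n))
      rwa [mul_inv_cancel_right] at this), (by
      intro L2 hL2
      filter_upwards [p.sn (L ⊓ L2) (LK.inf hL hL2)] with n hn
      obtain ⟨a, ha, haL, haL2⟩ := hn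
      have hbn := hbL n ⟨a, ha, haL⟩
      refine ⟨(b n)⁻¹ * a, ⟨p.N.mul_mem (p.N.inv_mem (hb n)) ha, ?_⟩, ?_⟩
      · have := L.mul_mem (L.inv_mem hbn) haL
        have heq : (p.x n * b n)⁻¹ * (p.x n * a) = (b n)⁻¹ * a := by group
        rwa [heq] at this
      · have heq : p.x n * b n * ((b n)⁻¹ * a) = p.x n * a := by group
        rw [heq]
        exact haL2)⟩ := by
      refine ⟨inf_le_left, fun n => ?_⟩
      change (p.x n)⁻¹ * (p.x n * b n) ∈ p.N
      rw [inv_mul_cancel_left]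
      exact hb n
    have h2 := hp _ hr
    exact hyL (h2.1 hy).2
  refine ⟨p.x, ?_, ?_⟩
  · intro n h1
    apply p.hx n
    rw [h1]
    exact one_mem _
  · intro L hL
    filter_upwards [p.sn L hL] with n hn
    obtain ⟨e, he, heL⟩ := hn
    rw [hbot, Subgroup.mem_bot] at he
    rwa [he, mul_one] at heL

end H645.MC
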