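import Pool.Agent.H645R3.MC1
import Pool.Agent.H241R3.NilA

set_option autoImplicit false
set_option linter.style.haveILetI false
set_option linter.unusedSectionVars false

open Filter Topology Pointwise

noncomputable section

namespace H645.MC

open Pool.Agent.H241R3.Nil

theorem exists_completion (G : Type) [Group G] [TopologicalSpace G] [IsTopologicalGroup G]
    (hP : Precompact G) :
    ∃ (K : Type) (_ : Group K) (_ : TopologicalSpace K) (_ : IsTopologicalGroup K)
      (_ : CompactSpace K) (_ : T2Space K) (i : G →* K), IsInducing i ∧ DenseRange i := by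
  let _ : UniformSpace G := IsTopologicalGroup.rightUniformSpace G
  have hR : IsRightUniformGroup G := ⟨rfl⟩
  have hL : IsLeftUniformGroup G := by
    refine ⟨?_⟩
    rw [uniformity_eq_comap_nhds_one' G]
    apply le_antisymm
    · intro S hS
      rw [mem_comap] at hS ⊢
      obtain ⟨U, hU, hUS⟩ := hS
      obtain ⟨V, hV, hVU⟩ := sin hP hU
      refine ⟨V, hV, ?_⟩
      rintro ⟨x, y⟩ hxy
      apply hUS
      have := hVU _ hxy x⁻¹
      simp only [Set.mem_preimage] at this ⊢
      have heq : x⁻¹ * (y * x⁻¹) * x⁻¹⁻¹ = x⁻¹ * y := by group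
      rwa [heq] at this
    · intro S hS
      rw [mem_comap] at hS ⊢
      obtain ⟨U, hU, hUS⟩ := hS
      obtain ⟨V, hV, hVU⟩ := sin hP hU
      refine ⟨V, hV, ?_⟩
      rintro ⟨x, y⟩ hxy
      apply hUS
      have := hVU _ hxy x
      simp only [Set.mem_preimage] at this ⊢
      have heq : x * (x⁻¹ * y) * x⁻¹ = y * x⁻¹ := by group
      rwa [heq] at this
  have hU : IsUniformGroup G := IsUniformGroup.of_left_right
  have hUA : IsUniformAddGroup (Additive G) :=
    ⟨(uniformContinuous_div : UniformContinuous fun p : G × G => p.1 / p.2)⟩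
  have htb0 : TotallyBounded (Set.univ : Set G) := by
    intro d hd
    rw [uniformity_eq_comap_nhds_one' G, mem_comap] at hd
    obtain ⟨U, hU, hUd⟩ := hd
    obtain ⟨F, hF⟩ := hP U hU
    refine ⟨(F : Set G).image (fun g => g⁻¹), F.finite_toSet.image _, ?_⟩
    intro x _
    obtain ⟨g, hg, hx⟩ := hF x⁻¹
    have hx2 := Set.mem_smul_set_iff_inv_smul_mem.1 hx
    exact Set.mem_iUnion₂.2 ⟨g⁻¹, ⟨g, hg, rfl⟩, hUd (a := (x, g⁻¹)) hx2⟩
  have htb : TotallyBounded (Set.univ : Set (Additive G)) := htb0
  let K := UniformSpace.Completion (Additive G)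
  have hcomp : CompactSpace K := by
    constructor
    rw [isCompact_iff_totallyBounded_isComplete]
    refine ⟨?_, isClosed_univ.isComplete⟩
    have h1 := (htb.image (UniformSpace.Completion.uniformContinuous_coe (Additive G))).closure
    rw [Set.image_univ, UniformSpace.Completion.denseRange_coe.closure_range] at h1
    exact h1
  let i : Additive G →+ K := UniformSpace.Completion.toCompl
  have hi : IsInducing i := (UniformSpace.Completion.isUniformInducing_coe (Additive G)).isInducing
  have hd : DenseRange i := UniformSpace.Completion.denseRange_coe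
  let _ : TopologicalSpace (Multiplicative K) := (inferInstance : TopologicalSpace K)
  have h1 : IsTopologicalGroup (Multiplicative K) := inferInstance
  have h2 : CompactSpace (Multiplicative K) := (inferInstance : CompactSpace K)
  have h3 : T2Space (Multiplicative K) := (inferInstance : T2Space K)
  refine ⟨Multiplicative K, inferInstance, inferInstance, h1, h2, h3,
    MonoidHom.mk' (fun g => Multiplicative.ofAdd (i (Additive.ofMul g))) (fun a b => ?_), hi, hd⟩
  rw [ofMul_mul, map_add, ofAdd_add]

/-- essentiality -/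
theorem essential {G K : Type} [Group G] [TopologicalSpace G] [IsTopologicalGroup G] [T2Space G]
    [Group K] [TopologicalSpace K] [IsTopologicalGroup K] [CompactSpace K] [T2Space K]
    (hm : Minimal G) (i : G →* K) (hi : IsInducing i) (hd : DenseRange i)
    (N : Subgroup K) [N.Normal] (hN : IsClosed (N : Set K)) (hne : N ≠ ⊥) :
    ∃ g : G, g ≠ 1 ∧ i g ∈ N := by
  by_contra hcon
  push Not at hcon
  obtain ⟨x, hx, hx1⟩ := exists_ne_one hne
  have hNc : IsClosed (N : Set K) := hN
  let φ : G →* K ⧸ N := (QuotientGroup.mk' N).comp i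
  have hφi : Function.Injective φ := by
    rw [injective_iff_map_eq_one]
    intro g hg
    by_contra hg1
    apply hcon g hg1
    exact (QuotientGroup.eq_one_iff _).1 hg
  have hT2 : T2Space (K ⧸ N) := by
    have : T3Space (K ⧸ N) := inferInstance
    infer_instance
  have hφc : Continuous φ := continuous_quot_mk.comp hi.continuous
  have heq : TopologicalSpace.induced φ inferInstance = ‹TopologicalSpace G› := by
    apply hm
    · exact continuous_iff_le_induced.1 hφc
    · exact topologicalGroup_induced φ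
    · exact @T2Space.of_injective_continuous G (K ⧸ N)
        (TopologicalSpace.induced φ inferInstance) _ _ φ hφi continuous_induced_dom
  have hind : IsInducing φ := ⟨heq.symm⟩
  obtain ⟨U, V, hUo, hVo, hxU, h1V, hUV⟩ := t2_separation hx1
  have h1 : i ⁻¹' V ∈ 𝓝 (1 : G) := by
    apply hi.continuous.continuousAt
    rw [map_one]
    exact hVo.mem_nhds h1V
  rw [hind.nhds_eq_comap, mem_comap] at h1
  obtain ⟨W, hW, hWV⟩ := h1
  rw [map_one] at hW
  obtain ⟨W', hW'W, hW'o, h1W'⟩ := mem_nhds_iff.1 hW
  have h2 : IsOpen ((QuotientGroup.mk' N) ⁻¹' W' ∩ U) :=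
    (hW'o.preimage continuous_quot_mk).inter hUo
  have hx2 : x ∈ (QuotientGroup.mk' N) ⁻¹' W' ∩ U := by
    refine ⟨?_, hxU⟩
    have : (QuotientGroup.mk' N) x = 1 := (QuotientGroup.eq_one_iff _).2 hx
    rw [Set.mem_preimage, this]
    exact h1W'
  obtain ⟨g, hg⟩ := hd.exists_mem_open h2 ⟨x, hx2⟩
  have h3 : g ∈ i ⁻¹' V := hWV (hW'W hg.1)
  exact Set.disjoint_left.1 hUV hg.2 h3

/-- nontrivial convergent sequences in minimal precompact groups -/
theorem exists_seq {G : Type} [Group G] [TopologicalSpace G] [IsTopologicalGroup G] [T2Space G]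
    [Infinite G] (hP : Precompact G) (hm : Minimal G) :
    ∃ g : ℕ → G, (∀ n, g n ≠ 1) ∧ Tendsto g atTop (𝓝 1) := by
  classical
  obtain ⟨K, _, _, _, _, _, i, hi, hd⟩ := exists_completion G hP
  by_cases hK : (⊥ : Subgroup K) ∈ LK K
  · -- the Lie case: first countable
    obtain ⟨ι, _, _, ρ, hρ, hker⟩ := hK
    have hinj : Function.Injective ρ := by
      intro a b hab
      have : a⁻¹ * b ∈ ρ.ker := by
        rw [MonoidHom.mem_ker, map_mul, ← hab, ← map_mul, inv_mul_cancel, map_one]
      rw [← hker, Subgroup.mem_bot, inv_mul_eq_one] at this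
      exact this
    have hemb : IsInducing ρ := (hρ.isClosedEmbedding hinj).isInducing
    have hcg : (𝓝 (1 : G)).IsCountablyGenerated := by
      have hfc : FirstCountableTopology (Matrix ι ι ℂ) :=
        (inferInstance : FirstCountableTopology (ι → ι → ℂ))
      rw [hi.nhds_eq_comap, hemb.nhds_eq_comap]
      infer_instance
    have hnd : ({1} : Set G) ∉ 𝓝 (1 : G) := by
      intro h
      obtain ⟨F, hF⟩ := hP _ h
      apply Set.infinite_univ (α := G)
      refine F.finite_toSet.subset ?_
      intro x _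
      obtain ⟨g, hg, hx⟩ := hF x
      rw [Set.smul_set_singleton, Set.mem_singleton_iff] at hx
      rw [hx, smul_eq_mul, mul_one]
      exact hg
    have hne : (𝓝[≠] (1 : G)).NeBot := by
      rw [← mem_closure_iff_nhdsWithin_neBot, mem_closure_iff_nhds]
      intro t ht
      by_contra hemp
      rw [Set.not_nonempty_iff_eq_empty] at hemp
      apply hnd
      refine mem_of_superset ht ?_
      intro y hy
      by_contra hy1
      have : y ∈ t ∩ {1}ᶜ := ⟨hy, hy1⟩
      rw [hemp] at this
      exact this
    obtain ⟨g, hg⟩ := exists_seq_tendsto (𝓝[≠] (1 : G))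
    rw [tendsto_nhdsWithin_iff] at hg
    obtain ⟨N, hN⟩ := eventually_atTop.1 hg.2
    exact ⟨fun n => g (n + N), fun n => hN _ (Nat.le_add_left _ _),
      hg.1.comp (tendsto_add_atTop_nat N)⟩
  · obtain ⟨x, hx1, hx⟩ := exists_strongly_null hK
    have hex : ∀ n, ∃ g : G, g ≠ 1 ∧ ∀ L ∈ LK K, x n ∈ L → i g ∈ L := by
      intro n
      let 𝓛 : Set (Subgroup K) := {L | L ∈ LK K ∧ x n ∈ L}
      have hnorm : (sInf 𝓛).Normal := by
        refine ⟨fun a ha b => ?_⟩
        rw [Subgroup.mem_sInf] at ha ⊢
        intro L hL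
        exact (LK.normal hL.1).conj_mem _ (ha L hL) b
      have hcl : IsClosed ((sInf 𝓛 : Subgroup K) : Set K) := by
        rw [Subgroup.coe_sInf]
        exact isClosed_biInter fun L hL => LK.closed hL.1
      have hmem : x n ∈ sInf 𝓛 := by
        rw [Subgroup.mem_sInf]
        exact fun L hL => hL.2
      obtain ⟨g, hg1, hg⟩ := essential hm i hi hd (sInf 𝓛) hcl (by
        intro hbot
        rw [hbot, Subgroup.mem_bot] at hmem
        exact hx1 n hmem)
      refine ⟨g, hg1, fun L hL hxL => ?_⟩
      rw [Subgroup.mem_sInf] at hg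
      exact hg L ⟨hL, hxL⟩
    choose g hg1 hg using hex
    refine ⟨g, hg1, ?_⟩
    rw [hi.nhds_eq_comap, map_one, tendsto_comap_iff]
    -- convergence in K
    intro U hU
    change ∀ᶠ n in atTop, i (g n) ∈ U
    obtain ⟨V, hVU, hVo, h1V⟩ := mem_nhds_iff.1 hU
    have hcomp : IsCompact (Vᶜ : Set K) := hVo.isClosed_compl.isCompact
    obtain ⟨t, ht⟩ := hcomp.elim_finite_subcover (fun L : LK K => ((L.1 : Set K))ᶜ)
      (fun L => (LK.closed L.2).isOpen_compl) (by
        intro y hy
        have hy1 : y ≠ 1 := by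
          rintro rfl
          exact hy h1V
        obtain ⟨L, hL, hyL⟩ := LK.sep hy1
        exact Set.mem_iUnion.2 ⟨⟨L, hL⟩, hyL⟩)
    have hev : ∀ᶠ n in atTop, ∀ L ∈ t, x n ∈ L.1 := by
      rw [Filter.eventually_all_finset]
      intro L _
      exact hx L.1 L.2
    filter_upwards [hev] with n hn
    apply hVU
    by_contra hV
    obtain ⟨L, hL, hgL⟩ := Set.mem_iUnion₂.1 (ht hV)
    exact hgL (hg n L.1 L.2 (hn L hL))

/-- extracting an injective sequence -/
theorem injective_seq {X : Type} [TopologicalSpace X] [T1Space X] (p : X) (g : ℕ → X)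
    (hg : ∀ n, g n ≠ p) (hlim : Tendsto g atTop (𝓝 p)) :
    ∃ h : ℕ → X, Function.Injective h ∧ Tendsto h atTop (𝓝 p) := by
  classical
  have hfib : ∀ v ≠ p, ∃ N, ∀ n ≥ N, g n ≠ v := by
    intro v hv
    have := hlim (isOpen_compl_singleton.mem_nhds (show p ∈ ({v}ᶜ : Set X) from Ne.symm hv))
    obtain ⟨N, hN⟩ := eventually_atTop.1 this
    exact ⟨N, fun n hn => hN n hn⟩
  have hinf : (Set.range g).Infinite := by
    intro hfin
    have : ∀ v : Set.range g, ∃ N, ∀ n ≥ N, g n ≠ v.1 := by
      rintro ⟨_, m, rfl⟩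
      exact hfib _ (hg m)
    choose N hN using this
    have := hfin.to_subtype
    let _ := Fintype.ofFinite (Set.range g)
    let M := Finset.univ.sup N
    exact hN ⟨g M, M, rfl⟩ M (Finset.le_sup (Finset.mem_univ _)) rfl
  let e : ℕ ↪ Set.range g := hinf.natEmbedding
  have hs : ∀ v : Set.range g, ∃ n, g n = v := fun v => v.2
  choose s hs using hs
  have hinj : Function.Injective (fun k => s (e k)) := by
    intro a b hab
    apply e.injective
    apply Subtype.ext
    rw [← hs (e a), ← hs (e b)]
    exact congrArg g hab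
  refine ⟨fun k => g (s (e k)), ?_, ?_⟩
  · intro a b hab
    apply e.injective
    apply Subtype.ext
    simp only [hs] at hab
    exact hab
  · exact hlim.comp (Nat.cofinite_eq_atTop ▸ hinj.tendsto_cofinite)

end H645.MC
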