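import Pool.Agent.H645R3.MC2

set_option autoImplicit false
set_option linter.style.haveILetI false

open Filter Topology Pointwise

namespace H645.MC

open Pool.Agent.H241R3.Nil

/-- countably compact groups are precompact -/
theorem precompact_of_cc (G : Type) [Group G] [TopologicalSpace G] [IsTopologicalGroup G]
    (h : ∀ u : ℕ → G, ∃ x : G, MapClusterPt x atTop u) : Precompact G := by
  classical
  by_contra hcon
  unfold Precompact at hcon
  push Not at hcon
  obtain ⟨U, hU, hF⟩ := hcon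
  obtain ⟨u, -, hu⟩ := exists_seq_of_forall_finset_exists (fun _ : G => True)
    (fun x y => y ∉ x • U) (by
      intro s _
      obtain ⟨y, hy⟩ := hF s
      exact ⟨y, trivial, hy⟩)
  obtain ⟨x, hx⟩ := h u
  have hc : ContinuousAt (fun p : G × G => p.1⁻¹ * p.2) (1, 1) := by fun_prop
  have h1 : (fun p : G × G => p.1⁻¹ * p.2) ⁻¹' U ∈ 𝓝 ((1 : G), (1 : G)) := by
    apply hc
    simpa using hU
  rw [nhds_prod_eq, mem_prod_self_iff] at h1
  obtain ⟨V, hV, hVU⟩ := h1
  have h2 : (fun y : G => x⁻¹ * y) ⁻¹' V ∈ 𝓝 x := by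
    have hc' : ContinuousAt (fun y : G => x⁻¹ * y) x := by fun_prop
    apply hc'
    simpa using hV
  have h3 := mapClusterPt_iff_frequently.1 hx _ h2
  obtain ⟨m, hm⟩ := h3.exists
  obtain ⟨n, hn, hmn⟩ := (h3.and_eventually (eventually_gt_atTop m)).exists
  apply hu m n hmn
  rw [Set.mem_smul_set_iff_inv_smul_mem]
  have h4 := hVU (show (x⁻¹ * u m, x⁻¹ * u n) ∈ V ×ˢ V from ⟨hm, hn⟩)
  simp only [Set.mem_preimage] at h4
  have heq : (x⁻¹ * u m)⁻¹ * (x⁻¹ * u n) = (u m)⁻¹ • u n := by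
    rw [smul_eq_mul]; group
  rwa [heq] at h4

end H645.MC
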