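import Pool.Agent.H645R3.Red

set_option autoImplicit false
set_option linter.style.haveILetI false

open Filter Topology Pointwise Cardinal

namespace H645

theorem step1 {κ : Cardinal.{0}} (hκ : ℵ₀ ≤ κ) {G : Type} [AddCommGroup G] [TopologicalSpace G]
    [IsTopologicalAddGroup G] (h : Bad κ G) :
    (Bad κ (CC G) ∧ Precpt (CC G)) ∨
      ∃ S : AddSubgroup G, Bad κ S ∧ ∀ V ∈ 𝓝 (0 : S), ∃ j, 1 ≤ j ∧ ∀ x : S, j • x ∈ V := by
  have := h.t2
  by_cases hp : PsiIn κ (CC G)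
  · right
    obtain ⟨S, hSc, hSB, hS⟩ := h.avoid hκ (fun _ => CC G) (fun _ => hp)
    refine ⟨S, hSB, fun V hV => ?_⟩
    have := hSB.tg
    obtain ⟨D, ⟨j, hj, rfl⟩, hD⟩ := hSB.min.subset {D : Set S | ∃ j : ℕ, 1 ≤ j ∧
      D = {z | ∃ y : S, z = j • y}} ⟨_, 1, le_rfl, rfl⟩
      (by rintro _ ⟨j, hj, rfl⟩; exact ⟨0, by simp⟩)
      (by
        rintro _ ⟨j, hj, rfl⟩ _ ⟨j', hj', rfl⟩
        refine ⟨_, ⟨j * j', Nat.mul_pos hj hj', rfl⟩, ?_⟩
        rintro _ ⟨y, rfl⟩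
        exact ⟨⟨j' • y, by rw [mul_smul]⟩, ⟨j • y, by rw [mul_comm, mul_smul]⟩⟩)
      (by
        rintro _ ⟨j, hj, rfl⟩
        refine ⟨_, ⟨j, hj, rfl⟩, ?_⟩
        rintro _ ⟨_, ⟨y, rfl⟩, _, ⟨z, rfl⟩, rfl⟩
        exact ⟨y + z, by simp⟩)
      (by
        rintro _ ⟨j, hj, rfl⟩
        refine ⟨_, ⟨j, hj, rfl⟩, ?_⟩
        rintro x ⟨y, hy⟩
        exact ⟨-y, by rw [smul_neg, ← hy, neg_neg]⟩)
      (by
        intro x hx
        have hxC : (x : G) ∉ CC G := fun hmem => hx (Subtype.ext (hS 0 x x.2 hmem))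
        rw [mem_CC] at hxC
        push Not at hxC
        obtain ⟨j, hj, hxj⟩ := hxC
        obtain ⟨W, hW, hWx⟩ := not_mem_clm j _ hxj
        refine ⟨Subtype.val ⁻¹' W, (nhds_sub S _).2 ⟨W, hW, subset_rfl⟩, _, ⟨j, hj, rfl⟩, ?_⟩
        rintro ⟨v, hv, _, ⟨y, rfl⟩, hxy⟩
        refine hWx v hv y ?_
        rw [← hxy]
        simp)
      V hV
    exact ⟨j, hj, fun x => hD ⟨x, rfl⟩⟩
  · left
    exact ⟨h.sub _ (isClosed_CC G) hp, precpt_CC h.min⟩

theorem bezout_aux {S : Type} [AddCommGroup S] [TopologicalSpace S] [IsTopologicalAddGroup S]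
    (hm : ∀ p : ℕ, p.Prime → ∀ V ∈ 𝓝 (0 : S), ∃ m, 1 ≤ m ∧ m.Coprime p ∧ ∀ x : S, m • x ∈ V)
    (m : ℕ) (hm1 : 1 ≤ m) : ∀ V ∈ 𝓝 (0 : S), ∀ O ∈ 𝓝 (0 : S), (∀ x : S, m • x ∈ V) →
      ∀ x : S, ∃ v ∈ V, ∃ o ∈ O, x = v + o := by
  induction m using Nat.strong_induction_on with
  | _ m ih =>
    intro V hV O hO hmV x
    by_cases h1 : m = 1
    · subst h1
      exact ⟨x, by simpa using hmV x, 0, mem_of_mem_nhds hO, by simp⟩
    · obtain ⟨p, hp, hpm⟩ := Nat.exists_prime_and_dvd h1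
      obtain ⟨O', hO', hOO⟩ := exists_nhds_zero_half hO
      obtain ⟨n, hn1, hnp, hnO⟩ := hm p hp O' hO'
      have hg1 : 1 ≤ Nat.gcd m n := Nat.gcd_pos_of_pos_left _ (by omega)
      have hgm : Nat.gcd m n < m := by
        refine lt_of_le_of_ne (Nat.gcd_le_left _ (by omega)) ?_
        intro he
        have hmn : m ∣ n := by rw [← he]; exact Nat.gcd_dvd_right _ _
        have hpn : p ∣ n := hpm.trans hmn
        have : p ∣ Nat.gcd n p := Nat.dvd_gcd hpn dvd_rfl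
        rw [Nat.Coprime.gcd_eq_one hnp] at this
        exact hp.one_lt.ne' (Nat.dvd_one.1 this)
      have hVO : V + O' ∈ 𝓝 (0 : S) := by
        refine mem_of_superset hV ?_
        intro v hv
        exact ⟨v, hv, 0, mem_of_mem_nhds hO', add_zero v⟩
      obtain ⟨_, ⟨v, hv, o1, ho1, rfl⟩, o2, ho2, hx⟩ := ih _ hgm hg1 (V + O') hVO O' hO' (by
        intro y
        have hb : ((Nat.gcd m n : ℕ) : ℤ) = m * Nat.gcdA m n + n * Nat.gcdB m n :=
          Nat.gcd_eq_gcd_ab m n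
        refine ⟨m • (Nat.gcdA m n • y), hmV _, n • (Nat.gcdB m n • y), hnO _, ?_⟩
        simp only
        rw [← natCast_zsmul, ← natCast_zsmul, ← natCast_zsmul, smul_smul, smul_smul, ← add_smul,
          hb]) x
      refine ⟨v, hv, o1 + o2, hOO _ ho1 _ ho2, ?_⟩
      rw [hx]
      simp only
      abel

/-- the intersection of the closures of `m G`, `m` prime to `p` -/
def HP (G : Type) [AddCommGroup G] [TopologicalSpace G] [IsTopologicalAddGroup G] (p : ℕ) :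
    AddSubgroup G := ⨅ j : {j : ℕ // 1 ≤ j ∧ j.Coprime p}, clm G j

theorem mem_HP {G : Type} [AddCommGroup G] [TopologicalSpace G] [IsTopologicalAddGroup G] (p : ℕ)
    (x : G) : x ∈ HP G p ↔ ∀ j, 1 ≤ j → j.Coprime p → x ∈ clm G j := by
  unfold HP
  rw [AddSubgroup.mem_iInf]
  exact ⟨fun h j hj hc => h ⟨j, hj, hc⟩, fun h j => h j.1 j.2.1 j.2.2⟩

theorem isClosed_HP (G : Type) [AddCommGroup G] [TopologicalSpace G] [IsTopologicalAddGroup G]
    (p : ℕ) : IsClosed (HP G p : Set G) := by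
  unfold HP
  rw [AddSubgroup.coe_iInf]
  exact isClosed_iInter fun j => isClosed_clm _

theorem step2 {κ : Cardinal.{0}} (hκ : ℵ₀ ≤ κ) {G : Type} [AddCommGroup G] [TopologicalSpace G]
    [IsTopologicalAddGroup G] (h : Bad κ G)
    (hlim : ∀ V ∈ 𝓝 (0 : G), ∃ j, 1 ≤ j ∧ ∀ x : G, j • x ∈ V) :
    ∃ p : ℕ, p.Prime ∧ ∃ S : AddSubgroup G, Bad κ S ∧
      ∀ V ∈ 𝓝 (0 : S), ∃ n, ∀ x : S, p ^ n • x ∈ V := by
  have := h.t2
  by_cases hp : ∃ p : ℕ, p.Prime ∧ ¬ PsiIn κ (HP G p)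
  · obtain ⟨p, hpp, hps⟩ := hp
    refine ⟨p, hpp, HP G p, h.sub _ (isClosed_HP G p) hps, fun O hO => ?_⟩
    obtain ⟨V, hV, hVO⟩ := (nhds_sub _ _).1 hO
    obtain ⟨V1, hV1, hVV⟩ := exists_nhds_zero_half hV
    obtain ⟨j, hj, hjV⟩ := hlim V1 hV1
    obtain ⟨s, m, hm, hjm⟩ := Nat.exists_eq_pow_mul_and_not_dvd (n := j) (by omega) p hpp.one_lt.ne'
    have hcop : m.Coprime p := ((Nat.Prime.coprime_iff_not_dvd hpp).2 hm).symm
    have hm1 : 1 ≤ m := by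
      rcases Nat.eq_zero_or_pos m with h0 | h0
      · subst h0; simp at hm
      · exact h0
    refine ⟨s, fun x => hVO ?_⟩
    have hW : {z : G | p ^ s • z ∈ V1} ∈ 𝓝 (0 : G) := by
      have hc : ContinuousAt (fun z : G => p ^ s • z) 0 := by fun_prop
      apply hc
      simpa using hV1
    obtain ⟨y, hy⟩ := (mem_clm m _).1 ((mem_HP p _).1 x.2 m hm1 hcop) _ hW
    change ((p ^ s • x : HP G p) : G) ∈ V
    have h1 : p ^ s • ((x : G) - m • y) ∈ V1 := hy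
    have h2 := hVV _ h1 _ (hjV y)
    rw [hjm, smul_sub, mul_smul, sub_add_cancel] at h2
    exact h2
  · exfalso
    push Not at hp
    obtain ⟨S, hSc, hSB, hS⟩ := h.avoid hκ (fun i => if i.Prime then HP G i else ⊥) (by
      intro i
      beta_reduce
      split_ifs with hi
      · exact hp i hi
      · exact ⟨∅, by simp, by simp, fun x hx _ => by simpa using hx⟩)
    have := hSB.tg
    have := hSB.t2
    have key : ∀ p : ℕ, p.Prime → ∀ V ∈ 𝓝 (0 : S), ∃ m, 1 ≤ m ∧ m.Coprime p ∧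
        ∀ x : S, m • x ∈ V := by
      intro p hpp V hV
      obtain ⟨D, ⟨j, hj, hjc, rfl⟩, hD⟩ := hSB.min.subset {D : Set S | ∃ j : ℕ, 1 ≤ j ∧
        j.Coprime p ∧ D = {z | ∃ y : S, z = j • y}} ⟨_, 1, le_rfl, Nat.coprime_one_left p, rfl⟩
        (by rintro _ ⟨j, hj, hjc, rfl⟩; exact ⟨0, by simp⟩)
        (by
          rintro _ ⟨j, hj, hjc, rfl⟩ _ ⟨j', hj', hjc', rfl⟩
          refine ⟨_, ⟨j * j', Nat.mul_pos hj hj', Nat.Coprime.mul_left hjc hjc', rfl⟩, ?_⟩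
          rintro _ ⟨y, rfl⟩
          exact ⟨⟨j' • y, by rw [mul_smul]⟩, ⟨j • y, by rw [mul_comm, mul_smul]⟩⟩)
        (by
          rintro _ ⟨j, hj, hjc, rfl⟩
          refine ⟨_, ⟨j, hj, hjc, rfl⟩, ?_⟩
          rintro _ ⟨_, ⟨y, rfl⟩, _, ⟨z, rfl⟩, rfl⟩
          exact ⟨y + z, by simp⟩)
        (by
          rintro _ ⟨j, hj, hjc, rfl⟩
          refine ⟨_, ⟨j, hj, hjc, rfl⟩, ?_⟩
          rintro x ⟨y, hy⟩
          exact ⟨-y, by rw [smul_neg, ← hy, neg_neg]⟩)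
        (by
          intro x hx
          have hxC : (x : G) ∉ HP G p := fun hmem => hx (Subtype.ext (hS p x x.2 (by
            rw [if_pos hpp]; exact hmem)))
          rw [mem_HP] at hxC
          push Not at hxC
          obtain ⟨j, hj, hjc, hxj⟩ := hxC
          obtain ⟨W, hW, hWx⟩ := not_mem_clm j _ hxj
          refine ⟨Subtype.val ⁻¹' W, (nhds_sub S _).2 ⟨W, hW, subset_rfl⟩, _,
            ⟨j, hj, hjc, rfl⟩, ?_⟩
          rintro ⟨v, hv, _, ⟨y, rfl⟩, hxy⟩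
          refine hWx v hv y ?_
          rw [← hxy]
          simp)
        V hV
      exact ⟨j, hj, hjc, fun x => hD ⟨x, rfl⟩⟩
    apply not_bad_subsingleton (κ := κ) (G := S) _ hSB
    intro x
    by_contra hx
    obtain ⟨V0, hV0, hxV0⟩ : ∃ W ∈ 𝓝 (0 : S), x ∉ W :=
      ⟨{x}ᶜ, isOpen_compl_singleton.mem_nhds (fun h => hx (by simpa using h.symm)), by simp⟩
    obtain ⟨V', hV', hVV⟩ := exists_nhds_zero_half hV0
    obtain ⟨m, hm1, _, hmV⟩ := key 2 Nat.prime_two V' hV'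
    obtain ⟨v, hv, o, ho, hxvo⟩ := bezout_aux key m hm1 V' hV' V' hV' hmV x
    apply hxV0
    rw [hxvo]
    exact hVV v hv o ho

theorem precpt_clm {G : Type} [AddCommGroup G] [TopologicalSpace G] [IsTopologicalAddGroup G]
    (p i : ℕ) (hlim : ∀ V ∈ 𝓝 (0 : G), ∃ n, ∀ x : G, p ^ n • x ∈ V)
    (hPP : ∀ W ∈ 𝓝 (0 : G), PP p i W) : Precpt (clm G (p ^ i)) := by
  classical
  have claim : ∀ n : ℕ, ∀ U ∈ 𝓝 (0 : G), ∃ F : Finset G, ∀ x : G, ∃ f ∈ F, ∃ y : G,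
      p ^ i • x - f - p ^ (i + n) • y ∈ U := by
    intro n
    induction n with
    | zero =>
      intro U hU
      exact ⟨{0}, fun x => ⟨0, Finset.mem_singleton_self _, x, by
        simpa using mem_of_mem_nhds hU⟩⟩
    | succ n ih =>
      intro U hU
      obtain ⟨U', hU', hs⟩ := exists_nhds_zero_half hU
      obtain ⟨F, hF⟩ := ih U' hU'
      have hW : {z : G | p ^ n • z ∈ U'} ∈ 𝓝 (0 : G) := by
        have hc : ContinuousAt (fun z : G => p ^ n • z) 0 := by fun_prop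
        apply hc
        simpa using hU'
      obtain ⟨F', hF'⟩ := hPP _ hW
      refine ⟨F + F'.image (fun f => p ^ n • f), fun x => ?_⟩
      obtain ⟨f, hf, y, hy⟩ := hF x
      obtain ⟨f', hf', y', hy'⟩ := hF' y
      refine ⟨f + p ^ n • f', Finset.add_mem_add hf (Finset.mem_image_of_mem _ hf'), y', ?_⟩
      have h1 : p ^ n • (p ^ i • y - f' - p ^ (i + 1) • y') ∈ U' := hy'
      have h2 := hs _ hy _ h1
      have e : p ^ i • x - f - p ^ (i + n) • y + p ^ n • (p ^ i • y - f' - p ^ (i + 1) • y') =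
          p ^ i • x - (f + p ^ n • f') - p ^ (i + (n + 1)) • y' := by
        rw [smul_sub, smul_sub, smul_smul, smul_smul, ← pow_add, ← pow_add,
          show n + i = i + n by omega, show n + (i + 1) = i + (n + 1) by omega]
        abel
      rw [e] at h2
      exact h2
  apply Precpt.of_cover
  intro U hU
  obtain ⟨U1, hU1, hs1⟩ := exists_nhds_zero_half hU
  obtain ⟨U2, hU2, hs2⟩ := exists_nhds_zero_half hU1
  obtain ⟨N, hN⟩ := hlim U2 hU2
  obtain ⟨F, hF⟩ := claim N U2 hU2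
  refine ⟨F, fun x hx => ?_⟩
  obtain ⟨z, hz⟩ := (mem_clm _ x).1 hx U1 hU1
  obtain ⟨f, hf, y, hy⟩ := hF z
  refine ⟨f, hf, ?_⟩
  have h1 := hs2 _ hy _ (hN (p ^ i • y))
  have h2 := hs1 _ hz _ h1
  have e : x - p ^ i • z + (p ^ i • z - f - p ^ (i + N) • y + p ^ N • (p ^ i • y)) = x - f := by
    rw [smul_smul, ← pow_add, show N + i = i + N by omega]
    abel
  rw [e] at h2
  exact h2

theorem step3_aux {κ : Cardinal.{0}} (hκ : ℵ₀ ≤ κ) {G : Type} [AddCommGroup G]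
    [TopologicalSpace G] [IsTopologicalAddGroup G] (h : Bad κ G) (p : ℕ) (hp : p.Prime)
    (hlim : ∀ V ∈ 𝓝 (0 : G), ∃ n, ∀ x : G, p ^ n • x ∈ V) :
    ∃ i, (∃ x : G, p ^ i • x ≠ 0) ∧ ((Bad κ (clm G (p ^ i)) ∧ Precpt (clm G (p ^ i))) ∨
      ∃ S : AddSubgroup G, Bad κ S ∧ ∀ x : S, p ^ i • x = 0) := by
  have := h.t2
  have hnt : ∃ x : G, x ≠ 0 := by
    by_contra hcon
    push Not at hcon
    exact not_bad_subsingleton hcon h
  obtain ⟨i, hi, hPP⟩ := h.min.pAdic p hp hlim hnt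
  refine ⟨i, hi, ?_⟩
  by_cases hps : PsiIn κ (clm G (p ^ i))
  · right
    obtain ⟨S, hSc, hSB, hS⟩ := h.avoid hκ (fun _ => clm G (p ^ i)) (fun _ => hps)
    refine ⟨S, hSB, fun x => ?_⟩
    apply Subtype.ext
    refine hS 0 _ (p ^ i • x).2 ?_
    rw [mem_clm]
    intro V hV
    refine ⟨x, ?_⟩
    simpa using mem_of_mem_nhds hV
  · left
    exact ⟨h.sub _ (isClosed_clm _) hps, precpt_clm p i hlim hPP⟩

theorem step3 {κ : Cardinal.{0}} (hκ : ℵ₀ ≤ κ) (p : ℕ) (hp : p.Prime) (i : ℕ) :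
    ∀ (G : Type) [AddCommGroup G] [TopologicalSpace G], Bad κ G → (∀ x : G, p ^ i • x = 0) →
    ∃ (P : Type) (_ : AddCommGroup P) (_ : TopologicalSpace P), Bad κ P ∧ Precpt P := by
  induction i using Nat.strong_induction_on with
  | _ i ih =>
    intro G _ _ h hi
    have := h.tg
    have hlim : ∀ V ∈ 𝓝 (0 : G), ∃ n, ∀ x : G, p ^ n • x ∈ V := by
      intro V hV
      refine ⟨i, fun x => ?_⟩
      rw [hi]
      exact mem_of_mem_nhds hV
    obtain ⟨i', ⟨x, hx⟩, hor⟩ := step3_aux hκ h p hp hlim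
    have hlt : i' < i := by
      by_contra hge
      apply hx
      have e : i' = (i' - i) + i := by omega
      rw [e, pow_add, mul_smul, hi, smul_zero]
    rcases hor with ⟨h1, h2⟩ | ⟨S, h1, h2⟩
    · exact ⟨_, _, _, h1, h2⟩
    · exact ih i' hlt S h1 h2

/-- every counterexample yields a precompact one -/
theorem reduce {κ : Cardinal.{0}} (hκ : ℵ₀ ≤ κ) (G : Type) [AddCommGroup G] [TopologicalSpace G]
    (h : Bad κ G) :
    ∃ (P : Type) (_ : AddCommGroup P) (_ : TopologicalSpace P), Bad κ P ∧ Precpt P := by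
  have := h.tg
  rcases step1 hκ h with ⟨h1, h2⟩ | ⟨S, h1, h2⟩
  · exact ⟨_, _, _, h1, h2⟩
  · have := h1.tg
    obtain ⟨p, hp, T, h3, h4⟩ := step2 hκ h1 h2
    have := h3.tg
    obtain ⟨i, _, hor⟩ := step3_aux hκ h3 p hp h4
    rcases hor with ⟨h5, h6⟩ | ⟨R, h5, h6⟩
    · exact ⟨_, _, _, h5, h6⟩
    · exact step3 hκ p hp i R h5 h6

end H645
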