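import Pool.Agent.H645R3.Cpl
import Pool.Agent.H645R3.Alg
import Pool.Agent.H645R3.Red2

set_option autoImplicit false
set_option linter.style.haveILetI false

open Filter Topology Pointwise Cardinal

namespace H645

theorem bounded_of_card {κ : Cardinal.{0}} (hκ : ℵ₀ ≤ κ) (I : Type) [LinearOrder I]
    (hI : #I = Order.succ κ) (hIio : ∀ i : I, #(Set.Iio i) ≤ κ) (B : Set I) (hB : #B ≤ κ) :
    ∃ β, ∀ b ∈ B, b < β := by
  by_contra hcon
  push Not at hcon
  have hcov : (Set.univ : Set I) ⊆ ⋃ b : B, Set.Iic b.1 := by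
    intro β _
    obtain ⟨b, hb, h⟩ := hcon β
    exact Set.mem_iUnion.2 ⟨⟨b, hb⟩, h⟩
  have hIic : ∀ i : I, #(Set.Iic i) ≤ κ := by
    intro i
    rw [← Set.Iio_union_right]
    refine (Cardinal.mk_union_le _ _).trans ?_
    refine (add_le_add (hIio i) (b := κ) (d := κ) ?_).trans (Cardinal.add_eq_self hκ).le
    rw [Cardinal.mk_singleton]
    exact (Cardinal.one_le_aleph0).trans hκ
  have h1 : #I ≤ κ := by
    rw [← Cardinal.mk_univ]
    refine (Cardinal.mk_le_mk_of_subset hcov).trans ?_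
    have h5 : (⨆ b : B, #(Set.Iic b.1)) ≤ κ := ciSup_le' fun b => hIic b.1
    have h6 : #B * (⨆ b : B, #(Set.Iic b.1)) ≤ κ * κ := mul_le_mul' hB h5
    rw [Cardinal.mul_eq_self hκ] at h6
    exact (Cardinal.mk_iUnion_le (fun b : B => Set.Iic b.1)).trans h6
  have h2 : κ < #I := by
    rw [hI]
    exact Order.lt_succ κ
  exact absurd h1 (not_le.2 h2)

theorem precpt_psi {P : Type} [AddCommGroup P] [TopologicalSpace P] [IsTopologicalAddGroup P]
    [T2Space P] {κ : Cardinal.{0}} (hκ : ℵ₀ ≤ κ) (hM : IsMin P) (hP : Precpt P)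
    (hT : Tight κ P) : Psi κ P := by
  classical
  by_contra hpsi
  have hX : κ < #(XX P) := by
    by_contra hle
    exact hpsi (psi_of_card hP hκ (not_lt.1 hle))
  let I : Type := (Order.succ κ).ord.ToType
  have hI : #I = Order.succ κ := Cardinal.mk_ord_toType _
  have hIio : ∀ i : I, #(Set.Iio i) ≤ κ := fun i =>
    Order.le_of_lt_succ (Cardinal.mk_Iio_toType_ord_lt i)
  have hbd := bounded_of_card hκ I hI hIio
  have hbd' : ∀ B : Set I, B.Countable → ∃ β, ∀ b ∈ B, b < β := fun B hB =>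
    hbd B ((Cardinal.le_aleph0_iff_set_countable.2 hB).trans hκ)
  obtain ⟨E, _, hE1, hE2, Φ, hΦ⟩ := exists_surj (X := XX P) (I := I) hκ hX hI.le
  let h : I → (I →₀ E) →+ E := fun α =>
    Finsupp.liftAddHom (fun β => if α ≤ β then AddMonoidHom.id E else 0)
  have hsingle : ∀ α β e, h α (Finsupp.single β e) = if α ≤ β then e else 0 := by
    intro α β e
    simp only [h, Finsupp.liftAddHom_apply_single]
    split_ifs <;> rfl
  have hzero : ∀ α (f : I →₀ E), (∀ β ∈ f.support, β < α) → h α f = 0 := by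
    intro α f hf
    simp only [h, Finsupp.liftAddHom_apply]
    refine Finset.sum_eq_zero fun β hβ => ?_
    beta_reduce
    rw [if_neg (not_le.2 (hf β hβ))]
    rfl
  -- the points `z α`
  have hz : ∀ α : I, ∃ z : P, ∃ χ : XX P, (∀ ψ : XX P, h α (Φ ψ) = 0 → ψ.1 z = 0) ∧
      1 / 4 ≤ ‖χ.1 z‖ := by
    intro α
    let Y : AddSubgroup (P → UnitAddCircle) := ((h α).comp Φ).ker.map (XX P).subtype
    have hY : Y ≤ XX P := by
      rintro _ ⟨χ, _, rfl⟩
      exact χ.2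
    have hne : ¬ XX P ≤ Y := by
      intro hle
      obtain ⟨e, he⟩ := exists_ne (0 : E)
      obtain ⟨χ, hχ⟩ := hΦ (Finsupp.single α e)
      obtain ⟨ψ, hψ, hψχ⟩ := hle χ.2
      have : ψ = χ := Subtype.ext hψχ
      subst this
      apply he
      have h1 : h α (Φ ψ) = 0 := hψ
      rw [hχ, hsingle, if_pos le_rfl] at h1
      exact h1
    obtain ⟨z, hz0, hz⟩ := hM.annihilator hP Y hY hne
    obtain ⟨χ, hχ, hχz⟩ : ∃ χ ∈ XX P, χ z ≠ 0 := by
      by_contra hcon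
      push Not at hcon
      exact hz0 (char_sep_precpt hP z hcon)
    obtain ⟨n, hn⟩ : ∃ n : ℕ, 1 / 4 ≤ ‖n • χ z‖ := by
      by_contra hcon
      push Not at hcon
      exact hχz (no_small hcon)
    refine ⟨z, n • ⟨χ, hχ⟩, ?_, ?_⟩
    · intro ψ hψ
      exact hz _ ⟨ψ, hψ, rfl⟩
    · exact hn
  choose z χ hz1 hz2 using hz
  -- pigeonhole
  obtain ⟨e0, he0⟩ : ∃ e0 : E, ∀ β : I, ∃ α, β < α ∧ h α (Φ (χ α)) = e0 := by
    by_contra hcon
    push Not at hcon
    choose b hb using hcon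
    obtain ⟨β, hβ⟩ := hbd' (Set.range b) (Set.countable_range b)
    exact hb _ β (hβ _ ⟨h β (Φ (χ β)), rfl⟩) rfl
  have hψ : ∀ β : I, ∃ ψ : XX P, Φ ψ = Finsupp.single β e0 := fun β => hΦ _
  choose ψ hψ using hψ
  let J : Set I := {α | h α (Φ (χ α)) = e0}
  have hfar : ∀ α ∈ J, ∀ β, α ≤ β → 1 / 4 ≤ ‖(ψ β).1 (z α)‖ := by
    intro α hα β hαβ
    have h1 : h α (Φ (ψ β - χ α)) = 0 := by
      rw [map_sub, map_sub, hψ, hsingle, if_pos hαβ]
      rw [show h α (Φ (χ α)) = e0 from hα, sub_self]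
    have h2 := hz1 α _ h1
    have h3 : (ψ β).1 (z α) = (χ α).1 (z α) := by
      have : (ψ β - χ α).1 (z α) = (ψ β).1 (z α) - (χ α).1 (z α) := rfl
      rw [this, sub_eq_zero] at h2
      exact h2
    rw [h3]
    exact hz2 α
  have hcl : (0 : P) ∈ closure (z '' J) := by
    rw [mem_closure_iff_nhds]
    intro V hV
    obtain ⟨F, hF, ε, hε, hFV⟩ := nhds_char hP V hV
    let S : Set I := ⋃ χ ∈ F, if h : χ ∈ XX P then ((Φ ⟨χ, h⟩).support : Set I) else ∅
    have hS : S.Countable := by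
      refine (F.countable_toSet).biUnion fun χ _ => ?_
      split_ifs
      · exact (Finset.countable_toSet _)
      · exact Set.countable_empty
    obtain ⟨β, hβ⟩ := hbd' S hS
    obtain ⟨α, hα, hαJ⟩ := he0 β
    refine ⟨z α, hFV _ ?_, ⟨α, hαJ, rfl⟩⟩
    intro χ' hχ'
    have h1 : χ' (z α) = 0 := by
      refine hz1 α ⟨χ', hF χ' hχ'⟩ ?_
      apply hzero
      intro γ hγ
      refine (hβ γ ?_).trans hα
      refine Set.mem_iUnion₂.2 ⟨χ', hχ', ?_⟩
      rw [dif_pos (hF χ' hχ')]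
      exact hγ
    rw [h1, norm_zero]
    exact hε
  obtain ⟨B, hBA, hB, hB0⟩ := hT _ _ hcl
  have : ∀ b : P, ∃ α, b ∈ B → α ∈ J ∧ z α = b := by
    intro b
    by_cases hb : b ∈ B
    · obtain ⟨α, hα, h1⟩ := hBA hb
      exact ⟨α, fun _ => ⟨hα, h1⟩⟩
    · obtain ⟨β, _⟩ := hbd' ∅ Set.countable_empty
      exact ⟨β, fun h => absurd h hb⟩
  choose a ha using this
  obtain ⟨β, hβ⟩ := hbd (a '' B) (Cardinal.mk_image_le.trans hB)
  rw [mem_closure_iff_nhds] at hB0
  have hV : {x : P | ‖(ψ β).1 x‖ < 1 / 4} ∈ 𝓝 (0 : P) := by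
    refine (isOpen_lt (ψ β).2.1.norm continuous_const).mem_nhds ?_
    change ‖(ψ β).1 0‖ < _
    rw [XX_zero (ψ β).2, norm_zero]
    norm_num
  obtain ⟨b, hbV, hbB⟩ := hB0 _ hV
  obtain ⟨h1, h2⟩ := ha b hbB
  have h3 := hfar (a b) h1 β (hβ _ ⟨b, hbB, rfl⟩).le
  rw [h2] at h3
  have h4 : ‖(ψ β).1 b‖ < 1 / 4 := hbV
  linarith

/-- Minimal abelian groups: the pseudocharacter does not exceed the tightness. -/
theorem minimal_psi {G : Type} [AddCommGroup G] [TopologicalSpace G] [IsTopologicalAddGroup G]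
    [T2Space G] {κ : Cardinal.{0}} (hκ : ℵ₀ ≤ κ) (hM : IsMin G) (hT : Tight κ G) : Psi κ G := by
  by_contra hpsi
  obtain ⟨P, _, _, hB, hP⟩ := reduce hκ G ⟨inferInstance, inferInstance, hM, hT, hpsi⟩
  have := hB.tg
  have := hB.t2
  exact hB.psi (precpt_psi hκ hB.min hP hB.tight)

end H645
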