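import Mathlib

set_option autoImplicit false

namespace H645.VB

open Finset

/-- all prime factors in S -/
def smooth (S : Finset ℕ) (s : ℕ) : Prop := s ≠ 0 ∧ s.primeFactors ⊆ S

theorem log_pow_le (k : ℕ) (δ : ℝ) (hδ : 0 < δ) : ∃ C : ℝ, 0 < C ∧ ∀ X : ℝ, 1 ≤ X →
    (Real.log X / Real.log 2 + 1) ^ k ≤ C * X ^ δ := by
  have hl2 : 0 < Real.log 2 := Real.log_pos (by norm_num)
  set ε := δ / (k + 1) with hε
  have hε0 : 0 < ε := by positivity
  refine ⟨(1 / (ε * Real.log 2) + 1) ^ k, by positivity, fun X hX => ?_⟩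
  have hX0 : 0 < X := by linarith
  have h1 : Real.log X ≤ X ^ ε / ε := Real.log_le_rpow_div hX0.le hε0
  have hXε : 1 ≤ X ^ ε := Real.one_le_rpow hX hε0.le
  have h2 : Real.log X / Real.log 2 + 1 ≤ (1 / (ε * Real.log 2) + 1) * X ^ ε := by
    have : Real.log X / Real.log 2 ≤ (1 / (ε * Real.log 2)) * X ^ ε := by
      calc Real.log X / Real.log 2 ≤ (X ^ ε / ε) / Real.log 2 := by gcongr
        _ = (1 / (ε * Real.log 2)) * X ^ ε := by field_simp
    linarith
  have h0 : 0 ≤ Real.log X / Real.log 2 + 1 := by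
    have := Real.log_nonneg hX
    positivity
  calc (Real.log X / Real.log 2 + 1) ^ k ≤ ((1 / (ε * Real.log 2) + 1) * X ^ ε) ^ k :=
        pow_le_pow_left₀ h0 h2 k
    _ = (1 / (ε * Real.log 2) + 1) ^ k * X ^ (ε * k) := by
        rw [mul_pow, ← Real.rpow_natCast (X ^ ε), ← Real.rpow_mul hX0.le]
    _ ≤ (1 / (ε * Real.log 2) + 1) ^ k * X ^ δ := by
        refine mul_le_mul_of_nonneg_left (Real.rpow_le_rpow_of_exponent_le hX ?_) (by positivity)
        rw [hε]
        rw [div_mul_eq_mul_div, div_le_iff₀ (by positivity)]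
        nlinarith

/-- smooth numbers up to `X` -/
noncomputable def smF (S : Finset ℕ) (X : ℝ) : Finset ℕ :=
  haveI := Classical.decPred (smooth S)
  (Finset.range (⌊X⌋₊ + 1)).filter (smooth S)

theorem mem_smF (S : Finset ℕ) (X : ℝ) (s : ℕ) (hs : smooth S s) (hX : (s : ℝ) ≤ X) :
    s ∈ smF S X := by
  classical
  unfold smF
  rw [Finset.mem_filter, Finset.mem_range]
  exact ⟨Nat.lt_succ_of_le (Nat.le_floor hX), hs⟩

theorem smooth_count (S : Finset ℕ) (δ : ℝ) (hδ : 0 < δ) : ∃ C : ℝ, 0 < C ∧ ∀ X : ℝ, 1 ≤ X →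
    ((smF S X).card : ℝ) ≤ C * X ^ δ := by
  classical
  obtain ⟨C, hC, h⟩ := log_pow_le S.card δ hδ
  refine ⟨C, hC, fun X hX => le_trans ?_ (h X hX)⟩
  set N := ⌊X⌋₊ with hN
  have hN1 : 1 ≤ N := Nat.le_floor (by simpa using hX)
  have hcard : (smF S X).card ≤ (Nat.log 2 N + 1) ^ S.card := by
    have : (smF S X).card ≤ (Fintype.piFinset fun _ : S => Finset.range (Nat.log 2 N + 1)).card := by
      refine Finset.card_le_card_of_injOn (fun s => fun p : S => s.factorization (p : ℕ)) ?_ ?_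
      · intro s hs
        have hs' : s ∈ smF S X := hs
        unfold smF at hs'
        rw [Finset.mem_filter, Finset.mem_range] at hs'
        obtain ⟨hs1, hs2, -⟩ := hs'
        simp only [Finset.mem_coe, Fintype.mem_piFinset, Finset.mem_range]
        intro p
        rw [Nat.lt_succ_iff]
        by_cases hp : Nat.Prime (p : ℕ)
        · refine Nat.le_log_of_pow_le (by norm_num) ?_
          calc 2 ^ (s.factorization p) ≤ (p : ℕ) ^ (s.factorization p) :=
                Nat.pow_le_pow_left hp.two_le _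
            _ ≤ s := Nat.ordProj_le _ hs2
            _ ≤ N := by omega
        · rw [Nat.factorization_eq_zero_of_not_prime _ hp]
          exact Nat.zero_le _
      · intro s hs t ht hst
        have hs' : s ∈ smF S X := hs
        have ht' : t ∈ smF S X := ht
        unfold smF at hs' ht'
        rw [Finset.mem_filter] at hs' ht'
        obtain ⟨-, hs2, hs3⟩ := hs'
        obtain ⟨-, ht2, ht3⟩ := ht'
        refine Nat.eq_of_factorization_eq hs2 ht2 fun p => ?_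
        by_cases hp : p ∈ S
        · exact congrFun hst ⟨p, hp⟩
        · have h1 : p ∉ s.primeFactors := fun h => hp (hs3 h)
          have h2 : p ∉ t.primeFactors := fun h => hp (ht3 h)
          rw [← Nat.support_factorization, Finsupp.notMem_support_iff] at h1 h2
          rw [h1, h2]
    simpa using this
  have h2 : ((Nat.log 2 N + 1 : ℕ) : ℝ) ≤ Real.log X / Real.log 2 + 1 := by
    push_cast
    have hl2 : 0 < Real.log 2 := Real.log_pos (by norm_num)
    have : (Nat.log 2 N : ℝ) ≤ Real.log X / Real.log 2 := by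
      rw [le_div_iff₀ hl2]
      have h3 : (2 : ℕ) ^ (Nat.log 2 N) ≤ N := Nat.pow_log_le_self 2 (by omega)
      have h4 : ((2 : ℝ)) ^ (Nat.log 2 N) ≤ X := by
        have : ((2 ^ (Nat.log 2 N) : ℕ) : ℝ) ≤ (N : ℝ) := by exact_mod_cast h3
        calc ((2 : ℝ)) ^ (Nat.log 2 N) = ((2 ^ (Nat.log 2 N) : ℕ) : ℝ) := by push_cast; ring
          _ ≤ N := this
          _ ≤ X := Nat.floor_le (by linarith)
      have := Real.log_le_log (by positivity) h4
      rwa [Real.log_pow] at this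
    linarith
  calc ((smF S X).card : ℝ) ≤ (((Nat.log 2 N + 1) ^ S.card : ℕ) : ℝ) := by exact_mod_cast hcard
    _ = ((Nat.log 2 N + 1 : ℕ) : ℝ) ^ S.card := by push_cast; ring
    _ ≤ _ := pow_le_pow_left₀ (by positivity) h2 _

/-- positive vectors with product at most `Z` -/
noncomputable def prF (ι : Type) [Fintype ι] [DecidableEq ι] (Z : ℝ) : Finset (ι → ℕ) :=
  haveI := Classical.decPred (fun m : ι → ℕ => ∏ i, (m i : ℝ) ≤ Z)
  (Fintype.piFinset fun _ : ι => Finset.Icc 1 ⌊Z⌋₊).filter (fun m => ∏ i, (m i : ℝ) ≤ Z)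

theorem mem_prF (ι : Type) [Fintype ι] [DecidableEq ι] (Z : ℝ) (m : ι → ℕ) (h1 : ∀ i, 1 ≤ m i)
    (h2 : ∏ i, (m i : ℝ) ≤ Z) : m ∈ prF ι Z := by
  classical
  unfold prF
  rw [Finset.mem_filter, Fintype.mem_piFinset]
  refine ⟨fun i => ?_, h2⟩
  rw [Finset.mem_Icc]
  refine ⟨h1 i, Nat.le_floor ?_⟩
  refine le_trans ?_ h2
  rw [← Finset.mul_prod_erase _ _ (Finset.mem_univ i)]
  have : (1 : ℝ) ≤ ∏ j ∈ Finset.univ.erase i, (m j : ℝ) := by
    calc (1 : ℝ) = ∏ j ∈ Finset.univ.erase i, (1 : ℝ) := by simp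
      _ ≤ _ := Finset.prod_le_prod (fun _ _ => zero_le_one) fun j _ => by exact_mod_cast h1 j
  nlinarith [Nat.cast_nonneg (α := ℝ) (m i)]

theorem prod_count (ι : Type) [Fintype ι] [DecidableEq ι] (δ : ℝ) (hδ : 0 < δ) :
    ∃ C : ℝ, 0 < C ∧ ∀ Z : ℝ, 0 < Z → ((prF ι Z).card : ℝ) ≤ C * Z ^ (1 + δ) := by
  classical
  have hsum : Summable fun n : ℕ => 1 / (n : ℝ) ^ (1 + δ) :=
    Real.summable_one_div_nat_rpow.2 (by linarith)
  set ζ : ℝ := ∑' n : ℕ, 1 / (n : ℝ) ^ (1 + δ) with hζ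
  have hζ0 : 0 ≤ ζ := tsum_nonneg fun n => by positivity
  refine ⟨(ζ + 1) ^ (Fintype.card ι), by positivity, fun Z hZ => ?_⟩
  calc ((prF ι Z).card : ℝ) = ∑ m ∈ prF ι Z, (1 : ℝ) := by simp
    _ ≤ ∑ m ∈ prF ι Z, Z ^ (1 + δ) * ∏ i, 1 / ((m i : ℝ)) ^ (1 + δ) := by
        refine Finset.sum_le_sum fun m hm => ?_
        unfold prF at hm
        rw [Finset.mem_filter, Fintype.mem_piFinset] at hm
        obtain ⟨hm1, hm2⟩ := hm
        have hm0 : ∀ i, (0 : ℝ) < m i := fun i => by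
          have := Finset.mem_Icc.1 (hm1 i)
          exact_mod_cast (by omega : 0 < m i)
        have hp0 : 0 < ∏ i, (m i : ℝ) := Finset.prod_pos fun i _ => hm0 i
        have h1 : ∏ i, 1 / ((m i : ℝ)) ^ (1 + δ) = 1 / (∏ i, (m i : ℝ)) ^ (1 + δ) := by
          rw [Finset.prod_div_distrib, Finset.prod_const_one,
            Real.finsetProd_rpow _ _ (fun i _ => (hm0 i).le)]
        rw [h1, mul_one_div, ← Real.div_rpow hZ.le hp0.le]
        exact Real.one_le_rpow ((one_le_div hp0).2 hm2) (by linarith)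
    _ ≤ ∑ m ∈ Fintype.piFinset fun _ : ι => Finset.Icc 1 ⌊Z⌋₊,
          Z ^ (1 + δ) * ∏ i, 1 / ((m i : ℝ)) ^ (1 + δ) := by
        refine Finset.sum_le_sum_of_subset_of_nonneg ?_ fun m _ _ => ?_
        · unfold prF
          exact Finset.filter_subset _ _
        · exact mul_nonneg (Real.rpow_nonneg hZ.le _)
            (Finset.prod_nonneg fun i _ => by positivity)
    _ = Z ^ (1 + δ) * ∏ i : ι, ∑ n ∈ Finset.Icc 1 ⌊Z⌋₊, 1 / ((n : ℝ)) ^ (1 + δ) := by
        rw [← Finset.mul_sum, Finset.prod_univ_sum]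
    _ ≤ Z ^ (1 + δ) * ∏ i : ι, (ζ + 1) := by
        refine mul_le_mul_of_nonneg_left (Finset.prod_le_prod (fun i _ => ?_) fun i _ => ?_)
          (Real.rpow_nonneg hZ.le _)
        · exact Finset.sum_nonneg fun n _ => by positivity
        · have := hsum.sum_le_tsum (Finset.Icc 1 ⌊Z⌋₊) (fun n _ => by positivity)
          linarith
    _ = (ζ + 1) ^ (Fintype.card ι) * Z ^ (1 + δ) := by
        rw [Finset.prod_const, Finset.card_univ]; ring

/-- the vectors we count -/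
noncomputable def vecF (S : Finset ℕ) (ι κ : Type) [Fintype ι] [DecidableEq ι] [Fintype κ]
    [DecidableEq κ] (X Z : ℝ) : Finset ((ι → ℤ) × (κ → ℤ)) :=
  ((Fintype.piFinset fun _ : ι => ({1, -1} : Finset ℤ)) ×ˢ
    ((Fintype.piFinset fun _ : ι => smF S X) ×ˢ (prF ι Z ×ˢ
      (Fintype.piFinset fun _ : κ => Finset.Icc (-⌊X⌋) ⌊X⌋)))).image
    (fun q => (fun i => q.1 i * ((q.2.1 i : ℤ) * (q.2.2.1 i : ℤ)), q.2.2.2))

theorem mem_vecF (S : Finset ℕ) (ι κ : Type) [Fintype ι] [DecidableEq ι] [Fintype κ]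
    [DecidableEq κ] (X Z : ℝ) (z : ι → ℤ) (t : κ → ℤ) (s m : ι → ℕ) (hs : ∀ i, smooth S (s i))
    (hsX : ∀ i, (s i : ℝ) ≤ X) (hm : ∀ i, 1 ≤ m i) (hz : ∀ i, (z i).natAbs = s i * m i)
    (hZ : ∏ i, (m i : ℝ) ≤ Z) (ht : ∀ j, |(t j : ℝ)| ≤ X) : (z, t) ∈ vecF S ι κ X Z := by
  classical
  unfold vecF
  rw [Finset.mem_image]
  refine ⟨(fun i => if 0 ≤ z i then 1 else -1, s, m, t), ?_, ?_⟩
  · simp only [Finset.mem_product, Fintype.mem_piFinset]
    refine ⟨fun i => ?_, fun i => mem_smF S X _ (hs i) (hsX i), mem_prF ι Z m hm hZ, fun j => ?_⟩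
    · by_cases h : 0 ≤ z i
      · simp [h]
      · simp [h]
    · rw [Finset.mem_Icc]
      have := abs_le.1 (ht j)
      constructor
      · rw [neg_le, Int.le_floor]
        push_cast
        linarith [this.1]
      · rw [Int.le_floor]
        exact this.2
  · refine Prod.ext ?_ rfl
    funext i
    simp only
    have h1 : ((s i : ℤ) * (m i : ℤ)) = |z i| := by
      rw [← Int.natCast_natAbs, hz i]; push_cast; ring
    rw [h1]
    by_cases h : 0 ≤ z i
    · rw [if_pos h, abs_of_nonneg h, one_mul]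
    · rw [if_neg h, abs_of_neg (not_le.1 h)]; ring

theorem vec_count (S : Finset ℕ) (ι κ : Type) [Fintype ι] [DecidableEq ι] [Fintype κ]
    [DecidableEq κ] (δ : ℝ) (hδ : 0 < δ) : ∃ C : ℝ, 0 < C ∧ ∀ X Z : ℝ, 1 ≤ X → 0 < Z →
    ((vecF S ι κ X Z).card : ℝ) ≤ C * X ^ ((Fintype.card κ : ℝ) + δ) * Z ^ (1 + δ) := by
  classical
  set k := Fintype.card ι with hk
  obtain ⟨C1, hC1, h1⟩ := smooth_count S (δ / (k + 1)) (by positivity)
  obtain ⟨C2, hC2, h2⟩ := prod_count ι δ hδ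
  refine ⟨2 ^ k * C1 ^ k * C2 * 3 ^ (Fintype.card κ), by positivity, fun X Z hX hZ => ?_⟩
  have hX0 : 0 < X := by linarith
  have hcard : (vecF S ι κ X Z).card ≤ 2 ^ k * ((smF S X).card ^ k * ((prF ι Z).card *
      (Finset.Icc (-⌊X⌋) ⌊X⌋).card ^ (Fintype.card κ))) := by
    unfold vecF
    refine Finset.card_image_le.trans ?_
    rw [Finset.card_product, Finset.card_product, Finset.card_product]
    simp only [Fintype.card_piFinset, Finset.prod_const, Finset.card_univ]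
    have : ({1, -1} : Finset ℤ).card = 2 := by decide
    rw [this]
  have h3 : ((Finset.Icc (-⌊X⌋) ⌊X⌋).card : ℝ) ≤ 3 * X := by
    have hf : (0 : ℤ) ≤ ⌊X⌋ := Int.floor_nonneg.2 hX0.le
    rw [Int.card_Icc]
    have e1 : ((⌊X⌋ + 1 - -⌊X⌋).toNat : ℝ) = ((⌊X⌋ + 1 - -⌊X⌋ : ℤ) : ℝ) := by
      have : ((⌊X⌋ + 1 - -⌊X⌋).toNat : ℤ) = (⌊X⌋ + 1 - -⌊X⌋ : ℤ) := Int.toNat_of_nonneg (by omega)
      exact_mod_cast this
    rw [e1]
    push_cast
    have := Int.floor_le X
    linarith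
  have h4 : ((smF S X).card : ℝ) ^ k ≤ C1 ^ k * X ^ δ := by
    calc ((smF S X).card : ℝ) ^ k ≤ (C1 * X ^ (δ / (k + 1))) ^ k :=
          pow_le_pow_left₀ (by positivity) (h1 X hX) k
      _ = C1 ^ k * X ^ (δ / (k + 1) * k) := by
          rw [mul_pow, ← Real.rpow_natCast (X ^ _), ← Real.rpow_mul hX0.le]
      _ ≤ C1 ^ k * X ^ δ := by
          refine mul_le_mul_of_nonneg_left (Real.rpow_le_rpow_of_exponent_le hX ?_) (by positivity)
          rw [div_mul_eq_mul_div, div_le_iff₀ (by positivity)]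
          nlinarith
  calc ((vecF S ι κ X Z).card : ℝ) ≤ ((2 ^ k * ((smF S X).card ^ k * ((prF ι Z).card *
      (Finset.Icc (-⌊X⌋) ⌊X⌋).card ^ (Fintype.card κ))) : ℕ) : ℝ) := by exact_mod_cast hcard
    _ = 2 ^ k * (((smF S X).card : ℝ) ^ k * (((prF ι Z).card : ℝ) *
      ((Finset.Icc (-⌊X⌋) ⌊X⌋).card : ℝ) ^ (Fintype.card κ))) := by push_cast; ring
    _ ≤ 2 ^ k * ((C1 ^ k * X ^ δ) * ((C2 * Z ^ (1 + δ)) * (3 * X) ^ (Fintype.card κ))) := by
        have := h2 Z hZ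
        gcongr
    _ = 2 ^ k * C1 ^ k * C2 * 3 ^ (Fintype.card κ) * X ^ ((Fintype.card κ : ℝ) + δ) *
          Z ^ (1 + δ) := by
        rw [Real.rpow_add hX0, Real.rpow_natCast, mul_pow]
        ring

end H645.VB
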