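import Mathlib
import Pool.Agent.H645R3.VB1

set_option autoImplicit false

namespace H645.VB

open Finset NumberField IsDedekindDomain Height

variable {L : Type} [Field L] [NumberField L]

/-- the linear form `a₁ - a₂ y` -/
def cf (a : ℤ × ℤ) (y : L) : L := (a.1 : L) - (a.2 : L) * y

noncomputable def qq (w : FinitePlace L) : ℕ := Ideal.absNorm w.maximalIdeal.asIdeal

theorem two_le_qq (w : FinitePlace L) : 2 ≤ qq w := by
  have h1 : qq w ≠ 0 := Ideal.absNorm_eq_zero_iff.not.mpr w.maximalIdeal.ne_bot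
  have h2 : qq w ≠ 1 := by
    intro h
    rw [qq, Ideal.absNorm_eq_one_iff] at h
    exact w.maximalIdeal.isPrime.ne_top h
  omega

theorem qq_pos (w : FinitePlace L) : (0 : ℝ) < qq w := by
  have := two_le_qq w
  exact_mod_cast (by omega : 0 < qq w)

theorem one_lt_qq (w : FinitePlace L) : (1 : ℝ) < qq w := by
  have := two_le_qq w
  exact_mod_cast (by omega : 1 < qq w)

theorem apply_eq (w : FinitePlace L) (x : 𝓞 L) (hx : x ≠ 0) :
    w (x : L) = ((qq w : ℝ) ^ multiplicity w.maximalIdeal.asIdeal (Ideal.span {x}))⁻¹ := by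
  have h := FinitePlace.apply_mul_absNorm_pow_eq_one w hx
  have h2 : (0 : ℝ) < (qq w : ℝ) ^ multiplicity w.maximalIdeal.asIdeal (Ideal.span {x}) :=
    pow_pos (qq_pos w) _
  exact eq_inv_of_mul_eq_one_left h

theorem fin_mult (w : FinitePlace L) (I : Ideal (𝓞 L)) (hI : I ≠ ⊥) :
    FiniteMultiplicity w.maximalIdeal.asIdeal I :=
  FiniteMultiplicity.of_prime_left w.maximalIdeal.prime hI

theorem le_mult_iff (w : FinitePlace L) (I : Ideal (𝓞 L)) (hI : I ≠ ⊥) (k : ℕ) :
    k ≤ multiplicity w.maximalIdeal.asIdeal I ↔ I ≤ w.maximalIdeal.asIdeal ^ k := by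
  rw [← Ideal.dvd_iff_le, (fin_mult w I hI).pow_dvd_iff_le_multiplicity]

theorem max_eq (w : FinitePlace L) (x y : 𝓞 L) (hy : y ≠ 0) :
    max (w (x : L)) (w (y : L)) =
      ((qq w : ℝ) ^ multiplicity w.maximalIdeal.asIdeal (Ideal.span {x, y}))⁻¹ := by
  have hJ : Ideal.span {x, y} ≠ (⊥ : Ideal (𝓞 L)) := by
    intro h
    have : y ∈ (⊥ : Ideal (𝓞 L)) := h ▸ Ideal.subset_span (by simp)
    exact hy (by simpa using this)
  have hys : Ideal.span {y} ≠ (⊥ : Ideal (𝓞 L)) := mt Submodule.span_singleton_eq_bot.mp hy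
  set P := w.maximalIdeal.asIdeal
  set m := multiplicity P (Ideal.span {x, y}) with hm
  have hle : Ideal.span {x, y} ≤ P ^ m := (le_mult_iff w _ hJ m).1 le_rfl
  have hnle : ¬ Ideal.span {x, y} ≤ P ^ (m + 1) := by
    intro h
    exact Nat.not_succ_le_self _ ((le_mult_iff w _ hJ (m + 1)).2 h)
  have hxm : x ∈ P ^ m := hle (Ideal.subset_span (by simp))
  have hym : y ∈ P ^ m := hle (Ideal.subset_span (by simp))
  have hkey : ∀ z : 𝓞 L, z ∈ P ^ m → w (z : L) ≤ ((qq w : ℝ) ^ m)⁻¹ := by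
    intro z hz
    by_cases hz0 : z = 0
    · rw [hz0]
      simp only [map_zero]
      have := qq_pos w
      positivity
    · rw [apply_eq w z hz0]
      have hzs : Ideal.span {z} ≠ (⊥ : Ideal (𝓞 L)) := mt Submodule.span_singleton_eq_bot.mp hz0
      have h1 : m ≤ multiplicity P (Ideal.span {z}) := by
        rw [le_mult_iff w _ hzs, Ideal.span_singleton_le_iff_mem]
        exact hz
      have h2 := qq_pos w
      exact inv_anti₀ (pow_pos h2 _) (pow_le_pow_right₀ (one_lt_qq w).le h1)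
  have hkey2 : ∀ z : 𝓞 L, z ∉ P ^ (m + 1) → ((qq w : ℝ) ^ m)⁻¹ ≤ w (z : L) := by
    intro z hz
    have hz0 : z ≠ 0 := by
      rintro rfl
      exact hz (Submodule.zero_mem _)
    rw [apply_eq w z hz0]
    have hzs : Ideal.span {z} ≠ (⊥ : Ideal (𝓞 L)) := mt Submodule.span_singleton_eq_bot.mp hz0
    have h1 : multiplicity P (Ideal.span {z}) ≤ m := by
      by_contra hcon
      have : m + 1 ≤ multiplicity P (Ideal.span {z}) := by omega
      rw [le_mult_iff w _ hzs, Ideal.span_singleton_le_iff_mem] at this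
      exact hz this
    have h2 := qq_pos w
    exact inv_anti₀ (pow_pos h2 _) (pow_le_pow_right₀ (one_lt_qq w).le h1)
  refine le_antisymm (max_le (hkey x hxm) (hkey y hym)) ?_
  by_cases hx' : x ∈ P ^ (m + 1)
  · have hy' : y ∉ P ^ (m + 1) := by
      intro hy'
      apply hnle
      rw [Ideal.span_le]
      intro z hz
      rcases hz with rfl | hz
      · exact hx'
      · rw [Set.mem_singleton_iff.1 hz]; exact hy'
    exact le_max_of_le_right (hkey2 y hy')
  · exact le_max_of_le_left (hkey2 x hx')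

/-- the ideal attached to `y` and `a` -/
theorem local_data (y : L) (a : ℤ × ℤ) (h : cf a y ≠ 0) : ∃ C : Ideal (𝓞 L), C ≠ ⊥ ∧
    ∀ w : FinitePlace L, max (w y) 1 / w (cf a y) =
      (qq w : ℝ) ^ multiplicity w.maximalIdeal.asIdeal C := by
  obtain ⟨α, β, hβ, hy⟩ := IsFractionRing.div_surjective (𝓞 L) y
  have hβ0 : β ≠ 0 := nonZeroDivisors.ne_zero hβ
  have hβL : (β : L) ≠ 0 := by
    intro h
    exact hβ0 (RingOfIntegers.coe_eq_zero_iff.1 h)
  set γ : 𝓞 L := (a.1 : 𝓞 L) * β - (a.2 : 𝓞 L) * α with hγ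
  have hyβ : y * (β : L) = (α : L) := by
    rw [← hy]
    exact div_mul_cancel₀ _ hβL
  have hγL : ((γ : 𝓞 L) : L) = cf a y * (β : L) := by
    rw [cf, sub_mul, mul_assoc, hyβ, hγ]
    push_cast
    rfl
  have hγ0 : γ ≠ 0 := by
    intro h0
    rw [h0] at hγL
    have : (0 : L) = cf a y * (β : L) := by rw [← hγL]; simp
    rcases mul_eq_zero.1 this.symm with h1 | h1
    · exact h h1
    · exact hβL h1
  set J : Ideal (𝓞 L) := Ideal.span {α, β} with hJ
  have hγJ : γ ∈ J := by
    rw [hγ]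
    refine Ideal.sub_mem _ (Ideal.mul_mem_left _ _ (Ideal.subset_span (by simp)))
      (Ideal.mul_mem_left _ _ (Ideal.subset_span (by simp)))
  have hdvd : J ∣ Ideal.span {γ} := by
    rw [Ideal.dvd_iff_le, Ideal.span_singleton_le_iff_mem]
    exact hγJ
  obtain ⟨C, hC⟩ := hdvd
  have hγs : Ideal.span {γ} ≠ (⊥ : Ideal (𝓞 L)) := mt Submodule.span_singleton_eq_bot.mp hγ0
  have hC0 : C ≠ ⊥ := by
    rintro rfl
    rw [Ideal.mul_bot] at hC
    exact hγs hC
  refine ⟨C, hC0, fun w => ?_⟩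
  have e1 := apply_eq w γ hγ0
  have e2 := max_eq w α β hβ0
  have e3 : multiplicity w.maximalIdeal.asIdeal (Ideal.span {γ}) =
      multiplicity w.maximalIdeal.asIdeal J + multiplicity w.maximalIdeal.asIdeal C := by
    rw [hC]
    exact multiplicity_mul w.maximalIdeal.prime (by rw [← hC]; exact fin_mult w _ hγs)
  rw [e3] at e1
  rw [← hJ] at e2
  have hβw : 0 < w (β : L) := FinitePlace.pos_iff.2 hβL
  have hq := qq_pos w
  have e4 : w (cf a y) = w ((γ : 𝓞 L) : L) / w (β : L) := by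
    rw [hγL, map_mul, mul_div_cancel_right₀ _ hβw.ne']
  have e5 : max (w y) 1 = max (w (α : L)) (w (β : L)) / w (β : L) := by
    rw [← max_div_div_right hβw.le, div_self hβw.ne', ← hyβ, map_mul,
      mul_div_cancel_right₀ _ hβw.ne']
  rw [e5, e4, e1, e2, div_div_div_cancel_right₀ hβw.ne', pow_add]
  field_simp

theorem finprod_q (C : Ideal (𝓞 L)) (hC : C ≠ ⊥) :
    ∏ᶠ w : FinitePlace L, (qq w : ℝ) ^ multiplicity w.maximalIdeal.asIdeal C =
      (Ideal.absNorm C : ℝ) := by
  conv_rhs => rw [← FinitePlace.finprod_finitePlace_pow_multiplicity hC]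
  rw [map_finprod _ <| FinitePlace.hasFiniteMulSupport_fun_pow_multiplicity hC (·),
    Nat.cast_finprod']
  refine finprod_congr fun w => ?_
  rw [map_pow, Nat.cast_pow]
  rfl

theorem hfs_max (y : L) : (fun w : FinitePlace L => max (w y) 1).HasFiniteMulSupport := by
  by_cases hy : y = 0
  · subst hy
    simp [Function.HasFiniteMulSupport, Function.mulSupport]
  · refine (FinitePlace.hasFiniteMulSupport hy).subset ?_
    intro w hw hw'
    apply hw
    simp only at hw' ⊢
    rw [hw', max_self]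

/-- places above `S` -/
def above (S : Finset ℕ) (L : Type) [Field L] [NumberField L] : Set (FinitePlace L) :=
  {w | ∃ p ∈ S, w (p : L) < 1}

theorem above_finite (S : Finset ℕ) (hS : ∀ p ∈ S, p.Prime) : (above S L).Finite := by
  have : above S L = ⋃ p ∈ S, {w : FinitePlace L | w (p : L) < 1} := by
    ext w; simp [above]
  rw [this]
  refine Set.Finite.biUnion S.finite_toSet fun p hp => ?_
  have hp0 : (p : L) ≠ 0 := by exact_mod_cast (hS p hp).ne_zero
  exact (FinitePlace.hasFiniteMulSupport hp0).subset fun w hw => ne_of_lt hw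

theorem arch_prod (y : L) (a : ℤ × ℤ) (h : cf a y ≠ 0) :
    (∏ᶠ w : FinitePlace L, max (w y) 1 / w (cf a y)) *
      ∏ v : InfinitePlace L, (max (v y) 1 / v (cf a y)) ^ v.mult = mulHeight₁ y := by
  rw [NumberField.mulHeight₁_eq, finprod_div_distrib (hfs_max y) (FinitePlace.hasFiniteMulSupport h)]
  have h1 := prod_abs_eq_one h
  simp only [div_pow]
  rw [Finset.prod_div_distrib, div_mul_div_comm,
    mul_comm (∏ᶠ w : FinitePlace L, w (cf a y)), h1, div_one, mul_comm]

theorem fin_norm (y : L) (a : ℤ × ℤ) (h : cf a y ≠ 0) :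
    (∏ᶠ w : FinitePlace L, max (w y) 1 / w (cf a y)) =
      (∏ᶠ w : FinitePlace L, max (w y) 1) * |(Algebra.norm ℚ (cf a y) : ℝ)| := by
  rw [finprod_div_distrib (hfs_max y) (FinitePlace.hasFiniteMulSupport h)]
  have h1 := prod_abs_eq_one h
  have h2 := InfinitePlace.prod_eq_abs_norm (cf a y)
  have h3 : (∏ᶠ w : FinitePlace L, w (cf a y)) ≠ 0 := by
    intro h0
    rw [h0, mul_zero] at h1
    exact zero_ne_one h1
  rw [div_eq_iff h3]
  rw [h2] at h1
  rw [mul_assoc]
  push_cast at h1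
  rw [h1, mul_one]

end H645.VB
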