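import Mathlib
import Pool.Agent.H645R3.VB2

set_option autoImplicit false

namespace H645.VB

open Finset NumberField IsDedekindDomain Height

variable {L : Type} [Field L] [NumberField L]

theorem prod_dvd_norm (C : Ideal (𝓞 L)) (hC : C ≠ ⊥) (W : Finset (FinitePlace L)) :
    ∏ w ∈ W, qq w ^ multiplicity w.maximalIdeal.asIdeal C ∣ Ideal.absNorm C := by
  classical
  have hfs := FinitePlace.hasFiniteMulSupport_fun_pow_multiplicity hC
    (fun I : Ideal (𝓞 L) => Ideal.absNorm I)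
  have h1 : Ideal.absNorm C = ∏ᶠ w : FinitePlace L,
      Ideal.absNorm w.maximalIdeal.asIdeal ^ multiplicity w.maximalIdeal.asIdeal C := by
    conv_lhs => rw [← FinitePlace.finprod_finitePlace_pow_multiplicity hC]
    rw [map_finprod _ <| FinitePlace.hasFiniteMulSupport_fun_pow_multiplicity hC (·)]
    refine finprod_congr fun w => ?_
    rw [map_pow]
  rw [h1, finprod_eq_prod_of_mulSupport_subset (s := W ∪ hfs.toFinset) _ ?_]
  · exact Finset.prod_dvd_prod_of_subset _ _ _ Finset.subset_union_left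
  · intro w hw
    simp only [Finset.coe_union, Set.mem_union, Finset.mem_coe]
    right
    exact (Set.Finite.mem_toFinset hfs).2 hw

theorem norm_nat (n : ℕ) : Ideal.absNorm (Ideal.span {(n : 𝓞 L)}) = n ^ Module.finrank ℚ L := by
  rw [Ideal.absNorm_span_natCast, RingOfIntegers.rank]

theorem apply_nat (w : FinitePlace L) (n : ℕ) (hn : n ≠ 0) :
    w (n : L) = ((qq w : ℝ) ^ multiplicity w.maximalIdeal.asIdeal
      (Ideal.span {(n : 𝓞 L)}))⁻¹ := by
  have h := apply_eq w (n : 𝓞 L) (by exact_mod_cast hn)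
  have e : (((n : 𝓞 L) : 𝓞 L) : L) = (n : L) := by push_cast; rfl
  rw [e] at h
  exact h

theorem span_nat_ne (n : ℕ) (hn : n ≠ 0) : Ideal.span {(n : 𝓞 L)} ≠ (⊥ : Ideal (𝓞 L)) := by
  refine mt Submodule.span_singleton_eq_bot.mp ?_
  exact_mod_cast hn

theorem one_le_mult (w : FinitePlace L) (p : ℕ) (hp : p ≠ 0) (hw : w (p : L) < 1) :
    1 ≤ multiplicity w.maximalIdeal.asIdeal (Ideal.span {(p : 𝓞 L)}) := by
  by_contra hcon
  rw [apply_nat w p hp] at hw
  have : multiplicity w.maximalIdeal.asIdeal (Ideal.span {(p : 𝓞 L)}) = 0 := by omega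
  rw [this] at hw
  simp at hw

theorem qq_dvd (w : FinitePlace L) (p : ℕ) (hp : p ≠ 0) (hw : w (p : L) < 1) :
    qq w ∣ p ^ Module.finrank ℚ L := by
  have h1 := prod_dvd_norm _ (span_nat_ne (L := L) p hp) {w}
  rw [Finset.prod_singleton, norm_nat] at h1
  exact (dvd_pow_self _ (by have := one_le_mult w p hp hw; omega)).trans h1

theorem le_qq (w : FinitePlace L) (p : ℕ) (hp : p.Prime) (hw : w (p : L) < 1) : p ≤ qq w := by
  obtain ⟨k, -, hk⟩ := (Nat.dvd_prime_pow hp).1 (qq_dvd w p hp.ne_zero hw)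
  have h2 := two_le_qq w
  rcases Nat.eq_zero_or_pos k with h | h
  · rw [h, pow_zero] at hk; omega
  · rw [hk]
    exact Nat.le_self_pow (by omega) p

theorem card_one (p : ℕ) (hp : p.Prime) (W : Finset (FinitePlace L))
    (hW : ∀ w ∈ W, w (p : L) < 1) : W.card ≤ Module.finrank ℚ L := by
  have h1 := prod_dvd_norm _ (span_nat_ne (L := L) p hp.ne_zero) W
  rw [norm_nat] at h1
  have h2 := Nat.le_of_dvd (pow_pos hp.pos _) h1
  have h3 : p ^ W.card ≤ ∏ w ∈ W, qq w ^ multiplicity w.maximalIdeal.asIdeal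
      (Ideal.span {(p : 𝓞 L)}) := by
    rw [← Finset.prod_const]
    refine Finset.prod_le_prod' fun w hw => ?_
    refine (le_qq w p hp (hW w hw)).trans (Nat.le_self_pow ?_ _)
    have := one_le_mult w p hp.ne_zero (hW w hw)
    omega
  exact (Nat.pow_le_pow_iff_right hp.one_lt).1 (h3.trans h2)

/-- places above `S` as a finset -/
noncomputable def abF (S : Finset ℕ) (hS : ∀ p ∈ S, p.Prime) (L : Type) [Field L] [NumberField L] :
    Finset (FinitePlace L) := (above_finite (L := L) S hS).toFinset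

theorem mem_abF (S : Finset ℕ) (hS : ∀ p ∈ S, p.Prime) (w : FinitePlace L) :
    w ∈ abF S hS L ↔ ∃ p ∈ S, w (p : L) < 1 := by
  unfold abF
  rw [Set.Finite.mem_toFinset]
  rfl

theorem card_abF (S : Finset ℕ) (hS : ∀ p ∈ S, p.Prime) :
    (abF S hS L).card ≤ Module.finrank ℚ L * S.card := by
  classical
  have h1 : abF S hS L ⊆ S.biUnion fun p => (abF S hS L).filter fun w => w (p : L) < 1 := by
    intro w hw
    obtain ⟨p, hp, hwp⟩ := (mem_abF S hS w).1 hw
    rw [Finset.mem_biUnion]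
    exact ⟨p, hp, Finset.mem_filter.2 ⟨hw, hwp⟩⟩
  refine (Finset.card_le_card h1).trans (Finset.card_biUnion_le.trans ?_)
  calc ∑ p ∈ S, ((abF S hS L).filter fun w => w (p : L) < 1).card
      ≤ ∑ _p ∈ S, Module.finrank ℚ L :=
        Finset.sum_le_sum fun p hp => card_one p (hS p hp) _ fun w hw => (Finset.mem_filter.1 hw).2
    _ = Module.finrank ℚ L * S.card := by rw [Finset.sum_const, smul_eq_mul, mul_comm]

theorem card_inf : Fintype.card (InfinitePlace L) ≤ Module.finrank ℚ L := by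
  rw [← InfinitePlace.sum_mult_eq, ← Finset.card_univ, Finset.card_eq_sum_ones]
  exact Finset.sum_le_sum fun v _ => InfinitePlace.mult_pos

/-- arithmetic data of the value at `a` -/
theorem data (S : Finset ℕ) (hS : ∀ p ∈ S, p.Prime) (y : L) (a : ℤ × ℤ) (h : cf a y ≠ 0) :
    ∃ s m : ℕ, smooth S s ∧ 1 ≤ m ∧
      (∏ w ∈ abF S hS L, max (w y) 1 / w (cf a y)) = (s : ℝ) ∧
      (s : ℝ) * m = ∏ᶠ w : FinitePlace L, max (w y) 1 / w (cf a y) := by
  obtain ⟨C, hC, hw⟩ := local_data y a h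
  obtain ⟨m, hm⟩ := prod_dvd_norm C hC (abF S hS L)
  have hN : Ideal.absNorm C ≠ 0 := Ideal.absNorm_eq_zero_iff.not.mpr hC
  refine ⟨∏ w ∈ abF S hS L, qq w ^ multiplicity w.maximalIdeal.asIdeal C, m, ?_, ?_, ?_, ?_⟩
  · refine ⟨fun h0 => hN (by rw [hm, h0, zero_mul]), fun p' hp' => ?_⟩
    have hp'p := Nat.prime_of_mem_primeFactors hp'
    have hd := Nat.dvd_of_mem_primeFactors hp'
    obtain ⟨w, hwS, hwd⟩ := (hp'p.prime.dvd_finsetProd_iff _).1 hd
    obtain ⟨p, hp, hwp⟩ := (mem_abF S hS w).1 hwS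
    have h1 := (hp'p.dvd_of_dvd_pow hwd).trans (qq_dvd w p (hS p hp).ne_zero hwp)
    have h2 := (Nat.prime_dvd_prime_iff_eq hp'p (hS p hp)).1 (hp'p.dvd_of_dvd_pow h1)
    rw [h2]; exact hp
  · rcases Nat.eq_zero_or_pos m with h0 | h0
    · exact absurd (by rw [hm, h0, mul_zero]) hN
    · exact h0
  · push_cast
    exact Finset.prod_congr rfl fun w _ => hw w
  · rw [← Nat.cast_mul, ← hm, ← finprod_q C hC]
    exact (finprod_congr fun w => hw w).symm

/-- closeness of `y` to `a` -/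
def close (η : ℝ) (u t : ℝ) : Prop := t < η * max u 1

theorem det1 (a b : ℤ × ℤ) (y : L) : (b.2 : L) * cf a y - (a.2 : L) * cf b y =
    ((a.1 * b.2 - a.2 * b.1 : ℤ) : L) := by
  unfold cf; push_cast; ring

theorem det2 (a b : ℤ × ℤ) (y : L) : (b.1 : L) * cf a y - (a.1 : L) * cf b y =
    ((a.1 * b.2 - a.2 * b.1 : ℤ) : L) * y := by
  unfold cf; push_cast; ring

theorem inf_int (v : InfinitePlace L) (n : ℤ) : v (n : L) = |(n : ℝ)| := by
  rw [← InfinitePlace.norm_embedding_eq v (n : L), map_intCast, Complex.norm_intCast]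

theorem not_both_inf (v : InfinitePlace L) (A : ℕ) (hA : 1 ≤ A) (r : ℕ) (hr : 1 ≤ r) (a b : ℤ × ℤ)
    (ha1 : |a.1| ≤ A) (ha2 : |a.2| ≤ A) (hb1 : |b.1| ≤ A) (hb2 : |b.2| ≤ A)
    (hab : a.1 * b.2 ≠ a.2 * b.1) (y : L)
    (h1 : close ((((2 * A ^ 2) ^ r : ℕ) : ℝ)⁻¹) (v y) (v (cf a y)))
    (h2 : close ((((2 * A ^ 2) ^ r : ℕ) : ℝ)⁻¹) (v y) (v (cf b y))) : False := by
  set η : ℝ := (((2 * A ^ 2) ^ r : ℕ) : ℝ)⁻¹ with hη
  have hA' : (1 : ℝ) ≤ A := by exact_mod_cast hA
  have hN : 2 * A ≤ (2 * A ^ 2) ^ r := by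
    calc 2 * A ≤ 2 * A ^ 2 := by nlinarith
      _ ≤ (2 * A ^ 2) ^ r := Nat.le_self_pow (by omega) _
  have hη2 : 2 * (A : ℝ) * η ≤ 1 := by
    rw [hη, ← div_eq_mul_inv, div_le_one (by positivity)]
    exact_mod_cast hN
  have hη0 : 0 < η := by positivity
  set M := max (v y) 1 with hM
  have hM1 : 1 ≤ M := le_max_right _ _
  unfold close at h1 h2
  rw [← hM] at h1 h2
  have hΔ : (1 : ℝ) ≤ v (((a.1 * b.2 - a.2 * b.1 : ℤ) : L)) := by
    rw [inf_int]
    have : 1 ≤ |a.1 * b.2 - a.2 * b.1| := Int.one_le_abs (sub_ne_zero.2 hab)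
    exact_mod_cast this
  have ha1' : |(a.1 : ℝ)| ≤ A := by exact_mod_cast ha1
  have ha2' : |(a.2 : ℝ)| ≤ A := by exact_mod_cast ha2
  have hb1' : |(b.1 : ℝ)| ≤ A := by exact_mod_cast hb1
  have hb2' : |(b.2 : ℝ)| ≤ A := by exact_mod_cast hb2
  have hca : 0 ≤ v (cf a y) := apply_nonneg v _
  have hcb : 0 ≤ v (cf b y) := apply_nonneg v _
  have hsub : ∀ p q : L, v (p - q) ≤ v p + v q := fun p q => by
    rw [← InfinitePlace.norm_embedding_eq v, ← InfinitePlace.norm_embedding_eq v,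
      ← InfinitePlace.norm_embedding_eq v, map_sub]
    exact norm_sub_le _ _
  have key : ∀ c d : ℤ, |(c : ℝ)| ≤ A → |(d : ℝ)| ≤ A →
      v ((c : L) * cf a y - (d : L) * cf b y) < M := by
    intro c d hc hd
    refine (hsub _ _).trans_lt ?_
    rw [map_mul, map_mul, inf_int, inf_int]
    have e1 : |(c : ℝ)| * v (cf a y) ≤ A * v (cf a y) := by gcongr
    have e2 : |(d : ℝ)| * v (cf b y) ≤ A * v (cf b y) := by gcongr
    have e3 : (A : ℝ) * v (cf a y) < A * (η * M) := by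
      exact mul_lt_mul_of_pos_left h1 (by linarith)
    have e4 : (A : ℝ) * v (cf b y) < A * (η * M) := by
      exact mul_lt_mul_of_pos_left h2 (by linarith)
    have e5 : 2 * (A : ℝ) * η * M ≤ 1 * M := by gcongr
    linarith
  have k1 := key b.2 a.2 hb2' ha2'
  have k2 := key b.1 a.1 hb1' ha1'
  rw [det1] at k1
  rw [det2, map_mul] at k2
  rcases le_total (v y) 1 with h | h
  · rw [hM, max_eq_right h] at k1
    linarith
  · rw [hM, max_eq_left h] at k2
    nlinarith [apply_nonneg v y]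

theorem fin_int_le (w : FinitePlace L) (n : ℤ) : w (n : L) ≤ 1 := by
  have := FinitePlace.norm_le_one L w.maximalIdeal (n : 𝓞 L)
  rw [FinitePlace.norm_embedding_eq w (n : 𝓞 L)] at this
  have e : (((n : 𝓞 L) : 𝓞 L) : L) = (n : L) := by push_cast; rfl
  rw [e] at this
  exact this

theorem fin_int_ge (w : FinitePlace L) (n : ℤ) (hn : n ≠ 0) (B : ℕ) (hB : n.natAbs ≤ B) :
    ((B ^ Module.finrank ℚ L : ℕ) : ℝ)⁻¹ ≤ w (n : L) := by
  have hn' : n.natAbs ≠ 0 := Int.natAbs_ne_zero.2 hn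
  have e : w (n : L) = w ((n.natAbs : ℕ) : L) := by
    rcases Int.natAbs_eq n with h | h
    · have h' : (n : L) = ((n.natAbs : ℕ) : L) := by
        conv_lhs => rw [h]
        rw [Int.cast_natCast]
      rw [h']
    · have h' : (n : L) = (-1 : L) * ((n.natAbs : ℕ) : L) := by
        conv_lhs => rw [h]
        rw [Int.cast_neg, Int.cast_natCast]
        ring
      rw [h', map_mul]
      have : w (-1 : L) = 1 := by
        have h2 : w (-1 : L) * w (-1 : L) = 1 := by rw [← map_mul]; simp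
        have h3 : 0 ≤ w (-1 : L) := apply_nonneg w _
        nlinarith
      rw [this, one_mul]
  rw [e, apply_nat w _ hn']
  have h1 := prod_dvd_norm _ (span_nat_ne (L := L) _ hn') {w}
  rw [Finset.prod_singleton, norm_nat] at h1
  have h2 := Nat.le_of_dvd (pow_pos (by omega) _) h1
  have h3 : n.natAbs ^ Module.finrank ℚ L ≤ B ^ Module.finrank ℚ L := Nat.pow_le_pow_left hB _
  have hq := qq_pos w
  refine inv_anti₀ (pow_pos hq _) ?_
  exact_mod_cast h2.trans h3

theorem not_both_fin (w : FinitePlace L) (A : ℕ) (a b : ℤ × ℤ)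
    (ha1 : |a.1| ≤ A) (ha2 : |a.2| ≤ A) (hb1 : |b.1| ≤ A) (hb2 : |b.2| ≤ A)
    (hab : a.1 * b.2 ≠ a.2 * b.1) (y : L)
    (h1 : close ((((2 * A ^ 2) ^ Module.finrank ℚ L : ℕ) : ℝ)⁻¹) (w y) (w (cf a y)))
    (h2 : close ((((2 * A ^ 2) ^ Module.finrank ℚ L : ℕ) : ℝ)⁻¹) (w y) (w (cf b y))) : False := by
  set η : ℝ := (((2 * A ^ 2) ^ Module.finrank ℚ L : ℕ) : ℝ)⁻¹ with hη
  set M := max (w y) 1 with hM
  have hM1 : 1 ≤ M := le_max_right _ _
  unfold close at h1 h2
  rw [← hM] at h1 h2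
  have hΔ : η ≤ w (((a.1 * b.2 - a.2 * b.1 : ℤ) : L)) := by
    rw [hη]
    refine fin_int_ge w _ (sub_ne_zero.2 hab) (2 * A ^ 2) ?_
    zify
    calc |a.1 * b.2 - a.2 * b.1| ≤ |a.1 * b.2| + |a.2 * b.1| := abs_sub _ _
      _ = |a.1| * |b.2| + |a.2| * |b.1| := by rw [abs_mul, abs_mul]
      _ ≤ A * A + A * A := by gcongr
      _ = 2 * (A : ℤ) ^ 2 := by ring
  have hca : 0 ≤ w (cf a y) := apply_nonneg w _
  have hcb : 0 ≤ w (cf b y) := apply_nonneg w _
  have key : ∀ c d : ℤ, w ((c : L) * cf a y - (d : L) * cf b y) < η * M := by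
    intro c d
    have e0 : (c : L) * cf a y - (d : L) * cf b y =
        (c : L) * cf a y + ((-d : ℤ) : L) * cf b y := by push_cast; ring
    rw [e0]
    refine (FinitePlace.add_le w _ _).trans_lt ?_
    rw [map_mul, map_mul]
    have e1 : w (c : L) * w (cf a y) ≤ 1 * w (cf a y) := by
      have := fin_int_le w c
      gcongr
    have e2 : w ((-d : ℤ) : L) * w (cf b y) ≤ 1 * w (cf b y) := by
      have := fin_int_le w (-d)
      gcongr
    rw [one_mul] at e1 e2
    exact max_lt (e1.trans_lt h1) (e2.trans_lt h2)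
  have k1 := key b.2 a.2
  have k2 := key b.1 a.1
  rw [det1] at k1
  rw [det2, map_mul] at k2
  have hΔ0 : 0 ≤ w (((a.1 * b.2 - a.2 * b.1 : ℤ) : L)) := apply_nonneg w _
  rcases le_total (w y) 1 with h | h
  · rw [hM, max_eq_right h, mul_one] at k1
    linarith
  · rw [hM, max_eq_left h] at k2
    have : η * w y ≤ w (((a.1 * b.2 - a.2 * b.1 : ℤ) : L)) * w y := by
      have : 0 ≤ w y := by linarith
      gcongr
    linarith

end H645.VB
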