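import Mathlib
import Pool.Agent.H645R3.VB3

set_option autoImplicit false

namespace H645.VB

open Finset NumberField IsDedekindDomain Height

variable {L : Type} [Field L] [NumberField L]

/-- the contribution of `a` to the (exponential) proximity function -/
noncomputable def Pi (S : Finset ℕ) (hS : ∀ p ∈ S, p.Prime) (y : L) (a : ℤ × ℤ) : ℝ :=
  (∏ w ∈ abF S hS L, max (w y) 1 / w (cf a y)) *
    ∏ v : InfinitePlace L, (max (v y) 1 / v (cf a y)) ^ v.mult

theorem Pi_pos (S : Finset ℕ) (hS : ∀ p ∈ S, p.Prime) (y : L) (a : ℤ × ℤ) (h : cf a y ≠ 0) :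
    0 < Pi S hS y a := by
  unfold Pi
  refine mul_pos (Finset.prod_pos fun w _ => ?_) (Finset.prod_pos fun v _ => pow_pos ?_ _)
  · exact div_pos (lt_max_of_lt_right one_pos) (FinitePlace.pos_iff.2 h)
  · exact div_pos (lt_max_of_lt_right one_pos) (InfinitePlace.pos_iff.2 h)

theorem Pi_mul (S : Finset ℕ) (hS : ∀ p ∈ S, p.Prime) (y : L) (a : ℤ × ℤ) (h : cf a y ≠ 0)
    (s m : ℕ) (h1 : (∏ w ∈ abF S hS L, max (w y) 1 / w (cf a y)) = (s : ℝ))
    (h2 : (s : ℝ) * m = ∏ᶠ w : FinitePlace L, max (w y) 1 / w (cf a y)) :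
    Pi S hS y a * m = mulHeight₁ y := by
  rw [← arch_prod y a h, ← h2]
  unfold Pi
  rw [h1]; ring

theorem point (S : Finset ℕ) (hS : ∀ p ∈ S, p.Prime) (D : Finset (ℤ × ℤ)) (A : ℕ) (hA : 1 ≤ A)
    (hDA : ∀ a ∈ D, |a.1| ≤ A ∧ |a.2| ≤ A)
    (hD : ∀ a ∈ D, ∀ b ∈ D, a ≠ b → a.1 * b.2 ≠ a.2 * b.1) (y : L)
    (hy : ∀ a ∈ D, cf a y ≠ 0) : ∃ D' ⊆ D, D'.card ≤ Module.finrank ℚ L * (S.card + 1) ∧
    ∀ a ∈ D, a ∉ D' → Pi S hS y a ≤
      (((2 * A ^ 2) ^ Module.finrank ℚ L : ℕ) : ℝ) ^ (Module.finrank ℚ L * (S.card + 1)) := by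
  classical
  set r := Module.finrank ℚ L with hr
  have hr1 : 1 ≤ r := Module.finrank_pos
  set N : ℕ := (2 * A ^ 2) ^ r with hN
  have hN1 : 1 ≤ N := Nat.one_le_pow _ _ (by positivity)
  have hN1' : (1 : ℝ) ≤ N := by exact_mod_cast hN1
  set D' := D.filter (fun a => (∃ v : InfinitePlace L, close ((N : ℝ)⁻¹) (v y) (v (cf a y))) ∨
    ∃ w ∈ abF S hS L, close ((N : ℝ)⁻¹) (w y) (w (cf a y))) with hD'
  refine ⟨D', Finset.filter_subset _ _, ?_, ?_⟩
  · have hex : ∀ a : ℤ × ℤ, ∃ p : InfinitePlace L ⊕ FinitePlace L, a ∈ D' →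
        (∃ v : InfinitePlace L, p = Sum.inl v ∧ close ((N : ℝ)⁻¹) (v y) (v (cf a y))) ∨
        (∃ w ∈ abF S hS L, p = Sum.inr w ∧ close ((N : ℝ)⁻¹) (w y) (w (cf a y))) := by
      intro a
      by_cases ha : a ∈ D'
      · have ha2 := (Finset.mem_filter.1 ha).2
        rcases ha2 with ⟨v, hv⟩ | ⟨w, hw, hwc⟩
        · exact ⟨Sum.inl v, fun _ => Or.inl ⟨v, rfl, hv⟩⟩
        · exact ⟨Sum.inr w, fun _ => Or.inr ⟨w, hw, rfl, hwc⟩⟩
      · haveI : Nonempty (InfinitePlace L) := inferInstance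
        exact ⟨Sum.inl (Classical.arbitrary _), fun h => absurd h ha⟩
    choose g hg using hex
    have hcard : D'.card ≤ (Finset.univ.disjSum (abF S hS L) :
        Finset (InfinitePlace L ⊕ FinitePlace L)).card := by
      refine Finset.card_le_card_of_injOn g ?_ ?_
      · intro a ha
        rcases hg a ha with ⟨v, hv, -⟩ | ⟨w, hw, hw2, -⟩
        · rw [hv]
          simp
        · rw [hw2]
          simp [hw]
      · intro a ha b hb hab
        by_contra hne
        have haD : a ∈ D := (Finset.mem_filter.1 ha).1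
        have hbD : b ∈ D := (Finset.mem_filter.1 hb).1
        have hdet := hD a haD b hbD hne
        obtain ⟨ha1, ha2⟩ := hDA a haD
        obtain ⟨hb1, hb2⟩ := hDA b hbD
        rcases hg a ha with ⟨v, hv, hvc⟩ | ⟨w, hw, hw2, hwc⟩
        · rcases hg b hb with ⟨v', hv', hvc'⟩ | ⟨w', hw', hw2', hwc'⟩
          · rw [hv, hv'] at hab
            have := Sum.inl.inj hab
            subst this
            exact not_both_inf v A hA r hr1 a b ha1 ha2 hb1 hb2 hdet y hvc hvc'
          · rw [hv, hw2'] at hab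
            exact absurd hab (by simp)
        · rcases hg b hb with ⟨v', hv', hvc'⟩ | ⟨w', hw', hw2', hwc'⟩
          · rw [hw2, hv'] at hab
            exact absurd hab (by simp)
          · rw [hw2, hw2'] at hab
            have := Sum.inr.inj hab
            subst this
            exact not_both_fin w A a b ha1 ha2 hb1 hb2 hdet y hwc hwc'
    refine hcard.trans ?_
    rw [Finset.card_disjSum, Finset.card_univ]
    have h1 := card_inf (L := L)
    have h2 := card_abF (L := L) S hS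
    calc Fintype.card (InfinitePlace L) + (abF S hS L).card ≤ r + r * S.card := add_le_add h1 h2
      _ = r * (S.card + 1) := by ring
  · intro a ha haD'
    have hna : (∀ v : InfinitePlace L, ¬ close ((N : ℝ)⁻¹) (v y) (v (cf a y))) ∧
        ∀ w ∈ abF S hS L, ¬ close ((N : ℝ)⁻¹) (w y) (w (cf a y)) := by
      constructor
      · intro v hv
        exact haD' (Finset.mem_filter.2 ⟨ha, Or.inl ⟨v, hv⟩⟩)
      · intro w hw hwc
        exact haD' (Finset.mem_filter.2 ⟨ha, Or.inr ⟨w, hw, hwc⟩⟩)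
    have gen : ∀ u t : ℝ, 0 < t → ¬ close ((N : ℝ)⁻¹) u t → max u 1 / t ≤ N := by
      intro u t ht hc
      unfold close at hc
      rw [not_lt] at hc
      rw [div_le_iff₀ ht]
      calc max u 1 = N * ((N : ℝ)⁻¹ * max u 1) := by
            rw [← mul_assoc, mul_inv_cancel₀ (by positivity), one_mul]
        _ ≤ N * t := by gcongr
    have e1 : (∏ w ∈ abF S hS L, max (w y) 1 / w (cf a y)) ≤ (N : ℝ) ^ (r * S.card) := by
      calc (∏ w ∈ abF S hS L, max (w y) 1 / w (cf a y)) ≤ ∏ _w ∈ abF S hS L, (N : ℝ) :=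
            Finset.prod_le_prod
              (fun w _ => (div_pos (lt_max_of_lt_right one_pos) (FinitePlace.pos_iff.2 (hy a ha))).le)
              fun w hw => gen _ _ (FinitePlace.pos_iff.2 (hy a ha)) (hna.2 w hw)
        _ = (N : ℝ) ^ (abF S hS L).card := by rw [Finset.prod_const]
        _ ≤ (N : ℝ) ^ (r * S.card) := pow_le_pow_right₀ hN1' (card_abF S hS)
    have e2 : ∏ v : InfinitePlace L, (max (v y) 1 / v (cf a y)) ^ v.mult ≤ (N : ℝ) ^ r := by
      calc ∏ v : InfinitePlace L, (max (v y) 1 / v (cf a y)) ^ v.mult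
          ≤ ∏ v : InfinitePlace L, (N : ℝ) ^ v.mult := by
            refine Finset.prod_le_prod (fun v _ => ?_) fun v _ => ?_
            · exact pow_nonneg
                (div_pos (lt_max_of_lt_right one_pos) (InfinitePlace.pos_iff.2 (hy a ha))).le _
            · exact pow_le_pow_left₀
                (div_pos (lt_max_of_lt_right one_pos) (InfinitePlace.pos_iff.2 (hy a ha))).le
                (gen _ _ (InfinitePlace.pos_iff.2 (hy a ha)) (hna.1 v)) _
        _ = (N : ℝ) ^ r := by rw [Finset.prod_pow_eq_pow_sum, InfinitePlace.sum_mult_eq]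
    unfold Pi
    calc _ ≤ (N : ℝ) ^ (r * S.card) * (N : ℝ) ^ r := by
          refine mul_le_mul e1 e2 ?_ (by positivity)
          exact Finset.prod_nonneg fun v _ => pow_nonneg
            (div_pos (lt_max_of_lt_right one_pos) (InfinitePlace.pos_iff.2 (hy a ha))).le _
      _ = (N : ℝ) ^ (r * (S.card + 1)) := by rw [← pow_add]; ring_nf

/-- homogenisation -/
noncomputable def hom (f : Polynomial ℚ) (r : ℕ) (a : ℤ × ℤ) : ℚ :=
  ∑ i ∈ Finset.range (r + 1), f.coeff i * (a.1 : ℚ) ^ i * (a.2 : ℚ) ^ (r - i)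

theorem hom_sub (f g : Polynomial ℚ) (c d : ℚ) (r : ℕ) (a : ℤ × ℤ) :
    hom (Polynomial.C c * f - Polynomial.C d * g) r a = c * hom f r a - d * hom g r a := by
  unfold hom
  rw [Finset.mul_sum, Finset.mul_sum, ← Finset.sum_sub_distrib]
  refine Finset.sum_congr rfl fun i _ => ?_
  rw [Polynomial.coeff_sub, Polynomial.coeff_C_mul, Polynomial.coeff_C_mul]
  ring

theorem hom_eval (f : Polynomial ℚ) (r : ℕ) (hf : f.natDegree ≤ r) (a : ℤ × ℤ) (ha : a.2 ≠ 0) :
    hom f r a = (a.2 : ℚ) ^ r * f.eval ((a.1 : ℚ) / a.2) := by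
  unfold hom
  rw [Polynomial.eval_eq_sum_range' (Nat.lt_succ_of_le hf), Finset.mul_sum]
  refine Finset.sum_congr rfl fun i hi => ?_
  have hi' : i ≤ r := Nat.lt_succ_iff.1 (Finset.mem_range.1 hi)
  have ha' : (a.2 : ℚ) ≠ 0 := by exact_mod_cast ha
  rw [div_pow]
  have : (a.2 : ℚ) ^ r = (a.2 : ℚ) ^ (r - i) * (a.2 : ℚ) ^ i := by
    rw [← pow_add, Nat.sub_add_cancel hi']
  rw [this]
  field_simp

theorem hom_inf (f : Polynomial ℚ) (r : ℕ) (a : ℤ × ℤ) (ha : a.2 = 0) :
    hom f r a = f.coeff r * (a.1 : ℚ) ^ r := by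
  unfold hom
  rw [Finset.sum_eq_single r]
  · simp
  · intro i hi hir
    have : r - i ≠ 0 := by
      have := Finset.mem_range.1 hi
      omega
    rw [ha, Int.cast_zero, zero_pow this, mul_zero]
  · intro h
    simp at h

theorem hom_unique (g : Polynomial ℚ) (r : ℕ) (hr : 1 ≤ r) (hg : g.natDegree ≤ r)
    (J : Finset (ℤ × ℤ)) (hJc : J.card = r + 1)
    (hJ : ∀ a ∈ J, ∀ b ∈ J, a ≠ b → a.1 * b.2 ≠ a.2 * b.1) (h0 : ∀ a ∈ J, hom g r a = 0) :
    g = 0 := by
  classical
  have inj : Set.InjOn (fun a : ℤ × ℤ => (a.1 : ℚ) / a.2) (J.filter fun a => a.2 ≠ 0) := by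
    intro a ha b hb hab
    by_contra hne
    have ha' := Finset.mem_filter.1 ha
    have hb' := Finset.mem_filter.1 hb
    have := hJ a ha'.1 b hb'.1 hne
    have ha2 : (a.2 : ℚ) ≠ 0 := by exact_mod_cast ha'.2
    have hb2 : (b.2 : ℚ) ≠ 0 := by exact_mod_cast hb'.2
    simp only at hab
    rw [div_eq_div_iff ha2 hb2] at hab
    apply this
    have h3 : a.1 * b.2 = b.1 * a.2 := by exact_mod_cast hab
    rw [h3, mul_comm]
  have hroots : ∀ t ∈ (J.filter fun a => a.2 ≠ 0).image (fun a : ℤ × ℤ => (a.1 : ℚ) / a.2),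
      g.eval t = 0 := by
    intro t ht
    obtain ⟨a, ha, rfl⟩ := Finset.mem_image.1 ht
    have ha' := Finset.mem_filter.1 ha
    have h1 := h0 a ha'.1
    rw [hom_eval g r hg a ha'.2] at h1
    have ha2 : (a.2 : ℚ) ≠ 0 := by exact_mod_cast ha'.2
    exact (mul_eq_zero.1 h1).resolve_left (pow_ne_zero _ ha2)
  have hcard : ((J.filter fun a => a.2 ≠ 0).image (fun a : ℤ × ℤ => (a.1 : ℚ) / a.2)).card =
      (J.filter fun a => a.2 ≠ 0).card := Finset.card_image_of_injOn inj
  by_cases hb : ∃ b ∈ J, b.2 = 0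
  · obtain ⟨b, hbJ, hb2⟩ := hb
    have hfil : J.filter (fun a => a.2 ≠ 0) = J.erase b := by
      ext a
      rw [Finset.mem_filter, Finset.mem_erase]
      constructor
      · rintro ⟨ha, ha2⟩
        refine ⟨?_, ha⟩
        rintro rfl
        exact ha2 hb2
      · rintro ⟨hab, ha⟩
        refine ⟨ha, fun ha2 => ?_⟩
        have := hJ a ha b hbJ hab
        rw [ha2, hb2] at this
        simp at this
    rw [hfil, Finset.card_erase_of_mem hbJ, hJc] at hcard
    have hb1 : b.1 ≠ 0 := by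
      intro hb1
      obtain ⟨a, ha, hab⟩ : ∃ a ∈ J, a ≠ b := by
        by_contra hcon
        push Not at hcon
        have : J ⊆ {b} := fun a ha => Finset.mem_singleton.2 (hcon a ha)
        have := Finset.card_le_card this
        rw [Finset.card_singleton] at this
        omega
      have := hJ a ha b hbJ hab
      rw [hb1, hb2] at this
      simp at this
    have hc := h0 b hbJ
    rw [hom_inf g r b hb2] at hc
    have hb1' : (b.1 : ℚ) ≠ 0 := by exact_mod_cast hb1
    have hcr : g.coeff r = 0 := (mul_eq_zero.1 hc).resolve_right (pow_ne_zero _ hb1')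
    refine Polynomial.eq_zero_of_natDegree_lt_card_of_eval_eq_zero' g _ hroots ?_
    rw [hfil, hcard] 
    have : g.natDegree ≠ r := by
      intro h
      have : g.leadingCoeff = 0 := by rw [Polynomial.leadingCoeff, h, hcr]
      rw [Polynomial.leadingCoeff_eq_zero] at this
      rw [this] at h
      simp at h
      omega
    omega
  · push Not at hb
    have hfil : J.filter (fun a => a.2 ≠ 0) = J := Finset.filter_true_of_mem hb
    refine Polynomial.eq_zero_of_natDegree_lt_card_of_eval_eq_zero' g _ hroots ?_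
    rw [hcard, hfil, hJc]
    omega

theorem norm_hom (pb : PowerBasis ℚ L) (a : ℤ × ℤ) :
    Algebra.norm ℚ (cf a pb.gen) = hom (minpoly ℚ pb.gen) (Module.finrank ℚ L) a := by
  classical
  have hdeg : (minpoly ℚ pb.gen).natDegree = Module.finrank ℚ L := by
    rw [pb.natDegree_minpoly, pb.finrank]
  by_cases ha : a.2 = 0
  · rw [hom_inf _ _ _ ha]
    have h1 : cf a pb.gen = algebraMap ℚ L (a.1 : ℚ) := by
      unfold cf; rw [ha]; simp
    rw [h1, Algebra.norm_algebraMap]
    have : (minpoly ℚ pb.gen).coeff (Module.finrank ℚ L) = 1 := by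
      rw [← hdeg]
      exact (minpoly.monic pb.isIntegral_gen)
    rw [this, one_mul]
  · rw [hom_eval _ _ hdeg.le _ ha]
    have ha' : (a.2 : ℚ) ≠ 0 := by exact_mod_cast ha
    have h1 : cf a pb.gen = algebraMap ℚ L (a.2 : ℚ) *
        (algebraMap ℚ L ((a.1 : ℚ) / a.2) - pb.gen) := by
      unfold cf
      rw [mul_sub, ← map_mul, mul_div_cancel₀ _ ha']
      simp
    rw [h1, map_mul, Algebra.norm_algebraMap]
    congr 1
    rw [Algebra.norm_eq_matrix_det pb.basis, map_sub, ← charpoly_leftMulMatrix pb,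
      Matrix.eval_charpoly]
    congr 2
    rw [AlgHom.commutes]
    rfl

end H645.VB
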