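import Mathlib
import Pool.Agent.H645R3.VB4

set_option autoImplicit false

namespace H645.VB

open Finset NumberField IsDedekindDomain Height

/-- local Weil function of the point `(a₁ : a₂)` at a place -/
noncomputable def lam (u t : ℝ) : ℝ := Real.log (max 1 u / t)

/-- proximity function over a number field -/
noncomputable def proxL (S : Finset ℕ) (D : Finset (ℤ × ℤ)) {L : Type} [Field L] [NumberField L]
    (y : L) : ℝ :=
  ((∑ v : InfinitePlace L, v.mult * ∑ a ∈ D, lam (v y) (v ((a.1 : L) - a.2 * y))) +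
    ∑ᶠ w ∈ {w : FinitePlace L | ∃ p ∈ S, w (p : L) < 1},
      ∑ a ∈ D, lam (w y) (w ((a.1 : L) - a.2 * y))) / Module.finrank ℚ L

variable {L : Type} [Field L] [NumberField L]

theorem proxL_eq (S : Finset ℕ) (hS : ∀ p ∈ S, p.Prime) (D : Finset (ℤ × ℤ)) (y : L)
    (hy : ∀ a ∈ D, cf a y ≠ 0) :
    Module.finrank ℚ L * proxL S D y = ∑ a ∈ D, Real.log (Pi S hS y a) := by
  have hr : (Module.finrank ℚ L : ℝ) ≠ 0 := by
    have : 0 < Module.finrank ℚ L := Module.finrank_pos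
    positivity
  unfold proxL
  rw [mul_div_cancel₀ _ hr]
  have e1 : (∑ᶠ w ∈ {w : FinitePlace L | ∃ p ∈ S, w (p : L) < 1},
      ∑ a ∈ D, lam (w y) (w ((a.1 : L) - a.2 * y))) =
      ∑ w ∈ abF S hS L, ∑ a ∈ D, lam (w y) (w ((a.1 : L) - a.2 * y)) := by
    rw [finsum_mem_eq_sum_of_inter_support_eq]
    congr 1
    ext w
    rw [Finset.mem_coe, mem_abF]
    rfl
  rw [e1]
  simp only [Finset.mul_sum]
  rw [Finset.sum_comm, Finset.sum_comm (s := abF S hS L), ← Finset.sum_add_distrib]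
  refine Finset.sum_congr rfl fun a ha => ?_
  have h := hy a ha
  unfold Pi
  rw [Real.log_mul, Real.log_prod, Real.log_prod, add_comm]
  · congr 1
    · refine Finset.sum_congr rfl fun w _ => ?_
      unfold lam cf
      rw [max_comm]
    · refine Finset.sum_congr rfl fun v _ => ?_
      rw [Real.log_pow]
      unfold lam cf
      rw [max_comm]
  · intro v _
    exact (pow_pos (div_pos (lt_max_of_lt_right one_pos) (InfinitePlace.pos_iff.2 h)) _).ne'
  · intro w _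
    exact (div_pos (lt_max_of_lt_right one_pos) (FinitePlace.pos_iff.2 h)).ne'
  · exact (Finset.prod_pos fun w _ =>
      (div_pos (lt_max_of_lt_right one_pos) (FinitePlace.pos_iff.2 h))).ne'
  · exact (Finset.prod_pos fun v _ =>
      pow_pos (div_pos (lt_max_of_lt_right one_pos) (InfinitePlace.pos_iff.2 h)) _).ne'

theorem val_le (y : L) (a : ℤ × ℤ) (h : cf a y ≠ 0) :
    (∏ᶠ w : FinitePlace L, max (w y) 1 / w (cf a y)) ≤
      (|(a.1 : ℝ)| + |(a.2 : ℝ)|) ^ Module.finrank ℚ L * mulHeight₁ y := by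
  set b : ℝ := |(a.1 : ℝ)| + |(a.2 : ℝ)| with hb
  have h1 := arch_prod y a h
  have hv : ∀ v : InfinitePlace L, v (cf a y) ≤ b * max (v y) 1 := by
    intro v
    have hsub : ∀ p q : L, v (p - q) ≤ v p + v q := fun p q => by
      rw [← InfinitePlace.norm_embedding_eq v, ← InfinitePlace.norm_embedding_eq v,
        ← InfinitePlace.norm_embedding_eq v, map_sub]
      exact norm_sub_le _ _
    unfold cf
    refine (hsub _ _).trans ?_
    rw [map_mul, inf_int, inf_int, hb, add_mul]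
    have e1 : |(a.1 : ℝ)| ≤ |(a.1 : ℝ)| * max (v y) 1 :=
      le_mul_of_one_le_right (abs_nonneg _) (le_max_right _ _)
    have e2 : |(a.2 : ℝ)| * v y ≤ |(a.2 : ℝ)| * max (v y) 1 :=
      mul_le_mul_of_nonneg_left (le_max_left _ _) (abs_nonneg _)
    linarith
  have hb0 : 0 < b := by
    obtain ⟨v⟩ : Nonempty (InfinitePlace L) := inferInstance
    have h2 := hv v
    have h3 : 0 < v (cf a y) := InfinitePlace.pos_iff.2 h
    have h4 : 0 < max (v y) 1 := lt_max_of_lt_right one_pos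
    by_contra hcon
    rw [not_lt] at hcon
    nlinarith
  have h5 : (b ^ Module.finrank ℚ L)⁻¹ ≤
      ∏ v : InfinitePlace L, (max (v y) 1 / v (cf a y)) ^ v.mult := by
    calc (b ^ Module.finrank ℚ L)⁻¹ = ∏ v : InfinitePlace L, (b⁻¹) ^ v.mult := by
          rw [Finset.prod_pow_eq_pow_sum, InfinitePlace.sum_mult_eq, inv_pow]
      _ ≤ _ := by
          refine Finset.prod_le_prod (fun v _ => by positivity) fun v _ => ?_
          refine pow_le_pow_left₀ (by positivity) ?_ _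
          have h3 : 0 < v (cf a y) := InfinitePlace.pos_iff.2 h
          rw [le_div_iff₀ h3]
          calc b⁻¹ * v (cf a y) ≤ b⁻¹ * (b * max (v y) 1) := by
                gcongr
                exact hv v
            _ = max (v y) 1 := by field_simp
  have hn0 : 0 ≤ ∏ᶠ w : FinitePlace L, max (w y) 1 / w (cf a y) :=
    finprod_nonneg fun w => (div_pos (lt_max_of_lt_right one_pos) (FinitePlace.pos_iff.2 h)).le
  rw [← h1]
  calc (∏ᶠ w : FinitePlace L, max (w y) 1 / w (cf a y))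
      = b ^ Module.finrank ℚ L * ((∏ᶠ w : FinitePlace L, max (w y) 1 / w (cf a y)) *
          (b ^ Module.finrank ℚ L)⁻¹) := by field_simp
    _ ≤ _ := by gcongr

theorem n_exists (y : L) : ∃ n : ℕ, 1 ≤ n ∧ (n : ℝ) = ∏ᶠ w : FinitePlace L, max (w y) 1 := by
  have h1 : cf (1, 0) y = 1 := by unfold cf; simp
  obtain ⟨s, m, hs, hm, -, h3⟩ := data ∅ (by simp) y (1, 0) (by rw [h1]; exact one_ne_zero)
  refine ⟨s * m, Nat.one_le_iff_ne_zero.2 (Nat.mul_ne_zero hs.1 (by omega)), ?_⟩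
  push_cast
  rw [h3]
  refine finprod_congr fun w => ?_
  rw [h1, map_one, div_one]

/-- all the data of a point of degree `r` -/
theorem pt (S : Finset ℕ) (hS : ∀ p ∈ S, p.Prime) (D : Finset (ℤ × ℤ)) (A : ℕ) (hA : 1 ≤ A)
    (hDA : ∀ a ∈ D, |a.1| ≤ A ∧ |a.2| ≤ A)
    (hD : ∀ a ∈ D, ∀ b ∈ D, a ≠ b → a.1 * b.2 ≠ a.2 * b.1) (κ c : ℝ)
    (pb : PowerBasis ℚ L) (hy : ∀ a ∈ D, cf a pb.gen ≠ 0)
    (hprox : κ * Real.log (mulHeight₁ pb.gen) - c ≤ Module.finrank ℚ L * proxL S D pb.gen) :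
    ∃ (n : ℕ) (z : ℤ × ℤ → ℤ) (s m : ℤ × ℤ → ℕ), 1 ≤ n ∧
      (∀ a, (z a : ℚ) = n * hom (minpoly ℚ pb.gen) (Module.finrank ℚ L) a) ∧
      (∀ a, |(z a : ℝ)| ≤ (|(a.1 : ℝ)| + |(a.2 : ℝ)|) ^ Module.finrank ℚ L * mulHeight₁ pb.gen) ∧
      (∀ a ∈ D, smooth S (s a) ∧ 1 ≤ m a ∧ (z a).natAbs = s a * m a) ∧
      ∃ D' ⊆ D, D'.card ≤ Module.finrank ℚ L * (S.card + 1) ∧
        ∏ a ∈ D', (m a : ℝ) ≤ ((((2 * A ^ 2) ^ Module.finrank ℚ L : ℕ) : ℝ) ^
          (Module.finrank ℚ L * (S.card + 1))) ^ D.card * Real.exp c *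
          (mulHeight₁ pb.gen) ^ ((D'.card : ℝ) - κ) := by
  classical
  set y := pb.gen with hydef
  set r := Module.finrank ℚ L with hr
  set H := mulHeight₁ y with hH
  have hH1 : 1 ≤ H := one_le_mulHeight₁ y
  have hH0 : 0 < H := by linarith
  obtain ⟨n, hn1, hn⟩ := n_exists y
  have hex : ∀ a : ℤ × ℤ, ∃ (z : ℤ) (s m : ℕ), (z : ℚ) = n * hom (minpoly ℚ y) r a ∧
      |(z : ℝ)| ≤ (|(a.1 : ℝ)| + |(a.2 : ℝ)|) ^ r * H ∧
      (cf a y ≠ 0 → smooth S s ∧ 1 ≤ m ∧ z.natAbs = s * m ∧ Pi S hS y a * m = H) := by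
    intro a
    have hnorm : Algebra.norm ℚ (cf a y) = hom (minpoly ℚ y) r a := norm_hom pb a
    by_cases h : cf a y = 0
    · refine ⟨0, 1, 1, ?_, ?_, fun h' => absurd h h'⟩
      · rw [← hnorm, h, Algebra.norm_zero]; simp
      · simp only [Int.cast_zero, abs_zero]
        positivity
    · obtain ⟨s, m, hs, hm, h1, h2⟩ := data S hS y a h
      have h3 := Pi_mul S hS y a h s m h1 h2
      have h4 : (s : ℝ) * m = n * |((hom (minpoly ℚ y) r a : ℚ) : ℝ)| := by
        rw [h2, fin_norm y a h, ← hn, hnorm]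
      have h5 : (s : ℝ) * m ≤ (|(a.1 : ℝ)| + |(a.2 : ℝ)|) ^ r * H := by
        rw [h2]; exact val_le y a h
      rcases le_total 0 (hom (minpoly ℚ y) r a) with h0 | h0
      · have h0' : (0 : ℝ) ≤ ((hom (minpoly ℚ y) r a : ℚ) : ℝ) := by exact_mod_cast h0
        rw [abs_of_nonneg h0'] at h4
        refine ⟨(s : ℤ) * m, s, m, ?_, ?_, fun _ => ⟨hs, hm, ?_, h3⟩⟩
        · push_cast
          exact_mod_cast h4
        · push_cast
          rw [abs_of_nonneg (by positivity)]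
          exact h5
        · rw [Int.natAbs_mul, Int.natAbs_natCast, Int.natAbs_natCast]
      · have h0' : ((hom (minpoly ℚ y) r a : ℚ) : ℝ) ≤ 0 := by exact_mod_cast h0
        rw [abs_of_nonpos h0'] at h4
        refine ⟨-((s : ℤ) * m), s, m, ?_, ?_, fun _ => ⟨hs, hm, ?_, h3⟩⟩
        · have h6 : (s : ℚ) * m = n * -(hom (minpoly ℚ y) r a) := by exact_mod_cast h4
          push_cast
          linarith
        · push_cast
          rw [abs_neg, abs_of_nonneg (by positivity)]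
          exact h5
        · rw [Int.natAbs_neg, Int.natAbs_mul, Int.natAbs_natCast, Int.natAbs_natCast]
  choose z s m hz1 hz2 hz3 using hex
  obtain ⟨D', hD', hc', hout⟩ := point S hS D A hA hDA hD y hy
  refine ⟨n, z, s, m, hn1, hz1, hz2, fun a ha => ?_, D', hD', hc', ?_⟩
  · obtain ⟨h1, h2, h3, -⟩ := hz3 a (hy a ha)
    exact ⟨h1, h2, h3⟩
  set K := (((2 * A ^ 2) ^ r : ℕ) : ℝ) ^ (r * (S.card + 1)) with hK
  have hK1 : 1 ≤ K := by
    refine one_le_pow₀ ?_
    exact_mod_cast Nat.one_le_pow _ _ (by positivity)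
  rw [proxL_eq S hS D y hy] at hprox
  have hpos : ∀ a ∈ D, 0 < Pi S hS y a := fun a ha => Pi_pos S hS y a (hy a ha)
  rw [← Real.log_prod (fun a ha => (hpos a ha).ne')] at hprox
  have hprod : H ^ κ * Real.exp (-c) ≤ ∏ a ∈ D, Pi S hS y a := by
    have hP : 0 < ∏ a ∈ D, Pi S hS y a := Finset.prod_pos hpos
    rw [← Real.exp_log hP, Real.rpow_def_of_pos hH0, ← Real.exp_add]
    apply Real.exp_le_exp.2
    linarith
  have hsplit : ∏ a ∈ D, Pi S hS y a ≤ (∏ a ∈ D', Pi S hS y a) * K ^ D.card := by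
    rw [← Finset.prod_sdiff hD', mul_comm]
    have h1 : ∏ a ∈ D \ D', Pi S hS y a ≤ K ^ D.card := by
      calc ∏ a ∈ D \ D', Pi S hS y a ≤ ∏ _a ∈ D \ D', K :=
            Finset.prod_le_prod (fun a ha => (hpos a (Finset.mem_sdiff.1 ha).1).le)
              fun a ha => hout a (Finset.mem_sdiff.1 ha).1 (Finset.mem_sdiff.1 ha).2
        _ = K ^ (D \ D').card := by rw [Finset.prod_const]
        _ ≤ K ^ D.card := pow_le_pow_right₀ hK1 (Finset.card_le_card Finset.sdiff_subset)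
    exact mul_le_mul_of_nonneg_left h1 (Finset.prod_nonneg fun a ha => (hpos a (hD' ha)).le)
  have hPm : (∏ a ∈ D', Pi S hS y a) * ∏ a ∈ D', (m a : ℝ) = H ^ D'.card := by
    rw [← Finset.prod_mul_distrib]
    rw [Finset.prod_congr rfl fun a ha => (hz3 a (hy a (hD' ha))).2.2.2]
    rw [Finset.prod_const]
  have hm0 : 0 < ∏ a ∈ D', (m a : ℝ) := Finset.prod_pos fun a ha => by
    have := (hz3 a (hy a (hD' ha))).2.1
    exact_mod_cast this
  have hfin : H ^ κ * Real.exp (-c) * ∏ a ∈ D', (m a : ℝ) ≤ H ^ D'.card * K ^ D.card := by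
    calc H ^ κ * Real.exp (-c) * ∏ a ∈ D', (m a : ℝ)
        ≤ ((∏ a ∈ D', Pi S hS y a) * K ^ D.card) * ∏ a ∈ D', (m a : ℝ) := by
          have := hprod.trans hsplit
          gcongr
      _ = ((∏ a ∈ D', Pi S hS y a) * ∏ a ∈ D', (m a : ℝ)) * K ^ D.card := by ring
      _ = _ := by rw [hPm]
  have hHκ : 0 < H ^ κ := Real.rpow_pos_of_pos hH0 _
  have e1 : H ^ ((D'.card : ℝ) - κ) = H ^ D'.card / H ^ κ := by
    rw [Real.rpow_sub hH0, Real.rpow_natCast]
  rw [e1]
  have e2 : Real.exp c = (Real.exp (-c))⁻¹ := by rw [Real.exp_neg, inv_inv]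
  rw [e2]
  have hec := Real.exp_pos (-c)
  have : ∏ a ∈ D', (m a : ℝ) ≤ (H ^ D'.card * K ^ D.card) / (H ^ κ * Real.exp (-c)) := by
    rw [le_div_iff₀ (by positivity)]
    linarith
  refine this.trans (le_of_eq ?_)
  field_simp

end H645.VB
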