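import Mathlib
import Pool.Agent.H645R3.VB4

set_option autoImplicit false

namespace H645.VB

open Finset NumberField IsDedekindDomain Height

/-- data with small product -/
def Good (S : Finset ℕ) (r : ℕ) (J1 J2 : Finset (ℤ × ℤ)) (X Z : ℝ) (x : ℂ) : Prop :=
  IsIntegral ℚ x ∧ (minpoly ℚ x).natDegree = r ∧
  ∃ (n : ℕ) (z : ℤ × ℤ → ℤ) (s m : ℤ × ℤ → ℕ), 1 ≤ n ∧
    (∀ a, (z a : ℚ) = n * hom (minpoly ℚ x) r a) ∧
    (∀ a ∈ J1, |(z a : ℝ)| ≤ X) ∧ (∀ a ∈ J2, |(z a : ℝ)| ≤ X) ∧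
    (∀ a ∈ J1, smooth S (s a) ∧ 1 ≤ m a ∧ (z a).natAbs = s a * m a) ∧
    ∏ a ∈ J1, (m a : ℝ) ≤ Z

theorem same_root (r : ℕ) (hr : 1 ≤ r) (J : Finset (ℤ × ℤ)) (hJc : J.card = r + 1)
    (hJ : ∀ a ∈ J, ∀ b ∈ J, a ≠ b → a.1 * b.2 ≠ a.2 * b.1) (x x' : ℂ)
    (hx : (minpoly ℚ x).natDegree = r) (hx' : (minpoly ℚ x').natDegree = r)
    (n n' : ℕ) (hn : 1 ≤ n)
    (h : ∀ a ∈ J, (n : ℚ) * hom (minpoly ℚ x) r a = n' * hom (minpoly ℚ x') r a) :
    Polynomial.aeval x' (minpoly ℚ x) = 0 := by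
  set g : Polynomial ℚ := Polynomial.C (n : ℚ) * minpoly ℚ x - Polynomial.C (n' : ℚ) * minpoly ℚ x'
    with hg
  have hdeg : g.natDegree ≤ r := by
    rw [hg]
    refine (Polynomial.natDegree_sub_le _ _).trans (max_le ?_ ?_)
    · exact (Polynomial.natDegree_C_mul_le _ _).trans hx.le
    · exact (Polynomial.natDegree_C_mul_le _ _).trans hx'.le
  have h0 : g = 0 := by
    refine hom_unique g r hr hdeg J hJc hJ fun a ha => ?_
    rw [hg, hom_sub, h a ha, sub_self]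
  have h1 : Polynomial.aeval x' g = 0 := by rw [h0, map_zero]
  rw [hg, map_sub, map_mul, map_mul, minpoly.aeval, mul_zero, sub_zero, Polynomial.aeval_C] at h1
  rcases mul_eq_zero.1 h1 with h2 | h2
  · exfalso
    have : (n : ℚ) = 0 := by
      have := (map_eq_zero (algebraMap ℚ ℂ)).1 h2
      exact this
    have : n = 0 := by exact_mod_cast this
    omega
  · exact h2

theorem good_count (S : Finset ℕ) (r : ℕ) (hr : 1 ≤ r) (J1 J2 : Finset (ℤ × ℤ))
    (hdisj : Disjoint J1 J2) (hJc : J1.card + J2.card = r + 1)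
    (hJ : ∀ a ∈ J1 ∪ J2, ∀ b ∈ J1 ∪ J2, a ≠ b → a.1 * b.2 ≠ a.2 * b.1) (X Z : ℝ) :
    {x : ℂ | Good S r J1 J2 X Z x}.Finite ∧
      ({x : ℂ | Good S r J1 J2 X Z x}.ncard : ℝ) ≤ r * (vecF S J1 J2 X Z).card := by
  classical
  -- the candidate roots over a vector
  have hR : ∀ v : (J1 → ℤ) × (J2 → ℤ), ∃ R : Finset ℂ, R.card ≤ r ∧ ∀ x : ℂ,
      (IsIntegral ℚ x ∧ (minpoly ℚ x).natDegree = r ∧ ∃ n : ℕ, 1 ≤ n ∧
        (∀ a : J1, (v.1 a : ℚ) = n * hom (minpoly ℚ x) r a) ∧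
        (∀ a : J2, (v.2 a : ℚ) = n * hom (minpoly ℚ x) r a)) → x ∈ R := by
    intro v
    by_cases hex : ∃ x : ℂ, (IsIntegral ℚ x ∧ (minpoly ℚ x).natDegree = r ∧ ∃ n : ℕ, 1 ≤ n ∧
        (∀ a : J1, (v.1 a : ℚ) = n * hom (minpoly ℚ x) r a) ∧
        (∀ a : J2, (v.2 a : ℚ) = n * hom (minpoly ℚ x) r a))
    · obtain ⟨x0, hx0, hd0, n0, hn0, h1, h2⟩ := hex
      refine ⟨((minpoly ℚ x0).aroots ℂ).toFinset, ?_, ?_⟩
      · refine (Multiset.toFinset_card_le _).trans ?_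
        rw [Polynomial.aroots]
        refine (Polynomial.card_roots' _).trans ?_
        rw [Polynomial.natDegree_map, hd0]
      · rintro x ⟨hx, hd, n, hn, h1', h2'⟩
        rw [Multiset.mem_toFinset, Polynomial.mem_aroots]
        refine ⟨minpoly.ne_zero hx0, ?_⟩
        refine same_root r hr (J1 ∪ J2) (by rw [Finset.card_union_of_disjoint hdisj, hJc]) hJ x0 x
          hd0 hd n0 n hn0 fun a ha => ?_
        rcases Finset.mem_union.1 ha with ha' | ha'
        · rw [← h1 ⟨a, ha'⟩, ← h1' ⟨a, ha'⟩]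
        · rw [← h2 ⟨a, ha'⟩, ← h2' ⟨a, ha'⟩]
    · exact ⟨∅, by simp, fun x hx => absurd ⟨x, hx⟩ hex⟩
  choose R hRc hRm using hR
  have hsub : {x : ℂ | Good S r J1 J2 X Z x} ⊆ ↑((vecF S J1 J2 X Z).biUnion R) := by
    rintro x ⟨hx, hd, n, z, s, m, hn, hz, hzX1, hzX2, hsm, hZ⟩
    rw [Finset.mem_coe, Finset.mem_biUnion]
    refine ⟨(fun a : J1 => z a, fun a : J2 => z a), ?_, hRm _ x ⟨hx, hd, n, hn, fun a => hz a,
      fun a => hz a⟩⟩
    refine mem_vecF S J1 J2 X Z _ _ (fun a => s a) (fun a => m a) (fun a => (hsm a a.2).1)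
      (fun a => ?_) (fun a => (hsm a a.2).2.1) (fun a => (hsm a a.2).2.2) ?_ fun a => hzX2 a a.2
    · have h1 := hzX1 a a.2
      have h2 := (hsm a a.2).2.2
      have h3 := (hsm a a.2).2.1
      have h4 : |(z a : ℝ)| = (s a : ℝ) * m a := by
        rw [← Int.cast_abs, ← Int.natCast_natAbs, h2]; push_cast; ring
      rw [h4] at h1
      have h5 : (1 : ℝ) ≤ m a := by exact_mod_cast h3
      have h6 : (0 : ℝ) ≤ s a := Nat.cast_nonneg _
      nlinarith
    · rw [Finset.prod_coe_sort J1 (fun a => (m a : ℝ))]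
      exact hZ
  refine ⟨(Finset.finite_toSet _).subset hsub, ?_⟩
  have h1 : {x : ℂ | Good S r J1 J2 X Z x}.ncard ≤ ((vecF S J1 J2 X Z).biUnion R).card := by
    rw [← Set.ncard_coe_finset]
    exact Set.ncard_le_ncard hsub (Finset.finite_toSet _)
  have h2 : ((vecF S J1 J2 X Z).biUnion R).card ≤ (vecF S J1 J2 X Z).card * r :=
    Finset.card_biUnion_le_card_mul _ _ _ fun v _ => hRc v
  calc ({x : ℂ | Good S r J1 J2 X Z x}.ncard : ℝ) ≤ (((vecF S J1 J2 X Z).card * r : ℕ) : ℝ) := by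
        exact_mod_cast h1.trans h2
    _ = r * (vecF S J1 J2 X Z).card := by push_cast; ring

/-- small subproducts -/
theorem small_sub {ι : Type} [DecidableEq ι] (l : ι → ℝ) (k : ℕ) :
    ∀ (q : ℕ) (D : Finset ι), D.card = q → k ≤ q → 
    ∃ J ⊆ D, J.card = k ∧ (q : ℝ) * ∑ a ∈ J, l a ≤ k * ∑ a ∈ D, l a := by
  intro q
  induction q with
  | zero =>
    intro D hD hk
    refine ⟨D, le_rfl, by omega, ?_⟩
    have : k = 0 := by omega
    rw [this]
  | succ q ih =>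
    intro D hD hk
    rcases Nat.lt_or_ge q k with h | h
    · refine ⟨D, le_rfl, by omega, ?_⟩
      have : k = q + 1 := by omega
      rw [this]
    · have hne : D.Nonempty := Finset.card_pos.1 (by omega)
      obtain ⟨b, hb, hmax⟩ := Finset.exists_max_image D l hne
      obtain ⟨J, hJ, hJc, hle⟩ := ih (D.erase b) (by rw [Finset.card_erase_of_mem hb]; omega) h
      refine ⟨J, hJ.trans (Finset.erase_subset _ _), hJc, ?_⟩
      have h1 : ∑ a ∈ D, l a = l b + ∑ a ∈ D.erase b, l a := (Finset.add_sum_erase _ _ hb).symm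
      have h2 : ∑ a ∈ D, l a ≤ (q + 1) * l b := by
        calc ∑ a ∈ D, l a ≤ ∑ _a ∈ D, l b := Finset.sum_le_sum fun a ha => hmax a ha
          _ = (q + 1) * l b := by rw [Finset.sum_const, hD, nsmul_eq_mul]; push_cast; ring
      set T0 := ∑ a ∈ D, l a
      set τ := ∑ a ∈ D.erase b, l a
      set σ := ∑ a ∈ J, l a
      rcases Nat.eq_zero_or_pos q with hq | hq
      · have hk0 : k = 0 := by omega
        have : J = ∅ := Finset.card_eq_zero.1 (by omega)
        have hσ : σ = 0 := by simp only [σ]; rw [this, Finset.sum_empty]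
        rw [hσ, hk0]; simp
      · have hq' : (0 : ℝ) < q := by exact_mod_cast hq
        have hk' : (0 : ℝ) ≤ k := Nat.cast_nonneg k
        push_cast
        -- (q+1) τ ≤ q Σ
        have h3 : ((q : ℝ) + 1) * τ ≤ q * T0 := by
          have : τ = T0 - l b := by linarith
          rw [this]; nlinarith
        have h4 : (q : ℝ) * (((q : ℝ) + 1) * σ) ≤ q * (k * T0) := by
          calc (q : ℝ) * (((q : ℝ) + 1) * σ) = ((q : ℝ) + 1) * (q * σ) := by ring
            _ ≤ ((q : ℝ) + 1) * (k * τ) := by gcongr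
            _ = k * (((q : ℝ) + 1) * τ) := by ring
            _ ≤ k * (q * T0) := by gcongr
            _ = q * (k * T0) := by ring
        exact le_of_mul_le_mul_left h4 hq'

end H645.VB
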