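import Mathlib
import Pool.Agent.H645R3.VB5
import Pool.Agent.H645R3.VB6

set_option autoImplicit false

namespace H645.VB

open Finset NumberField IsDedekindDomain Height

/-- auxiliary points -/
def auxE (A r : ℕ) : Finset (ℤ × ℤ) :=
  (Finset.range (r + 1)).image fun i : ℕ => ((1 : ℤ), (A : ℤ) + 1 + (i : ℤ))

theorem auxE_card (A r : ℕ) : (auxE A r).card = r + 1 := by
  unfold auxE
  rw [Finset.card_image_of_injective, Finset.card_range]
  intro i j h
  simp only [Prod.mk.injEq, true_and] at h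
  omega

theorem auxE_det (A r : ℕ) : ∀ a ∈ auxE A r, ∀ b ∈ auxE A r, a ≠ b → a.1 * b.2 ≠ a.2 * b.1 := by
  intro a ha b hb hab h
  unfold auxE at ha hb
  obtain ⟨i, -, rfl⟩ := Finset.mem_image.1 ha
  obtain ⟨j, -, rfl⟩ := Finset.mem_image.1 hb
  simp only [one_mul, mul_one] at h
  apply hab
  rw [h]

theorem auxE_det' (A r : ℕ) (a b : ℤ × ℤ) (ha1 : |a.1| ≤ A) (ha2 : |a.2| ≤ A) (ha0 : a ≠ (0, 0))
    (hb : b ∈ auxE A r) : a.1 * b.2 ≠ a.2 * b.1 := by
  unfold auxE at hb
  obtain ⟨j, -, rfl⟩ := Finset.mem_image.1 hb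
  simp only [mul_one]
  intro h
  have hj : (0 : ℤ) ≤ j := Int.natCast_nonneg j
  by_cases h1 : a.1 = 0
  · rw [h1, zero_mul] at h
    exact ha0 (Prod.ext h1 h.symm)
  · have h2 : 1 ≤ |a.1| := Int.one_le_abs h1
    have h3 : |a.2| = |a.1| * |(A : ℤ) + 1 + j| := by rw [← h, abs_mul]
    have h4 : (A : ℤ) + 1 ≤ |(A : ℤ) + 1 + j| := by
      rw [abs_of_nonneg (by positivity)]; omega
    have h5 : (A : ℤ) + 1 ≤ |a.2| := by
      rw [h3]
      nlinarith [abs_nonneg ((A : ℤ) + 1 + j)]
    omega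

theorem auxE_disj (A r : ℕ) (D : Finset (ℤ × ℤ)) (hDA : ∀ a ∈ D, |a.1| ≤ A ∧ |a.2| ≤ A) :
    Disjoint D (auxE A r) := by
  rw [Finset.disjoint_left]
  intro a ha hb
  unfold auxE at hb
  obtain ⟨j, -, rfl⟩ := Finset.mem_image.1 hb
  have := (hDA _ ha).2
  simp only at this
  rw [abs_of_nonneg (by positivity)] at this
  omega

/-- from the data of a point to `Good` -/
theorem classify (S : Finset ℕ) (D : Finset (ℤ × ℤ)) (A r : ℕ) (hr : 1 ≤ r)
    (κ : ℝ) (hκ : 0 ≤ κ) (hκ1 : κ ≤ r + 1) (K B e : ℝ) (hK : 1 ≤ K)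
    (hB : ∀ a ∈ D ∪ auxE A r, (|(a.1 : ℝ)| + |(a.2 : ℝ)|) ^ r ≤ B) (m0 : ℕ)
    (he : e = (r + 1 : ℝ) - κ * min 1 ((r + 1 : ℝ) / m0)) :
    ∃ H0 : ℝ, 1 ≤ H0 ∧ ∀ (H X : ℝ) (x : ℂ), 1 ≤ H → H ≤ X → IsIntegral ℚ x →
      (minpoly ℚ x).natDegree = r →
      (∃ (n : ℕ) (z : ℤ × ℤ → ℤ) (s m : ℤ × ℤ → ℕ), 1 ≤ n ∧
        (∀ a, (z a : ℚ) = n * hom (minpoly ℚ x) r a) ∧
        (∀ a, |(z a : ℝ)| ≤ (|(a.1 : ℝ)| + |(a.2 : ℝ)|) ^ r * H) ∧
        (∀ a ∈ D, smooth S (s a) ∧ 1 ≤ m a ∧ (z a).natAbs = s a * m a) ∧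
        ∃ D' ⊆ D, D'.card ≤ m0 ∧ ∏ a ∈ D', (m a : ℝ) ≤ K * H ^ ((D'.card : ℝ) - κ)) →
      Good S r ∅ (auxE A r) (B * H0) 1 x ∨
      ∃ J ∈ (D.powerset ×ˢ (auxE A r).powerset).filter (fun J => J.1.card + J.2.card = r + 1),
        Good S r J.1 J.2 (B * X) (K * X ^ (e - J.2.card)) x := by
  classical
  set H0 : ℝ := 1 + ∑ q ∈ Finset.range (D.card + 1),
    (if (q : ℝ) < κ then K ^ (1 / (κ - q)) else 0) with hH0
  have hterm : ∀ q : ℕ, 0 ≤ (if (q : ℝ) < κ then K ^ (1 / (κ - q)) else 0) := by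
    intro q
    split_ifs
    · positivity
    · exact le_rfl
  have hH01 : 1 ≤ H0 := by
    have := Finset.sum_nonneg (s := Finset.range (D.card + 1)) fun q _ => hterm q
    linarith
  refine ⟨H0, hH01, fun H X x hH hHX hx hdeg => ?_⟩
  rintro ⟨n, z, s, m, hn, hz, hzX, hsm, D', hD', hq0, hprod⟩
  have hX1 : 1 ≤ X := hH.trans hHX
  have hH0' : 0 < H := by linarith
  have hX0 : 0 < X := by linarith
  set q := D'.card with hq
  have hqD : q ≤ D.card := Finset.card_le_card hD'
  have hm1 : ∀ a ∈ D', (1 : ℝ) ≤ m a := fun a ha => by exact_mod_cast (hsm a (hD' ha)).2.1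
  have hP1 : 1 ≤ ∏ a ∈ D', (m a : ℝ) := by
    calc (1 : ℝ) = ∏ a ∈ D', (1 : ℝ) := by simp
      _ ≤ _ := Finset.prod_le_prod (fun _ _ => zero_le_one) hm1
  have hr1 : (0 : ℝ) ≤ (r : ℝ) + 1 := by positivity
  rcases lt_or_ge (q : ℝ) κ with hlt | hge
  · left
    have h1 : H ^ (κ - q) ≤ K := by
      have h2 : 1 ≤ K * H ^ ((q : ℝ) - κ) := hP1.trans hprod
      have h3 : H ^ (κ - q) * H ^ ((q : ℝ) - κ) = 1 := by
        rw [← Real.rpow_add hH0']
        simp
      have h4 : 0 < H ^ ((q : ℝ) - κ) := Real.rpow_pos_of_pos hH0' _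
      have h5 : H ^ (κ - q) * H ^ ((q : ℝ) - κ) ≤ K * H ^ ((q : ℝ) - κ) := by rw [h3]; exact h2
      exact le_of_mul_le_mul_right h5 h4
    have hκq : 0 < κ - q := by linarith
    have h2 : H ≤ K ^ (1 / (κ - q)) := by
      calc H = (H ^ (κ - q)) ^ (1 / (κ - q)) := by
            rw [← Real.rpow_mul hH0'.le, mul_one_div_cancel hκq.ne', Real.rpow_one]
        _ ≤ K ^ (1 / (κ - q)) := Real.rpow_le_rpow (by positivity) h1 (by positivity)
    have h3 : H ≤ H0 := by
      have h4 : (if (q : ℝ) < κ then K ^ (1 / (κ - q)) else 0) ≤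
          ∑ q ∈ Finset.range (D.card + 1), (if (q : ℝ) < κ then K ^ (1 / (κ - q)) else 0) :=
        Finset.single_le_sum (f := fun q : ℕ => (if (q : ℝ) < κ then K ^ (1 / (κ - q)) else 0))
          (fun q _ => hterm q) (Finset.mem_range.2 (by omega))
      rw [if_pos hlt] at h4
      rw [hH0]
      linarith
    refine ⟨hx, hdeg, n, z, s, m, hn, hz, by simp, fun a ha => ?_, by simp, by simp⟩
    refine (hzX a).trans ?_
    have hBa := hB a (Finset.mem_union_right _ ha)
    have : (0 : ℝ) ≤ (|(a.1 : ℝ)| + |(a.2 : ℝ)|) ^ r := by positivity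
    exact mul_le_mul hBa h3 hH0'.le (this.trans hBa)
  · right
    have hzB : ∀ a ∈ D ∪ auxE A r, |(z a : ℝ)| ≤ B * X := by
      intro a ha
      refine (hzX a).trans ?_
      have hBa := hB a ha
      have : (0 : ℝ) ≤ (|(a.1 : ℝ)| + |(a.2 : ℝ)|) ^ r := by positivity
      exact mul_le_mul hBa hHX hH0'.le (this.trans hBa)
    by_cases hqr : q ≤ r + 1
    · obtain ⟨J2, hJ2, hJ2c⟩ := Finset.exists_subset_card_eq
        (show r + 1 - q ≤ (auxE A r).card by rw [auxE_card]; omega)
      refine ⟨(D', J2), ?_, ?_⟩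
      · rw [Finset.mem_filter, Finset.mem_product, Finset.mem_powerset, Finset.mem_powerset]
        refine ⟨⟨hD', hJ2⟩, ?_⟩
        simp only
        omega
      · refine ⟨hx, hdeg, n, z, s, m, hn, hz, fun a ha => hzB a (Finset.mem_union_left _ (hD' ha)),
          fun a ha => hzB a (Finset.mem_union_right _ (hJ2 ha)), fun a ha => hsm a (hD' ha), ?_⟩
        refine hprod.trans ?_
        have h1 : H ^ ((q : ℝ) - κ) ≤ X ^ ((q : ℝ) - κ) :=
          Real.rpow_le_rpow hH0'.le hHX (by linarith)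
        have h2 : X ^ ((q : ℝ) - κ) ≤ X ^ (e - (J2.card : ℝ)) := by
          refine Real.rpow_le_rpow_of_exponent_le hX1 ?_
          have h3 : (J2.card : ℝ) = r + 1 - q := by
            rw [hJ2c, Nat.cast_sub hqr]; push_cast; ring
          rw [h3, he]
          have h4 : min 1 ((r + 1 : ℝ) / m0) ≤ 1 := min_le_left _ _
          nlinarith
        exact mul_le_mul_of_nonneg_left (h1.trans h2) (by linarith)
    · have hqr' : r + 1 ≤ q := by omega
      obtain ⟨J, hJ, hJc, hJle⟩ := small_sub (fun a => Real.log (m a : ℝ)) (r + 1) q D' rfl hqr'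
      refine ⟨(J, ∅), ?_, ?_⟩
      · rw [Finset.mem_filter, Finset.mem_product, Finset.mem_powerset, Finset.mem_powerset]
        refine ⟨⟨hJ.trans hD', by simp⟩, ?_⟩
        simp only [Finset.card_empty]
        omega
      · refine ⟨hx, hdeg, n, z, s, m, hn, hz,
          fun a ha => hzB a (Finset.mem_union_left _ (hD' (hJ ha))), by simp,
          fun a ha => hsm a (hD' (hJ ha)), ?_⟩
        have hq0' : (0 : ℝ) < q := by
          have : 0 < q := by omega
          exact_mod_cast this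
        have hm0q : (q : ℝ) ≤ m0 := by exact_mod_cast hq0
        have hJpos : 0 < ∏ a ∈ J, (m a : ℝ) := Finset.prod_pos fun a ha => by
          have := hm1 a (hJ ha); linarith
        rw [← Real.log_prod (fun a ha => by have := hm1 a (hJ ha); positivity),
          ← Real.log_prod (fun a ha => by have := hm1 a ha; positivity)] at hJle
        have hlogH : 0 ≤ Real.log H := Real.log_nonneg hH
        have hlogHX : Real.log H ≤ Real.log X := Real.log_le_log hH0' hHX
        have hlogK : 0 ≤ Real.log K := Real.log_nonneg hK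
        have h1 : Real.log (∏ a ∈ D', (m a : ℝ)) ≤ Real.log K + (q - κ) * Real.log H := by
          have h2 := Real.log_le_log (by linarith) hprod
          rw [Real.log_mul (by positivity) (Real.rpow_pos_of_pos hH0' _).ne',
            Real.log_rpow hH0'] at h2
          exact h2
        have h2 : Real.log (∏ a ∈ J, (m a : ℝ)) ≤ Real.log K + e * Real.log X := by
          have h3 : (q : ℝ) * Real.log (∏ a ∈ J, (m a : ℝ)) ≤
              q * (Real.log K + e * Real.log X) := by
            have e1 : (r + 1 : ℝ) * Real.log K ≤ q * Real.log K := by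
              have : ((r + 1 : ℕ) : ℝ) ≤ q := by exact_mod_cast hqr'
              push_cast at this
              gcongr
            have e2 : (r + 1 : ℝ) * ((q - κ) * Real.log H) ≤ q * (e * Real.log X) := by
              have h5 : (r + 1 : ℝ) * (q - κ) ≤ q * e := by
                have h6 : min 1 ((r + 1 : ℝ) / m0) ≤ (r + 1 : ℝ) / q := by
                  refine (min_le_right _ _).trans ?_
                  gcongr
                have h7 : (q : ℝ) * (κ * min 1 ((r + 1 : ℝ) / m0)) ≤ κ * (r + 1) := by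
                  calc (q : ℝ) * (κ * min 1 ((r + 1 : ℝ) / m0)) ≤
                      q * (κ * ((r + 1 : ℝ) / q)) := by gcongr
                    _ = κ * (r + 1) := by field_simp
                rw [he]
                nlinarith
              have h8 : 0 ≤ (q : ℝ) - κ := by linarith
              calc (r + 1 : ℝ) * ((q - κ) * Real.log H) = ((r + 1 : ℝ) * (q - κ)) * Real.log H := by
                    ring
                _ ≤ ((r + 1 : ℝ) * (q - κ)) * Real.log X := by gcongr
                _ ≤ (q * e) * Real.log X := by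
                    have : 0 ≤ Real.log X := hlogH.trans hlogHX
                    gcongr
                _ = q * (e * Real.log X) := by ring
            calc (q : ℝ) * Real.log (∏ a ∈ J, (m a : ℝ))
                ≤ ((r + 1 : ℕ) : ℝ) * Real.log (∏ a ∈ D', (m a : ℝ)) := hJle
              _ ≤ ((r + 1 : ℕ) : ℝ) * (Real.log K + (q - κ) * Real.log H) := by gcongr
              _ = (r + 1 : ℝ) * Real.log K + (r + 1 : ℝ) * ((q - κ) * Real.log H) := by
                  push_cast; ring
              _ ≤ q * Real.log K + q * (e * Real.log X) := add_le_add e1 e2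
              _ = q * (Real.log K + e * Real.log X) := by ring
          exact le_of_mul_le_mul_left h3 hq0'
        have h3 : Real.log (∏ a ∈ J, (m a : ℝ)) ≤
            Real.log (K * X ^ (e - (((∅ : Finset (ℤ × ℤ)).card : ℕ) : ℝ))) := by
          rw [Real.log_mul (by positivity) (Real.rpow_pos_of_pos hX0 _).ne', Real.log_rpow hX0]
          simpa using h2
        have hZ : 0 < K * X ^ (e - (((∅ : Finset (ℤ × ℤ)).card : ℕ) : ℝ)) := by positivity
        exact (Real.log_le_log_iff hJpos hZ).1 h3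

end H645.VB
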