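import Mathlib
import Pool.Agent.H645R3.VB7

set_option autoImplicit false

namespace H645.VB

open Finset NumberField IsDedekindDomain Height

open Classical IntermediateField in
/-- proximity function of an algebraic number -/
noncomputable def prox (S : Finset ℕ) (D : Finset (ℤ × ℤ)) (x : ℂ) : ℝ :=
  if hx : IsIntegral ℚ x then
    haveI : FiniteDimensional ℚ ℚ⟮x⟯ := adjoin.finiteDimensional hx
    haveI : NumberField ℚ⟮x⟯ := {}
    proxL S D (AdjoinSimple.gen ℚ x)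
  else 0

/-- points of degree `r` and height at most `T` that are close to `D` -/
def Bad (r : ℕ) (S : Finset ℕ) (D : Finset (ℤ × ℤ)) (κ c T : ℝ) : Set ℂ :=
  {x : ℂ | IsIntegral ℚ x ∧ (minpoly ℚ x).natDegree = r ∧ absLogHeight₁ x ≤ T ∧
    (∀ a ∈ D, (a.1 : ℂ) ≠ a.2 * x) ∧ κ * absLogHeight₁ x - c ≤ prox S D x}

theorem count_good (S : Finset ℕ) (r : ℕ) (hr : 1 ≤ r) (J1 J2 : Finset (ℤ × ℤ))
    (hdisj : Disjoint J1 J2) (hJc : J1.card + J2.card = r + 1)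
    (hJ : ∀ a ∈ J1 ∪ J2, ∀ b ∈ J1 ∪ J2, a ≠ b → a.1 * b.2 ≠ a.2 * b.1) (B K e δ : ℝ)
    (hB : 1 ≤ B) (hK : 1 ≤ K) (he : e ≤ r + 1) (hδ : 0 < δ) :
    ∃ C : ℝ, 0 < C ∧ ∀ X : ℝ, 1 ≤ X →
      ({x : ℂ | Good S r J1 J2 (B * X) (K * X ^ (e - J2.card)) x}.ncard : ℝ) ≤
        C * X ^ (e + δ) := by
  classical
  set δ' := δ / (r + 2) with hδ'
  have hδ'0 : 0 < δ' := by positivity
  obtain ⟨C, hC, h⟩ := vec_count S J1 J2 δ' hδ'0
  refine ⟨r * (C * B ^ ((J2.card : ℝ) + δ') * K ^ (1 + δ')), by positivity, fun X hX => ?_⟩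
  have hX0 : 0 < X := by linarith
  have hBX : 1 ≤ B * X := by nlinarith
  have hZ : 0 < K * X ^ (e - (J2.card : ℝ)) := by positivity
  have h1 := (good_count S r hr J1 J2 hdisj hJc hJ (B * X) (K * X ^ (e - J2.card))).2
  have h2 := h (B * X) (K * X ^ (e - (J2.card : ℝ))) hBX hZ
  rw [Fintype.card_coe] at h2
  calc ({x : ℂ | Good S r J1 J2 (B * X) (K * X ^ (e - J2.card)) x}.ncard : ℝ)
      ≤ r * (vecF S J1 J2 (B * X) (K * X ^ (e - J2.card))).card := h1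
    _ ≤ r * (C * (B * X) ^ ((J2.card : ℝ) + δ') * (K * X ^ (e - (J2.card : ℝ))) ^ (1 + δ')) := by
        gcongr
    _ = r * (C * B ^ ((J2.card : ℝ) + δ') * K ^ (1 + δ')) *
          X ^ (((J2.card : ℝ) + δ') + (e - (J2.card : ℝ)) * (1 + δ')) := by
        have e5 : X ^ ((J2.card : ℝ) + δ') * X ^ ((e - (J2.card : ℝ)) * (1 + δ')) =
          X ^ (((J2.card : ℝ) + δ') + (e - (J2.card : ℝ)) * (1 + δ')) :=
          (Real.rpow_add hX0 _ _).symm
        rw [Real.mul_rpow (by linarith) hX0.le, Real.mul_rpow (by linarith) (by positivity),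
          ← Real.rpow_mul hX0.le, ← e5]
        ring
    _ ≤ r * (C * B ^ ((J2.card : ℝ) + δ') * K ^ (1 + δ')) * X ^ (e + δ) := by
        refine mul_le_mul_of_nonneg_left (Real.rpow_le_rpow_of_exponent_le hX ?_) (by positivity)
        have h3 : (0 : ℝ) ≤ J2.card := Nat.cast_nonneg _
        have h4 : δ' * (r + 2) = δ := by rw [hδ']; field_simp
        nlinarith

open IntermediateField in
theorem main (r : ℕ) (hr : 1 ≤ r) (S : Finset ℕ) (hS : ∀ p ∈ S, p.Prime) (D : Finset (ℤ × ℤ))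
    (hD0 : ∀ a ∈ D, a ≠ (0, 0))
    (hD : ∀ a ∈ D, ∀ b ∈ D, a ≠ b → a.1 * b.2 ≠ a.2 * b.1) (κ : ℝ) (hκ : 0 ≤ κ)
    (hκ1 : κ ≤ r + 1) (c δ : ℝ) (hδ : 0 < δ) :
    ∃ C : ℝ, 0 < C ∧ ∀ T : ℝ, 0 ≤ T → (Bad r S D κ c T).Finite ∧
      ((Bad r S D κ c T).ncard : ℝ) ≤ C * Real.exp
        ((r * ((r + 1 : ℝ) - κ * min 1 ((r + 1 : ℝ) / ((min D.card (r * (S.card + 1)) : ℕ) : ℝ)))
          + δ) * T) := by
  classical
  -- constants
  set A : ℕ := 1 + ∑ a ∈ D, (a.1.natAbs + a.2.natAbs) with hAdef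
  have hA : 1 ≤ A := by omega
  have hDA : ∀ a ∈ D, |a.1| ≤ A ∧ |a.2| ≤ A := by
    intro a ha
    have h1 : a.1.natAbs + a.2.natAbs ≤ ∑ a ∈ D, (a.1.natAbs + a.2.natAbs) :=
      Finset.single_le_sum (f := fun a : ℤ × ℤ => a.1.natAbs + a.2.natAbs)
        (fun _ _ => Nat.zero_le _) ha
    constructor
    · rw [Int.abs_eq_natAbs]; omega
    · rw [Int.abs_eq_natAbs]; omega
  set m0 : ℕ := min D.card (r * (S.card + 1)) with hm0
  set e : ℝ := (r + 1 : ℝ) - κ * min 1 ((r + 1 : ℝ) / m0) with he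
  have he1 : e ≤ r + 1 := by
    have : 0 ≤ min 1 ((r + 1 : ℝ) / m0) := le_min zero_le_one (by positivity)
    nlinarith
  have he0 : 0 ≤ e := by
    have : min 1 ((r + 1 : ℝ) / m0) ≤ 1 := min_le_left _ _
    nlinarith
  set K0 : ℝ := ((((2 * A ^ 2) ^ r : ℕ) : ℝ) ^ (r * (S.card + 1))) ^ D.card * Real.exp (r * c)
    with hK0
  set K : ℝ := max K0 1 with hK
  have hK1 : 1 ≤ K := le_max_right _ _
  set B : ℝ := 1 + ∑ a ∈ D ∪ auxE A r, (|(a.1 : ℝ)| + |(a.2 : ℝ)|) ^ r with hB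
  have hB1 : 1 ≤ B := by
    have : 0 ≤ ∑ a ∈ D ∪ auxE A r, (|(a.1 : ℝ)| + |(a.2 : ℝ)|) ^ r :=
      Finset.sum_nonneg fun _ _ => by positivity
    linarith
  have hBle : ∀ a ∈ D ∪ auxE A r, (|(a.1 : ℝ)| + |(a.2 : ℝ)|) ^ r ≤ B := by
    intro a ha
    have h1 : (|(a.1 : ℝ)| + |(a.2 : ℝ)|) ^ r ≤
        ∑ a ∈ D ∪ auxE A r, (|(a.1 : ℝ)| + |(a.2 : ℝ)|) ^ r :=
      Finset.single_le_sum (f := fun a : ℤ × ℤ => (|(a.1 : ℝ)| + |(a.2 : ℝ)|) ^ r)
        (fun _ _ => by positivity) ha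
    linarith
  obtain ⟨H0, hH01, hcl⟩ := classify S D A r hr κ hκ hκ1 K B e hK1 hBle m0 he
  -- disjointness and determinants
  have hdE := auxE_disj A r D hDA
  have hdet : ∀ J1 ⊆ D, ∀ J2 ⊆ auxE A r, ∀ a ∈ J1 ∪ J2, ∀ b ∈ J1 ∪ J2, a ≠ b →
      a.1 * b.2 ≠ a.2 * b.1 := by
    intro J1 h1 J2 h2 a ha b hb hab
    rcases Finset.mem_union.1 ha with ha | ha
    · rcases Finset.mem_union.1 hb with hb | hb
      · exact hD a (h1 ha) b (h1 hb) hab
      · exact auxE_det' A r a b (hDA a (h1 ha)).1 (hDA a (h1 ha)).2 (hD0 a (h1 ha)) (h2 hb)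
    · rcases Finset.mem_union.1 hb with hb | hb
      · intro h
        refine auxE_det' A r b a (hDA b (h1 hb)).1 (hDA b (h1 hb)).2 (hD0 b (h1 hb)) (h2 ha) ?_
        rw [mul_comm b.1, mul_comm b.2]
        exact h.symm
      · exact auxE_det A r a (h2 ha) b (h2 hb) hab
  set I := (D.powerset ×ˢ (auxE A r).powerset).filter (fun J => J.1.card + J.2.card = r + 1) with hI
  have hImem : ∀ J ∈ I, J.1 ⊆ D ∧ J.2 ⊆ auxE A r ∧ J.1.card + J.2.card = r + 1 := by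
    intro J hJ
    rw [hI, Finset.mem_filter, Finset.mem_product, Finset.mem_powerset, Finset.mem_powerset] at hJ
    exact ⟨hJ.1.1, hJ.1.2, hJ.2⟩
  have hcount : ∀ J : Finset (ℤ × ℤ) × Finset (ℤ × ℤ), ∃ C : ℝ, 0 < C ∧ (J ∈ I → ∀ X : ℝ, 1 ≤ X →
      ({x : ℂ | Good S r J.1 J.2 (B * X) (K * X ^ (e - J.2.card)) x}.ncard : ℝ) ≤
        C * X ^ (e + δ / r)) := by
    intro J
    by_cases hJ : J ∈ I
    · obtain ⟨h1, h2, h3⟩ := hImem J hJ
      obtain ⟨C, hC, h⟩ := count_good S r hr J.1 J.2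
        (Finset.disjoint_of_subset_left h1 (Finset.disjoint_of_subset_right h2 hdE)) h3
        (hdet _ h1 _ h2) B K e (δ / r) hB1 hK1 he1 (by positivity)
      exact ⟨C, hC, fun _ => h⟩
    · exact ⟨1, one_pos, fun h => absurd h hJ⟩
  choose Cf hCf hCb using hcount
  have hfin0 := good_count S r hr ∅ (auxE A r) (Finset.disjoint_empty_left _)
    (by rw [Finset.card_empty, auxE_card, zero_add]) (hdet ∅ (by simp) _ le_rfl) (B * H0) 1
  set N0 : ℝ := ({x : ℂ | Good S r ∅ (auxE A r) (B * H0) 1 x}.ncard : ℝ) with hN0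
  refine ⟨N0 + ∑ J ∈ I, Cf J + 1, ?_, fun T hT => ?_⟩
  · have : 0 ≤ ∑ J ∈ I, Cf J := Finset.sum_nonneg fun J _ => (hCf J).le
    have : 0 ≤ N0 := Nat.cast_nonneg _
    linarith
  set X : ℝ := Real.exp (r * T) with hX
  have hX1 : 1 ≤ X := Real.one_le_exp (by positivity)
  -- inclusion
  have hsub : Bad r S D κ c T ⊆ {x : ℂ | Good S r ∅ (auxE A r) (B * H0) 1 x} ∪
      ⋃ J ∈ I, {x : ℂ | Good S r J.1 J.2 (B * X) (K * X ^ (e - J.2.card)) x} := by
    rintro x ⟨hx, hdeg, hht, hne, hpr⟩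
    haveI : FiniteDimensional ℚ ℚ⟮x⟯ := adjoin.finiteDimensional hx
    haveI : NumberField ℚ⟮x⟯ := {}
    set pb := adjoin.powerBasis hx with hpb
    have hgen : pb.gen = AdjoinSimple.gen ℚ x := adjoin.powerBasis_gen hx
    have hfr : Module.finrank ℚ ℚ⟮x⟯ = r := by rw [adjoin.finrank hx, hdeg]
    have hmin : minpoly ℚ pb.gen = minpoly ℚ x := by
      rw [hgen]; exact IntermediateField.minpoly_gen ℚ x
    have hr0 : (r : ℝ) ≠ 0 := by
      have : r ≠ 0 := by omega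
      exact_mod_cast this
    set H := mulHeight₁ pb.gen with hH
    have hH1 : 1 ≤ H := one_le_mulHeight₁ _
    have hH0 : 0 < H := by linarith
    have habs : r * absLogHeight₁ x = Real.log H := by
      unfold absLogHeight₁ absMulHeight₁
      rw [dif_pos hx, Real.log_rpow, hfr]
      · rw [← mul_assoc, mul_inv_cancel₀ hr0, one_mul, hH, hgen]
      · exact lt_of_lt_of_le one_pos (one_le_mulHeight₁ _)
    have hHX : H ≤ X := by
      rw [← Real.exp_log hH0, ← habs, hX]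
      apply Real.exp_le_exp.2
      gcongr
    have hprx : prox S D x = proxL S D pb.gen := by
      unfold prox
      rw [dif_pos hx, hgen]
    have hcfne : ∀ a ∈ D, cf a pb.gen ≠ 0 := by
      intro a ha h
      apply hne a ha
      have h1 : algebraMap ℚ⟮x⟯ ℂ (cf a pb.gen) = 0 := by rw [h, map_zero]
      unfold cf at h1
      rw [map_sub, map_mul, hgen, AdjoinSimple.algebraMap_gen, map_intCast, map_intCast] at h1
      exact sub_eq_zero.1 h1
    have hp : κ * Real.log (mulHeight₁ pb.gen) - r * c ≤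
        Module.finrank ℚ ℚ⟮x⟯ * proxL S D pb.gen := by
      rw [hfr, ← hprx, ← hH, ← habs]
      have h0 : (0 : ℝ) ≤ r := Nat.cast_nonneg _
      nlinarith
    obtain ⟨n, z, s, m, hn, hz, hzX, hsm, D', hD', hc', hprod⟩ :=
      pt S hS D A hA hDA hD κ (r * c) pb hcfne hp
    rw [hmin, hfr] at hz
    rw [hfr] at hzX hc' hprod
    have hcl' := hcl H X x hH1 hHX hx hdeg ⟨n, z, s, m, hn, hz, hzX, hsm, D', hD',
      le_min (Finset.card_le_card hD') hc', ?_⟩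
    · rcases hcl' with h | ⟨J, hJ, h⟩
      · exact Or.inl h
      · exact Or.inr (Set.mem_biUnion hJ h)
    · refine hprod.trans ?_
      rw [← hK0]
      have : 0 < H ^ ((D'.card : ℝ) - κ) := Real.rpow_pos_of_pos hH0 _
      exact mul_le_mul_of_nonneg_right (le_max_left _ _) this.le
  have hfinJ : ∀ J ∈ I,
      {x : ℂ | Good S r J.1 J.2 (B * X) (K * X ^ (e - J.2.card)) x}.Finite := by
    intro J hJ
    obtain ⟨h1, h2, h3⟩ := hImem J hJ
    exact (good_count S r hr J.1 J.2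
        (Finset.disjoint_of_subset_left h1 (Finset.disjoint_of_subset_right h2 hdE)) h3
        (hdet _ h1 _ h2) _ _).1
  have hfinU : (⋃ J ∈ I, {x : ℂ | Good S r J.1 J.2 (B * X) (K * X ^ (e - J.2.card)) x}).Finite :=
    Set.Finite.biUnion I.finite_toSet hfinJ
  refine ⟨(hfin0.1.union hfinU).subset hsub, ?_⟩
  have hunion : ((⋃ J ∈ I, {x : ℂ | Good S r J.1 J.2 (B * X) (K * X ^ (e - J.2.card)) x}).ncard : ℝ)
      ≤ ∑ J ∈ I, ({x : ℂ | Good S r J.1 J.2 (B * X) (K * X ^ (e - J.2.card)) x}.ncard : ℝ) := by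
    have : (⋃ J ∈ I, {x : ℂ | Good S r J.1 J.2 (B * X) (K * X ^ (e - J.2.card)) x}).ncard
        ≤ ∑ J ∈ I, {x : ℂ | Good S r J.1 J.2 (B * X) (K * X ^ (e - J.2.card)) x}.ncard := by
      clear_value I
      clear hsub hcl hfinU hI hImem hCb
      induction I using Finset.induction_on with
      | empty => simp
      | insert J I' hJ ih =>
        rw [Finset.sum_insert hJ, Finset.set_biUnion_insert]
        refine (Set.ncard_union_le _ _).trans ?_
        exact Nat.add_le_add_left (ih fun J hJ => hfinJ J (Finset.mem_insert_of_mem hJ)) _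
    exact_mod_cast this
  have hE1 : 1 ≤ X ^ (e + δ / r) := Real.one_le_rpow hX1 (by positivity)
  have hexp : X ^ (e + δ / r) = Real.exp ((r * e + δ) * T) := by
    rw [hX, ← Real.exp_mul]
    congr 1
    have hr0 : (r : ℝ) ≠ 0 := by
      have : r ≠ 0 := by omega
      exact_mod_cast this
    field_simp
  rw [← hexp]
  calc ((Bad r S D κ c T).ncard : ℝ)
      ≤ (({x : ℂ | Good S r ∅ (auxE A r) (B * H0) 1 x} ∪
      ⋃ J ∈ I, {x : ℂ | Good S r J.1 J.2 (B * X) (K * X ^ (e - J.2.card)) x}).ncard : ℝ) := by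
        exact_mod_cast Set.ncard_le_ncard hsub (hfin0.1.union hfinU)
    _ ≤ N0 + ((⋃ J ∈ I,
        {x : ℂ | Good S r J.1 J.2 (B * X) (K * X ^ (e - J.2.card)) x}).ncard : ℝ) := by
        rw [hN0]
        exact_mod_cast Set.ncard_union_le _ _
    _ ≤ N0 + ∑ J ∈ I, Cf J * X ^ (e + δ / r) := by
        refine add_le_add_right ?_ _ |>.trans (le_of_eq rfl)
        exact hunion.trans (Finset.sum_le_sum fun J hJ => hCb J hJ X hX1)
    _ = N0 + (∑ J ∈ I, Cf J) * X ^ (e + δ / r) := by rw [Finset.sum_mul]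
    _ ≤ N0 * X ^ (e + δ / r) + (∑ J ∈ I, Cf J) * X ^ (e + δ / r) + 1 * X ^ (e + δ / r) := by
        have h0 : 0 ≤ N0 := Nat.cast_nonneg _
        nlinarith
    _ = (N0 + ∑ J ∈ I, Cf J + 1) * X ^ (e + δ / r) := by ring

end H645.VB
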