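import Pool.Agent.H645R3.TSeq

set_option autoImplicit false
set_option linter.style.haveILetI false

open Filter Topology Pointwise

namespace H645

/-- the finite set of combinations with coefficients in `[0,m)` -/
noncomputable def Cset' {G : Type} [AddCommGroup G] (p : ℕ → G) (m : ℕ) : ℕ → Finset G
  | 0 => {0}
  | (k + 1) => by
    classical
    exact Cset' p m k + (Finset.Ico (0 : ℤ) m).image (fun j => j • p k)

theorem mem_Cset' {G : Type} [AddCommGroup G] (p : ℕ → G) (m : ℕ) (ε : ℕ → ℤ) (k : ℕ)
    (h : ∀ i, 0 ≤ ε i ∧ ε i < m) : ∑ i ∈ Finset.range k, ε i • p i ∈ Cset' p m k := by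
  classical
  induction k with
  | zero => simp [Cset']
  | succ k ih =>
    rw [Finset.sum_range_succ]
    refine Finset.add_mem_add ih ?_
    refine Finset.mem_image.2 ⟨ε k, ?_, rfl⟩
    rw [Finset.mem_Ico]
    exact h k

/-- `p^i G` is covered modulo `p^(i+1) G` by finitely many translates of `W` -/
def PP {G : Type} [AddCommGroup G] (p i : ℕ) (W : Set G) : Prop :=
  ∃ F : Finset G, ∀ x : G, ∃ f ∈ F, ∃ y : G, p ^ i • x - f - p ^ (i + 1) • y ∈ W

def Dsub {G : Type} [AddCommGroup G] (a : ℕ → G) (n : ℕ) : Set G :=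
  {x | ∃ (N : ℕ) (ε : ℕ → ℤ), (∀ k < n, ε k = 0) ∧ x = ∑ k ∈ Finset.range N, ε k • a k}

theorem reduce_mod {G : Type} [AddCommGroup G] (p : ℕ → G) (m k : ℕ) (hm : 0 < m) (ε : ℕ → ℤ) :
    ∃ c ∈ Cset' p m k, ∃ g : G, ∑ i ∈ Finset.range k, ε i • p i = c + m • g := by
  refine ⟨∑ i ∈ Finset.range k, (ε i % m) • p i, mem_Cset' p m _ k ?_,
    ∑ i ∈ Finset.range k, (ε i / m) • p i, ?_⟩
  · intro i
    have hm' : (0 : ℤ) < m := by exact_mod_cast hm
    exact ⟨Int.emod_nonneg _ hm'.ne', Int.emod_lt_of_pos _ hm'⟩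
  · rw [Finset.smul_sum, ← Finset.sum_add_distrib]
    refine Finset.sum_congr rfl fun i _ => ?_
    rw [← natCast_zsmul, smul_smul, ← add_smul]
    congr 1
    exact (Int.emod_add_mul_ediv (ε i) m).symm

theorem IsMin.pAdic {G : Type} [AddCommGroup G] [τ : TopologicalSpace G] [IsTopologicalAddGroup G]
    [T2Space G] (hG : IsMin G) (p : ℕ) (hp : p.Prime)
    (hlim : ∀ V ∈ 𝓝 (0 : G), ∃ n, ∀ x : G, p ^ n • x ∈ V) (hnt : ∃ x : G, x ≠ 0) :
    ∃ i, (∃ x : G, p ^ i • x ≠ 0) ∧ ∀ W ∈ 𝓝 (0 : G), PP p i W := by
  classical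
  by_contra hcon
  push Not at hcon
  have hU : ∀ i, ∃ U ∈ 𝓝 (0 : G), (∃ x : G, p ^ i • x ≠ 0) →
      ∃ W, ¬ PP p i W ∧ ∀ v ∈ U, ∀ w ∈ U, v - w ∈ W := by
    intro i
    by_cases h : ∃ x : G, p ^ i • x ≠ 0
    · obtain ⟨W, hW, hPP⟩ := hcon i h
      obtain ⟨U, hU, hs⟩ := exists_nhds_half_neg hW
      exact ⟨U, hU, fun _ => ⟨W, hPP, hs⟩⟩
    · exact ⟨Set.univ, univ_mem, fun h' => absurd h' h⟩
  choose U hU0 hU using hU
  have hppos : 0 < p := hp.pos
  obtain ⟨b, hb⟩ : ∃ b : ℕ → G, ∀ k, ∀ i ≤ k, (∃ y : G, p ^ i • y ≠ 0) → ∀ (ε : ℕ → ℤ) (y : G),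
      p ^ i • b k - ∑ l ∈ Finset.range k, ε l • b l - p ^ (i + 1) • y ∉ U i := by
    refine exists_seq (fun k q x => ∀ i ≤ k, (∃ y : G, p ^ i • y ≠ 0) → ∀ (ε : ℕ → ℤ) (y : G),
      p ^ i • x - ∑ l ∈ Finset.range k, ε l • q l - p ^ (i + 1) • y ∉ U i) ?_ ?_
    · intro k q q' x hqq h i hi hne ε y
      have : ∑ l ∈ Finset.range k, ε l • q' l = ∑ l ∈ Finset.range k, ε l • q l :=
        Finset.sum_congr rfl fun l hl => by rw [hqq l (Finset.mem_range.1 hl)]
      rw [this]
      exact h i hi hne ε y
    · intro k q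
      by_contra hno
      push Not at hno
      let C := Cset' q (p ^ (k + 1)) k
      let I : Finset (ℕ × G) :=
        ((Finset.range (k + 1)).filter (fun i => ∃ y : G, p ^ i • y ≠ 0)) ×ˢ C
      obtain ⟨⟨i, c⟩, hic, hbig⟩ := cover I
        (fun r => {x : G | ∃ y, p ^ r.1 • x - r.2 - p ^ (r.1 + 1) • y ∈ U r.1}) {0} (by
        intro x
        obtain ⟨i, hi, hne, ε, y, hx⟩ := hno x
        obtain ⟨c, hc, g, hg⟩ := reduce_mod q (p ^ (k + 1)) k (pow_pos hppos _) ε
        refine ⟨0, Finset.mem_singleton_self _, (i, c), ?_, ?_⟩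
        · rw [Finset.mem_product, Finset.mem_filter, Finset.mem_range]
          exact ⟨⟨by simpa using Nat.lt_succ_of_le hi, hne⟩, hc⟩
        · refine ⟨y + p ^ (k - i) • g, ?_⟩
          simp only [sub_zero]
          have e : p ^ (k + 1) • g = p ^ (i + 1) • (p ^ (k - i) • g) := by
            rw [smul_smul, ← pow_add]
            congr 2
            omega
          have e2 : p ^ i • x - c - p ^ (i + 1) • (y + p ^ (k - i) • g) =
              p ^ i • x - ∑ l ∈ Finset.range k, ε l • q l - p ^ (i + 1) • y := by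
            rw [hg, e, smul_add]
            abel
          rw [e2]
          exact hx)
      rw [Finset.mem_product, Finset.mem_filter] at hic
      obtain ⟨W, hPP, hs⟩ := hU i hic.1.2
      apply hPP
      obtain ⟨F, hF⟩ := hbig
      refine ⟨F.image (fun f => p ^ i • f), fun x => ?_⟩
      obtain ⟨f, hf, x1, ⟨y1, h1⟩, x2, ⟨y2, h2⟩, hx⟩ := hF x
      refine ⟨p ^ i • f, Finset.mem_image_of_mem _ hf, y1 - y2, ?_⟩
      have e3 : p ^ i • x - p ^ i • f - p ^ (i + 1) • (y1 - y2) =
          (p ^ i • x1 - c - p ^ (i + 1) • y1) - (p ^ i • x2 - c - p ^ (i + 1) • y2) := by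
        have e4 : p ^ i • x - p ^ i • f = p ^ i • x1 - p ^ i • x2 := by
          rw [← smul_sub, ← smul_sub]
          congr 1
          exact hx.symm
        rw [e4, smul_sub]
        abel
      rw [e3]
      exact hs _ h1 _ h2
  let B : Set (Set G) := Set.range (Dsub b)
  have hanti : ∀ n m, n ≤ m → Dsub b m ⊆ Dsub b n := by
    rintro n m hnm x ⟨N, ε, h1, rfl⟩
    exact ⟨N, ε, fun k hk => h1 k (by omega), rfl⟩
  obtain ⟨D, ⟨n, rfl⟩, hD⟩ := hG.subset B ⟨_, 0, rfl⟩
    (by rintro _ ⟨n, rfl⟩; exact ⟨0, fun _ => 0, fun _ _ => rfl, by simp⟩)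
    (by
      rintro _ ⟨n, rfl⟩ _ ⟨m, rfl⟩
      refine ⟨_, ⟨max n m, rfl⟩, Set.subset_inter (hanti _ _ (le_max_left _ _))
        (hanti _ _ (le_max_right _ _))⟩)
    (by
      rintro _ ⟨n, rfl⟩
      refine ⟨_, ⟨n, rfl⟩, ?_⟩
      rintro _ ⟨_, ⟨N, ε, h1, rfl⟩, _, ⟨M, δ, h3, rfl⟩, rfl⟩
      refine ⟨max N M, fun k => (if k < N then ε k else 0) + (if k < M then δ k else 0), ?_, ?_⟩
      · intro k hk
        beta_reduce
        rw [h1 k (by omega), h3 k (by omega)]
        simp
      · beta_reduce
        rw [sum_extend b N (max N M) (le_max_left _ _), sum_extend b M (max N M) (le_max_right _ _),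
          ← Finset.sum_add_distrib]
        refine Finset.sum_congr rfl fun k _ => ?_
        rw [add_smul])
    (by
      rintro _ ⟨n, rfl⟩
      refine ⟨_, ⟨n, rfl⟩, ?_⟩
      rintro x ⟨N, ε, h1, hx⟩
      refine ⟨N, fun k => -ε k, fun k hk => by beta_reduce; rw [h1 k hk, neg_zero], ?_⟩
      rw [← neg_neg x, hx, ← Finset.sum_neg_distrib]
      refine Finset.sum_congr rfl fun k _ => ?_
      rw [neg_smul])
    (by
      intro x hx
      by_contra hall
      push Not at hall
      have hall' : ∀ W ∈ 𝓝 (0 : G), ∀ n, x ∈ W + Dsub b n := fun W hW n => hall W hW _ ⟨n, rfl⟩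
      obtain ⟨V0, hV0, hxV0⟩ : ∃ W ∈ 𝓝 (0 : G), x ∉ W :=
        ⟨{x}ᶜ, isOpen_compl_singleton.mem_nhds (fun h => hx (by simpa using h.symm)), by simp⟩
      obtain ⟨V', hV', hVV⟩ := exists_nhds_zero_half hV0
      have hex : ∃ n, ∀ x : G, p ^ n • x ∈ V' := hlim V' hV'
      let m := Nat.find hex
      have hm : ∀ x : G, p ^ m • x ∈ V' := Nat.find_spec hex
      have hmi : ∀ i < m, ∃ y : G, p ^ i • y ≠ 0 := by
        intro i hi
        by_contra h0
        push Not at h0
        apply Nat.find_min hex hi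
        intro y
        rw [h0 y]
        exact mem_of_mem_nhds hV'
      have hO : (⋂ v ∈ Finset.range p, ⋂ i ∈ Finset.range m, {z : G | v • z ∈ U i}) ∈ 𝓝 (0 : G) := by
        rw [Filter.biInter_finset_mem]
        intro v _
        rw [Filter.biInter_finset_mem]
        intro i _
        have hc : ContinuousAt (fun z : G => v • z) 0 := by fun_prop
        apply hc
        simpa using hU0 i
      obtain ⟨W1, hW1, hW1s⟩ := exists_nhds_half_neg hO
      let W := W1 ∩ V'
      have hW : W ∈ 𝓝 (0 : G) := inter_mem hW1 hV'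
      have hWs : ∀ w ∈ W, ∀ w' ∈ W, ∀ v < p, ∀ i < m, v • (w - w') ∈ U i := by
        intro w hw w' hw' v hv i hi
        have := hW1s w hw.1 w' hw'.1
        rw [Set.mem_iInter₂] at this
        have := this v (Finset.mem_range.2 hv)
        rw [Set.mem_iInter₂] at this
        exact this i (Finset.mem_range.2 hi)
      -- key: independence modulo `p^m`
      have key : ∀ (N : ℕ) (δ : ℕ → ℤ), (∀ k < m, δ k = 0) →
          (∃ w ∈ W, ∃ w' ∈ W, ∃ y : G, ∑ k ∈ Finset.range N, δ k • b k = w - w' + p ^ m • y) →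
          ∀ k < N, ((p : ℤ) ^ m) ∣ δ k := by
        intro N
        induction N with
        | zero => intro δ _ _ k hk; omega
        | succ N ih =>
          rintro δ hδ ⟨w, hw, w', hw', y, hsum⟩
          rw [Finset.sum_range_succ] at hsum
          by_cases hdvd : ((p : ℤ) ^ m) ∣ δ N
          · obtain ⟨q, hq⟩ := hdvd
            have hrec := ih δ hδ ⟨w, hw, w', hw', y - q • b N, by
              rw [hq] at hsum
              have e5 : ((p : ℤ) ^ m * q) • b N = p ^ m • (q • b N) := by
                rw [mul_smul, ← Nat.cast_pow, natCast_zsmul]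
              rw [e5] at hsum
              rw [smul_sub]
              rw [← eq_sub_iff_add_eq] at hsum
              rw [hsum]
              abel⟩
            intro k hk
            rcases Nat.lt_succ_iff_lt_or_eq.1 hk with h | h
            · exact hrec k h
            · subst h; exact ⟨q, hq⟩
          · exfalso
            have hNm : m ≤ N := by
              by_contra hlt
              exact hdvd (by rw [hδ N (by omega)]; exact dvd_zero _)
            have hδ0 : δ N ≠ 0 := fun h => hdvd (by rw [h]; exact dvd_zero _)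
            -- write δ N = p^i u
            have hpi : Prime (p : ℤ) := Nat.prime_iff_prime_int.1 hp
            have hfin : FiniteMultiplicity (p : ℤ) (δ N) :=
              Int.finiteMultiplicity_iff.2 ⟨by simpa using hp.one_lt.ne', hδ0⟩
            obtain ⟨u, hu, hpu⟩ := hfin.exists_eq_pow_mul_and_not_dvd
            set i := multiplicity (p : ℤ) (δ N) with hi
            have him : i < m := by
              by_contra hge
              exact hdvd (by rw [hu]; exact (pow_dvd_pow _ (by omega)).mul_right _)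
            -- inverse of u mod p
            have hcop : IsCoprime u (p : ℤ) := by
              rw [isCoprime_comm]
              exact (Prime.coprime_iff_not_dvd hpi).2 hpu
            obtain ⟨v0, t0, hvt⟩ := hcop
            -- v = v0 mod p
            have hpz : (0 : ℤ) < p := by exact_mod_cast hppos
            obtain ⟨v, hv⟩ : ∃ v : ℕ, (v : ℤ) = v0 % p :=
              ⟨(v0 % p).toNat, Int.toNat_of_nonneg (Int.emod_nonneg _ hpz.ne')⟩
            have hvp : v < p := by
              have : (v : ℤ) < p := by rw [hv]; exact Int.emod_lt_of_pos _ hpz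
              exact_mod_cast this
            obtain ⟨t, ht⟩ : ∃ t : ℤ, (v : ℤ) * u = 1 + p * t := by
              refine ⟨-t0 - (v0 / p) * u, ?_⟩
              have e6 : v0 = v0 % p + p * (v0 / p) := (Int.emod_add_mul_ediv v0 p).symm
              have e7 : v0 * u + t0 * p = 1 := hvt
              rw [hv]
              have e8 : v0 % p = v0 - p * (v0 / p) := by linarith
              rw [e8]
              linear_combination e7
            have hnot := hb N i (by omega) (hmi i him) (fun l => -((v : ℤ) * δ l))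
              (p ^ (m - (i + 1)) • ((v : ℤ) • y) - t • b N)
            apply hnot
            have e9 : p ^ i • b N - ∑ l ∈ Finset.range N, (-((v : ℤ) * δ l)) • b l -
                p ^ (i + 1) • (p ^ (m - (i + 1)) • ((v : ℤ) • y) - t • b N) = v • (w - w') := by
              have h10 : ∑ l ∈ Finset.range N, (-((v : ℤ) * δ l)) • b l =
                  -((v : ℤ) • ∑ l ∈ Finset.range N, δ l • b l) := by
                rw [Finset.smul_sum, ← Finset.sum_neg_distrib]
                refine Finset.sum_congr rfl fun l _ => ?_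
                rw [neg_smul, mul_smul]
              have h11 : p ^ (i + 1) • (p ^ (m - (i + 1)) • ((v : ℤ) • y)) =
                  (v : ℤ) • (p ^ m • y) := by
                rw [smul_smul, ← pow_add, show i + 1 + (m - (i + 1)) = m by omega]
                rw [smul_comm]
              have h12 : p ^ i • b N + p ^ (i + 1) • (t • b N) = (v : ℤ) • (δ N • b N) := by
                rw [smul_smul, hu, ← natCast_zsmul, ← natCast_zsmul (t • b N), smul_smul, ← add_smul]
                congr 1
                push_cast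
                rw [pow_succ]
                linear_combination (-(p : ℤ) ^ i) * ht
              have h13 : (v : ℤ) • (∑ l ∈ Finset.range N, δ l • b l) + (v : ℤ) • (δ N • b N) =
                  (v : ℤ) • (w - w') + (v : ℤ) • (p ^ m • y) := by
                rw [← smul_add, hsum, smul_add]
              rw [h10, smul_sub, h11, ← natCast_zsmul (w - w') v]
              rw [← h12] at h13
              have h14 : (v : ℤ) • (w - w') = (v : ℤ) • (∑ l ∈ Finset.range N, δ l • b l) +
                (p ^ i • b N + p ^ (i + 1) • (t • b N)) - (v : ℤ) • (p ^ m • y) := by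
                rw [h13]; abel
              rw [h14]
              abel
            rw [e9]
            exact hWs w hw w' hw' v hvp i him
      obtain ⟨w1, hw1, _, ⟨N, ε, h1, rfl⟩, hx1⟩ := hall' W hW m
      obtain ⟨w2, hw2, _, ⟨M, δ, h2, rfl⟩, hx2⟩ := hall' W hW (max N m)
      simp only at hx1 hx2
      have hk := key (max N M) (fun k => (if k < N then ε k else 0) - (if k < M then δ k else 0))
        (by
          intro k hk
          beta_reduce
          rw [h1 k hk, h2 k (lt_of_lt_of_le hk (le_max_right _ _))]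
          simp)
        ⟨w2, hw2, w1, hw1, 0, by
          have e1 := sum_extend b N (max N M) (le_max_left _ _) ε
          have e2 := sum_extend b M (max N M) (le_max_right _ _) δ
          simp only [sub_smul, Finset.sum_sub_distrib, smul_zero, add_zero]
          rw [← e1, ← e2]
          rw [sub_eq_sub_iff_add_eq_add, add_comm _ w1, hx1, hx2]⟩
      have hk' : ∀ k < N, ((p : ℤ) ^ m) ∣ ε k := by
        intro k hkN
        have := hk k (lt_of_lt_of_le hkN (le_max_left _ _))
        beta_reduce at this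
        rw [if_pos hkN, h2 k (lt_of_lt_of_le hkN (le_max_left _ _))] at this
        simpa using this
      have hg : ∃ g : G, ∑ k ∈ Finset.range N, ε k • b k = p ^ m • g := by
        have : ∀ k, ∃ q : ℤ, k < N → ε k = (p : ℤ) ^ m * q := by
          intro k
          by_cases hkN : k < N
          · obtain ⟨q, hq⟩ := hk' k hkN
            exact ⟨q, fun _ => hq⟩
          · exact ⟨0, fun h => absurd h hkN⟩
        choose q hq using this
        refine ⟨∑ k ∈ Finset.range N, q k • b k, ?_⟩
        rw [Finset.smul_sum]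
        refine Finset.sum_congr rfl fun k hk => ?_
        rw [hq k (Finset.mem_range.1 hk), mul_smul, ← Nat.cast_pow, natCast_zsmul]
      obtain ⟨g, hg⟩ := hg
      apply hxV0
      rw [← hx1, hg]
      exact hVV w1 hw1.2 _ (hm g))
    (U 0) (hU0 0)
  obtain ⟨x, hx⟩ := hnt
  have h10 := hb n 0 (Nat.zero_le _) ⟨x, by simpa using hx⟩ (fun _ => 0) 0
  apply h10
  have h9 : b n ∈ Dsub b n := by
    refine ⟨n + 1, fun k => if k = n then 1 else 0, fun k hk => by
      beta_reduce; rw [if_neg (by omega)], ?_⟩
    simp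
  simpa using hD h9

end H645
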