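import Pool.Agent.H645R3.Char

set_option autoImplicit false
set_option linter.style.haveILetI false

open Filter Topology Pointwise MeasureTheory

namespace H645

/-- the group of continuous characters, as functions to the circle group -/
def XX (P : Type) [AddCommGroup P] [TopologicalSpace P] : AddSubgroup (P → UnitAddCircle) where
  carrier := {χ | Continuous χ ∧ ∀ x y, χ (x + y) = χ x + χ y}
  zero_mem' := ⟨continuous_const, fun _ _ => by simp⟩
  add_mem' := by
    rintro a b ⟨ha, ha'⟩ ⟨hb, hb'⟩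
    refine ⟨ha.add hb, fun x y => ?_⟩
    simp only [Pi.add_apply, ha', hb']
    abel
  neg_mem' := by
    rintro a ⟨ha, ha'⟩
    refine ⟨ha.neg, fun x y => ?_⟩
    simp only [Pi.neg_apply, ha']
    abel

theorem mem_XX {P : Type} [AddCommGroup P] [TopologicalSpace P] (χ : P → UnitAddCircle) :
    χ ∈ XX P ↔ Continuous χ ∧ ∀ x y, χ (x + y) = χ x + χ y := Iff.rfl

theorem integral_char {K : Type} [AddCommGroup K] [TopologicalSpace K] [IsTopologicalAddGroup K]
    [CompactSpace K] [T2Space K] [MeasurableSpace K] [BorelSpace K] (μ : Measure K)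
    [μ.IsAddLeftInvariant] (ψ : K → UnitAddCircle) (hψ : ψ ∈ XX K) (h0 : ψ ≠ 0) :
    ∫ x, ((AddCircle.toCircle (ψ x) : Circle) : ℂ) ∂μ = 0 := by
  obtain ⟨g, hg⟩ : ∃ g, ψ g ≠ 0 := by
    by_contra hcon
    push Not at hcon
    exact h0 (funext hcon)
  have h1 : ∫ x, ((AddCircle.toCircle (ψ (g + x)) : Circle) : ℂ) ∂μ =
      ∫ x, ((AddCircle.toCircle (ψ x) : Circle) : ℂ) ∂μ :=
    integral_add_left_eq_self (fun x => ((AddCircle.toCircle (ψ x) : Circle) : ℂ)) g
  have h2 : ∀ x, ((AddCircle.toCircle (ψ (g + x)) : Circle) : ℂ) =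
      ((AddCircle.toCircle (ψ g) : Circle) : ℂ) * ((AddCircle.toCircle (ψ x) : Circle) : ℂ) := by
    intro x
    rw [hψ.2, AddCircle.toCircle_add, Circle.coe_mul]
  simp only [h2] at h1
  rw [integral_const_mul] at h1
  have h3 : (((AddCircle.toCircle (ψ g) : Circle) : ℂ) - 1) *
      ∫ x, ((AddCircle.toCircle (ψ x) : Circle) : ℂ) ∂μ = 0 := by
    rw [sub_mul, one_mul, h1, sub_self]
  rcases mul_eq_zero.1 h3 with h | h
  · exfalso
    apply hg
    apply AddCircle.injective_toCircle (one_ne_zero (α := ℝ))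
    rw [AddCircle.toCircle_zero]
    apply Subtype.ext
    exact sub_eq_zero.1 h
  · exact h

theorem sw {K : Type} [AddCommGroup K] [TopologicalSpace K] [IsTopologicalAddGroup K]
    [CompactSpace K] [T2Space K] (Y : AddSubgroup (K → UnitAddCircle)) (hY : Y ≤ XX K)
    (hsep : ∀ k : K, k ≠ 0 → ∃ χ ∈ Y, χ k ≠ 0) : XX K ≤ Y := by
  intro χ0 hχ0
  by_contra hn
  let _ : MeasurableSpace K := borel K
  have _ : BorelSpace K := ⟨rfl⟩
  let μ : Measure K := Measure.addHaar
  let S : Set C(K, ℂ) := {f | ∃ χ ∈ Y, ∀ x, f x = ((AddCircle.toCircle (χ x) : Circle) : ℂ)}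
  have hmk : ∀ χ ∈ XX K, Continuous fun x => ((AddCircle.toCircle (χ x) : Circle) : ℂ) := by
    intro χ hχ
    exact continuous_subtype_val.comp (AddCircle.continuous_toCircle.comp hχ.1)
  let e : ∀ χ ∈ XX K, C(K, ℂ) := fun χ hχ => ⟨_, hmk χ hχ⟩
  let A : StarSubalgebra ℂ C(K, ℂ) :=
    { toSubalgebra := Algebra.adjoin ℂ S
      star_mem' := by
        change Algebra.adjoin ℂ S ≤ star (Algebra.adjoin ℂ S)
        refine Algebra.adjoin_le ?_
        rintro f ⟨χ, hχ, hf⟩
        refine Algebra.subset_adjoin ⟨-χ, Y.neg_mem hχ, fun x => ?_⟩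
        rw [ContinuousMap.star_apply, hf, Pi.neg_apply, AddCircle.toCircle_neg, Circle.coe_inv_eq_conj]
        rfl }
  have hspan : Subalgebra.toSubmodule (Algebra.adjoin ℂ S) = Submodule.span ℂ S := by
    apply Algebra.adjoin_eq_span_of_subset
    refine Set.Subset.trans ?_ Submodule.subset_span
    intro x hx
    refine Submonoid.closure_induction (fun _ => id) ⟨0, Y.zero_mem, ?_⟩ ?_ hx
    · intro z
      simp
    · rintro f g - - ⟨χ, hχ, hf⟩ ⟨ψ, hψ, hg⟩
      refine ⟨χ + ψ, Y.add_mem hχ hψ, fun z => ?_⟩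
      rw [ContinuousMap.mul_apply, hf, hg, Pi.add_apply, AddCircle.toCircle_add, Circle.coe_mul]
  have hA : A.SeparatesPoints := by
    intro x y hxy
    obtain ⟨χ, hχ, hne⟩ := hsep (x - y) (sub_ne_zero.2 hxy)
    refine ⟨_, ⟨e χ (hY hχ), Algebra.subset_adjoin ⟨χ, hχ, fun _ => rfl⟩, rfl⟩, ?_⟩
    intro h
    apply hne
    have h1 : AddCircle.toCircle (χ x) = AddCircle.toCircle (χ y) := Subtype.ext h
    have h2 := AddCircle.injective_toCircle (one_ne_zero (α := ℝ)) h1
    have h3 : χ (x - y) + χ y = χ x := by rw [← (hY hχ).2, sub_add_cancel]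
    rw [h2] at h3
    simpa using h3
  have htop := ContinuousMap.starSubalgebra_topologicalClosure_eq_top_of_separatesPoints A hA
  let e0 : C(K, ℂ) := e χ0 hχ0
  have he0 : ∀ x, e0 x = ((AddCircle.toCircle (χ0 x) : Circle) : ℂ) := fun _ => rfl
  have hint : ∀ f : C(K, ℂ), Integrable (fun x => f x * star (e0 x)) μ := by
    intro f
    exact (f.continuous.mul (continuous_star.comp e0.continuous)).integrable_of_hasCompactSupport
      (HasCompactSupport.of_compactSpace _)
  have hnorm : ∀ x, e0 x * star (e0 x) = 1 := by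
    intro x
    rw [he0]
    have := Circle.coe_inv_eq_conj (AddCircle.toCircle (χ0 x))
    have h2 : star ((AddCircle.toCircle (χ0 x) : Circle) : ℂ) =
        (((AddCircle.toCircle (χ0 x))⁻¹ : Circle) : ℂ) := this.symm
    rw [h2, ← Circle.coe_mul, mul_inv_cancel, Circle.coe_one]
  have hz : ∀ f ∈ Submodule.span ℂ S, ∫ x, f x * star (e0 x) ∂μ = 0 := by
    intro f hf
    induction hf using Submodule.span_induction with
    | mem f hf =>
      obtain ⟨χ, hχ, hf⟩ := hf
      have hne : χ - χ0 ≠ 0 := by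
        intro h
        rw [sub_eq_zero] at h
        exact hn (h ▸ hχ)
      rw [← integral_char μ (χ - χ0) ((XX K).sub_mem (hY hχ) hχ0) hne]
      congr 1
      funext x
      rw [hf, he0, Pi.sub_apply, sub_eq_add_neg, AddCircle.toCircle_add, AddCircle.toCircle_neg,
        Circle.coe_mul, Circle.coe_inv_eq_conj]
      rfl
    | zero => simp
    | add f g _ _ hf hg =>
      simp only [ContinuousMap.add_apply, add_mul]
      rw [integral_add (hint f) (hint g), hf, hg, add_zero]
    | smul a f _ hf =>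
      simp only [ContinuousMap.smul_apply, smul_eq_mul, mul_assoc]
      rw [integral_const_mul, hf, mul_zero]
  have hcl : e0 ∈ closure (A : Set C(K, ℂ)) := by
    have : e0 ∈ A.topologicalClosure := by rw [htop]; trivial
    rwa [← SetLike.mem_coe, StarSubalgebra.topologicalClosure_coe] at this
  obtain ⟨f, hfA, hfd⟩ := Metric.mem_closure_iff.1 hcl (1 / 2) (by norm_num)
  have hfS : f ∈ Submodule.span ℂ S := by
    rw [← hspan]
    exact hfA
  have h5 : ∫ x, (e0 - f) x * star (e0 x) ∂μ = (μ.real Set.univ : ℂ) := by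
    have : ∀ x, (e0 - f) x * star (e0 x) = 1 - f x * star (e0 x) := by
      intro x
      rw [ContinuousMap.sub_apply, sub_mul, hnorm]
    simp only [this]
    rw [integral_sub (integrable_const _) (hint f), hz f hfS, sub_zero, integral_const]
    simp
  have h6 : ‖∫ x, (e0 - f) x * star (e0 x) ∂μ‖ ≤ 1 / 2 * μ.real Set.univ := by
    apply norm_integral_le_of_norm_le_const
    refine Filter.Eventually.of_forall fun x => ?_
    rw [norm_mul, norm_star]
    have h7 : ‖e0 x‖ = 1 := by rw [he0]; exact Circle.norm_coe _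
    rw [h7, mul_one]
    refine (ContinuousMap.norm_coe_le_norm _ _).trans ?_
    rw [← dist_eq_norm]
    exact hfd.le
  rw [h5] at h6
  have hpos : 0 < μ.real Set.univ := by
    rw [Measure.real, ENNReal.toReal_pos_iff]
    exact ⟨IsOpen.measure_pos μ isOpen_univ Set.univ_nonempty, measure_lt_top _ _⟩
  rw [Complex.norm_real, Real.norm_eq_abs, abs_of_pos hpos] at h6
  linarith

end H645
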