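import Pool.Agent.H645R3.Alg

set_option autoImplicit false
set_option linter.style.haveILetI false

open Cardinal

namespace H645.TM

theorem free_subset {I : Type} (n : ℕ) : ∀ (S : Set I), ¬ S.Countable → ∀ (F : I → Set I),
    (∀ i, (F i).Finite) → (∀ i ∈ S, (F i \ {i}).ncard ≤ n) →
    ∃ J ⊆ S, ¬ J.Countable ∧ ∀ i ∈ J, ∀ j ∈ J, i ≠ j → j ∉ F i := by
  classical
  induction n with
  | zero =>
    intro S hS F hF hn
    refine ⟨S, subset_rfl, hS, fun i hi j _ hij hj => ?_⟩
    have h1 := Nat.le_zero.1 (hn i hi)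
    rw [Set.ncard_eq_zero ((hF i).subset Set.sdiff_subset)] at h1
    have h2 : j ∈ F i \ {i} := ⟨hj, fun h => hij (Set.mem_singleton_iff.1 h).symm⟩
    rw [h1] at h2
    exact h2
  | succ n ih =>
    intro S hS F hF hn
    obtain ⟨A, hA⟩ := zorn_subset {A : Set I | A ⊆ S ∧ ∀ i ∈ A, ∀ j ∈ A, i ≠ j → j ∉ F i} (by
      intro c hc hch
      refine ⟨⋃₀ c, ⟨Set.sUnion_subset fun a ha => (hc ha).1, ?_⟩, fun a ha => Set.subset_sUnion_of_mem ha⟩
      rintro i ⟨a, ha, hia⟩ j ⟨b, hb, hjb⟩ hij
      rcases hch.total ha hb with hab | hab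
      · exact (hc hb).2 i (hab hia) j hjb hij
      · exact (hc ha).2 i hia j (hab hjb) hij)
    by_cases hAc : A.Countable
    · let R : Set I := S \ (A ∪ ⋃ a ∈ A, F a)
      have hU : (A ∪ ⋃ a ∈ A, F a).Countable :=
        hAc.union (hAc.biUnion fun a _ => (hF a).countable)
      have hR : ¬ R.Countable := by
        intro h
        apply hS
        exact (h.union hU).mono (by
          intro i hi
          by_cases h' : i ∈ A ∪ ⋃ a ∈ A, F a
          · exact Or.inr h'
          · exact Or.inl ⟨hi, h'⟩)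
      have hex : ∀ i ∈ R, ∃ a ∈ A, a ∈ F i := by
        intro i hi
        by_contra hcon
        push Not at hcon
        have hiA : i ∉ A := fun h => hi.2 (Or.inl h)
        have hmem : insert i A ∈ {A : Set I | A ⊆ S ∧ ∀ i ∈ A, ∀ j ∈ A, i ≠ j → j ∉ F i} := by
          refine ⟨Set.insert_subset hi.1 hA.prop.1, ?_⟩
          rintro j (rfl | hj) k (rfl | hk) hjk
          · exact absurd rfl hjk
          · exact hcon k hk
          · intro h
            exact hi.2 (Or.inr (Set.mem_biUnion hj h))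
          · exact hA.prop.2 j hj k hk hjk
        have h3 := hA.eq_of_subset hmem (Set.subset_insert i A)
        apply hiA
        rw [h3]
        exact Set.mem_insert i A
      obtain ⟨a0, ha0, hR1⟩ : ∃ a0 ∈ A, ¬ {i ∈ R | a0 ∈ F i}.Countable := by
        by_contra hcon
        push Not at hcon
        apply hR
        refine (hAc.biUnion hcon).mono ?_
        intro i hi
        obtain ⟨a, ha, hai⟩ := hex i hi
        exact Set.mem_biUnion ha ⟨hi, hai⟩
      obtain ⟨J, hJR, hJ, hfree⟩ := ih {i ∈ R | a0 ∈ F i} hR1 (fun i => F i \ {a0})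
        (fun i => (hF i).subset Set.sdiff_subset) (by
          intro i hi
          have hia : a0 ≠ i := by
            rintro rfl
            exact hi.1.2 (Or.inl ha0)
          have h1 := hn i hi.1.1
          have h2 : a0 ∈ F i \ {i} := ⟨hi.2, hia⟩
          have h3 : (F i \ {a0}) \ {i} = (F i \ {i}) \ {a0} := by
            ext x
            simp only [Set.mem_sdiff, Set.mem_singleton_iff]
            tauto
          rw [h3]
          have h4 := Set.ncard_sdiff_singleton_add_one h2 ((hF i).subset Set.sdiff_subset)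
          omega)
      refine ⟨J, fun i hi => (hJR hi).1.1, hJ, fun i hi j hj hij hjF => ?_⟩
      apply hfree i hi j hj hij
      refine ⟨hjF, ?_⟩
      rintro rfl
      exact (hJR hj).1.2 (Or.inl ha0)
    · exact ⟨A, hA.prop.1, hAc, hA.prop.2⟩

theorem fam {X : Type} [AddCommGroup X] (hX : ℵ₀ < #X) {τ : Type} [Finite τ] (act : τ → X →+ X)
    (t0 : τ) (h0 : ∀ χ, act t0 χ = χ) :
    ∃ (J : Type) (_ : LinearOrder J), (∀ β : J, (Set.Iic β).Countable) ∧ ¬ Countable J ∧
      ∃ (Z : J → AddSubgroup X) (x : J → X), (∀ χ, {α | χ ∉ Z α}.Countable) ∧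
        (∀ α, x α ∉ Z α) ∧ ∀ α β, α ≤ β → ∀ t, act t (x β - x α) ∈ Z α := by
  classical
  let _ : Fintype τ := Fintype.ofFinite τ
  let I : Type := (Order.succ ℵ₀).ord.ToType
  have hI : #I = Order.succ ℵ₀ := Cardinal.mk_ord_toType _
  have hIio : ∀ i : I, (Set.Iio i).Countable := fun i => by
    rw [← Cardinal.le_aleph0_iff_set_countable]
    exact Order.le_of_lt_succ (Cardinal.mk_Iio_toType_ord_lt i)
  have hIic : ∀ i : I, (Set.Iic i).Countable := fun i => by
    rw [← Set.Iio_union_right]
    exact (hIio i).union (Set.countable_singleton i)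
  have hIunc : ¬ (Set.univ : Set I).Countable := by
    rw [← Cardinal.le_aleph0_iff_set_countable, Cardinal.mk_univ, hI, not_le]
    exact Order.lt_succ _
  obtain ⟨E, _, hE1, hE2, Φ, hΦ⟩ := exists_surj (X := X) (I := I) (le_refl ℵ₀) hX hI.le
  obtain ⟨e0, he0⟩ := exists_ne (0 : E)
  have hx : ∀ i : I, ∃ x : X, Φ x = Finsupp.single i e0 := fun i => hΦ _
  choose x hx using hx
  let F : I → Set I := fun i => ⋃ t : τ, ((Φ (act t (x i))).support : Set I)
  have hF : ∀ i, (F i).Finite := fun i => Set.finite_iUnion fun t => Finset.finite_toSet _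
  obtain ⟨n, hn⟩ : ∃ n : ℕ, ¬ {i : I | (F i \ {i}).ncard ≤ n}.Countable := by
    by_contra hcon
    push Not at hcon
    apply hIunc
    refine (Set.countable_iUnion hcon).mono ?_
    intro i _
    refine Set.mem_iUnion.2 ⟨(F i \ {i}).ncard, ?_⟩
    change (F i \ {i}).ncard ≤ (F i \ {i}).ncard
    exact le_rfl
  obtain ⟨J0, -, hJ0, hfree⟩ := free_subset n _ hn F hF (fun i hi => hi)
  obtain ⟨e, he⟩ : ∃ e : τ → E, ¬ {i ∈ J0 | (fun t => Φ (act t (x i)) i) = e}.Countable := by
    by_contra hcon
    push Not at hcon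
    apply hJ0
    refine (Set.countable_iUnion hcon).mono ?_
    intro i hi
    exact Set.mem_iUnion.2 ⟨fun t => Φ (act t (x i)) i, hi, rfl⟩
  let J1 : Set I := {i ∈ J0 | (fun t => Φ (act t (x i)) i) = e}
  let tail : I → (I →₀ E) →+ E := fun α =>
    Finsupp.liftAddHom (fun β => if β ∈ J1 ∧ α ≤ β then AddMonoidHom.id E else 0)
  have htail : ∀ α (v : I →₀ E), tail α v = ∑ β ∈ v.support, if β ∈ J1 ∧ α ≤ β then v β else 0 := by
    intro α v
    simp only [tail, Finsupp.liftAddHom_apply, Finsupp.sum]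
    refine Finset.sum_congr rfl fun β _ => ?_
    split_ifs <;> rfl
  refine ⟨J1, inferInstance, ?_, ?_, fun α => ((tail α.1).comp Φ).ker, fun α => x α.1, ?_, ?_, ?_⟩
  · intro β
    have h1 : (Subtype.val '' (Set.Iic β) : Set I).Countable := by
      refine (hIic β.1).mono ?_
      rintro _ ⟨γ, hγ, rfl⟩
      exact hγ
    exact Set.countable_of_injective_of_countable_image Subtype.val_injective.injOn h1
  · intro h
    exact he (Set.countable_coe_iff.1 h)
  · intro χ
    have h1 : (⋃ γ ∈ (Φ χ).support, {α : J1 | α.1 ≤ γ}).Countable := by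
      refine (Finset.countable_toSet _).biUnion fun γ _ => ?_
      have h2 : (Subtype.val '' {α : J1 | α.1 ≤ γ} : Set I).Countable := by
        refine (hIic γ).mono ?_
        rintro _ ⟨δ, hδ, rfl⟩
        exact hδ
      exact Set.countable_of_injective_of_countable_image Subtype.val_injective.injOn h2
    refine h1.mono ?_
    intro α hα
    by_contra hcon
    apply hα
    change tail α.1 (Φ χ) = 0
    rw [htail]
    refine Finset.sum_eq_zero fun β hβ => ?_
    rw [if_neg]
    rintro ⟨-, h3⟩
    exact hcon (Set.mem_biUnion hβ h3)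
  · intro α h
    have h1 : tail α.1 (Φ (x α.1)) = 0 := h
    rw [hx, htail, Finsupp.support_single _ he0, Finset.sum_singleton, if_pos ⟨α.2, le_rfl⟩,
      Finsupp.single_eq_same] at h1
    exact he0 h1
  · have key : ∀ α β : J1, α ≤ β → ∀ t, tail α.1 (Φ (act t (x β.1))) = e t := by
      intro α β hαβ t
      have hval : Φ (act t (x β.1)) β.1 = e t := congrFun β.2.2 t
      have hoff : ∀ γ ∈ (Φ (act t (x β.1))).support, γ ≠ β.1 → γ ∉ J1 := by
        intro γ hγ hne hγJ
        exact hfree β.1 β.2.1 γ hγJ.1 (Ne.symm hne) (Set.mem_iUnion.2 ⟨t, hγ⟩)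
      rw [htail]
      by_cases hmem : β.1 ∈ (Φ (act t (x β.1))).support
      · rw [Finset.sum_eq_single_of_mem β.1 hmem]
        · rw [if_pos ⟨β.2, hαβ⟩, hval]
        · intro γ hγ hne
          rw [if_neg]
          rintro ⟨h1, -⟩
          exact hoff γ hγ hne h1
      · rw [Finsupp.notMem_support_iff] at hmem
        rw [← hval, hmem]
        refine Finset.sum_eq_zero fun γ hγ => ?_
        rw [if_neg]
        rintro ⟨h1, -⟩
        by_cases hne : γ = β.1
        · rw [hne, Finsupp.mem_support_iff] at hγ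
          exact hγ hmem
        · exact hoff γ hγ hne h1
    intro α β hαβ t
    change tail α.1 (Φ (act t (x β.1 - x α.1))) = 0
    rw [map_sub, map_sub, map_sub, key α β hαβ t, key α α le_rfl t, sub_self]

end H645.TM
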