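import Pool.Agent.H645R3.TM1
import Pool.Agent.H645R3.Cpl

set_option autoImplicit false
set_option linter.style.haveILetI false

open Filter Topology Pointwise Cardinal

namespace H645.TM

/-- duality: a character outside a subgroup `Y` is nonzero somewhere on the annihilator of `Y` -/
theorem dual_sep {A : Type} [AddCommGroup A] [TopologicalSpace A] [IsTopologicalAddGroup A]
    [CompactSpace A] [T2Space A] (Y : AddSubgroup (A → UnitAddCircle)) (hY : Y ≤ XX A)
    (x : A → UnitAddCircle) (hx : x ∈ XX A) (hxY : x ∉ Y) :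
    ∃ a : A, (∀ χ ∈ Y, χ a = 0) ∧ x a ≠ 0 := by
  by_contra hcon
  push Not at hcon
  apply hxY
  let B : AddSubgroup A :=
    { carrier := {a | ∀ χ ∈ Y, χ a = 0}
      zero_mem' := fun χ hχ => XX_zero (hY hχ)
      add_mem' := by
        intro a b ha hb χ hχ
        rw [(hY hχ).2, ha χ hχ, hb χ hχ, add_zero]
      neg_mem' := by
        intro a ha χ hχ
        have h1 := XX_sub (hY hχ) 0 a
        rw [zero_sub, XX_zero (hY hχ), ha χ hχ, sub_zero] at h1
        exact h1 }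
  have hBc : IsClosed (B : Set A) := by
    have : (B : Set A) = ⋂ χ ∈ Y, χ ⁻¹' {0} := by
      ext a
      simp only [Set.mem_iInter, Set.mem_preimage, Set.mem_singleton_iff]
      exact Iff.rfl
    rw [this]
    exact isClosed_biInter fun χ hχ => isClosed_singleton.preimage (hY hχ).1
  have hT3 : T3Space (A ⧸ B) := inferInstance
  have hdesc : ∀ χ ∈ XX A, (∀ b ∈ B, χ b = 0) → ∃ ψ ∈ XX (A ⧸ B), ∀ a : A, ψ (a : A ⧸ B) = χ a := by
    intro χ hχ hB
    let f : A →+ UnitAddCircle := AddMonoidHom.mk' χ hχ.2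
    have hf : B ≤ f.ker := fun b hb => hB b hb
    refine ⟨QuotientAddGroup.lift B f hf, ⟨?_, fun p q => map_add _ p q⟩, fun a => rfl⟩
    exact continuous_quot_lift _ hχ.1
  let Y' : AddSubgroup ((A ⧸ B) → UnitAddCircle) :=
    { carrier := {ψ | ψ ∈ XX (A ⧸ B) ∧ (fun a : A => ψ (a : A ⧸ B)) ∈ Y}
      zero_mem' := ⟨(XX (A ⧸ B)).zero_mem, Y.zero_mem⟩
      add_mem' := fun ha hb => ⟨(XX (A ⧸ B)).add_mem ha.1 hb.1, Y.add_mem ha.2 hb.2⟩
      neg_mem' := fun ha => ⟨(XX (A ⧸ B)).neg_mem ha.1, Y.neg_mem ha.2⟩ }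
  have hsw := sw Y' (fun ψ hψ => hψ.1) (by
    intro k hk
    obtain ⟨a, rfl⟩ := QuotientAddGroup.mk_surjective k
    have ha : a ∉ B := fun h => hk ((QuotientAddGroup.eq_zero_iff a).2 h)
    have : ∃ χ ∈ Y, χ a ≠ 0 := by
      by_contra h
      push Not at h
      exact ha h
    obtain ⟨χ, hχ, hχa⟩ := this
    obtain ⟨ψ, hψ, hψχ⟩ := hdesc χ (hY hχ) (fun b hb => hb χ hχ)
    refine ⟨ψ, ⟨hψ, ?_⟩, ?_⟩
    · have : (fun a : A => ψ (a : A ⧸ B)) = χ := funext hψχ
      rw [this]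
      exact hχ
    · rw [hψχ]
      exact hχa)
  obtain ⟨ψ, hψ, hψx⟩ := hdesc x hx (fun b hb => hcon b hb)
  have h1 := (hsw hψ).2
  have : (fun a : A => ψ (a : A ⧸ B)) = x := funext hψx
  rwa [this] at h1

variable {K : Type} [Group K] [TopologicalSpace K]

/-- total density -/
def TD (Γ : Subgroup K) : Prop :=
  ∀ M : Subgroup K, M.Normal → IsClosed (M : Set K) → (M : Set K) ⊆ closure ((Γ : Set K) ∩ M)

/-- countable tightness of all images -/
def TT (Γ : Subgroup K) : Prop :=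
  ∀ M : Subgroup K, M.Normal → IsClosed (M : Set K) → ∀ A ⊆ (Γ : Set K),
    (closure A ∩ (M : Set K)).Nonempty → ∃ B ⊆ A, B.Countable ∧ (closure B ∩ (M : Set K)).Nonempty

variable [IsTopologicalGroup K] [CompactSpace K] [T2Space K]

theorem core (Γ : Subgroup K) (hTD : TD Γ) (hTT : TT Γ) (N : Subgroup K) [hNn : N.Normal]
    (hN : IsClosed (N : Set K)) (hcomm : ∀ a ∈ N, ∀ b ∈ N, a * b = b * a) (P : Subgroup K)
    [P.FiniteIndex] (hP : ∀ p ∈ P, ∀ a ∈ N, p * a = a * p) :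
    ∃ W : ℕ → Set K, (∀ n, W n ∈ 𝓝 (1 : K)) ∧ ∀ z ∈ N, (∀ n, z ∈ W n) → z = 1 := by
  classical
  let _ : CommGroup N :=
    { (inferInstance : Group N) with
      mul_comm := fun a b => Subtype.ext (hcomm a a.2 b b.2) }
  have hNc : CompactSpace N := isCompact_iff_compactSpace.1 hN.isCompact
  let A : Type := Additive N
  let _ : TopologicalSpace A := (inferInstance : TopologicalSpace N)
  have _ : CompactSpace A := hNc
  have _ : T2Space A := (inferInstance : T2Space N)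
  have hA : IsTopologicalAddGroup (Additive N) := inferInstance
  have _ : IsTopologicalAddGroup A := hA
  have hnhds0 : ∀ S : Set N, S ∈ 𝓝 (1 : N) ↔ ∃ V ∈ 𝓝 (1 : K), ∀ n : N, n.1 ∈ V → n ∈ S := by
    intro S
    have e : 𝓝 (1 : N) = comap (Subtype.val : N → K) (𝓝 ((1 : N) : K)) := nhds_subtype_eq_comap
    rw [e, mem_comap]
    simp only [Subgroup.coe_one]
    rfl
  have hnhds : ∀ S : Set A, S ∈ 𝓝 (0 : A) ↔ ∃ V ∈ 𝓝 (1 : K), ∀ n : N, n.1 ∈ V → Additive.ofMul n ∈ S :=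
    hnhds0
  have hpre : Precpt A := by
    intro U hU
    have hcov := (isCompact_univ (X := A)).elim_nhds_subcover (fun x => (fun y => y - x) ⁻¹' U) (by
      intro x _
      have hc : ContinuousAt (fun y : A => y - x) x := by fun_prop
      apply hc
      beta_reduce
      rw [sub_self]
      exact hU)
    obtain ⟨t, -, ht⟩ := hcov
    refine ⟨t, fun x => ?_⟩
    obtain ⟨f, hf, hx⟩ := Set.mem_iUnion₂.1 (ht (Set.mem_univ x))
    exact ⟨f, hf, hx⟩
  by_contra hcon
  -- the character group is uncountable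
  have hX : ℵ₀ < #(XX A) := by
    by_contra hle
    obtain ⟨𝒱, h1, h2, h3⟩ := psi_of_card hpre (le_refl ℵ₀) (not_lt.1 hle)
    apply hcon
    have h1c : 𝒱.Countable := Cardinal.le_aleph0_iff_set_countable.1 h1
    have hch : ∀ V : Set A, ∃ W ∈ 𝓝 (1 : K), V ∈ 𝒱 → ∀ n : N, n.1 ∈ W → Additive.ofMul n ∈ V := by
      intro V
      by_cases hV : V ∈ 𝒱
      · obtain ⟨W, hW, hWV⟩ := (hnhds V).1 (h2 V hV)
        exact ⟨W, hW, fun _ => hWV⟩
      · exact ⟨Set.univ, univ_mem, fun h => absurd h hV⟩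
    choose w hw hwV using hch
    rcases 𝒱.eq_empty_or_nonempty with hemp | hne
    · refine ⟨fun _ => Set.univ, fun _ => univ_mem, fun z hz _ => ?_⟩
      have := h3 (Additive.ofMul (⟨z, hz⟩ : N)) (by
        intro V hV
        rw [hemp] at hV
        exact absurd hV (Set.notMem_empty _))
      exact congrArg Subtype.val (show (⟨z, hz⟩ : N) = 1 from this)
    · obtain ⟨v, hv⟩ := h1c.exists_eq_range hne
      refine ⟨fun n => w (v n), fun n => hw _, fun z hz hall => ?_⟩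
      have := h3 (Additive.ofMul (⟨z, hz⟩ : N)) (by
        intro V hV
        have hV' := hV
        rw [hv] at hV'
        obtain ⟨n, rfl⟩ := hV'
        exact hwV _ hV ⟨z, hz⟩ (hall n))
      exact congrArg Subtype.val (show (⟨z, hz⟩ : N) = 1 from this)
  -- the action
  let cj : K → N → N := fun k a => ⟨k⁻¹ * a.1 * k, by
    have := hNn.conj_mem a.1 a.2 k⁻¹
    rwa [inv_inv] at this⟩
  have hcjc : ∀ k, Continuous (cj k) := by
    intro k
    apply Continuous.subtype_mk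
    fun_prop
  have hcjm : ∀ k a b, cj k (a * b) = cj k a * cj k b := by
    intro k a b
    apply Subtype.ext
    simp only [cj, Subgroup.coe_mul]
    group
  have hcjcj : ∀ k l a, cj k (cj l a) = cj (l * k) a := by
    intro k l a
    apply Subtype.ext
    simp only [cj]
    group
  have hcj1 : ∀ k l : K, k⁻¹ * l ∈ P → cj k = cj l := by
    intro k l hkl
    funext a
    apply Subtype.ext
    have h1 := hP _ hkl (cj l a).1 (cj l a).2
    simp only [cj] at h1 ⊢
    have h2 : k⁻¹ * l * (l⁻¹ * a.1 * l) * (k⁻¹ * l)⁻¹ = l⁻¹ * a.1 * l := by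
      rw [h1]; group
    rw [← h2]
    group
  let actf : K → (A → UnitAddCircle) → (A → UnitAddCircle) := fun k χ a => χ (Additive.ofMul (cj k (Additive.toMul a)))
  have hactX : ∀ k, ∀ χ ∈ XX A, actf k χ ∈ XX A := by
    intro k χ hχ
    refine ⟨hχ.1.comp (hcjc k), fun a b => ?_⟩
    change χ (Additive.ofMul (cj k (Additive.toMul a * Additive.toMul b))) = _
    rw [hcjm, ofMul_mul, hχ.2]
  let act : (K ⧸ P) → XX A →+ XX A := fun t =>
    { toFun := fun χ => ⟨actf t.out χ.1, hactX _ _ χ.2⟩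
      map_zero' := rfl
      map_add' := fun _ _ => rfl }
  have hactk : ∀ (k : K) (χ : XX A), (act (k : K ⧸ P) χ).1 = actf k χ.1 := by
    intro k χ
    change actf _ χ.1 = actf k χ.1
    have h1 : ((k : K ⧸ P).out)⁻¹ * k ∈ P := by
      rw [← QuotientGroup.eq]
      exact Quotient.out_eq _
    simp only [actf]
    rw [hcj1 _ _ h1]
  have hfin : Finite (K ⧸ P) := inferInstance
  obtain ⟨J, _, hJ1, hJ2, Z, x, hZ1, hZ2, hZ3⟩ := fam hX act ((1 : K) : K ⧸ P) (by
    intro χ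
    apply Subtype.ext
    rw [hactk]
    funext a
    change χ.1 (Additive.ofMul (cj 1 (Additive.toMul a))) = χ.1 a
    have : cj 1 (Additive.toMul a) = Additive.toMul a := by
      apply Subtype.ext
      simp [cj]
    rw [this]
    rfl)
  -- invariant subgroups
  let Y : J → AddSubgroup (A → UnitAddCircle) := fun α =>
    ({ carrier := {χ : XX A | ∀ t, act t χ ∈ Z α}
       zero_mem' := fun t => by rw [map_zero]; exact (Z α).zero_mem
       add_mem' := fun ha hb t => by rw [map_add]; exact (Z α).add_mem (ha t) (hb t)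
       neg_mem' := fun ha t => by rw [map_neg]; exact (Z α).neg_mem (ha t) } :
      AddSubgroup (XX A)).map (XX A).subtype
  have hYmem : ∀ α (χ : XX A), χ.1 ∈ Y α ↔ ∀ t, act t χ ∈ Z α := by
    intro α χ
    constructor
    · rintro ⟨ψ, hψ, hψχ⟩
      have : ψ = χ := Subtype.ext hψχ
      rw [← this]
      exact hψ
    · intro h
      exact ⟨χ, h, rfl⟩
  have hYX : ∀ α, Y α ≤ XX A := by
    rintro α _ ⟨ψ, _, rfl⟩
    exact ψ.2
  have hYinv : ∀ α (k : K), ∀ χ ∈ Y α, actf k χ ∈ Y α := by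
    intro α k χ hχ
    have h1 := (hYmem α ⟨χ, hYX α hχ⟩).1 hχ
    refine (hYmem α ⟨actf k χ, hactX k χ (hYX α hχ)⟩).2 fun t => ?_
    induction t using QuotientGroup.induction_on with
    | H l =>
      have h2 := h1 ((l * k : K) : K ⧸ P)
      have h3 : act ((l : K) : K ⧸ P) ⟨actf k χ, hactX k χ (hYX α hχ)⟩ =
          act ((l * k : K) : K ⧸ P) ⟨χ, hYX α hχ⟩ := by
        apply Subtype.ext
        rw [hactk, hactk]
        funext a
        change χ (Additive.ofMul (cj k (cj l (Additive.toMul a)))) =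
          χ (Additive.ofMul (cj (l * k) (Additive.toMul a)))
        rw [hcjcj]
      rw [h3]
      exact h2
  -- closed normal subgroups
  let M : J → Subgroup K := fun α =>
    { carrier := {k | ∃ h : k ∈ N, ∀ χ ∈ Y α, χ (Additive.ofMul (⟨k, h⟩ : N)) = 0}
      one_mem' := ⟨N.one_mem, fun χ hχ => XX_zero (hYX α hχ)⟩
      mul_mem' := by
        rintro a b ⟨ha, ha'⟩ ⟨hb, hb'⟩
        refine ⟨N.mul_mem ha hb, fun χ hχ => ?_⟩
        have h1 : (⟨a * b, N.mul_mem ha hb⟩ : N) = ⟨a, ha⟩ * ⟨b, hb⟩ := rfl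
        rw [h1, ofMul_mul, (hYX α hχ).2, ha' χ hχ, hb' χ hχ, add_zero]
      inv_mem' := by
        rintro a ⟨ha, ha'⟩
        refine ⟨N.inv_mem ha, fun χ hχ => ?_⟩
        have h1 : (⟨a⁻¹, N.inv_mem ha⟩ : N) = (⟨a, ha⟩ : N)⁻¹ := rfl
        have h2 := XX_sub (hYX α hχ) 0 (Additive.ofMul (⟨a, ha⟩ : N))
        rw [zero_sub, XX_zero (hYX α hχ), ha' χ hχ, sub_zero] at h2
        rw [h1, ofMul_inv]
        exact h2 }
  have hMn : ∀ α, (M α).Normal := by
    intro α
    refine ⟨fun a ha k => ?_⟩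
    obtain ⟨ha, ha'⟩ := ha
    refine ⟨hNn.conj_mem a ha k, fun χ hχ => ?_⟩
    have h1 := ha' _ (hYinv α k⁻¹ χ hχ)
    have h2 : cj k⁻¹ (⟨a, ha⟩ : N) = ⟨k * a * k⁻¹, hNn.conj_mem a ha k⟩ := by
      apply Subtype.ext
      simp [cj]
    change χ (Additive.ofMul (cj k⁻¹ (⟨a, ha⟩ : N))) = 0 at h1
    rwa [h2] at h1
  have hMc : ∀ α, IsClosed (M α : Set K) := by
    intro α
    have h1 : IsClosed {a : N | ∀ χ ∈ Y α, χ (Additive.ofMul a) = 0} := by
      have : {a : N | ∀ χ ∈ Y α, χ (Additive.ofMul a) = 0} =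
          ⋂ χ ∈ Y α, (fun a : N => χ (Additive.ofMul a)) ⁻¹' {0} := by
        ext a
        simp only [Set.mem_iInter, Set.mem_preimage, Set.mem_singleton_iff]
        exact Iff.rfl
      rw [this]
      exact isClosed_biInter fun χ hχ => isClosed_singleton.preimage (hYX α hχ).1
    have h2 := hN.isClosedEmbedding_subtypeVal.isClosedMap _ h1
    have h3 : (Subtype.val : N → K) '' {a : N | ∀ χ ∈ Y α, χ (Additive.ofMul a) = 0} = (M α : Set K) := by
      ext k
      constructor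
      · rintro ⟨a, ha, rfl⟩
        exact ⟨a.2, ha⟩
      · rintro ⟨hk, hk'⟩
        exact ⟨⟨k, hk⟩, hk', rfl⟩
    rw [← h3]
    exact h2
  -- points
  have hz : ∀ α, ∃ z : N, z.1 ∈ Γ ∧ (∀ χ ∈ Y α, χ (Additive.ofMul z) = 0) ∧
      (x α).1 (Additive.ofMul z) ≠ 0 := by
    intro α
    obtain ⟨a, ha, hxa⟩ := dual_sep (Y α) (hYX α) (x α).1 (x α).2 (by
      intro h
      apply hZ2 α
      have h1 := (hYmem α (x α)).1 h ((1 : K) : K ⧸ P)
      have h2 : act ((1 : K) : K ⧸ P) (x α) = x α := by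
        apply Subtype.ext
        rw [hactk]
        funext a
        change (x α).1 (Additive.ofMul (cj 1 (Additive.toMul a))) = (x α).1 a
        have : cj 1 (Additive.toMul a) = Additive.toMul a := by
          apply Subtype.ext
          simp [cj]
        rw [this]
        rfl
      rwa [h2] at h1)
    have hopen : IsOpen {n : N | (x α).1 (Additive.ofMul n) ≠ 0} := isOpen_ne.preimage (x α).2.1
    obtain ⟨O, hO, hOe⟩ := isOpen_induced_iff.1 hopen
    have haM : (Additive.toMul a).1 ∈ (M α : Set K) := ⟨(Additive.toMul a).2, ha⟩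
    have haO : (Additive.toMul a).1 ∈ O := by
      have : Additive.toMul a ∈ (Subtype.val : N → K) ⁻¹' O := by
        rw [hOe]
        exact hxa
      exact this
    obtain ⟨z, hzO, hzΓ, hzN, hzY⟩ := mem_closure_iff.1 (hTD (M α) (hMn α) (hMc α) haM) O hO haO
    refine ⟨⟨z, hzN⟩, hzΓ, hzY, ?_⟩
    have : (⟨z, hzN⟩ : N) ∈ (Subtype.val : N → K) ⁻¹' O := hzO
    rw [hOe] at this
    exact this
  choose z hzΓ hzY hzx using hz
  have hJunc : ¬ (Set.univ : Set J).Countable := fun h => hJ2 (Set.countable_univ_iff.1 h)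
  obtain ⟨n, hn⟩ : ∃ n : ℕ, ¬ {α : J | 1 / ((n : ℝ) + 1) < ‖(x α).1 (Additive.ofMul (z α))‖}.Countable := by
    by_contra hc
    push Not at hc
    apply hJunc
    refine (Set.countable_iUnion hc).mono ?_
    intro α _
    obtain ⟨n, hn⟩ := exists_nat_one_div_lt (norm_pos_iff.2 (hzx α))
    exact Set.mem_iUnion.2 ⟨n, hn⟩
  let J' : Set J := {α : J | 1 / ((n : ℝ) + 1) < ‖(x α).1 (Additive.ofMul (z α))‖}
  have hcl : (closure ((fun α => (z α).1) '' J') ∩ ((⊥ : Subgroup K) : Set K)).Nonempty := by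
    refine ⟨1, ?_, (⊥ : Subgroup K).one_mem⟩
    rw [mem_closure_iff_nhds]
    intro V hV
    have hV' : {a : A | (Additive.toMul a).1 ∈ V} ∈ 𝓝 (0 : A) := (hnhds _).2 ⟨V, hV, fun n hn => hn⟩
    obtain ⟨F, hF, ε, hε, hFV⟩ := nhds_char_compact _ hV'
    let C : Set J := ⋃ χ ∈ F, if h : χ ∈ XX A then ⋃ t, {α | act t ⟨χ, h⟩ ∉ Z α} else ∅
    have hC : C.Countable := by
      refine (F.countable_toSet).biUnion fun χ _ => ?_
      split_ifs
      · exact Set.countable_iUnion fun t => hZ1 _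
      · exact Set.countable_empty
    obtain ⟨α, hα, hαC⟩ : ∃ α ∈ J', α ∉ C := by
      by_contra hc
      push Not at hc
      exact hn (hC.mono hc)
    refine ⟨(z α).1, ?_, ⟨α, hα, rfl⟩⟩
    have h1 := hFV (Additive.ofMul (z α)) (by
      intro χ hχ
      have h2 : χ (Additive.ofMul (z α)) = 0 := by
        apply hzY
        refine (hYmem α ⟨χ, hF χ hχ⟩).2 fun t => ?_
        by_contra hnot
        apply hαC
        refine Set.mem_iUnion₂.2 ⟨χ, hχ, ?_⟩
        rw [dif_pos (hF χ hχ)]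
        exact Set.mem_iUnion.2 ⟨t, hnot⟩
      rw [h2, norm_zero]
      exact hε)
    exact h1
  obtain ⟨B, hBA, hBc, b0, hb0, hb0'⟩ := hTT ⊥ inferInstance (by
    rw [Subgroup.coe_bot]
    exact isClosed_singleton) _ (by
    rintro _ ⟨α, _, rfl⟩
    exact hzΓ α) hcl
  have hb01 : b0 = 1 := hb0'
  rw [hb01] at hb0
  have hidx : ∀ b : B, ∃ α ∈ J', (z α).1 = b.1 := fun b => hBA b.2
  choose a haJ haz using hidx
  have hBc' : Countable B := hBc.to_subtype
  obtain ⟨β, hβ⟩ : ∃ β, ∀ b, a b ≤ β := by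
    by_contra hc
    push Not at hc
    apply hJunc
    refine (Set.countable_iUnion fun b => hJ1 (a b)).mono ?_
    intro β _
    obtain ⟨b, hb⟩ := hc β
    exact Set.mem_iUnion.2 ⟨b, hb.le⟩
  have hcont := (x β).2.1
  have hV : {c : A | ‖(x β).1 c‖ < 1 / ((n : ℝ) + 1)} ∈ 𝓝 (0 : A) := by
    refine (isOpen_lt hcont.norm continuous_const).mem_nhds ?_
    change ‖(x β).1 0‖ < _
    rw [XX_zero (x β).2, norm_zero]
    positivity
  obtain ⟨V, hV, hVs⟩ := (hnhds _).1 hV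
  obtain ⟨b, hbV, hbB⟩ := mem_closure_iff_nhds.1 hb0 V hV
  have h1 := haz ⟨b, hbB⟩
  have h2 := hVs (z (a ⟨b, hbB⟩)) (by rw [h1]; exact hbV)
  have h2' : ‖(x β).1 (Additive.ofMul (z (a ⟨b, hbB⟩)))‖ < 1 / ((n : ℝ) + 1) := h2
  have h3 : 1 / ((n : ℝ) + 1) < ‖(x (a ⟨b, hbB⟩)).1 (Additive.ofMul (z (a ⟨b, hbB⟩)))‖ := haJ ⟨b, hbB⟩
  have h4 := hzY (a ⟨b, hbB⟩) ((x β - x (a ⟨b, hbB⟩) : XX A).1) (by
    refine (hYmem _ _).2 fun t => ?_
    exact hZ3 _ _ (hβ ⟨b, hbB⟩) t)
  have h5 : (x β).1 (Additive.ofMul (z (a ⟨b, hbB⟩))) =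
      (x (a ⟨b, hbB⟩)).1 (Additive.ofMul (z (a ⟨b, hbB⟩))) := by
    have : (x β - x (a ⟨b, hbB⟩) : XX A).1 (Additive.ofMul (z (a ⟨b, hbB⟩))) =
      (x β).1 (Additive.ofMul (z (a ⟨b, hbB⟩))) - (x (a ⟨b, hbB⟩)).1 (Additive.ofMul (z (a ⟨b, hbB⟩))) := rfl
    rw [this, sub_eq_zero] at h4
    exact h4
  rw [h5] at h2'
  linarith

end H645.TM
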