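import Pool.Agent.H645R3.TM2

set_option autoImplicit false
set_option linter.style.haveILetI false
set_option linter.unusedSectionVars false

open Filter Topology Pointwise Cardinal

namespace H645.TM

variable {K : Type} [Group K] [TopologicalSpace K] [IsTopologicalGroup K] [CompactSpace K]
  [T2Space K]

theorem mk_closure (M : Subgroup K) [M.Normal] (hM : IsClosed (M : Set K)) (A : Set K) :
    closure ((QuotientGroup.mk' M) '' A) = (QuotientGroup.mk' M) '' closure A := by
  have hMc : IsClosed (M : Set K) := hM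
  have : T3Space (K ⧸ M) := inferInstance
  have hc : Continuous (QuotientGroup.mk' M) := continuous_quot_mk
  exact ((hc.isClosedMap).closure_image_eq_of_continuous hc A)

theorem TD.quot {Γ : Subgroup K} (h : TD Γ) (M : Subgroup K) [M.Normal]
    (hM : IsClosed (M : Set K)) : TD (Γ.map (QuotientGroup.mk' M)) := by
  intro L hLn hLc q hq
  have hc : Continuous (QuotientGroup.mk' M) := continuous_quot_mk
  obtain ⟨k, rfl⟩ := QuotientGroup.mk'_surjective M q
  have hL' : ((L.comap (QuotientGroup.mk' M) : Subgroup K) : Set K) ⊆ _ :=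
    h (L.comap (QuotientGroup.mk' M)) (hLn.comap _) (hLc.preimage hc)
  have hk : k ∈ closure ((Γ : Set K) ∩ (L.comap (QuotientGroup.mk' M) : Subgroup K)) := hL' hq
  have h2 := image_closure_subset_closure_image hc ⟨k, hk, rfl⟩
  refine closure_mono ?_ h2
  rintro _ ⟨x, ⟨hx1, hx2⟩, rfl⟩
  exact ⟨⟨x, hx1, rfl⟩, hx2⟩

theorem TT.quot {Γ : Subgroup K} (h : TT Γ) (M : Subgroup K) [M.Normal]
    (hM : IsClosed (M : Set K)) : TT (Γ.map (QuotientGroup.mk' M)) := by
  intro L hLn hLc A hA hne
  have hc : Continuous (QuotientGroup.mk' M) := continuous_quot_mk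
  let A' : Set K := (Γ : Set K) ∩ (QuotientGroup.mk' M) ⁻¹' A
  have hA' : (QuotientGroup.mk' M) '' A' = A := by
    ext q
    constructor
    · rintro ⟨x, hx, rfl⟩
      exact hx.2
    · intro hq
      obtain ⟨x, hx, rfl⟩ := hA hq
      exact ⟨x, ⟨hx, hq⟩, rfl⟩
  rw [← hA', mk_closure M hM] at hne
  obtain ⟨_, ⟨k, hk, rfl⟩, hkL⟩ := hne
  obtain ⟨B, hBA, hB, k', hk', hk'L⟩ := h (L.comap (QuotientGroup.mk' M)) (hLn.comap _)
    (hLc.preimage hc) A' Set.inter_subset_left ⟨k, hk, hkL⟩
  refine ⟨(QuotientGroup.mk' M) '' B, ?_, hB.image _, ⟨QuotientGroup.mk' M k', ?_, hk'L⟩⟩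
  · rw [← hA']
    exact Set.image_mono hBA
  · rw [mk_closure M hM]
    exact ⟨k', hk', rfl⟩

/-- relative core lemma -/
theorem core_rel (Γ : Subgroup K) (hTD : TD Γ) (hTT : TT Γ) (N M : Subgroup K) [hNn : N.Normal]
    [hMn : M.Normal] (hN : IsClosed (N : Set K)) (hM : IsClosed (M : Set K))
    (hcomm : ∀ a ∈ N, ∀ b ∈ N, a⁻¹ * b⁻¹ * a * b ∈ M) (P : Subgroup K)
    [P.FiniteIndex] (hP : ∀ p ∈ P, ∀ a ∈ N, p⁻¹ * a⁻¹ * p * a ∈ M) :
    ∃ W : ℕ → Set K, (∀ n, W n ∈ 𝓝 (1 : K)) ∧ ∀ z ∈ N, (∀ n, z ∈ W n) → z ∈ M := by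
  have hMc : IsClosed (M : Set K) := hM
  have hT3 : T3Space (K ⧸ M) := inferInstance
  have hc : Continuous (QuotientGroup.mk' M) := continuous_quot_mk
  have hNn' : (N.map (QuotientGroup.mk' M)).Normal :=
    hNn.map _ (QuotientGroup.mk'_surjective M)
  have hPf : (P.map (QuotientGroup.mk' M)).FiniteIndex := by
    refine ⟨fun h0 => ?_⟩
    have h1 := P.index_map_dvd (f := QuotientGroup.mk' M) (QuotientGroup.mk'_surjective M)
    rw [h0, zero_dvd_iff] at h1
    exact Subgroup.FiniteIndex.index_ne_zero h1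
  have hkey : ∀ a b : K, a⁻¹ * b⁻¹ * a * b ∈ M →
      QuotientGroup.mk' M a * QuotientGroup.mk' M b = QuotientGroup.mk' M b * QuotientGroup.mk' M a := by
    intro a b hab
    rw [← map_mul, ← map_mul]
    apply (QuotientGroup.eq).2
    have := hMn.conj_mem _ (M.inv_mem hab) 1
    have heq : (a * b)⁻¹ * (b * a) = (a⁻¹ * b⁻¹ * a * b)⁻¹ * 1 ∨ True := Or.inr trivial
    have h3 := M.inv_mem hab
    have h4 : (b * a)⁻¹ * (a * b) = a⁻¹ * b⁻¹ * a * b := by group
    have h5 : (a * b)⁻¹ * (b * a) = (a⁻¹ * b⁻¹ * a * b)⁻¹ := by group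
    rw [h5]
    exact h3
  obtain ⟨W, hW, hWz⟩ := core (Γ.map (QuotientGroup.mk' M)) (hTD.quot M hM) (hTT.quot M hM)
    (N.map (QuotientGroup.mk' M)) (by
      have : ((N.map (QuotientGroup.mk' M) : Subgroup (K ⧸ M)) : Set (K ⧸ M)) =
        (QuotientGroup.mk' M) '' (N : Set K) := rfl
      rw [this]
      exact (hN.isCompact.image hc).isClosed) (by
      rintro _ ⟨a, ha, rfl⟩ _ ⟨b, hb, rfl⟩
      exact hkey a b (hcomm a ha b hb)) (P.map (QuotientGroup.mk' M)) (by
      rintro _ ⟨p, hp, rfl⟩ _ ⟨a, ha, rfl⟩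
      exact hkey p a (hP p hp a ha))
  refine ⟨fun n => (QuotientGroup.mk' M) ⁻¹' (W n), fun n => ?_, fun z hz hall => ?_⟩
  · apply hc.continuousAt
    rw [map_one]
    exact hW n
  · have := hWz (QuotientGroup.mk' M z) ⟨z, hz, rfl⟩ hall
    exact (QuotientGroup.eq_one_iff z).1 this

/-- `M` is a `G_δ`-like subgroup -/
def GD (M : Subgroup K) : Prop :=
  ∃ W : ℕ → Set K, (∀ n, W n ∈ 𝓝 (1 : K)) ∧ ∀ z, (∀ n, z ∈ W n) → z ∈ M

/-- the neighbourhoods can be taken closed and decreasing -/
theorem GD.closed {M : Subgroup K} (h : GD M) : ∃ W : ℕ → Set K, (∀ n, W n ∈ 𝓝 (1 : K)) ∧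
    (∀ n, IsClosed (W n)) ∧ (Antitone W) ∧ ∀ z, (∀ n, z ∈ W n) → z ∈ M := by
  obtain ⟨W, hW, hWM⟩ := h
  have hex : ∀ n, ∃ C ∈ 𝓝 (1 : K), IsClosed C ∧ C ⊆ W n := fun n =>
    exists_mem_nhds_isClosed_subset (hW n)
  choose C hC hCc hCW using hex
  refine ⟨fun n => ⋂ i ∈ Finset.range (n + 1), C i, fun n => ?_, fun n => ?_, ?_, fun z hz => ?_⟩
  · rw [Filter.biInter_finset_mem]
    intro i _
    exact hC i
  · exact isClosed_biInter fun i _ => hCc i
  · intro n m hnm
    apply Set.biInter_subset_biInter_left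
    intro i hi
    simp only [Finset.coe_range, Set.mem_Iio] at hi ⊢
    omega
  · apply hWM
    intro n
    apply hCW
    have := hz n
    simp only [Set.mem_iInter] at this
    exact this n (Finset.mem_range.2 (Nat.lt_succ_self n))

/-- the stabilizer of a character under a continuous action is a neighbourhood of the identity -/
theorem stab_nhds {L N : Type} [Group L] [TopologicalSpace L] [Group N] [TopologicalSpace N]
    [CompactSpace N] (f : N → UnitAddCircle) (hf : Continuous f)
    (hfm : ∀ a b, f (a * b) = f a + f b) (cj : L → N → N)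
    (hcj : Continuous (fun q : L × N => cj q.1 q.2))
    (hcjm : ∀ k a b, cj k (a * b) = cj k a * cj k b) (hcj1 : ∀ a, cj 1 a = a) :
    {k | ∀ a, f (cj k a) = f a} ∈ 𝓝 (1 : L) := by
  have hf1 : f 1 = 0 := by
    have := hfm 1 1
    rw [mul_one] at this
    exact left_eq_add.1 this
  have hpow : ∀ (n : ℕ) (b : N), f (b ^ n) = n • f b := by
    intro n b
    induction n with
    | zero => rw [pow_zero, hf1, zero_smul]
    | succ n ih => rw [pow_succ, hfm, ih, succ_nsmul]
  have hcjo : ∀ k, cj k 1 = 1 := by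
    intro k
    have := hcjm k 1 1
    rw [mul_one] at this
    exact left_eq_mul.1 this
  have hcjp : ∀ (n : ℕ) (k : L) (a : N), cj k (a ^ n) = (cj k a) ^ n := by
    intro n k a
    induction n with
    | zero => rw [pow_zero, pow_zero, hcjo]
    | succ n ih => rw [pow_succ, pow_succ, hcjm, ih]
  have hcont : Continuous (fun q : L × N => f (cj q.1 q.2) - f q.2) :=
    (hf.comp hcj).sub (hf.comp continuous_snd)
  have hO : IsOpen {q : L × N | ‖f (cj q.1 q.2) - f q.2‖ < 1 / 4} :=
    isOpen_lt hcont.norm continuous_const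
  have hsub : ({(1 : L)} : Set L) ×ˢ (Set.univ : Set N) ⊆
      {q : L × N | ‖f (cj q.1 q.2) - f q.2‖ < 1 / 4} := by
    rintro ⟨k, a⟩ ⟨hk, -⟩
    rw [Set.mem_singleton_iff] at hk
    change ‖f (cj k a) - f a‖ < 1 / 4
    have hk' : k = 1 := hk
    rw [hk', hcj1, sub_self, norm_zero]
    norm_num
  obtain ⟨U, V', hU, hV', h1U, hV'u, hUV⟩ :=
    generalized_tube_lemma isCompact_singleton isCompact_univ hO hsub
  refine mem_of_superset (hU.mem_nhds (h1U rfl)) ?_
  intro k hk a
  have hall : ∀ b : N, ‖f (cj k b) - f b‖ < 1 / 4 := by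
    intro b
    have hb' : b ∈ V' := hV'u (Set.mem_univ b)
    have hmem : ((k, b) : L × N) ∈ U ×ˢ V' := Set.mk_mem_prod hk hb'
    have h3 := Set.mem_of_subset_of_mem hUV hmem
    rw [Set.mem_ofPred_eq] at h3
    exact h3
  have hsm : ∀ n : ℕ, ‖n • (f (cj k a) - f a)‖ < 1 / 4 := by
    intro n
    have h1 : n • (f (cj k a) - f a) = f (cj k (a ^ n)) - f (a ^ n) := by
      rw [hcjp, hpow, hpow, smul_sub]
    rw [h1]
    exact hall _
  have := no_small hsm
  rw [sub_eq_zero] at this
  exact this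

set_option maxHeartbeats 2000000 in
/-- abelian step -/
theorem step0 (Γ : Subgroup K) (hTD : TD Γ) (hTT : TT Γ) (N : Subgroup K) [hNn : N.Normal]
    (hN : IsClosed (N : Set K)) (hcomm : ∀ a ∈ N, ∀ b ∈ N, a * b = b * a) (hG : GD N) :
    GD (⊥ : Subgroup K) := by
  classical
  obtain ⟨W, hW, hWc, hWa, hWN⟩ := hG.closed
  let H : ℕ → Subgroup K := fun n => Subgroup.closure (W n)
  have hHo : ∀ n, IsOpen (H n : Set K) := fun n =>
    Subgroup.isOpen_of_mem_nhds (H n) (mem_of_superset (hW n) Subgroup.subset_closure)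
  have hHf : ∀ n, (H n).FiniteIndex := fun n => by
    have h1 : Finite (K ⧸ H n) := (H n).quotient_finite_of_isOpen (hHo n)
    exact Subgroup.finiteIndex_of_finite_quotient
  let P : ℕ → Subgroup K := fun n => (H n).normalCore
  have hPf : ∀ n, (P n).FiniteIndex := fun n => by
    have := hHf n
    exact Subgroup.finiteIndex_normalCore _
  have hPn : ∀ n, (P n).Normal := fun n => Subgroup.normalCore_normal _
  -- the closed subgroups
  let S : ℕ → Set K := fun n => {c | ∃ p ∈ P n, ∃ a ∈ N, c = p⁻¹ * a⁻¹ * p * a}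
  let M : ℕ → Subgroup K := fun n => (Subgroup.closure (S n)).topologicalClosure
  have hMn : ∀ n, (M n).Normal := by
    intro n
    have h1 : (Subgroup.closure (S n)).Normal := by
      have hS : ∀ c ∈ S n, ∀ k : K, k * c * k⁻¹ ∈ S n := by
        rintro _ ⟨p, hp, a, ha, rfl⟩ k
        refine ⟨k * p * k⁻¹, (hPn n).conj_mem p hp k, k * a * k⁻¹, hNn.conj_mem a ha k, ?_⟩
        group
      refine ⟨fun x hx k => ?_⟩
      induction hx using Subgroup.closure_induction with
      | mem c hc => exact Subgroup.subset_closure (hS c hc k)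
      | one => rw [mul_one, mul_inv_cancel]; exact Subgroup.one_mem _
      | mul a b _ _ ha hb =>
        have : k * (a * b) * k⁻¹ = (k * a * k⁻¹) * (k * b * k⁻¹) := by group
        rw [this]
        exact Subgroup.mul_mem _ ha hb
      | inv a _ ha =>
        have : k * a⁻¹ * k⁻¹ = (k * a * k⁻¹)⁻¹ := by group
        rw [this]
        exact Subgroup.inv_mem _ ha
    exact Subgroup.is_normal_topologicalClosure _
  have hcore : ∀ n, ∃ V : ℕ → Set K, (∀ j, V j ∈ 𝓝 (1 : K)) ∧
      ∀ z ∈ N, (∀ j, z ∈ V j) → z ∈ M n := by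
    intro n
    have := hMn n
    have := hPf n
    apply core_rel Γ hTD hTT N (M n) hN (Subgroup.isClosed_topologicalClosure _) ?_ (P n) ?_
    · intro a ha b hb
      have : a⁻¹ * b⁻¹ * a * b = 1 := by
        rw [mul_assoc, hcomm a ha b hb]
        group
      rw [this]
      exact Subgroup.one_mem _
    · intro p hp a ha
      exact Subgroup.le_topologicalClosure _ (Subgroup.subset_closure ⟨p, hp, a, ha, rfl⟩)
  choose V hV hVM using hcore
  refine ⟨fun n => W n ∩ V n.unpair.1 n.unpair.2, fun n => inter_mem (hW _) (hV _ _), ?_⟩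
  intro z hz
  have hzN : z ∈ N := hWN z fun n => (hz n).1
  have hzM : ∀ n, z ∈ M n := by
    intro n
    apply hVM n z hzN
    intro j
    have := (hz (Nat.pair n j)).2
    rwa [Nat.unpair_pair] at this
  -- characters of N
  rw [Subgroup.mem_bot]
  by_contra hz1
  let _ : CommGroup N :=
    { (inferInstance : Group N) with
      mul_comm := fun a b => Subtype.ext (hcomm a a.2 b b.2) }
  have hNc : CompactSpace N := isCompact_iff_compactSpace.1 hN.isCompact
  let A : Type := Additive N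
  let _ : TopologicalSpace A := (inferInstance : TopologicalSpace N)
  have _ : CompactSpace A := hNc
  have _ : T2Space A := (inferInstance : T2Space N)
  have hA : IsTopologicalAddGroup (Additive N) := inferInstance
  have _ : IsTopologicalAddGroup A := hA
  obtain ⟨χ, hχ, hχz⟩ := char_sep A (Additive.ofMul (⟨z, hzN⟩ : N)) (by
    intro h0
    apply hz1
    exact congrArg Subtype.val (show (⟨z, hzN⟩ : N) = 1 from h0))
  let f : N → UnitAddCircle := fun a => χ (Additive.ofMul a)
  have hf : Continuous f := hχ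
  have hfm : ∀ a b, f (a * b) = f a + f b := fun a b => map_add χ _ _
  have hf1 : f 1 = 0 := map_zero χ
  have hfi : ∀ a, f a⁻¹ = - f a := fun a => map_neg χ _
  -- the stabilizer
  let cj : K → N → N := fun k a => ⟨k⁻¹ * a.1 * k, by
    have := hNn.conj_mem a.1 a.2 k⁻¹
    rwa [inv_inv] at this⟩
  have hcjm : ∀ k a b, cj k (a * b) = cj k a * cj k b := by
    intro k a b
    apply Subtype.ext
    simp only [cj, Subgroup.coe_mul]
    group
  let St : Subgroup K :=
    { carrier := {k | ∀ a, f (cj k a) = f a}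
      one_mem' := by
        intro a
        have : cj 1 a = a := by apply Subtype.ext; simp [cj]
        rw [this]
      mul_mem' := by
        intro k l hk hl a
        have : cj (k * l) a = cj l (cj k a) := by
          apply Subtype.ext
          simp only [cj]
          group
        rw [this, hl, hk]
      inv_mem' := by
        intro k hk a
        have h1 := hk (cj k⁻¹ a)
        have : cj k (cj k⁻¹ a) = a := by
          apply Subtype.ext
          simp only [cj]
          group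
        rw [this] at h1
        exact h1.symm }
  have hSt : (St : Set K) ∈ 𝓝 (1 : K) := by
    have hcj : Continuous (fun q : K × N => cj q.1 q.2) := by
      apply Continuous.subtype_mk
      fun_prop
    exact stab_nhds f hf hfm cj hcj hcjm (fun a => by apply Subtype.ext; simp [cj])
  have hNSt : N ≤ St := by
    intro b hb a
    have : cj b a = a := by
      apply Subtype.ext
      simp only [cj]
      rw [mul_assoc, hcomm a.1 a.2 b hb]
      group
    rw [this]
  -- some W n is in the stabilizer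
  obtain ⟨n, hn⟩ : ∃ n, W n ⊆ St := by
    have hSto : IsOpen (St : Set K) := Subgroup.isOpen_of_mem_nhds St hSt
    by_contra hcon
    push Not at hcon
    obtain ⟨y, hy⟩ := IsCompact.nonempty_iInter_of_directed_nonempty_isCompact_isClosed
      (fun n => W n ∩ (St : Set K)ᶜ) (by
        intro n m
        refine ⟨max n m, ?_, ?_⟩
        · exact Set.inter_subset_inter_left _ (hWa (le_max_left n m))
        · exact Set.inter_subset_inter_left _ (hWa (le_max_right n m))) (by
        intro n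
        obtain ⟨y, hy, hyS⟩ := Set.not_subset.1 (hcon n)
        exact ⟨y, hy, hyS⟩) (fun n => ((hWc n).inter hSto.isClosed_compl).isCompact)
      (fun n => (hWc n).inter hSto.isClosed_compl)
    rw [Set.mem_iInter] at hy
    exact (hy 0).2 (hNSt (hWN y fun n => (hy n).1))
  have hPSt : P n ≤ St := (Subgroup.normalCore_le _).trans ((Subgroup.closure_le St).2 hn)
  -- the kernel of the character
  let Q : Subgroup K :=
    { carrier := {k | ∃ h : k ∈ N, f ⟨k, h⟩ = 0}
      one_mem' := ⟨N.one_mem, hf1⟩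
      mul_mem' := by
        rintro a b ⟨ha, ha'⟩ ⟨hb, hb'⟩
        refine ⟨N.mul_mem ha hb, ?_⟩
        have h1 : (⟨a * b, N.mul_mem ha hb⟩ : N) = ⟨a, ha⟩ * ⟨b, hb⟩ := rfl
        rw [h1, hfm, ha', hb', add_zero]
      inv_mem' := by
        rintro a ⟨ha, ha'⟩
        refine ⟨N.inv_mem ha, ?_⟩
        have h1 : (⟨a⁻¹, N.inv_mem ha⟩ : N) = (⟨a, ha⟩ : N)⁻¹ := rfl
        rw [h1, hfi, ha', neg_zero] }
  have hQc : IsClosed (Q : Set K) := by
    have h2 := hN.isClosedEmbedding_subtypeVal.isClosedMap _ (isClosed_singleton.preimage hf : IsClosed (f ⁻¹' {0}))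
    have h3 : (Subtype.val : N → K) '' (f ⁻¹' {0}) = (Q : Set K) := by
      ext k
      constructor
      · rintro ⟨a, ha, rfl⟩
        exact ⟨a.2, ha⟩
      · rintro ⟨hk, hk'⟩
        exact ⟨⟨k, hk⟩, hk', rfl⟩
    rw [← h3]
    exact h2
  have hMQ : M n ≤ Q := by
    apply Subgroup.topologicalClosure_minimal _ _ hQc
    rw [Subgroup.closure_le]
    rintro _ ⟨p, hp, a, ha, rfl⟩
    have h1 : p⁻¹ * a⁻¹ * p ∈ N := (cj p (⟨a, ha⟩ : N)⁻¹).2
    refine ⟨N.mul_mem h1 ha, ?_⟩
    have h2 : (⟨p⁻¹ * a⁻¹ * p * a, N.mul_mem h1 ha⟩ : N) = cj p (⟨a, ha⟩ : N)⁻¹ * ⟨a, ha⟩ := rfl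
    rw [h2, hfm, hPSt hp, hfi, neg_add_cancel]
  obtain ⟨_, h0⟩ := hMQ (hzM n)
  exact hχz h0

end H645.TM
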