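import Pool.Agent.H645R3.TM3
import Pool.Agent.H645R3.MC2

set_option autoImplicit false
set_option linter.style.haveILetI false
set_option linter.unusedSectionVars false

open Filter Topology Pointwise Cardinal

namespace H645.TM

variable {K : Type} [Group K] [TopologicalSpace K] [IsTopologicalGroup K] [CompactSpace K]
  [T2Space K]

/-- the `G_δ` property passes to quotients -/
theorem GD.map {N : Subgroup K} (h : GD N) (M : Subgroup K) [M.Normal]
    (hM : IsClosed (M : Set K)) : GD (N.map (QuotientGroup.mk' M)) := by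
  have hMc : IsClosed (M : Set K) := hM
  have hT3 : T3Space (K ⧸ M) := inferInstance
  have hc : Continuous (QuotientGroup.mk' M) := continuous_quot_mk
  obtain ⟨W, hW, hWc, hWa, hWN⟩ := h.closed
  refine ⟨fun n => (QuotientGroup.mk' M) '' (W n), fun n => ?_, fun q hq => ?_⟩
  · have hop : IsOpenMap (QuotientGroup.mk' M) := QuotientGroup.isOpenMap_coe
    have := hop.image_mem_nhds (hW n)
    rwa [map_one] at this
  · have hcl : IsClosed ((QuotientGroup.mk' M) ⁻¹' {q}) := isClosed_singleton.preimage hc
    obtain ⟨w, hw⟩ := IsCompact.nonempty_iInter_of_directed_nonempty_isCompact_isClosed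
      (fun n => W n ∩ (QuotientGroup.mk' M) ⁻¹' {q}) (by
        intro n m
        refine ⟨max n m, ?_, ?_⟩
        · exact Set.inter_subset_inter_left _ (hWa (le_max_left n m))
        · exact Set.inter_subset_inter_left _ (hWa (le_max_right n m))) (by
        intro n
        obtain ⟨y, hy, hyq⟩ := hq n
        exact ⟨y, hy, hyq⟩) (fun n => ((hWc n).inter hcl).isCompact)
      (fun n => (hWc n).inter hcl)
    rw [Set.mem_iInter] at hw
    exact ⟨w, hWN w fun n => (hw n).1, (hw 0).2⟩

/-- relative abelian step -/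
theorem GD.rel (Γ : Subgroup K) (hTD : TD Γ) (hTT : TT Γ) (N M : Subgroup K) [hNn : N.Normal]
    [hMn : M.Normal] (hN : IsClosed (N : Set K)) (hM : IsClosed (M : Set K))
    (hcomm : ∀ a ∈ N, ∀ b ∈ N, a⁻¹ * b⁻¹ * a * b ∈ M) (hG : GD N) : GD M := by
  have hMc : IsClosed (M : Set K) := hM
  have hT3 : T3Space (K ⧸ M) := inferInstance
  have hc : Continuous (QuotientGroup.mk' M) := continuous_quot_mk
  have hNn' : (N.map (QuotientGroup.mk' M)).Normal :=
    hNn.map _ (QuotientGroup.mk'_surjective M)
  have hkey : ∀ a b : K, a⁻¹ * b⁻¹ * a * b ∈ M →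
      QuotientGroup.mk' M a * QuotientGroup.mk' M b = QuotientGroup.mk' M b * QuotientGroup.mk' M a := by
    intro a b hab
    rw [← map_mul, ← map_mul]
    apply (QuotientGroup.eq).2
    have h5 : (a * b)⁻¹ * (b * a) = (a⁻¹ * b⁻¹ * a * b)⁻¹ * 1 ∨ True := Or.inr trivial
    have h6 : b⁻¹ * a⁻¹ * b * a ∈ M := by
      have h7 := hMn.conj_mem _ (M.inv_mem hab) (1 : K)
      have h8 : (1 : K) * (a⁻¹ * b⁻¹ * a * b)⁻¹ * 1⁻¹ = b⁻¹ * a⁻¹ * b * a := by group
      rwa [h8] at h7
    have h9 : (a * b)⁻¹ * (b * a) = b⁻¹ * a⁻¹ * b * a := by group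
    rw [h9]
    exact h6
  obtain ⟨W, hW, hWz⟩ := step0 (Γ.map (QuotientGroup.mk' M)) (hTD.quot M hM) (hTT.quot M hM)
    (N.map (QuotientGroup.mk' M)) (by
      have : ((N.map (QuotientGroup.mk' M) : Subgroup (K ⧸ M)) : Set (K ⧸ M)) =
        (QuotientGroup.mk' M) '' (N : Set K) := rfl
      rw [this]
      exact (hN.isCompact.image hc).isClosed) (by
      rintro _ ⟨a, ha, rfl⟩ _ ⟨b, hb, rfl⟩
      exact hkey a b (hcomm a ha b hb)) (hG.map M hM)
  refine ⟨fun n => (QuotientGroup.mk' M) ⁻¹' (W n), fun n => ?_, fun z hall => ?_⟩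
  · apply hc.continuousAt
    rw [map_one]
    exact hW n
  · have := hWz (QuotientGroup.mk' M z) hall
    exact (QuotientGroup.eq_one_iff z).1 (Subgroup.mem_bot.1 this)

/-- iteration along a normal series -/
theorem GD.series (Γ : Subgroup K) (hTD : TD Γ) (hTT : TT Γ) (E : ℕ → Subgroup K)
    (hEn : ∀ n, (E n).Normal) (hEc : ∀ n, IsClosed (E n : Set K)) (hE0 : E 0 = ⊤)
    (hE : ∀ n, ∀ a ∈ E n, ∀ b ∈ E n, a⁻¹ * b⁻¹ * a * b ∈ E (n + 1)) (n : ℕ) : GD (E n) := by
  induction n with
  | zero =>
    rw [hE0]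
    exact ⟨fun _ => Set.univ, fun _ => univ_mem, fun z _ => Subgroup.mem_top z⟩
  | succ n ih =>
    have := hEn n
    have := hEn (n + 1)
    exact GD.rel Γ hTD hTT (E n) (E (n + 1)) (hEc n) (hEc (n + 1)) (hE n) ih

open Pool.Agent.H241R3.Nil H645.MC

section
variable {G : Type} [Group G] [TopologicalSpace G] [IsTopologicalGroup G]

/-- the closure of the image of a normal subgroup is normal -/
theorem normal_closure_map (i : G →* K) (hd : DenseRange i) (N : Subgroup G) [hN : N.Normal] :
    ((N.map i).topologicalClosure).Normal := by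
  refine ⟨fun x hx k => ?_⟩
  have h1 : ∀ g : G, ∀ x ∈ (N.map i).topologicalClosure,
      i g * x * (i g)⁻¹ ∈ (N.map i).topologicalClosure := by
    intro g x hx
    have hcont : Continuous (fun x : K => i g * x * (i g)⁻¹) := by fun_prop
    have hmaps : Set.MapsTo (fun x : K => i g * x * (i g)⁻¹) ((N.map i : Subgroup K) : Set K)
        ((N.map i : Subgroup K) : Set K) := by
      rintro _ ⟨n, hn, rfl⟩
      refine ⟨g * n * g⁻¹, hN.conj_mem n hn g, ?_⟩
      simp only [map_mul, map_inv]
    exact hmaps.closure hcont hx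
  have hcl : IsClosed {k : K | k * x * k⁻¹ ∈ (N.map i).topologicalClosure} := by
    have hcont : Continuous (fun k : K => k * x * k⁻¹) := by fun_prop
    exact (Subgroup.isClosed_topologicalClosure _).preimage hcont
  have hsub : Set.range i ⊆ {k : K | k * x * k⁻¹ ∈ (N.map i).topologicalClosure} := by
    rintro _ ⟨g, rfl⟩
    exact h1 g x hx
  have h2 := hcl.closure_subset_iff.2 hsub
  rw [hd.closure_range] at h2
  exact h2 (Set.mem_univ k)

/-- continuous injective homomorphisms from minimal groups are inducing -/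
theorem inducing_of_minimal {G L : Type} [Group G] [TopologicalSpace G] [IsTopologicalGroup G]
    [Group L] [TopologicalSpace L] [IsTopologicalGroup L] [T2Space L]
    (hm : Minimal G) (φ : G →* L) (hφ : Continuous φ) (hinj : Function.Injective φ) :
    IsInducing φ := by
  have heq : TopologicalSpace.induced φ inferInstance = ‹TopologicalSpace G› := by
    apply hm
    · exact continuous_iff_le_induced.1 hφ
    · exact topologicalGroup_induced φ
    · exact @T2Space.of_injective_continuous G L
        (TopologicalSpace.induced φ inferInstance) _ _ φ hinj continuous_induced_dom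
  exact ⟨heq.symm⟩

/-- total minimality -/
def TotMin (G : Type) [Group G] [TopologicalSpace G] [IsTopologicalGroup G] : Prop :=
  ∀ N : Subgroup G, [N.Normal] → IsClosed (N : Set G) → Minimal (G ⧸ N)

theorem minimal_transfer {G Q : Type} [Group G] [tG : TopologicalSpace G] [Group Q]
    [TopologicalSpace Q] [IsTopologicalGroup Q] (hm : Minimal Q) (mk : G → Q)
    (hmk : IsInducing mk) (j : Q →* G) (hj : Function.Injective j) (hjmk : ∀ g, j (mk g) = g)
    (hcont : ∀ t' : TopologicalSpace G, tG ≤ t' → @Continuous Q G _ t' j) : Minimal G := by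
  intro t' hle htg hT2
  have h2 := @inducing_of_minimal Q G _ _ _ _ t' htg hT2 hm j (hcont t' hle) hj
  have h3 := @IsInducing.eq_induced _ _ _ t' _ h2
  have h4 := @IsInducing.eq_induced _ _ tG _ _ hmk
  rw [h4, h3, induced_compose]
  have h5 : (j ∘ mk) = id := funext hjmk
  rw [h5, induced_id]

theorem TotMin.minimal [T2Space G] (h : TotMin G) : Minimal G := by
  have hbot : IsClosed ((⊥ : Subgroup G) : Set G) := by
    rw [Subgroup.coe_bot]
    exact isClosed_singleton
  have hm := h ⊥ hbot
  have hmk : IsInducing (fun g : G => (g : G ⧸ (⊥ : Subgroup G))) := by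
    refine (IsOpenEmbedding.of_continuous_injective_isOpenMap continuous_quot_mk ?_
      QuotientGroup.isOpenMap_coe).isInducing
    intro a b hab
    have h1 : a⁻¹ * b ∈ (⊥ : Subgroup G) := QuotientGroup.eq.1 hab
    rw [Subgroup.mem_bot, inv_mul_eq_one] at h1
    exact h1
  let j : G ⧸ (⊥ : Subgroup G) →* G := QuotientGroup.lift ⊥ (MonoidHom.id G) (by
    intro x hx
    exact hx)
  have hji : Function.Injective j := by
    rw [injective_iff_map_eq_one]
    intro q hq
    obtain ⟨g, rfl⟩ := QuotientGroup.mk_surjective q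
    have : g = 1 := hq
    rw [this]
    rfl
  have hq : IsQuotientMap (fun g : G => (g : G ⧸ (⊥ : Subgroup G))) :=
    (QuotientGroup.isOpenQuotientMap_mk (N := (⊥ : Subgroup G))).isQuotientMap
  refine minimal_transfer hm _ hmk j hji (fun g => rfl) ?_
  have gen : ∀ {A B C : Type} (tA : TopologicalSpace A) (tB : TopologicalSpace B)
      (tC : TopologicalSpace C) (p : A → B) (q : B → C), IsQuotientMap p →
      Continuous (q ∘ p) → Continuous q := by
    intro A B C tA tB tC p q hp hqp
    exact hp.continuous_iff.2 hqp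
  exact fun t' hle => gen _ _ t' _ _ hq (continuous_id_of_le hle)

theorem TotMin.td (h : TotMin G) (i : G →* K) (hi : Continuous i) (hd : DenseRange i) :
    TD i.range := by
  intro M hMn hM x hx
  have hMc : IsClosed (M : Set K) := hM
  let N : Subgroup G := M.comap i
  have hNn : N.Normal := hMn.comap i
  have hNc : IsClosed (N : Set G) := hM.preimage hi
  let M' : Subgroup K := (N.map i).topologicalClosure
  have hM'n : M'.Normal := normal_closure_map i hd N
  have hM'c : IsClosed (M' : Set K) := Subgroup.isClosed_topologicalClosure _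
  have hM'M : M' ≤ M := by
    apply Subgroup.topologicalClosure_minimal _ _ hM
    rintro _ ⟨n, hn, rfl⟩
    exact hn
  have hM'e : (M' : Set K) ⊆ closure ((i.range : Set K) ∩ M) := by
    intro y hy
    refine closure_mono ?_ hy
    rintro _ ⟨n, hn, rfl⟩
    exact ⟨⟨n, rfl⟩, hn⟩
  apply hM'e
  by_contra hxM'
  have hT3 : T3Space (K ⧸ M') := inferInstance
  have hT3' : T3Space (G ⧸ N) := inferInstance
  have hcπ : Continuous (QuotientGroup.mk' M') := continuous_quot_mk
  let j : G ⧸ N →* K ⧸ M' := QuotientGroup.map N M' i (by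
    intro n hn
    exact Subgroup.le_topologicalClosure _ ⟨n, hn, rfl⟩)
  have hj : ∀ g : G, j (g : G ⧸ N) = (i g : K ⧸ M') := fun g => rfl
  have hjc : Continuous j := by
    apply continuous_quot_lift
    exact hcπ.comp hi
  have hjd : DenseRange j := by
    have h1 : DenseRange (fun g : G => QuotientGroup.mk' M' (i g)) :=
      (QuotientGroup.mk'_surjective M').denseRange.comp hd hcπ
    refine h1.mono ?_
    rintro _ ⟨g, rfl⟩
    exact ⟨(g : G ⧸ N), rfl⟩
  have hji : Function.Injective j := by
    rw [injective_iff_map_eq_one]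
    intro q hq
    obtain ⟨g, rfl⟩ := QuotientGroup.mk_surjective q
    rw [hj] at hq
    exact (QuotientGroup.eq_one_iff g).2 (hM'M ((QuotientGroup.eq_one_iff _).1 hq))
  have hm := h N hNc
  have hjind := inducing_of_minimal hm j hjc hji
  have hLn : (M.map (QuotientGroup.mk' M')).Normal :=
    hMn.map _ (QuotientGroup.mk'_surjective M')
  obtain ⟨q, hq1, hqL⟩ := essential hm j hjind hjd (M.map (QuotientGroup.mk' M')) (by
      have : ((M.map (QuotientGroup.mk' M') : Subgroup (K ⧸ M')) : Set (K ⧸ M')) =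
        (QuotientGroup.mk' M') '' (M : Set K) := rfl
      rw [this]
      exact (hM.isCompact.image hcπ).isClosed) (by
      intro hbot
      apply hxM'
      have h1 : QuotientGroup.mk' M' x ∈ M.map (QuotientGroup.mk' M') := ⟨x, hx, rfl⟩
      rw [hbot, Subgroup.mem_bot] at h1
      exact (QuotientGroup.eq_one_iff x).1 h1)
  obtain ⟨g, rfl⟩ := QuotientGroup.mk_surjective q
  obtain ⟨m, hm', hmg⟩ := hqL
  apply hq1
  refine (QuotientGroup.eq_one_iff g).2 ?_
  have h2 : m⁻¹ * i g ∈ M' := QuotientGroup.eq.1 hmg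
  have h3 : i g = m * (m⁻¹ * i g) := by group
  change i g ∈ M
  rw [h3]
  exact M.mul_mem hm' (hM'M h2)

theorem TotMin.tt (h : TotMin G) (ht : Pool.Agent.H241R3.Nil.Tight G) (i : G →* K) (hi : Continuous i) :
    TT i.range := by
  intro M hMn hM A hA hne
  obtain ⟨x, hxA, hxM⟩ := hne
  have hMc : IsClosed (M : Set K) := hM
  let N : Subgroup G := M.comap i
  have hNn : N.Normal := hMn.comap i
  have hNc : IsClosed (N : Set G) := hM.preimage hi
  have hT3 : T3Space (K ⧸ M) := inferInstance
  have hcπ : Continuous (QuotientGroup.mk' M) := continuous_quot_mk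
  let j : G ⧸ N →* K ⧸ M := QuotientGroup.map N M i (fun n hn => hn)
  have hj : ∀ g : G, j (g : G ⧸ N) = (i g : K ⧸ M) := fun g => rfl
  have hjc : Continuous j := by
    apply continuous_quot_lift
    exact hcπ.comp hi
  have hji : Function.Injective j := by
    rw [injective_iff_map_eq_one]
    intro q hq
    obtain ⟨g, rfl⟩ := QuotientGroup.mk_surjective q
    rw [hj] at hq
    exact (QuotientGroup.eq_one_iff g).2 ((QuotientGroup.eq_one_iff (N := M) _).1 hq)
  have hjind := inducing_of_minimal (h N hNc) j hjc hji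
  let A' : Set G := i ⁻¹' A
  let πG : G → G ⧸ N := fun g => (g : G ⧸ N)
  have h1 : (1 : G) ∈ closure (πG ⁻¹' (πG '' A')) := by
    have hop : IsOpenMap πG := QuotientGroup.isOpenMap_coe
    have hcG : Continuous πG := continuous_quot_mk
    rw [← hop.preimage_closure_eq_closure_preimage hcG]
    change πG 1 ∈ closure (πG '' A')
    rw [hjind.closure_eq_preimage_closure_image]
    change j 1 ∈ closure (j '' (πG '' A'))
    have h2 : j '' (πG '' A') = (QuotientGroup.mk' M) '' A := by
      ext q
      constructor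
      · rintro ⟨_, ⟨g, hg, rfl⟩, rfl⟩
        exact ⟨i g, hg, rfl⟩
      · rintro ⟨a, ha, rfl⟩
        obtain ⟨g, rfl⟩ := hA ha
        exact ⟨πG g, ⟨g, ha, rfl⟩, rfl⟩
    rw [h2, mk_closure M hM, map_one]
    exact ⟨x, hxA, (QuotientGroup.eq_one_iff x).2 hxM⟩
  obtain ⟨B, hBs, hBc, hB1⟩ := ht _ _ h1
  have hch : ∀ b : B, ∃ a ∈ A', πG a = πG b.1 := fun b => hBs b.2
  choose a haA ha using hch
  have hBc' : Countable B := hBc.to_subtype
  refine ⟨Set.range fun b => i (a b), ?_, Set.countable_range _, ?_⟩
  · rintro _ ⟨b, rfl⟩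
    exact haA b
  · have h3 : (1 : K ⧸ M) ∈ closure ((QuotientGroup.mk' M) '' (Set.range fun b => i (a b))) := by
      have hcont : Continuous (fun g : G => QuotientGroup.mk' M (i g)) := hcπ.comp hi
      have h4 := image_closure_subset_closure_image hcont ⟨1, hB1, rfl⟩
      have h5 : QuotientGroup.mk' M (i 1) = 1 := by rw [map_one, map_one]
      beta_reduce at h4
      rw [h5] at h4
      refine closure_mono ?_ h4
      rintro _ ⟨b, hb, rfl⟩
      refine ⟨i (a ⟨b, hb⟩), ⟨⟨b, hb⟩, rfl⟩, ?_⟩
      exact congrArg j (ha ⟨b, hb⟩)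
    rw [mk_closure M hM] at h3
    obtain ⟨k, hk, hk1⟩ := h3
    exact ⟨k, hk, (QuotientGroup.eq_one_iff k).1 hk1⟩

/-- the main theorem -/
theorem main [T2Space G] (hp : Precompact G) (h : TotMin G) (ht : Pool.Agent.H241R3.Nil.Tight G)
    (hs : ∃ n, derivedSeries G n = ⊥) : TopologicalSpace.MetrizableSpace G := by
  obtain ⟨K, _, _, _, _, _, i, hi, hd⟩ := exists_completion G hp
  obtain ⟨d, hd0⟩ := hs
  have hinj : Function.Injective i := hi.injective
  let E : ℕ → Subgroup K := fun n => ((derivedSeries G n).map i).topologicalClosure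
  have hEn : ∀ n, (E n).Normal := fun n => normal_closure_map i hd _
  have hEc : ∀ n, IsClosed (E n : Set K) := fun n => Subgroup.isClosed_topologicalClosure _
  have hE0 : E 0 = ⊤ := by
    rw [eq_top_iff]
    intro k _
    have h1 : k ∈ closure (Set.range i) := by
      rw [hd.closure_range]
      exact Set.mem_univ k
    refine closure_mono ?_ h1
    rintro _ ⟨g, rfl⟩
    exact ⟨g, by rw [derivedSeries_zero]; exact Subgroup.mem_top g, rfl⟩
  have hE : ∀ n, ∀ a ∈ E n, ∀ b ∈ E n, a⁻¹ * b⁻¹ * a * b ∈ E (n + 1) := by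
    intro n a ha b hb
    have hcont : Continuous (fun p : K × K => p.1⁻¹ * p.2⁻¹ * p.1 * p.2) := by fun_prop
    have hab : (a, b) ∈ closure ((((derivedSeries G n).map i : Subgroup K) : Set K) ×ˢ
        (((derivedSeries G n).map i : Subgroup K) : Set K)) := by
      rw [closure_prod_eq]
      exact ⟨ha, hb⟩
    have hmaps : Set.MapsTo (fun p : K × K => p.1⁻¹ * p.2⁻¹ * p.1 * p.2)
        ((((derivedSeries G n).map i : Subgroup K) : Set K) ×ˢ
        (((derivedSeries G n).map i : Subgroup K) : Set K))
        (((derivedSeries G (n + 1)).map i : Subgroup K) : Set K) := by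
      rintro ⟨_, _⟩ ⟨⟨x, hx, rfl⟩, ⟨y, hy, rfl⟩⟩
      refine ⟨x⁻¹ * y⁻¹ * x * y, ?_, ?_⟩
      · rw [derivedSeries_succ]
        have := Subgroup.commutator_mem_commutator ((derivedSeries G n).inv_mem hx)
          ((derivedSeries G n).inv_mem hy)
        rw [commutatorElement_def, inv_inv, inv_inv] at this
        exact this
      · simp only [map_mul, map_inv]
    exact hmaps.closure hcont hab
  obtain ⟨W, hW, hWz⟩ := GD.series i.range (h.td i hi.continuous hd) (h.tt ht i hi.continuous)
    E hEn hEc hE0 hE d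
  have hcp : CP (Set.univ : Set G) := by
    refine ⟨fun n => i ⁻¹' W n, fun n => ?_, fun z _ hz => ?_⟩
    · apply hi.continuous.continuousAt
      rw [map_one]
      exact hW n
    · have h1 := hWz (i z) hz
      apply hinj
      rw [map_one]
      have h2 : (((derivedSeries G d).map i : Subgroup K) : Set K) ⊆ {1} := by
        rintro _ ⟨g, hg, rfl⟩
        rw [hd0] at hg
        have hg1 : g = 1 := hg
        rw [hg1, map_one]
        rfl
      have h3 := closure_mono h2 h1
      rw [closure_singleton] at h3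
      exact h3
  -- minimality of G
  have hmin : Minimal G := h.minimal
  exact metrizable_of (countable_nhds hp hmin hcp)

end

end H645.TM
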