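import Pool.Agent.H645R3.Basic

set_option autoImplicit false
set_option linter.style.haveILetI false

open Filter Topology Pointwise

namespace H645

/-- finitely many translates cover -/
def Big {G : Type} [AddCommGroup G] (A : Set G) : Prop := ∃ F : Finset G, ∀ x, ∃ f ∈ F, x - f ∈ A

theorem Big.mono {G : Type} [AddCommGroup G] {A B : Set G} (h : A ⊆ B) (hA : Big A) : Big B := by
  obtain ⟨F, hF⟩ := hA
  refine ⟨F, fun x => ?_⟩
  obtain ⟨f, hf, hx⟩ := hF x
  exact ⟨f, hf, h hx⟩

/-- covering lemma -/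
theorem cover {G : Type} [AddCommGroup G] {ι : Type} (I : Finset ι) (A : ι → Set G)
    (F : Finset G) (h : ∀ x, ∃ f ∈ F, ∃ i ∈ I, x - f ∈ A i) : ∃ i ∈ I, Big (A i - A i) := by
  classical
  induction I using Finset.induction_on generalizing F with
  | empty =>
    obtain ⟨f, _, i, hi, _⟩ := h 0
    simp at hi
  | insert i I hi ih =>
    by_cases hb : Big (A i - A i)
    · exact ⟨i, Finset.mem_insert_self _ _, hb⟩
    · have h1 : ∃ g : G, ∀ f ∈ F, ∀ f' ∈ F, g - (f - f') ∉ A i - A i := by
        by_contra hcon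
        push Not at hcon
        apply hb
        refine ⟨F - F, fun x => ?_⟩
        obtain ⟨f, hf, f', hf', hx⟩ := hcon x
        exact ⟨f - f', Finset.sub_mem_sub hf hf', hx⟩
      obtain ⟨g, hg⟩ := h1
      obtain ⟨j, hj, hbj⟩ := ih (F ∪ F.image (fun f => f - g)) (by
        intro x
        obtain ⟨f, hf, j, hj, hx⟩ := h x
        rcases Finset.mem_insert.1 hj with rfl | hj
        · obtain ⟨f', hf', j', hj', hx'⟩ := h (x + g)
          rcases Finset.mem_insert.1 hj' with rfl | hj'
          · exfalso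
            apply hg f' hf' f hf
            refine ⟨x + g - f', hx', x - f, hx, ?_⟩
            simp only
            abel
          · refine ⟨f' - g, ?_, j', hj', ?_⟩
            · exact Finset.mem_union_right _ (Finset.mem_image_of_mem _ hf')
            · rw [show x - (f' - g) = x + g - f' by abel]
              exact hx'
        · exact ⟨f, Finset.mem_union_left _ hf, j, hj, hx⟩)
      exact ⟨j, Finset.mem_insert_of_mem hj, hbj⟩

theorem exists_seq {G : Type} [Zero G] (Q : ℕ → (ℕ → G) → G → Prop)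
    (hc : ∀ k p p' x, (∀ i < k, p i = p' i) → Q k p x → Q k p' x)
    (h : ∀ k p, ∃ x, Q k p x) : ∃ a : ℕ → G, ∀ k, Q k a (a k) := by
  classical
  choose f hf using h
  let F : ∀ n : ℕ, (∀ m : ℕ, m < n → G) → G :=
    fun n ih => f n (fun i => if hi : i < n then ih i hi else 0)
  let a : ℕ → G := fun n => WellFounded.fix (Nat.lt_wfRel.wf) F n
  have ha : ∀ n, a n = f n (fun i => if i < n then a i else 0) := by
    intro n
    change WellFounded.fix (Nat.lt_wfRel.wf) F n = _
    rw [WellFounded.fix_eq]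
    simp only [F, a, dite_eq_ite]
  refine ⟨a, fun k => ?_⟩
  refine hc k (fun i => if i < k then a i else 0) a (a k) (fun i hi => by simp [hi]) ?_
  have := hf k (fun i => if i < k then a i else 0)
  rw [← ha k] at this
  exact this

/-- the finite set of combinations -/
noncomputable def Cset {G : Type} [AddCommGroup G] (p : ℕ → G) : ℕ → Finset G
  | 0 => {0}
  | (k + 1) => by
    classical
    exact Cset p k + (Finset.Icc (-(2 : ℤ) ^ k) (2 ^ k)).image (fun j => j • p k)

theorem mem_Cset {G : Type} [AddCommGroup G] (p : ℕ → G) (ε : ℕ → ℤ) (k : ℕ)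
    (h : ∀ i, |ε i| ≤ 2 ^ i) : ∑ i ∈ Finset.range k, ε i • p i ∈ Cset p k := by
  classical
  induction k with
  | zero => simp [Cset]
  | succ k ih =>
    rw [Finset.sum_range_succ]
    refine Finset.add_mem_add ih ?_
    refine Finset.mem_image.2 ⟨ε k, ?_, rfl⟩
    rw [Finset.mem_Icc]
    exact abs_le.1 (h k)

/-- the sets generating the coarser topology -/
def Dset {G : Type} [AddCommGroup G] (a : ℕ → G) (n : ℕ) : Set G :=
  {x | ∃ (N : ℕ) (ε : ℕ → ℤ), (∀ k < n, ε k = 0) ∧ (∀ k, |ε k| ≤ 2 ^ (k - n)) ∧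
    x = ∑ k ∈ Finset.range N, ε k • a k}

theorem sum_extend {G : Type} [AddCommGroup G] (a : ℕ → G) (N M : ℕ) (hNM : N ≤ M) (ε : ℕ → ℤ) :
    ∑ k ∈ Finset.range N, ε k • a k =
      ∑ k ∈ Finset.range M, (if k < N then ε k else 0) • a k := by
  rw [← Finset.sum_subset (Finset.range_mono hNM)]
  · refine Finset.sum_congr rfl fun k hk => ?_
    rw [if_pos (Finset.mem_range.1 hk)]
  · intro k _ hk
    rw [Finset.mem_range] at hk
    rw [if_neg hk, zero_smul]

/-- If `G` is minimal then for every neighbourhood `V` of `0` there is `j ≥ 1` such that finitely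
many translates of `{x | j • x ∈ V}` cover `G`. -/
theorem IsMin.big {G : Type} [AddCommGroup G] [τ : TopologicalSpace G] [IsTopologicalAddGroup G]
    [T2Space G] (hG : IsMin G) (V : Set G) (hV : V ∈ 𝓝 (0 : G)) :
    ∃ j : ℕ, 1 ≤ j ∧ Big {x : G | j • x ∈ V} := by
  classical
  by_contra hcon
  push Not at hcon
  obtain ⟨U, hU, hUV⟩ : ∃ U ∈ 𝓝 (0 : G), U - U ⊆ V := by
    obtain ⟨U, hU, h⟩ := exists_nhds_half_neg hV
    refine ⟨U, hU, ?_⟩
    rintro _ ⟨a, ha, b, hb, rfl⟩
    exact h a ha b hb
  obtain ⟨U1, hU1, hU1U⟩ : ∃ U1 ∈ 𝓝 (0 : G), U1 - U1 ⊆ U := by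
    obtain ⟨U1, hU1, h⟩ := exists_nhds_half_neg hU
    refine ⟨U1, hU1, ?_⟩
    rintro _ ⟨a, ha, b, hb, rfl⟩
    exact h a ha b hb
  -- the sequence
  obtain ⟨a, ha⟩ : ∃ a : ℕ → G, ∀ k, ∀ f ∈ Cset a k, ∀ j : ℤ, j ≠ 0 → |j| ≤ 2 ^ k →
      j • a k + f ∉ U := by
    refine exists_seq (fun k p x => ∀ f ∈ Cset p k, ∀ j : ℤ, j ≠ 0 → |j| ≤ 2 ^ k → j • x + f ∉ U)
      ?_ ?_
    · intro k p p' x hpp h
      have hC : ∀ m, m ≤ k → Cset p m = Cset p' m := by
        intro m
        induction m with
        | zero => intro _; rfl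
        | succ m ih =>
          intro hm
          simp only [Cset]
          rw [ih (by omega), hpp m (by omega)]
      rw [← hC k le_rfl]
      exact h
    · intro k p
      by_contra hno
      push Not at hno
      let I : Finset (ℤ × G) := ((Finset.Icc (-(2 : ℤ) ^ k) (2 ^ k)).filter (fun j => j ≠ 0)) ×ˢ
        Cset p k
      obtain ⟨⟨j, f⟩, hjf, hb⟩ := cover I (fun q => {x : G | q.1 • x + q.2 ∈ U}) {0} (by
        intro x
        obtain ⟨f, hf, j, hj, hjk, hx⟩ := hno x
        refine ⟨0, Finset.mem_singleton_self _, (j, f), ?_, ?_⟩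
        · rw [Finset.mem_product, Finset.mem_filter, Finset.mem_Icc]
          exact ⟨⟨abs_le.1 hjk, hj⟩, hf⟩
        · simpa using hx)
      rw [Finset.mem_product, Finset.mem_filter] at hjf
      have hj0 : j ≠ 0 := hjf.1.2
      apply hcon j.natAbs (Nat.one_le_iff_ne_zero.2 (Int.natAbs_ne_zero.2 hj0))
      refine hb.mono ?_
      rintro _ ⟨x, hx, y, hy, rfl⟩
      simp only [Set.mem_ofPred_eq] at hx hy ⊢
      apply hUV
      rcases Int.natAbs_eq j with hj | hj
      · refine ⟨j • x + f, hx, j • y + f, hy, ?_⟩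
        simp only
        rw [← natCast_zsmul, ← hj, smul_sub]
        abel
      · refine ⟨j • y + f, hy, j • x + f, hx, ?_⟩
        simp only
        have h2 : ((j.natAbs : ℕ) : ℤ) = -j := by omega
        rw [← natCast_zsmul, h2, smul_sub, neg_smul, neg_smul]
        abel
  have hcomb : ∀ k (ε : ℕ → ℤ), (∀ i, |ε i| ≤ 2 ^ i) → ε k ≠ 0 →
      ∑ i ∈ Finset.range (k + 1), ε i • a i ∉ U := by
    intro k ε hε hk
    rw [Finset.sum_range_succ, add_comm]
    exact ha k _ (mem_Cset a ε k hε) (ε k) hk (hε k)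
  -- any combination with a nonzero coefficient avoids `U`
  have hcomb' : ∀ N (ε : ℕ → ℤ), (∀ i, |ε i| ≤ 2 ^ i) → (∃ i < N, ε i ≠ 0) →
      ∑ i ∈ Finset.range N, ε i • a i ∉ U := by
    intro N
    induction N with
    | zero => rintro ε _ ⟨i, hi, _⟩; omega
    | succ N ih =>
      intro ε hε hex
      by_cases hN : ε N = 0
      · rw [Finset.sum_range_succ, hN, zero_smul, add_zero]
        obtain ⟨i, hi, hi0⟩ := hex
        refine ih ε hε ⟨i, ?_, hi0⟩
        rcases Nat.lt_succ_iff_lt_or_eq.1 hi with h | h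
        · exact h
        · subst h; exact absurd hN hi0
      · exact hcomb N ε hε hN
  let B : Set (Set G) := Set.range (Dset a)
  have hanti : ∀ n m, n ≤ m → Dset a m ⊆ Dset a n := by
    rintro n m hnm x ⟨N, ε, h1, h2, rfl⟩
    refine ⟨N, ε, fun k hk => h1 k (by omega), fun k => (h2 k).trans ?_, rfl⟩
    exact pow_le_pow_right₀ (by norm_num) (by omega)
  have hmem0 : ∀ n, (0 : G) ∈ Dset a n := by
    intro n
    exact ⟨0, fun _ => 0, fun _ _ => rfl, fun k => by simp, by simp⟩
  obtain ⟨D, ⟨n, rfl⟩, hD⟩ := hG.subset B ⟨_, 0, rfl⟩ (by rintro _ ⟨n, rfl⟩; exact hmem0 n)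
    (by
      rintro _ ⟨n, rfl⟩ _ ⟨m, rfl⟩
      refine ⟨_, ⟨max n m, rfl⟩, Set.subset_inter (hanti _ _ (le_max_left _ _))
        (hanti _ _ (le_max_right _ _))⟩)
    (by
      rintro _ ⟨n, rfl⟩
      refine ⟨_, ⟨n + 1, rfl⟩, ?_⟩
      rintro _ ⟨_, ⟨N, ε, h1, h2, rfl⟩, _, ⟨M, δ, h3, h4, rfl⟩, rfl⟩
      refine ⟨max N M, fun k => (if k < N then ε k else 0) + (if k < M then δ k else 0), ?_, ?_, ?_⟩
      · intro k hk
        beta_reduce
        rw [h1 k (by omega), h3 k (by omega)]
        simp
      · intro k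
        beta_reduce
        rcases Nat.lt_or_ge k (n + 1) with hk | hk
        · rw [h1 k hk, h3 k hk]; simp
        · have e1 : |if k < N then ε k else 0| ≤ 2 ^ (k - (n + 1)) := by
            split_ifs
            · exact h2 k
            · simp
          have e2 : |if k < M then δ k else 0| ≤ 2 ^ (k - (n + 1)) := by
            split_ifs
            · exact h4 k
            · simp
          have e3 : (2 : ℤ) ^ (k - n) = 2 ^ (k - (n + 1)) + 2 ^ (k - (n + 1)) := by
            rw [show k - n = (k - (n + 1)) + 1 by omega, pow_succ]; ring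
          rw [e3]
          exact (abs_add_le _ _).trans (add_le_add e1 e2)
      · beta_reduce
        rw [sum_extend a N (max N M) (le_max_left _ _), sum_extend a M (max N M) (le_max_right _ _),
          ← Finset.sum_add_distrib]
        refine Finset.sum_congr rfl fun k _ => ?_
        rw [add_smul])
    (by
      rintro _ ⟨n, rfl⟩
      refine ⟨_, ⟨n, rfl⟩, ?_⟩
      rintro x ⟨N, ε, h1, h2, hx⟩
      refine ⟨N, fun k => -ε k, fun k hk => by beta_reduce; rw [h1 k hk, neg_zero], fun k => by
        beta_reduce; rw [abs_neg]; exact h2 k, ?_⟩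
      rw [← neg_neg x, hx, ← Finset.sum_neg_distrib]
      refine Finset.sum_congr rfl fun k _ => ?_
      rw [neg_smul])
    (by
      intro x hx
      by_contra hall
      push Not at hall
      have hall' : ∀ W ∈ 𝓝 (0 : G), ∀ n, x ∈ W + Dset a n := fun W hW n => hall W hW _ ⟨n, rfl⟩
      obtain ⟨v, hv, _, ⟨K, ε, h1, h2, rfl⟩, hxv⟩ := hall' U1 hU1 1
      obtain ⟨W, hW, hxW⟩ : ∃ W ∈ 𝓝 (0 : G), x ∉ W :=
        ⟨{x}ᶜ, isOpen_compl_singleton.mem_nhds (fun h => hx (by simpa using h.symm)), by simp⟩
      obtain ⟨w, hw, _, ⟨M, δ, h3, h4, rfl⟩, hxw⟩ := hall' (W ∩ U1) (inter_mem hW hU1) (K + 1)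
      simp only at hxv hxw
      by_cases hz : ∀ i < M, δ i = 0
      · apply hxW
        have : ∑ k ∈ Finset.range M, δ k • a k = 0 := by
          refine Finset.sum_eq_zero fun k hk => ?_
          rw [hz k (Finset.mem_range.1 hk), zero_smul]
        rw [this, add_zero] at hxw
        rw [← hxw]
        exact hw.1
      · push Not at hz
        obtain ⟨i, hi, hi0⟩ := hz
        have hKi : K < i := by
          by_contra hle
          exact hi0 (h3 i (by omega))
        have hkey := hcomb' (max K M)
          (fun k => (if k < K then ε k else 0) - (if k < M then δ k else 0)) ?_ ⟨i, ?_, ?_⟩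
        · apply hkey
          apply hU1U
          refine ⟨w, hw.2, v, hv, ?_⟩
          simp only
          have e1 := sum_extend a K (max K M) (le_max_left _ _) ε
          have e2 := sum_extend a M (max K M) (le_max_right _ _) δ
          simp only [sub_smul, Finset.sum_sub_distrib]
          rw [← e1, ← e2]
          have e3 : w + ∑ k ∈ Finset.range M, δ k • a k = v + ∑ k ∈ Finset.range K, ε k • a k := by
            rw [hxw, hxv]
          have e4 : w - v = ∑ k ∈ Finset.range K, ε k • a k - ∑ k ∈ Finset.range M, δ k • a k := by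
            rw [sub_eq_sub_iff_add_eq_add, e3, add_comm]
          exact e4
        · intro k
          by_cases hk : k < K
          · rw [if_pos hk, h3 k (by omega)]
            simp only [ite_self, sub_zero]
            exact (h2 k).trans (pow_le_pow_right₀ (by norm_num) (by omega))
          · rw [if_neg hk]
            split_ifs
            · rw [zero_sub, abs_neg]
              exact (h4 k).trans (pow_le_pow_right₀ (by norm_num) (by omega))
            · simp
        · exact lt_of_lt_of_le hi (le_max_right _ _)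
        · rw [if_neg (by omega), if_pos hi, zero_sub]
          exact neg_ne_zero.2 hi0)
    U hU
  have h9 : a n ∈ Dset a n := by
    refine ⟨n + 1, fun k => if k = n then 1 else 0, fun k hk => by beta_reduce; rw [if_neg (by omega)], ?_, ?_⟩
    · intro k
      beta_reduce
      split_ifs with h
      · subst h; simp
      · simp
    · simp
  have h10 := hcomb n (fun k => if k = n then 1 else 0) (by
    intro i
    beta_reduce
    split_ifs with h
    · rw [abs_one]; exact one_le_pow₀ (by norm_num)
    · simp) (by simp)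
  apply h10
  simpa using hD h9

end H645
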