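import Mathlib
import Pool.Agent.H645R3.ABC7
import Pool.Agent.H645R3.VB1

set_option autoImplicit false

namespace H645.VK

open Finset NumberField IsDedekindDomain Height

variable (K : Type) [Field K] [NumberField K]

theorem idfin (X : ℝ) : {I : Ideal (𝓞 K) | I ≠ ⊥ ∧ (Ideal.absNorm I : ℝ) ≤ X}.Finite := by
  refine (Ideal.finite_setOfPred_absNorm_le (S := 𝓞 K) ⌊X⌋₊).subset ?_
  rintro I ⟨-, hI⟩
  exact Nat.le_floor hI

/-- nonzero ideals of bounded norm -/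
noncomputable def idF (X : ℝ) : Finset (Ideal (𝓞 K)) := (idfin K X).toFinset

theorem mem_idF (X : ℝ) (I : Ideal (𝓞 K)) : I ∈ idF K X ↔ I ≠ ⊥ ∧ (Ideal.absNorm I : ℝ) ≤ X := by
  unfold idF
  rw [Set.Finite.mem_toFinset]
  rfl

theorem idF_card : ∃ C : ℝ, 0 < C ∧ ∀ X : ℝ, 1 ≤ X → ((idF K X).card : ℝ) ≤ C * X := by
  obtain ⟨C, hC, h⟩ := H645.ABC.ideal_count K
  refine ⟨C, hC, fun X hX => le_trans ?_ (h X hX)⟩
  have hf : {I : Ideal (𝓞 K) | (Ideal.absNorm I : ℝ) ≤ X}.Finite := by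
    refine (Ideal.finite_setOfPred_absNorm_le (S := 𝓞 K) ⌊X⌋₊).subset ?_
    intro I hI
    exact Nat.le_floor hI
  have h1 : Nat.card {I : Ideal (𝓞 K) // (Ideal.absNorm I : ℝ) ≤ X} =
      {I : Ideal (𝓞 K) | (Ideal.absNorm I : ℝ) ≤ X}.ncard := rfl
  rw [h1]
  have h2 : (idF K X).card = (↑(idF K X) : Set (Ideal (𝓞 K))).ncard := (Set.ncard_coe_finset _).symm
  rw [h2]
  exact_mod_cast Set.ncard_le_ncard (fun I hI => ((mem_idF K X I).1 hI).2) hf

theorem absNorm_pos_real (I : Ideal (𝓞 K)) (hI : I ≠ ⊥) : (1 : ℝ) ≤ Ideal.absNorm I := by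
  have : Ideal.absNorm I ≠ 0 := Ideal.absNorm_eq_zero_iff.not.mpr hI
  exact_mod_cast Nat.one_le_iff_ne_zero.2 this

/-- convergence of the zeta function of `K` at `1 + δ` -/
theorem zeta_bound (δ : ℝ) (hδ : 0 < δ) : ∃ ζ : ℝ, 0 < ζ ∧ ∀ X : ℝ,
    ∑ I ∈ idF K X, 1 / (Ideal.absNorm I : ℝ) ^ (1 + δ) ≤ ζ := by
  classical
  obtain ⟨C, hC, h⟩ := idF_card K
  have hq : (2 : ℝ) ^ (-δ) < 1 := Real.rpow_lt_one_of_one_lt_of_neg (by norm_num) (by linarith)
  have hq0 : (0 : ℝ) < (2 : ℝ) ^ (-δ) := by positivity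
  have hsum : Summable fun j : ℕ => ((2 : ℝ) ^ (-δ)) ^ j := summable_geometric_of_lt_one hq0.le hq
  refine ⟨2 * C * (∑' j : ℕ, ((2 : ℝ) ^ (-δ)) ^ j) + 1, ?_, fun X => ?_⟩
  · have : 0 ≤ ∑' j : ℕ, ((2 : ℝ) ^ (-δ)) ^ j := tsum_nonneg fun j => by positivity
    positivity
  set g : Ideal (𝓞 K) → ℕ := fun I => Nat.log 2 (Ideal.absNorm I) with hg
  set R := (idF K X).image g with hR
  have h1 : ∑ I ∈ idF K X, 1 / (Ideal.absNorm I : ℝ) ^ (1 + δ) =
      ∑ j ∈ R, ∑ I ∈ (idF K X).filter (fun I => g I = j), 1 / (Ideal.absNorm I : ℝ) ^ (1 + δ) :=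
    (Finset.sum_fiberwise_of_maps_to (fun I hI => Finset.mem_image_of_mem g hI) _).symm
  rw [h1]
  have h2 : ∀ j ∈ R, ∑ I ∈ (idF K X).filter (fun I => g I = j),
      1 / (Ideal.absNorm I : ℝ) ^ (1 + δ) ≤ 2 * C * ((2 : ℝ) ^ (-δ)) ^ j := by
    intro j _
    have h3 : ∀ I ∈ (idF K X).filter (fun I => g I = j),
        1 / (Ideal.absNorm I : ℝ) ^ (1 + δ) ≤ 1 / ((2 : ℝ) ^ j) ^ (1 + δ) := by
      intro I hI
      obtain ⟨hI1, hI2⟩ := Finset.mem_filter.1 hI
      have hne := ((mem_idF K X I).1 hI1).1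
      have hN : Ideal.absNorm I ≠ 0 := Ideal.absNorm_eq_zero_iff.not.mpr hne
      have h4 : 2 ^ j ≤ Ideal.absNorm I := by
        rw [← hI2]
        exact Nat.pow_log_le_self 2 hN
      have h5 : (2 : ℝ) ^ j ≤ Ideal.absNorm I := by exact_mod_cast h4
      have h6 : ((2 : ℝ) ^ j) ^ (1 + δ) ≤ (Ideal.absNorm I : ℝ) ^ (1 + δ) :=
        Real.rpow_le_rpow (by positivity) h5 (by linarith)
      exact one_div_le_one_div_of_le (by positivity) h6
    have h4 : (idF K X).filter (fun I => g I = j) ⊆ idF K ((2 : ℝ) ^ (j + 1)) := by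
      intro I hI
      obtain ⟨hI1, hI2⟩ := Finset.mem_filter.1 hI
      have hne := ((mem_idF K X I).1 hI1).1
      rw [mem_idF]
      refine ⟨hne, ?_⟩
      have h5 : Ideal.absNorm I < 2 ^ (j + 1) := by
        rw [← hI2]
        exact Nat.lt_pow_succ_log_self (by norm_num) _
      exact_mod_cast h5.le
    calc ∑ I ∈ (idF K X).filter (fun I => g I = j), 1 / (Ideal.absNorm I : ℝ) ^ (1 + δ)
        ≤ ∑ _I ∈ (idF K X).filter (fun I => g I = j), 1 / ((2 : ℝ) ^ j) ^ (1 + δ) :=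
          Finset.sum_le_sum h3
      _ = ((idF K X).filter (fun I => g I = j)).card * (1 / ((2 : ℝ) ^ j) ^ (1 + δ)) := by
          rw [Finset.sum_const, nsmul_eq_mul]
      _ ≤ (C * (2 : ℝ) ^ (j + 1)) * (1 / ((2 : ℝ) ^ j) ^ (1 + δ)) := by
          refine mul_le_mul_of_nonneg_right ?_ (by positivity)
          refine le_trans ?_ (h _ (one_le_pow₀ (by norm_num)))
          exact_mod_cast Finset.card_le_card h4
      _ = 2 * C * ((2 : ℝ) ^ (-δ)) ^ j := by
          have e1 : ((2 : ℝ) ^ j) ^ (1 + δ) = (2 : ℝ) ^ j * ((2 : ℝ) ^ δ) ^ j := by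
            rw [Real.rpow_add (by positivity), Real.rpow_one, ← Real.rpow_natCast, ← Real.rpow_natCast,
              ← Real.rpow_mul (by norm_num), ← Real.rpow_mul (by norm_num), mul_comm δ]
          rw [e1, Real.rpow_neg (by norm_num), inv_pow, pow_succ]
          field_simp
  calc ∑ j ∈ R, ∑ I ∈ (idF K X).filter (fun I => g I = j), 1 / (Ideal.absNorm I : ℝ) ^ (1 + δ)
      ≤ ∑ j ∈ R, 2 * C * ((2 : ℝ) ^ (-δ)) ^ j := Finset.sum_le_sum h2
    _ = 2 * C * ∑ j ∈ R, ((2 : ℝ) ^ (-δ)) ^ j := by rw [Finset.mul_sum]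
    _ ≤ 2 * C * (∑' j : ℕ, ((2 : ℝ) ^ (-δ)) ^ j) := by
        refine mul_le_mul_of_nonneg_left ?_ (by positivity)
        exact hsum.sum_le_tsum R (fun j _ => by positivity)
    _ ≤ _ := by linarith

/-- ideal vectors with bounded product -/
noncomputable def prI (ι : Type) [Fintype ι] [DecidableEq ι] (Z : ℝ) :
    Finset (ι → Ideal (𝓞 K)) :=
  haveI := Classical.decPred (fun m : ι → Ideal (𝓞 K) => ∏ i, (Ideal.absNorm (m i) : ℝ) ≤ Z)
  (Fintype.piFinset fun _ : ι => idF K Z).filter (fun m => ∏ i, (Ideal.absNorm (m i) : ℝ) ≤ Z)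

theorem mem_prI (ι : Type) [Fintype ι] [DecidableEq ι] (Z : ℝ) (m : ι → Ideal (𝓞 K))
    (h1 : ∀ i, m i ≠ ⊥) (h2 : ∏ i, (Ideal.absNorm (m i) : ℝ) ≤ Z) : m ∈ prI K ι Z := by
  classical
  unfold prI
  rw [Finset.mem_filter, Fintype.mem_piFinset]
  refine ⟨fun i => ?_, h2⟩
  rw [mem_idF]
  refine ⟨h1 i, le_trans ?_ h2⟩
  rw [← Finset.mul_prod_erase _ _ (Finset.mem_univ i)]
  have : (1 : ℝ) ≤ ∏ j ∈ Finset.univ.erase i, (Ideal.absNorm (m j) : ℝ) := by
    calc (1 : ℝ) = ∏ j ∈ Finset.univ.erase i, (1 : ℝ) := by simp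
      _ ≤ _ := Finset.prod_le_prod (fun _ _ => zero_le_one) fun j _ => absNorm_pos_real K _ (h1 j)
  nlinarith [absNorm_pos_real K _ (h1 i)]

theorem prI_card (ι : Type) [Fintype ι] [DecidableEq ι] (δ : ℝ) (hδ : 0 < δ) :
    ∃ C : ℝ, 0 < C ∧ ∀ Z : ℝ, 0 < Z → ((prI K ι Z).card : ℝ) ≤ C * Z ^ (1 + δ) := by
  classical
  obtain ⟨ζ, hζ, hb⟩ := zeta_bound K δ hδ
  refine ⟨ζ ^ (Fintype.card ι), by positivity, fun Z hZ => ?_⟩
  calc ((prI K ι Z).card : ℝ) = ∑ m ∈ prI K ι Z, (1 : ℝ) := by simp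
    _ ≤ ∑ m ∈ prI K ι Z, Z ^ (1 + δ) * ∏ i, 1 / ((Ideal.absNorm (m i) : ℝ)) ^ (1 + δ) := by
        refine Finset.sum_le_sum fun m hm => ?_
        unfold prI at hm
        rw [Finset.mem_filter, Fintype.mem_piFinset] at hm
        obtain ⟨hm1, hm2⟩ := hm
        have hm0 : ∀ i, (0 : ℝ) < Ideal.absNorm (m i) := fun i => by
          have := absNorm_pos_real K _ ((mem_idF K Z _).1 (hm1 i)).1
          linarith
        have hp0 : 0 < ∏ i, (Ideal.absNorm (m i) : ℝ) := Finset.prod_pos fun i _ => hm0 i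
        have h1 : ∏ i, 1 / ((Ideal.absNorm (m i) : ℝ)) ^ (1 + δ) =
            1 / (∏ i, (Ideal.absNorm (m i) : ℝ)) ^ (1 + δ) := by
          rw [Finset.prod_div_distrib, Finset.prod_const_one,
            Real.finsetProd_rpow _ _ (fun i _ => (hm0 i).le)]
        rw [h1, mul_one_div, ← Real.div_rpow hZ.le hp0.le]
        exact Real.one_le_rpow ((one_le_div hp0).2 hm2) (by linarith)
    _ ≤ ∑ m ∈ Fintype.piFinset fun _ : ι => idF K Z,
          Z ^ (1 + δ) * ∏ i, 1 / ((Ideal.absNorm (m i) : ℝ)) ^ (1 + δ) := by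
        refine Finset.sum_le_sum_of_subset_of_nonneg ?_ fun m _ _ => ?_
        · unfold prI
          exact Finset.filter_subset _ _
        · exact mul_nonneg (Real.rpow_nonneg hZ.le _)
            (Finset.prod_nonneg fun i _ => by positivity)
    _ = Z ^ (1 + δ) * ∏ i : ι, ∑ n ∈ idF K Z, 1 / ((Ideal.absNorm n : ℝ)) ^ (1 + δ) := by
        rw [← Finset.mul_sum, Finset.prod_univ_sum]
    _ ≤ Z ^ (1 + δ) * ∏ i : ι, ζ := by
        refine mul_le_mul_of_nonneg_left (Finset.prod_le_prod (fun i _ => ?_) fun i _ => ?_)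
          (Real.rpow_nonneg hZ.le _)
        · exact Finset.sum_nonneg fun n _ => by positivity
        · exact hb Z
    _ = ζ ^ (Fintype.card ι) * Z ^ (1 + δ) := by
        rw [Finset.prod_const, Finset.card_univ]; ring

/-- S-smooth ideals -/
def smI (S : Finset (HeightOneSpectrum (𝓞 K))) (I : Ideal (𝓞 K)) : Prop :=
  I ≠ ⊥ ∧ ∀ v : HeightOneSpectrum (𝓞 K), v.asIdeal ∣ I → v ∈ S

noncomputable def smIF (S : Finset (HeightOneSpectrum (𝓞 K))) (X : ℝ) : Finset (Ideal (𝓞 K)) :=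
  haveI := Classical.decPred (smI K S)
  (idF K X).filter (smI K S)

theorem smIF_card (S : Finset (HeightOneSpectrum (𝓞 K))) (δ : ℝ) (hδ : 0 < δ) :
    ∃ C : ℝ, 0 < C ∧ ∀ X : ℝ, 1 ≤ X → ((smIF K S X).card : ℝ) ≤ C * X ^ δ := by
  classical
  obtain ⟨C, hC, h⟩ := H645.VB.log_pow_le S.card δ hδ
  refine ⟨C, hC, fun X hX => le_trans ?_ (h X hX)⟩
  set N := ⌊X⌋₊ with hN
  have hN1 : 1 ≤ N := Nat.le_floor (by simpa using hX)
  have hcard : (smIF K S X).card ≤ (Nat.log 2 N + 1) ^ S.card := by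
    have : (smIF K S X).card ≤
        (Fintype.piFinset fun _ : S => Finset.range (Nat.log 2 N + 1)).card := by
      refine Finset.card_le_card_of_injOn (fun I => fun v : S => multiplicity v.1.asIdeal I) ?_ ?_
      · intro I hI
        have hI' : I ∈ smIF K S X := hI
        unfold smIF at hI'
        rw [Finset.mem_filter, mem_idF] at hI'
        obtain ⟨⟨hI1, hI2⟩, -, -⟩ := hI'
        simp only [Finset.mem_coe, Fintype.mem_piFinset, Finset.mem_range]
        intro v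
        rw [Nat.lt_succ_iff]
        refine Nat.le_log_of_pow_le (by norm_num) ?_
        have hd : v.1.asIdeal ^ multiplicity v.1.asIdeal I ∣ I := pow_multiplicity_dvd _ _
        have h1 := Ideal.absNorm_dvd_absNorm_of_le (Ideal.dvd_iff_le.1 hd)
        rw [map_pow] at h1
        have hI0 : Ideal.absNorm I ≠ 0 := Ideal.absNorm_eq_zero_iff.not.mpr hI1
        have h2 := Nat.le_of_dvd (Nat.pos_of_ne_zero hI0) h1
        have h3 : 2 ≤ Ideal.absNorm v.1.asIdeal := by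
          have := H645.ABC.one_lt_absNorm v.1
          omega
        have h4 : Ideal.absNorm I ≤ N := Nat.le_floor hI2
        exact (Nat.pow_le_pow_left h3 _).trans (h2.trans h4)
      · intro I hI J hJ hIJ
        have hI' : I ∈ smIF K S X := hI
        have hJ' : J ∈ smIF K S X := hJ
        unfold smIF at hI' hJ'
        rw [Finset.mem_filter] at hI' hJ'
        obtain ⟨-, hI1, hI2⟩ := hI'
        obtain ⟨-, hJ1, hJ2⟩ := hJ'
        rw [← Ideal.finprod_heightOneSpectrum_pow_multiplicity hI1,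
          ← Ideal.finprod_heightOneSpectrum_pow_multiplicity hJ1]
        refine finprod_congr fun v => ?_
        by_cases hv : v ∈ S
        · have := congrFun hIJ ⟨v, hv⟩
          simp only at this
          rw [this]
        · have h1 : multiplicity v.asIdeal I = 0 := multiplicity_eq_zero.2 fun h => hv (hI2 v h)
          have h2 : multiplicity v.asIdeal J = 0 := multiplicity_eq_zero.2 fun h => hv (hJ2 v h)
          rw [h1, h2]
    simpa using this
  have h2 : ((Nat.log 2 N + 1 : ℕ) : ℝ) ≤ Real.log X / Real.log 2 + 1 := by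
    push_cast
    have hl2 : 0 < Real.log 2 := Real.log_pos (by norm_num)
    have : (Nat.log 2 N : ℝ) ≤ Real.log X / Real.log 2 := by
      rw [le_div_iff₀ hl2]
      have h3 : (2 : ℕ) ^ (Nat.log 2 N) ≤ N := Nat.pow_log_le_self 2 (by omega)
      have h4 : ((2 : ℝ)) ^ (Nat.log 2 N) ≤ X := by
        have : ((2 ^ (Nat.log 2 N) : ℕ) : ℝ) ≤ (N : ℝ) := by exact_mod_cast h3
        calc ((2 : ℝ)) ^ (Nat.log 2 N) = ((2 ^ (Nat.log 2 N) : ℕ) : ℝ) := by push_cast; ring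
          _ ≤ N := this
          _ ≤ X := Nat.floor_le (by linarith)
      have := Real.log_le_log (by positivity) h4
      rwa [Real.log_pow] at this
    linarith
  calc ((smIF K S X).card : ℝ) ≤ (((Nat.log 2 N + 1) ^ S.card : ℕ) : ℝ) := by exact_mod_cast hcard
    _ = ((Nat.log 2 N + 1 : ℕ) : ℝ) ^ S.card := by push_cast; ring
    _ ≤ _ := pow_le_pow_left₀ (by positivity) h2 _

/-- units of bounded size -/
theorem unit_fin (Y : ℝ) : {u : (𝓞 K)ˣ | ∀ v : InfinitePlace K, v ((u : 𝓞 K) : K) ≤ Y}.Finite := by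
  have h := NumberField.Embeddings.finite_of_norm_le K ℂ Y
  have hinj : Function.Injective fun u : (𝓞 K)ˣ => ((u : 𝓞 K) : K) := by
    intro a b hab
    exact Units.ext (RingOfIntegers.coe_injective hab)
  refine (h.preimage hinj.injOn).subset ?_
  intro u hu
  refine ⟨(u : 𝓞 K).isIntegral_coe, fun φ => ?_⟩
  exact hu (InfinitePlace.mk φ)

noncomputable def unF (Y : ℝ) : Finset (𝓞 K)ˣ := (unit_fin K Y).toFinset

theorem mem_unF (Y : ℝ) (u : (𝓞 K)ˣ) : u ∈ unF K Y ↔ ∀ v : InfinitePlace K, v ((u : 𝓞 K) : K) ≤ Y := by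
  unfold unF
  rw [Set.Finite.mem_toFinset]
  rfl

theorem unF_card (δ : ℝ) (hδ : 0 < δ) :
    ∃ C : ℝ, 0 < C ∧ ∀ Y : ℝ, 1 ≤ Y → ((unF K Y).card : ℝ) ≤ C * Y ^ δ := by
  classical
  set d := Module.finrank ℚ K with hd
  have hd0 : 0 < d := Module.finrank_pos
  obtain ⟨C, hC, hV⟩ := H645.ABC.V_count (K := K) (δ / d) (by positivity)
  refine ⟨C, hC, fun Y hY => ?_⟩
  have hYd : 1 ≤ Y ^ d := one_le_pow₀ hY
  have h1 := hV (Y ^ d) 1 hYd le_rfl
  rw [Real.one_rpow, mul_one] at h1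
  have h2 : (Y ^ d) ^ (δ / d) = Y ^ δ := by
    rw [← Real.rpow_natCast, ← Real.rpow_mul (by linarith)]
    congr 1
    field_simp
  rw [h2] at h1
  refine le_trans ?_ h1
  have h3 : (unF K Y).card = Nat.card (unF K Y) := by simp
  rw [h3]
  have key : ∀ u : (𝓞 K)ˣ, u ∈ unF K Y →
      mulHeight₁ ((Units.map (algebraMap (𝓞 K) K : 𝓞 K →* K) u : Kˣ) : K) ≤ Y ^ d ∧
      H645.ABC.NS K (H645.ABC.sF (Units.map (algebraMap (𝓞 K) K : 𝓞 K →* K) u)) ≤ 1 := by
    intro u hu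
    rw [mem_unF] at hu
    constructor
    · rw [NumberField.mulHeight₁_eq]
      have e1 : ∏ᶠ v : FinitePlace K,
          max (v ((Units.map (algebraMap (𝓞 K) K : 𝓞 K →* K) u : Kˣ) : K)) 1 = 1 := by
        refine finprod_eq_one_of_forall_eq_one fun v => ?_
        exact max_eq_right (H645.ABC.fin_le_one v (u : 𝓞 K))
      rw [e1, mul_one]
      calc ∏ v : InfinitePlace K,
            max (v ((Units.map (algebraMap (𝓞 K) K : 𝓞 K →* K) u : Kˣ) : K)) 1 ^ v.mult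
          ≤ ∏ v : InfinitePlace K, Y ^ v.mult := by
            refine Finset.prod_le_prod (fun v _ => by positivity) fun v _ => ?_
            exact pow_le_pow_left₀ (by positivity) (max_le (hu v) hY) _
        _ = Y ^ d := by rw [Finset.prod_pow_eq_pow_sum, InfinitePlace.sum_mult_eq]
    · have e2 : H645.ABC.sF (Units.map (algebraMap (𝓞 K) K : 𝓞 K →* K) u) = ∅ := by
        rw [Finset.eq_empty_iff_forall_notMem]
        intro v hv
        rw [H645.ABC.mem_sF] at hv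
        apply hv
        have g1 := H645.ABC.vl_int_nonpos v (u : 𝓞 K)
          (Units.map (algebraMap (𝓞 K) K : 𝓞 K →* K) u) rfl
        have g2 := H645.ABC.vl_int_nonpos v ((u⁻¹ : (𝓞 K)ˣ) : 𝓞 K)
          (Units.map (algebraMap (𝓞 K) K : 𝓞 K →* K) u⁻¹) rfl
        rw [map_inv, H645.ABC.vl_inv] at g2
        omega
      rw [e2]
      unfold H645.ABC.NS
      simp
  haveI : Finite {y : Kˣ // mulHeight₁ (y : K) ≤ Y ^ d ∧ H645.ABC.NS K (H645.ABC.sF y) ≤ 1} := by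
    have := H645.ABC.finite_units (K := K) (Y ^ d)
    refine Finite.of_injective (β := {y : Kˣ // mulHeight₁ (y : K) ≤ Y ^ d})
      (fun y => ⟨y.1, y.2.1⟩) ?_
    intro a b hab
    have h4 : a.1 = b.1 := congrArg (fun z : {y : Kˣ // mulHeight₁ (y : K) ≤ Y ^ d} => z.1) hab
    exact Subtype.ext h4
  have h4 : Nat.card (unF K Y) ≤
      Nat.card {y : Kˣ // mulHeight₁ (y : K) ≤ Y ^ d ∧ H645.ABC.NS K (H645.ABC.sF y) ≤ 1} := by
    refine Nat.card_le_card_of_injective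
      (fun u : unF K Y => ⟨Units.map (algebraMap (𝓞 K) K : 𝓞 K →* K) u.1, key u.1 u.2⟩) ?_
    intro a b hab
    have h5 : Units.map (algebraMap (𝓞 K) K : 𝓞 K →* K) a.1 =
        Units.map (algebraMap (𝓞 K) K : 𝓞 K →* K) b.1 := congrArg Subtype.val hab
    apply Subtype.ext
    apply Units.ext
    have h6 := congrArg (fun z : Kˣ => (z : K)) h5
    exact RingOfIntegers.coe_injective h6
  exact_mod_cast h4

end H645.VK
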