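import Mathlib
import Pool.Agent.H645R3.VK1
import Pool.Agent.H645R3.VB3

set_option autoImplicit false

namespace H645.VK

open Finset NumberField IsDedekindDomain Height H645.VB

variable {k L : Type} [Field k] [NumberField k] [Field L] [NumberField L] [Algebra k L]

/-- the linear form `a₁ - a₂ y` -/
def ck (a : 𝓞 k × 𝓞 k) (y : L) : L :=
  algebraMap k L (a.1 : k) - algebraMap k L (a.2 : k) * y

theorem coe_map (x : 𝓞 k) : ((algebraMap (𝓞 k) (𝓞 L) x : 𝓞 L) : L) = algebraMap k L (x : k) := rfl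

theorem fin_of_int (w : FinitePlace L) (x : 𝓞 k) : w (algebraMap k L (x : k)) ≤ 1 := by
  rw [← coe_map]
  exact H645.ABC.fin_le_one w _

/-- the ideals attached to `y` and `a` -/
theorem local_data_k (y : L) : ∃ (β : 𝓞 L) (J : Ideal (𝓞 L)), β ≠ 0 ∧ J ≠ ⊥ ∧
    ∀ a : 𝓞 k × 𝓞 k, ck a y ≠ 0 → ∃ (γ : 𝓞 L) (C : Ideal (𝓞 L)), γ ≠ 0 ∧
      ((γ : 𝓞 L) : L) = ck a y * (β : L) ∧ C ≠ ⊥ ∧ Ideal.span {γ} = J * C ∧
    ∀ w : FinitePlace L, max (w y) 1 / w (ck a y) =
      (qq w : ℝ) ^ multiplicity w.maximalIdeal.asIdeal C := by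
  obtain ⟨α, β, hβ, hy⟩ := IsFractionRing.div_surjective (𝓞 L) y
  have hβ0 : β ≠ 0 := nonZeroDivisors.ne_zero hβ
  have hβL : (β : L) ≠ 0 := by
    intro h
    exact hβ0 (RingOfIntegers.coe_eq_zero_iff.1 h)
  set J : Ideal (𝓞 L) := Ideal.span {α, β} with hJ
  have hJ0 : J ≠ ⊥ := by
    intro h
    have : β ∈ (⊥ : Ideal (𝓞 L)) := h ▸ Ideal.subset_span (by simp)
    exact hβ0 (by simpa using this)
  refine ⟨β, J, hβ0, hJ0, fun a h => ?_⟩
  set γ : 𝓞 L := algebraMap (𝓞 k) (𝓞 L) a.1 * β - algebraMap (𝓞 k) (𝓞 L) a.2 * α with hγ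
  have hyβ : y * (β : L) = (α : L) := by
    rw [← hy]
    exact div_mul_cancel₀ _ hβL
  have hγL : ((γ : 𝓞 L) : L) = ck a y * (β : L) := by
    rw [ck, sub_mul, mul_assoc, hyβ, hγ]
    push_cast
    rfl
  have hγ0 : γ ≠ 0 := by
    intro h0
    rw [h0] at hγL
    have : (0 : L) = ck a y * (β : L) := by rw [← hγL]; simp
    rcases mul_eq_zero.1 this.symm with h1 | h1
    · exact h h1
    · exact hβL h1
  have hγJ : γ ∈ J := by
    rw [hγ]
    refine Ideal.sub_mem _ (Ideal.mul_mem_left _ _ (Ideal.subset_span (by simp)))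
      (Ideal.mul_mem_left _ _ (Ideal.subset_span (by simp)))
  have hdvd : J ∣ Ideal.span {γ} := by
    rw [Ideal.dvd_iff_le, Ideal.span_singleton_le_iff_mem]
    exact hγJ
  obtain ⟨C, hC⟩ := hdvd
  have hγs : Ideal.span {γ} ≠ (⊥ : Ideal (𝓞 L)) := mt Submodule.span_singleton_eq_bot.mp hγ0
  have hC0 : C ≠ ⊥ := by
    rintro rfl
    rw [Ideal.mul_bot] at hC
    exact hγs hC
  refine ⟨γ, C, hγ0, hγL, hC0, hC, fun w => ?_⟩
  have e1 := apply_eq w γ hγ0
  have e2 := max_eq w α β hβ0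
  have e3 : multiplicity w.maximalIdeal.asIdeal (Ideal.span {γ}) =
      multiplicity w.maximalIdeal.asIdeal J + multiplicity w.maximalIdeal.asIdeal C := by
    rw [hC]
    exact multiplicity_mul w.maximalIdeal.prime (by rw [← hC]; exact fin_mult w _ hγs)
  rw [e3] at e1
  rw [← hJ] at e2
  have hβw : 0 < w (β : L) := FinitePlace.pos_iff.2 hβL
  have hq := qq_pos w
  have e4 : w (ck a y) = w ((γ : 𝓞 L) : L) / w (β : L) := by
    rw [hγL, map_mul, mul_div_cancel_right₀ _ hβw.ne']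
  have e5 : max (w y) 1 = max (w (α : L)) (w (β : L)) / w (β : L) := by
    rw [← max_div_div_right hβw.le, div_self hβw.ne', ← hyβ, map_mul,
      mul_div_cancel_right₀ _ hβw.ne']
  rw [e5, e4, e1, e2, div_div_div_cancel_right₀ hβw.ne', pow_add]
  field_simp

/-- `w` lies above the prime `p` of `k` -/
def lies (p : HeightOneSpectrum (𝓞 k)) (w : FinitePlace L) : Prop :=
  ∀ x ∈ p.asIdeal, w (algebraMap k L (x : k)) < 1

theorem lies_iff (p : HeightOneSpectrum (𝓞 k)) (w : FinitePlace L) :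
    lies p w ↔ w.maximalIdeal.asIdeal ∣ p.asIdeal.map (algebraMap (𝓞 k) (𝓞 L)) := by
  rw [Ideal.dvd_iff_le, Ideal.map_le_iff_le_comap]
  unfold lies
  constructor
  · intro h x hx
    rw [Ideal.mem_comap]
    have h1 := h x hx
    rw [← coe_map, ← FinitePlace.norm_embedding_eq] at h1
    exact (FinitePlace.norm_lt_one_iff_mem L w.maximalIdeal _).1 h1
  · intro h x hx
    have h1 := h hx
    rw [Ideal.mem_comap] at h1
    rw [← coe_map, ← FinitePlace.norm_embedding_eq]
    exact (FinitePlace.norm_lt_one_iff_mem L w.maximalIdeal _).2 h1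

theorem map_ne (p : HeightOneSpectrum (𝓞 k)) :
    p.asIdeal.map (algebraMap (𝓞 k) (𝓞 L)) ≠ ⊥ := by
  intro h
  rw [Ideal.map_eq_bot_iff_of_injective (FaithfulSMul.algebraMap_injective _ _)] at h
  exact p.ne_bot h

theorem fr : Module.finrank (𝓞 k) (𝓞 L) = Module.finrank k L := by
  have h1 := Ideal.absNorm_algebraMap (𝓞 k) (S := 𝓞 L) (Ideal.span {((2 : ℕ) : 𝓞 k)})
  rw [Ideal.map_span, Set.image_singleton, map_natCast, norm_nat, norm_nat, ← pow_mul] at h1
  have h2 := Nat.pow_right_injective le_rfl h1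
  have h3 := Module.finrank_mul_finrank ℚ k L
  rw [← h3] at h2
  exact (Nat.eq_of_mul_eq_mul_left (Module.finrank_pos) h2).symm

theorem relNorm_dvd (p : HeightOneSpectrum (𝓞 k)) (w : FinitePlace L) (h : lies p w) :
    Ideal.relNorm (𝓞 k) w.maximalIdeal.asIdeal ∣ p.asIdeal ^ Module.finrank k L := by
  have h1 := map_dvd (Ideal.relNorm (𝓞 k)) ((lies_iff p w).1 h)
  rw [Ideal.relNorm_algebraMap, fr] at h1
  exact h1

theorem le_qq_k (p : HeightOneSpectrum (𝓞 k)) (w : FinitePlace L) (h : lies p w) :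
    Ideal.absNorm p.asIdeal ≤ qq w := by
  have hp : Prime p.asIdeal := p.prime
  obtain ⟨j, -, hj⟩ := (dvd_prime_pow hp _).1 (relNorm_dvd p w h)
  rw [associated_iff_eq] at hj
  have h1 : qq w = Ideal.absNorm p.asIdeal ^ j := by
    unfold qq
    rw [← Ideal.absNorm_relNorm (𝓞 k) (𝓞 L) w.maximalIdeal.asIdeal, hj, map_pow]
  have h2 := two_le_qq w
  rcases Nat.eq_zero_or_pos j with h0 | h0
  · rw [h0, pow_zero] at h1; omega
  · rw [h1]
    exact Nat.le_self_pow (by omega) _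

theorem mult_pos_k (p : HeightOneSpectrum (𝓞 k)) (w : FinitePlace L) (h : lies p w) :
    1 ≤ multiplicity w.maximalIdeal.asIdeal (p.asIdeal.map (algebraMap (𝓞 k) (𝓞 L))) := by
  rw [le_mult_iff w _ (map_ne p), pow_one, ← Ideal.dvd_iff_le]
  exact (lies_iff p w).1 h

theorem card_one_k (p : HeightOneSpectrum (𝓞 k)) (W : Finset (FinitePlace L))
    (hW : ∀ w ∈ W, lies p w) : W.card ≤ Module.finrank k L := by
  have h1 := prod_dvd_norm _ (map_ne (L := L) p) W
  rw [Ideal.absNorm_algebraMap, fr] at h1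
  have hp1 := H645.ABC.one_lt_absNorm p
  have h2 := Nat.le_of_dvd (pow_pos (by omega) _) h1
  have h3 : Ideal.absNorm p.asIdeal ^ W.card ≤ ∏ w ∈ W, qq w ^ multiplicity w.maximalIdeal.asIdeal
      (p.asIdeal.map (algebraMap (𝓞 k) (𝓞 L))) := by
    rw [← Finset.prod_const]
    refine Finset.prod_le_prod' fun w hw => ?_
    refine (le_qq_k p w (hW w hw)).trans (Nat.le_self_pow ?_ _)
    have := mult_pos_k p w (hW w hw)
    omega
  exact (Nat.pow_le_pow_iff_right hp1).1 (h3.trans h2)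

variable (L) in
theorem above_fin (S : Finset (HeightOneSpectrum (𝓞 k))) :
    {w : FinitePlace L | ∃ p ∈ S, lies p w}.Finite := by
  have : {w : FinitePlace L | ∃ p ∈ S, lies p w} =
      ⋃ p ∈ S, {w : FinitePlace L | lies p w} := by
    ext w; simp
  rw [this]
  refine Set.Finite.biUnion S.finite_toSet fun p _ => ?_
  obtain ⟨x, hx, hx0⟩ := Submodule.exists_mem_ne_zero_of_ne_bot p.ne_bot
  have hp0 : algebraMap k L (x : k) ≠ 0 := by
    intro h
    have := (map_eq_zero _).1 h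
    exact hx0 (RingOfIntegers.coe_eq_zero_iff.1 this)
  exact (FinitePlace.hasFiniteMulSupport hp0).subset fun w hw => ne_of_lt (hw x hx)

variable (L) in
/-- places above `S` as a finset -/
noncomputable def abK (S : Finset (HeightOneSpectrum (𝓞 k))) : Finset (FinitePlace L) :=
  (above_fin L S).toFinset

theorem mem_abK (S : Finset (HeightOneSpectrum (𝓞 k))) (w : FinitePlace L) :
    w ∈ abK L S ↔ ∃ p ∈ S, lies p w := by
  unfold abK
  rw [Set.Finite.mem_toFinset]
  rfl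

theorem card_abK (S : Finset (HeightOneSpectrum (𝓞 k))) :
    (abK L S).card ≤ Module.finrank k L * S.card := by
  classical
  have h1 : abK L S ⊆ S.biUnion fun p => (abK L S).filter fun w => lies p w := by
    intro w hw
    obtain ⟨p, hp, hwp⟩ := (mem_abK S w).1 hw
    rw [Finset.mem_biUnion]
    exact ⟨p, hp, Finset.mem_filter.2 ⟨hw, hwp⟩⟩
  refine (Finset.card_le_card h1).trans (Finset.card_biUnion_le.trans ?_)
  calc ∑ p ∈ S, ((abK L S).filter fun w => lies p w).card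
      ≤ ∑ _p ∈ S, Module.finrank k L :=
        Finset.sum_le_sum fun p _ => card_one_k p _ fun w hw => (Finset.mem_filter.1 hw).2
    _ = Module.finrank k L * S.card := by rw [Finset.sum_const, smul_eq_mul, mul_comm]

/-- splitting of the ideals, and their norms -/
theorem split_k (S : Finset (HeightOneSpectrum (𝓞 k))) (C : Ideal (𝓞 L)) (hC : C ≠ ⊥) :
    ∃ s m : Ideal (𝓞 k), smI k S s ∧ m ≠ ⊥ ∧ s * m = Ideal.relNorm (𝓞 k) C ∧
      (Ideal.absNorm s : ℝ) = ∏ w ∈ abK L S, (qq w : ℝ) ^ multiplicity w.maximalIdeal.asIdeal C ∧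
      Ideal.absNorm (s * m) = Ideal.absNorm C := by
  classical
  set C1 : Ideal (𝓞 L) := ∏ w ∈ abK L S,
    w.maximalIdeal.asIdeal ^ multiplicity w.maximalIdeal.asIdeal C with hC1
  have hd : C1 ∣ C := by
    conv_rhs => rw [← FinitePlace.finprod_finitePlace_pow_multiplicity hC]
    have hfs := FinitePlace.hasFiniteMulSupport_fun_pow_multiplicity hC (·)
    rw [finprod_eq_prod_of_mulSupport_subset (s := abK L S ∪ hfs.toFinset) _ ?_]
    · exact Finset.prod_dvd_prod_of_subset _ _ _ Finset.subset_union_left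
    · intro w hw
      simp only [Finset.coe_union, Set.mem_union, Finset.mem_coe]
      right
      exact (Set.Finite.mem_toFinset hfs).2 hw
  obtain ⟨C2, hC2⟩ := hd
  have h10 : C1 ≠ ⊥ := by
    rintro h
    rw [h, Ideal.bot_mul] at hC2
    exact hC hC2
  have h20 : C2 ≠ ⊥ := by
    rintro h
    rw [h, Ideal.mul_bot] at hC2
    exact hC hC2
  refine ⟨Ideal.relNorm (𝓞 k) C1, Ideal.relNorm (𝓞 k) C2, ⟨?_, ?_⟩, ?_, ?_, ?_, ?_⟩
  · rwa [Ne, Ideal.relNorm_eq_bot_iff]
  · intro v hv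
    rw [hC1, map_prod] at hv
    obtain ⟨w, hw, hvw⟩ := (v.prime.dvd_finsetProd_iff _).1 hv
    rw [map_pow] at hvw
    have h1 := v.prime.dvd_of_dvd_pow hvw
    obtain ⟨p, hp, hwp⟩ := (mem_abK S w).1 hw
    have h2 := v.prime.dvd_of_dvd_pow (h1.trans (relNorm_dvd p w hwp))
    have h3 := (v.prime.dvd_prime_iff_associated p.prime).1 h2
    rw [associated_iff_eq] at h3
    have : v = p := HeightOneSpectrum.ext h3
    rw [this]; exact hp
  · rwa [Ne, Ideal.relNorm_eq_bot_iff]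
  · rw [← map_mul, ← hC2]
  · rw [Ideal.absNorm_relNorm, hC1, map_prod]
    push_cast
    refine Finset.prod_congr rfl fun w _ => ?_
    rw [map_pow]
    push_cast
    rfl
  · rw [← map_mul, ← hC2, Ideal.absNorm_relNorm]

end H645.VK
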