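import Mathlib
import Pool.Agent.H645R3.VK2
import Pool.Agent.H645R3.VB4

set_option autoImplicit false

namespace H645.VK

open Finset NumberField IsDedekindDomain Height H645.VB

variable {k L : Type} [Field k] [NumberField k] [Field L] [NumberField L] [Algebra k L]

theorem prod_arch_k (y : L) (t : L) (h : t ≠ 0) :
    (∏ᶠ w : FinitePlace L, max (w y) 1 / w t) *
      ∏ v : InfinitePlace L, (max (v y) 1 / v t) ^ v.mult = mulHeight₁ y := by
  rw [NumberField.mulHeight₁_eq, finprod_div_distrib (hfs_max y) (FinitePlace.hasFiniteMulSupport h)]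
  have h1 := prod_abs_eq_one h
  simp only [div_pow]
  rw [Finset.prod_div_distrib, div_mul_div_comm,
    mul_comm (∏ᶠ w : FinitePlace L, w t), h1, div_one, mul_comm]

/-- infinite places of `L` and `k` -/
theorem card_inf_k : Fintype.card (InfinitePlace L) ≤
    Module.finrank k L * Fintype.card (InfinitePlace k) := by
  classical
  have h1 : (Finset.univ : Finset (InfinitePlace L)).card ≤
      Module.finrank k L * (Finset.univ : Finset (InfinitePlace k)).card := by
    refine Finset.card_le_mul_card_image_of_maps_to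
      (f := fun w : InfinitePlace L => w.comap (algebraMap k L)) (fun _ _ => Finset.mem_univ _)
      (Module.finrank k L) fun v _ => ?_
    letI : Algebra k ℂ := v.embedding.toAlgebra
    have hcard : Fintype.card (L →ₐ[k] ℂ) = Module.finrank k L := AlgHom.card k L ℂ
    rw [← hcard, ← Finset.card_univ]
    -- every place above `v` comes from a `k`-embedding
    have hsurj : (Finset.univ.filter fun w : InfinitePlace L => w.comap (algebraMap k L) = v) ⊆
        (Finset.univ : Finset (L →ₐ[k] ℂ)).image
          (fun σ : L →ₐ[k] ℂ => InfinitePlace.mk σ.toRingHom) := by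
      intro w hw
      have hw' := (Finset.mem_filter.1 hw).2
      rw [Finset.mem_image]
      have hcm : InfinitePlace.mk (w.embedding.comp (algebraMap k L)) = v := by
        rw [← hw', ← InfinitePlace.comap_mk, InfinitePlace.mk_embedding]
      rcases (InfinitePlace.mk_eq_iff.1 (hcm.trans (InfinitePlace.mk_embedding v).symm)) with h | h
      · refine ⟨{ w.embedding with commutes' := fun x => RingHom.congr_fun h x },
          Finset.mem_univ _, ?_⟩
        exact InfinitePlace.mk_embedding w
      · refine ⟨{ ComplexEmbedding.conjugate w.embedding with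
            commutes' := fun x => RingHom.congr_fun h x }, Finset.mem_univ _, ?_⟩
        · have : InfinitePlace.mk (ComplexEmbedding.conjugate w.embedding) = w := by
            rw [InfinitePlace.mk_conjugate_eq, InfinitePlace.mk_embedding]
          exact this
    exact (Finset.card_le_card hsurj).trans Finset.card_image_le
  simpa using h1

theorem inf_comap (v : InfinitePlace L) (x : k) :
    v (algebraMap k L x) = v.comap (algebraMap k L) x := rfl

/-- no two different points are close at the same place -/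
theorem not_both (f : L → ℝ) (hmul : ∀ x y, f (x * y) = f x * f y)
    (hsub : ∀ x y, f (x - y) ≤ f x + f y) (hnn : ∀ x, 0 ≤ f x) (N A : ℝ) (hA : 1 ≤ A)
    (a b : 𝓞 k × 𝓞 k)
    (ha1 : f (algebraMap k L (a.1 : k)) ≤ A) (ha2 : f (algebraMap k L (a.2 : k)) ≤ A)
    (hb1 : f (algebraMap k L (b.1 : k)) ≤ A) (hb2 : f (algebraMap k L (b.2 : k)) ≤ A)
    (c0 : ℝ) (hN : 0 < N) (hN2 : 2 * A ≤ c0 * N)
    (hdet : c0 ≤ f (algebraMap k L ((a.1 * b.2 - a.2 * b.1 : 𝓞 k) : k))) (y : L)
    (h1 : close (N⁻¹) (f y) (f (ck a y))) (h2 : close (N⁻¹) (f y) (f (ck b y))) : False := by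
  set M := max (f y) 1 with hM
  have hM1 : 1 ≤ M := le_max_right _ _
  unfold close at h1 h2
  rw [← hM] at h1 h2
  have hNi : 0 < N⁻¹ := by positivity
  have hc : 2 * A * N⁻¹ ≤ c0 := by
    rw [← div_eq_mul_inv, div_le_iff₀ hN]
    exact hN2
  have hcoe : ((a.1 * b.2 - a.2 * b.1 : 𝓞 k) : k) =
      (a.1 : k) * (b.2 : k) - (a.2 : k) * (b.1 : k) := rfl
  have det1 : algebraMap k L (b.2 : k) * ck a y - algebraMap k L (a.2 : k) * ck b y =
      algebraMap k L ((a.1 * b.2 - a.2 * b.1 : 𝓞 k) : k) := by
    rw [hcoe, map_sub, map_mul, map_mul]; unfold ck; ring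
  have det2 : algebraMap k L (b.1 : k) * ck a y - algebraMap k L (a.1 : k) * ck b y =
      algebraMap k L ((a.1 * b.2 - a.2 * b.1 : 𝓞 k) : k) * y := by
    rw [hcoe, map_sub, map_mul, map_mul]; unfold ck; ring
  have key : ∀ c d : L, f c ≤ A → f d ≤ A → f (c * ck a y - d * ck b y) < c0 * M := by
    intro c d hc' hd'
    refine (hsub _ _).trans_lt ?_
    rw [hmul, hmul]
    have hfa := hnn (ck a y)
    have hfb := hnn (ck b y)
    have e1 : f c * f (ck a y) ≤ A * f (ck a y) := by gcongr
    have e2 : f d * f (ck b y) ≤ A * f (ck b y) := by gcongr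
    have e3 : A * f (ck a y) < A * (N⁻¹ * M) := mul_lt_mul_of_pos_left h1 (by linarith)
    have e4 : A * f (ck b y) < A * (N⁻¹ * M) := mul_lt_mul_of_pos_left h2 (by linarith)
    have e5 : 2 * A * N⁻¹ * M ≤ c0 * M := by gcongr
    linarith
  have k1 := key _ _ hb2 ha2
  have k2 := key _ _ hb1 ha1
  rw [det1] at k1
  rw [det2, hmul] at k2
  rcases le_total (f y) 1 with h | h
  · rw [hM, max_eq_right h, mul_one] at k1
    linarith
  · rw [hM, max_eq_left h] at k2
    have : c0 * f y ≤ f (algebraMap k L ((a.1 * b.2 - a.2 * b.1 : 𝓞 k) : k)) * f y := by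
      have : 0 ≤ f y := by linarith
      gcongr
    linarith

theorem inf_sub (v : InfinitePlace L) (p q : L) : v (p - q) ≤ v p + v q := by
  rw [← InfinitePlace.norm_embedding_eq v, ← InfinitePlace.norm_embedding_eq v,
    ← InfinitePlace.norm_embedding_eq v, map_sub]
  exact norm_sub_le _ _

theorem fin_neg (w : FinitePlace L) (q : L) : w (-q) = w q := by
  have h1 : w (-1 : L) = 1 := by
    have h2 : w (-1 : L) * w (-1 : L) = 1 := by rw [← map_mul]; simp
    have h3 : 0 ≤ w (-1 : L) := apply_nonneg w _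
    nlinarith
  rw [show -q = (-1 : L) * q by ring, map_mul, h1, one_mul]

theorem fin_sub' (w : FinitePlace L) (p q : L) : w (p - q) ≤ max (w p) (w q) := by
  rw [sub_eq_add_neg, ← fin_neg w q]
  exact FinitePlace.add_le w _ _

theorem fin_sub (w : FinitePlace L) (p q : L) : w (p - q) ≤ w p + w q :=
  (fin_sub' w p q).trans (max_le_add_of_nonneg (apply_nonneg w _) (apply_nonneg w _))

theorem det_fin (w : FinitePlace L) (t : 𝓞 k) (ht : t ≠ 0) :
    ((Ideal.absNorm (Ideal.span {t}) : ℝ) ^ Module.finrank k L)⁻¹ ≤ w (algebraMap k L (t : k)) := by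
  have ht' : algebraMap (𝓞 k) (𝓞 L) t ≠ 0 := by
    intro h
    exact ht ((FaithfulSMul.algebraMap_injective (𝓞 k) (𝓞 L)) (by rw [h, map_zero]))
  rw [← coe_map, apply_eq w _ ht']
  have hs : Ideal.span {algebraMap (𝓞 k) (𝓞 L) t} ≠ (⊥ : Ideal (𝓞 L)) :=
    mt Submodule.span_singleton_eq_bot.mp ht'
  have h1 := prod_dvd_norm _ hs {w}
  rw [Finset.prod_singleton] at h1
  have e : Ideal.absNorm (Ideal.span {algebraMap (𝓞 k) (𝓞 L) t}) =
      Ideal.absNorm (Ideal.span {t}) ^ Module.finrank k L := by
    have := Ideal.absNorm_algebraMap (𝓞 k) (S := 𝓞 L) (Ideal.span {t})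
    rw [Ideal.map_span, Set.image_singleton, fr] at this
    exact this
  rw [e] at h1
  have hpos : 0 < Ideal.absNorm (Ideal.span {t}) ^ Module.finrank k L := by
    refine pow_pos (Nat.pos_of_ne_zero ?_) _
    exact Ideal.absNorm_eq_zero_iff.not.mpr (mt Submodule.span_singleton_eq_bot.mp ht)
  have h2 := Nat.le_of_dvd hpos h1
  have hq := qq_pos w
  refine inv_anti₀ (pow_pos hq _) ?_
  exact_mod_cast h2

/-- the size of a relative norm -/
theorem norm_le (t : L) (v : InfinitePlace k) :
    v (Algebra.norm k t) ≤ mulHeight₁ t ^ Module.finrank k L := by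
  classical
  letI : Algebra k ℂ := v.embedding.toAlgebra
  have hcard : Fintype.card (L →ₐ[k] ℂ) = Module.finrank k L := AlgHom.card k L ℂ
  have h1 := Algebra.norm_eq_prod_embeddings (K := k) ℂ t
  have h2 : v (Algebra.norm k t) = ‖(algebraMap k ℂ) (Algebra.norm k t)‖ :=
    (InfinitePlace.norm_embedding_eq v _).symm
  rw [h2, h1, norm_prod, ← hcard, ← Finset.card_univ, ← Finset.prod_const]
  refine Finset.prod_le_prod (fun _ _ => norm_nonneg _) fun σ _ => ?_
  exact H645.ABC.place_le L t (InfinitePlace.mk (σ : L →+* ℂ))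

end H645.VK
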