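import Mathlib
import Pool.Agent.H645R3.VK3

set_option autoImplicit false

namespace H645.VK

open Finset NumberField IsDedekindDomain Height H645.VB

variable {k L : Type} [Field k] [NumberField k] [Field L] [NumberField L] [Algebra k L]

/-- the contribution of `a` to the (exponential) proximity function -/
noncomputable def Pk (S : Finset (HeightOneSpectrum (𝓞 k))) (y : L) (a : 𝓞 k × 𝓞 k) : ℝ :=
  (∏ w ∈ abK L S, max (w y) 1 / w (ck a y)) *
    ∏ v : InfinitePlace L, (max (v y) 1 / v (ck a y)) ^ v.mult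

theorem Pk_pos (S : Finset (HeightOneSpectrum (𝓞 k))) (y : L) (a : 𝓞 k × 𝓞 k)
    (h : ck a y ≠ 0) : 0 < Pk S y a := by
  unfold Pk
  refine mul_pos (Finset.prod_pos fun w _ => ?_) (Finset.prod_pos fun v _ => pow_pos ?_ _)
  · exact div_pos (lt_max_of_lt_right one_pos) (FinitePlace.pos_iff.2 h)
  · exact div_pos (lt_max_of_lt_right one_pos) (InfinitePlace.pos_iff.2 h)

theorem det_ne (a b : 𝓞 k × 𝓞 k) (h : a.1 * b.2 ≠ a.2 * b.1) : a.1 * b.2 - a.2 * b.1 ≠ 0 :=
  sub_ne_zero.2 h

theorem point_k (S : Finset (HeightOneSpectrum (𝓞 k))) (D : Finset (𝓞 k × 𝓞 k)) (A N : ℝ)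
    (hA : 1 ≤ A) (hN1 : 1 ≤ N)
    (hDA : ∀ a ∈ D, ∀ v : InfinitePlace k, v (a.1 : k) ≤ A ∧ v (a.2 : k) ≤ A)
    (hD : ∀ a ∈ D, ∀ b ∈ D, a ≠ b → a.1 * b.2 ≠ a.2 * b.1)
    (hN : ∀ a ∈ D, ∀ b ∈ D, a ≠ b →
      (∀ v : InfinitePlace k, 2 * A ≤ v ((a.1 * b.2 - a.2 * b.1 : 𝓞 k) : k) * N) ∧
      2 * A ≤ ((Ideal.absNorm (Ideal.span {(a.1 * b.2 - a.2 * b.1 : 𝓞 k)}) : ℝ) ^
        Module.finrank k L)⁻¹ * N)
    (y : L) (hy : ∀ a ∈ D, ck a y ≠ 0) : ∃ D' ⊆ D,
    D'.card ≤ Module.finrank k L * (S.card + Fintype.card (InfinitePlace k)) ∧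
    ∀ a ∈ D, a ∉ D' → Pk S y a ≤
      N ^ (Module.finrank k L * S.card) * N ^ (Module.finrank ℚ L) := by
  classical
  haveI : Module.Finite k L := Module.Finite.of_restrictScalars_finite ℚ k L
  set r := Module.finrank k L with hr
  have hN0 : 0 < N := by linarith
  set D' := D.filter (fun a => (∃ v : InfinitePlace L, close (N⁻¹) (v y) (v (ck a y))) ∨
    ∃ w ∈ abK L S, close (N⁻¹) (w y) (w (ck a y))) with hD'
  refine ⟨D', Finset.filter_subset _ _, ?_, ?_⟩
  · have hex : ∀ a : 𝓞 k × 𝓞 k, ∃ p : InfinitePlace L ⊕ FinitePlace L, a ∈ D' →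
        (∃ v : InfinitePlace L, p = Sum.inl v ∧ close (N⁻¹) (v y) (v (ck a y))) ∨
        (∃ w ∈ abK L S, p = Sum.inr w ∧ close (N⁻¹) (w y) (w (ck a y))) := by
      intro a
      by_cases ha : a ∈ D'
      · have ha2 := (Finset.mem_filter.1 ha).2
        rcases ha2 with ⟨v, hv⟩ | ⟨w, hw, hwc⟩
        · exact ⟨Sum.inl v, fun _ => Or.inl ⟨v, rfl, hv⟩⟩
        · exact ⟨Sum.inr w, fun _ => Or.inr ⟨w, hw, rfl, hwc⟩⟩
      · have : Nonempty (InfinitePlace L) := inferInstance
        exact ⟨Sum.inl (Classical.arbitrary _), fun h => absurd h ha⟩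
    choose g hg using hex
    have hcard : D'.card ≤ (Finset.univ.disjSum (abK L S) :
        Finset (InfinitePlace L ⊕ FinitePlace L)).card := by
      refine Finset.card_le_card_of_injOn g ?_ ?_
      · intro a ha
        rcases hg a ha with ⟨v, hv, -⟩ | ⟨w, hw, hw2, -⟩
        · rw [hv]
          simp
        · rw [hw2]
          simp [hw]
      · intro a ha b hb hab
        by_contra hne
        have haD : a ∈ D := (Finset.mem_filter.1 ha).1
        have hbD : b ∈ D := (Finset.mem_filter.1 hb).1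
        have hdet := hD a haD b hbD hne
        obtain ⟨hNi, hNf⟩ := hN a haD b hbD hne
        have inf : ∀ v : InfinitePlace L, close (N⁻¹) (v y) (v (ck a y)) →
            close (N⁻¹) (v y) (v (ck b y)) → False := by
          intro v h1 h2
          refine not_both (fun x => v x) (fun x y => map_mul v x y) (fun x y => inf_sub v x y)
            (fun x => apply_nonneg v x) N A hA a b (hDA a haD (v.comap (algebraMap k L))).1
            (hDA a haD (v.comap (algebraMap k L))).2 (hDA b hbD (v.comap (algebraMap k L))).1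
            (hDA b hbD (v.comap (algebraMap k L))).2 _ hN0
            (hNi (v.comap (algebraMap k L))) (le_of_eq rfl) y h1 h2
        have fin : ∀ w : FinitePlace L, close (N⁻¹) (w y) (w (ck a y)) →
            close (N⁻¹) (w y) (w (ck b y)) → False := by
          intro w h1 h2
          refine not_both (fun x => w x) (fun x y => map_mul w x y) (fun x y => fin_sub w x y)
            (fun x => apply_nonneg w x) N A hA a b ((fin_of_int w a.1).trans hA)
            ((fin_of_int w a.2).trans hA) ((fin_of_int w b.1).trans hA)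
            ((fin_of_int w b.2).trans hA) _ hN0 hNf (det_fin w _ (det_ne a b hdet)) y h1 h2
        rcases hg a ha with ⟨v, hv, hvc⟩ | ⟨w, hw, hw2, hwc⟩
        · rcases hg b hb with ⟨v', hv', hvc'⟩ | ⟨w', hw', hw2', hwc'⟩
          · rw [hv, hv'] at hab
            have := Sum.inl.inj hab
            subst this
            exact inf v hvc hvc'
          · rw [hv, hw2'] at hab
            exact absurd hab (by simp)
        · rcases hg b hb with ⟨v', hv', hvc'⟩ | ⟨w', hw', hw2', hwc'⟩
          · rw [hw2, hv'] at hab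
            exact absurd hab (by simp)
          · rw [hw2, hw2'] at hab
            have := Sum.inr.inj hab
            subst this
            exact fin w hwc hwc'
    refine hcard.trans ?_
    rw [Finset.card_disjSum, Finset.card_univ]
    have h1 := card_inf_k (k := k) (L := L)
    have h2 := card_abK (k := k) (L := L) S
    calc Fintype.card (InfinitePlace L) + (abK L S).card
        ≤ r * Fintype.card (InfinitePlace k) + r * S.card := add_le_add h1 h2
      _ = r * (S.card + Fintype.card (InfinitePlace k)) := by ring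
  · intro a ha haD'
    have hna : (∀ v : InfinitePlace L, ¬ close (N⁻¹) (v y) (v (ck a y))) ∧
        ∀ w ∈ abK L S, ¬ close (N⁻¹) (w y) (w (ck a y)) := by
      constructor
      · intro v hv
        exact haD' (Finset.mem_filter.2 ⟨ha, Or.inl ⟨v, hv⟩⟩)
      · intro w hw hwc
        exact haD' (Finset.mem_filter.2 ⟨ha, Or.inr ⟨w, hw, hwc⟩⟩)
    have gen : ∀ u t : ℝ, 0 < t → ¬ close (N⁻¹) u t → max u 1 / t ≤ N := by
      intro u t ht hc
      unfold close at hc
      rw [not_lt] at hc
      rw [div_le_iff₀ ht]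
      calc max u 1 = N * (N⁻¹ * max u 1) := by
            rw [← mul_assoc, mul_inv_cancel₀ (by positivity), one_mul]
        _ ≤ N * t := by gcongr
    have e1 : (∏ w ∈ abK L S, max (w y) 1 / w (ck a y)) ≤ N ^ (r * S.card) := by
      calc (∏ w ∈ abK L S, max (w y) 1 / w (ck a y)) ≤ ∏ _w ∈ abK L S, N :=
            Finset.prod_le_prod
              (fun w _ => (div_pos (lt_max_of_lt_right one_pos) (FinitePlace.pos_iff.2 (hy a ha))).le)
              fun w hw => gen _ _ (FinitePlace.pos_iff.2 (hy a ha)) (hna.2 w hw)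
        _ = N ^ (abK L S).card := by rw [Finset.prod_const]
        _ ≤ N ^ (r * S.card) := pow_le_pow_right₀ hN1 (card_abK S)
    have e2 : ∏ v : InfinitePlace L, (max (v y) 1 / v (ck a y)) ^ v.mult ≤
        N ^ (Module.finrank ℚ L) := by
      calc ∏ v : InfinitePlace L, (max (v y) 1 / v (ck a y)) ^ v.mult
          ≤ ∏ v : InfinitePlace L, N ^ v.mult := by
            refine Finset.prod_le_prod (fun v _ => ?_) fun v _ => ?_
            · exact pow_nonneg
                (div_pos (lt_max_of_lt_right one_pos) (InfinitePlace.pos_iff.2 (hy a ha))).le _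
            · exact pow_le_pow_left₀
                (div_pos (lt_max_of_lt_right one_pos) (InfinitePlace.pos_iff.2 (hy a ha))).le
                (gen _ _ (InfinitePlace.pos_iff.2 (hy a ha)) (hna.1 v)) _
        _ = N ^ (Module.finrank ℚ L) := by
            rw [Finset.prod_pow_eq_pow_sum, InfinitePlace.sum_mult_eq]
    unfold Pk
    refine mul_le_mul e1 e2 ?_ (by positivity)
    exact Finset.prod_nonneg fun v _ => pow_nonneg
      (div_pos (lt_max_of_lt_right one_pos) (InfinitePlace.pos_iff.2 (hy a ha))).le _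

/-- homogenisation -/
noncomputable def homk (f : Polynomial k) (r : ℕ) (a : 𝓞 k × 𝓞 k) : k :=
  ∑ i ∈ Finset.range (r + 1), f.coeff i * (a.1 : k) ^ i * (a.2 : k) ^ (r - i)

theorem homk_sub (f g : Polynomial k) (c d : k) (r : ℕ) (a : 𝓞 k × 𝓞 k) :
    homk (Polynomial.C c * f - Polynomial.C d * g) r a = c * homk f r a - d * homk g r a := by
  unfold homk
  rw [Finset.mul_sum, Finset.mul_sum, ← Finset.sum_sub_distrib]
  refine Finset.sum_congr rfl fun i _ => ?_
  rw [Polynomial.coeff_sub, Polynomial.coeff_C_mul, Polynomial.coeff_C_mul]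
  ring

theorem coe_ne (x : 𝓞 k) (h : x ≠ 0) : (x : k) ≠ 0 := fun h' =>
  h (RingOfIntegers.coe_eq_zero_iff.1 h')

theorem homk_eval (f : Polynomial k) (r : ℕ) (hf : f.natDegree ≤ r) (a : 𝓞 k × 𝓞 k)
    (ha : a.2 ≠ 0) :
    homk f r a = (a.2 : k) ^ r * f.eval ((a.1 : k) / a.2) := by
  unfold homk
  rw [Polynomial.eval_eq_sum_range' (Nat.lt_succ_of_le hf), Finset.mul_sum]
  refine Finset.sum_congr rfl fun i hi => ?_
  have hi' : i ≤ r := Nat.lt_succ_iff.1 (Finset.mem_range.1 hi)
  have ha' : (a.2 : k) ≠ 0 := coe_ne _ ha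
  rw [div_pow]
  have : (a.2 : k) ^ r = (a.2 : k) ^ (r - i) * (a.2 : k) ^ i := by
    rw [← pow_add, Nat.sub_add_cancel hi']
  rw [this]
  field_simp

theorem homk_inf (f : Polynomial k) (r : ℕ) (a : 𝓞 k × 𝓞 k) (ha : a.2 = 0) :
    homk f r a = f.coeff r * (a.1 : k) ^ r := by
  unfold homk
  rw [Finset.sum_eq_single r]
  · simp
  · intro i hi hir
    have : r - i ≠ 0 := by
      have := Finset.mem_range.1 hi
      omega
    have h0 : ((0 : 𝓞 k) : k) = 0 := RingOfIntegers.coe_eq_zero_iff.2 rfl
    rw [ha, h0, zero_pow this, mul_zero]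
  · intro h
    simp at h

theorem homk_unique (g : Polynomial k) (r : ℕ) (hr : 1 ≤ r) (hg : g.natDegree ≤ r)
    (J : Finset (𝓞 k × 𝓞 k)) (hJc : J.card = r + 1)
    (hJ : ∀ a ∈ J, ∀ b ∈ J, a ≠ b → a.1 * b.2 ≠ a.2 * b.1) (h0 : ∀ a ∈ J, homk g r a = 0) :
    g = 0 := by
  classical
  have inj : Set.InjOn (fun a : 𝓞 k × 𝓞 k => (a.1 : k) / a.2) (J.filter fun a => a.2 ≠ 0) := by
    intro a ha b hb hab
    by_contra hne
    have ha' := Finset.mem_filter.1 ha
    have hb' := Finset.mem_filter.1 hb
    have := hJ a ha'.1 b hb'.1 hne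
    have ha2 : (a.2 : k) ≠ 0 := coe_ne _ ha'.2
    have hb2 : (b.2 : k) ≠ 0 := coe_ne _ hb'.2
    simp only at hab
    rw [div_eq_div_iff ha2 hb2] at hab
    apply this
    have h3 : a.1 * b.2 = b.1 * a.2 := RingOfIntegers.coe_injective (by push_cast; exact hab)
    rw [h3, mul_comm]
  have hroots : ∀ t ∈ (J.filter fun a => a.2 ≠ 0).image (fun a : 𝓞 k × 𝓞 k => (a.1 : k) / a.2),
      g.eval t = 0 := by
    intro t ht
    obtain ⟨a, ha, rfl⟩ := Finset.mem_image.1 ht
    have ha' := Finset.mem_filter.1 ha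
    have h1 := h0 a ha'.1
    rw [homk_eval g r hg a ha'.2] at h1
    have ha2 : (a.2 : k) ≠ 0 := coe_ne _ ha'.2
    exact (mul_eq_zero.1 h1).resolve_left (pow_ne_zero _ ha2)
  have hcard : ((J.filter fun a => a.2 ≠ 0).image (fun a : 𝓞 k × 𝓞 k => (a.1 : k) / a.2)).card =
      (J.filter fun a => a.2 ≠ 0).card := Finset.card_image_of_injOn inj
  by_cases hb : ∃ b ∈ J, b.2 = 0
  · obtain ⟨b, hbJ, hb2⟩ := hb
    have hfil : J.filter (fun a => a.2 ≠ 0) = J.erase b := by
      ext a
      rw [Finset.mem_filter, Finset.mem_erase]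
      constructor
      · rintro ⟨ha, ha2⟩
        refine ⟨?_, ha⟩
        rintro rfl
        exact ha2 hb2
      · rintro ⟨hab, ha⟩
        refine ⟨ha, fun ha2 => ?_⟩
        have := hJ a ha b hbJ hab
        rw [ha2, hb2] at this
        simp at this
    rw [hfil, Finset.card_erase_of_mem hbJ, hJc] at hcard
    have hb1 : b.1 ≠ 0 := by
      intro hb1
      obtain ⟨a, ha, hab⟩ : ∃ a ∈ J, a ≠ b := by
        by_contra hcon
        push Not at hcon
        have : J ⊆ {b} := fun a ha => Finset.mem_singleton.2 (hcon a ha)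
        have := Finset.card_le_card this
        rw [Finset.card_singleton] at this
        omega
      have := hJ a ha b hbJ hab
      rw [hb1, hb2] at this
      simp at this
    have hc := h0 b hbJ
    rw [homk_inf g r b hb2] at hc
    have hb1' : (b.1 : k) ≠ 0 := coe_ne _ hb1
    have hcr : g.coeff r = 0 := (mul_eq_zero.1 hc).resolve_right (pow_ne_zero _ hb1')
    refine Polynomial.eq_zero_of_natDegree_lt_card_of_eval_eq_zero' g _ hroots ?_
    rw [hfil, hcard]
    have : g.natDegree ≠ r := by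
      intro h
      have : g.leadingCoeff = 0 := by rw [Polynomial.leadingCoeff, h, hcr]
      rw [Polynomial.leadingCoeff_eq_zero] at this
      rw [this] at h
      simp at h
      omega
    omega
  · push Not at hb
    have hfil : J.filter (fun a => a.2 ≠ 0) = J := Finset.filter_true_of_mem hb
    refine Polynomial.eq_zero_of_natDegree_lt_card_of_eval_eq_zero' g _ hroots ?_
    rw [hcard, hfil, hJc]
    omega

theorem norm_homk (pb : PowerBasis k L) (a : 𝓞 k × 𝓞 k) :
    Algebra.norm k (ck a pb.gen) = homk (minpoly k pb.gen) (Module.finrank k L) a := by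
  classical
  have hdeg : (minpoly k pb.gen).natDegree = Module.finrank k L := by
    rw [pb.natDegree_minpoly, pb.finrank]
  by_cases ha : a.2 = 0
  · rw [homk_inf _ _ _ ha]
    have h1 : ck a pb.gen = algebraMap k L (a.1 : k) := by
      unfold ck; rw [ha]; simp
    rw [h1, Algebra.norm_algebraMap]
    have : (minpoly k pb.gen).coeff (Module.finrank k L) = 1 := by
      rw [← hdeg]
      exact (minpoly.monic pb.isIntegral_gen)
    rw [this, one_mul]
  · rw [homk_eval _ _ hdeg.le _ ha]
    have ha' : (a.2 : k) ≠ 0 := coe_ne _ ha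
    have h1 : ck a pb.gen = algebraMap k L (a.2 : k) *
        (algebraMap k L ((a.1 : k) / a.2) - pb.gen) := by
      unfold ck
      rw [mul_sub, ← map_mul, mul_div_cancel₀ _ ha']
    rw [h1, map_mul, Algebra.norm_algebraMap]
    congr 1
    rw [Algebra.norm_eq_matrix_det pb.basis, map_sub, ← charpoly_leftMulMatrix pb,
      Matrix.eval_charpoly]
    congr 2
    rw [AlgHom.commutes]
    rfl

end H645.VK
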