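import Mathlib
import Pool.Agent.H645R3.VK4

set_option autoImplicit false

namespace H645.VK

open Finset NumberField IsDedekindDomain Height H645.VB

/-- local Weil function of the point `(a₁ : a₂)` at a place -/
noncomputable def lam (u t : ℝ) : ℝ := Real.log (max 1 u / t)

variable {k L : Type} [Field k] [NumberField k] [Field L] [NumberField L] [Algebra k L]

/-- proximity function over a number field -/
noncomputable def proxk (S : Finset (HeightOneSpectrum (𝓞 k))) (D : Finset (𝓞 k × 𝓞 k))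
    (y : L) : ℝ :=
  ((∑ v : InfinitePlace L, v.mult *
      ∑ a ∈ D, lam (v y) (v (algebraMap k L (a.1 : k) - algebraMap k L (a.2 : k) * y))) +
    ∑ᶠ w ∈ {w : FinitePlace L | ∃ p ∈ S, ∀ x ∈ p.asIdeal, w (algebraMap k L (x : k)) < 1},
      ∑ a ∈ D, lam (w y) (w (algebraMap k L (a.1 : k) - algebraMap k L (a.2 : k) * y))) /
    Module.finrank ℚ L

theorem proxk_eq (S : Finset (HeightOneSpectrum (𝓞 k))) (D : Finset (𝓞 k × 𝓞 k)) (y : L)
    (hy : ∀ a ∈ D, ck a y ≠ 0) :
    Module.finrank ℚ L * proxk S D y = ∑ a ∈ D, Real.log (Pk S y a) := by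
  have hr : (Module.finrank ℚ L : ℝ) ≠ 0 := by
    have : 0 < Module.finrank ℚ L := Module.finrank_pos
    positivity
  unfold proxk
  rw [mul_div_cancel₀ _ hr]
  have e1 : (∑ᶠ w ∈ {w : FinitePlace L | ∃ p ∈ S, ∀ x ∈ p.asIdeal, w (algebraMap k L (x : k)) < 1},
      ∑ a ∈ D, lam (w y) (w (algebraMap k L (a.1 : k) - algebraMap k L (a.2 : k) * y))) =
      ∑ w ∈ abK L S,
        ∑ a ∈ D, lam (w y) (w (algebraMap k L (a.1 : k) - algebraMap k L (a.2 : k) * y)) := by
    rw [finsum_mem_eq_sum_of_inter_support_eq]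
    congr 1
    ext w
    rw [Finset.mem_coe, mem_abK]
    rfl
  rw [e1]
  simp only [Finset.mul_sum]
  rw [Finset.sum_comm, Finset.sum_comm (s := abK L S), ← Finset.sum_add_distrib]
  refine Finset.sum_congr rfl fun a ha => ?_
  have h := hy a ha
  unfold Pk
  rw [Real.log_mul, Real.log_prod, Real.log_prod, add_comm]
  · congr 1
    · refine Finset.sum_congr rfl fun w _ => ?_
      unfold lam ck
      rw [max_comm]
    · refine Finset.sum_congr rfl fun v _ => ?_
      rw [Real.log_pow]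
      unfold lam ck
      rw [max_comm]
  · intro v _
    exact (pow_pos (div_pos (lt_max_of_lt_right one_pos) (InfinitePlace.pos_iff.2 h)) _).ne'
  · intro w _
    exact (div_pos (lt_max_of_lt_right one_pos) (FinitePlace.pos_iff.2 h)).ne'
  · exact (Finset.prod_pos fun w _ =>
      (div_pos (lt_max_of_lt_right one_pos) (FinitePlace.pos_iff.2 h))).ne'
  · exact (Finset.prod_pos fun v _ =>
      pow_pos (div_pos (lt_max_of_lt_right one_pos) (InfinitePlace.pos_iff.2 h)) _).ne'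

theorem val_le_k (y : L) (a : 𝓞 k × 𝓞 k) (h : ck a y ≠ 0) (A : ℝ) (hA : 1 ≤ A)
    (hDA : ∀ v : InfinitePlace k, v (a.1 : k) ≤ A ∧ v (a.2 : k) ≤ A) :
    (∏ᶠ w : FinitePlace L, max (w y) 1 / w (ck a y)) ≤
      (2 * A) ^ Module.finrank ℚ L * mulHeight₁ y := by
  have h1 := prod_arch_k y (ck a y) h
  have hv : ∀ v : InfinitePlace L, v (ck a y) ≤ (2 * A) * max (v y) 1 := by
    intro v
    unfold ck
    refine (inf_sub v _ _).trans ?_
    rw [map_mul]
    obtain ⟨g1, g2⟩ := hDA (v.comap (algebraMap k L))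
    have g1' : v (algebraMap k L (a.1 : k)) ≤ A := g1
    have g2' : v (algebraMap k L (a.2 : k)) ≤ A := g2
    have e0 := le_max_right (v y) 1
    have e3 := le_max_left (v y) 1
    have e4 : 0 ≤ v y := apply_nonneg v y
    have e5 : 0 ≤ v (algebraMap k L (a.2 : k)) := apply_nonneg v _
    have e1 : v (algebraMap k L (a.1 : k)) ≤ A * max (v y) 1 :=
      g1'.trans (le_mul_of_one_le_right (by linarith) e0)
    have e2 : v (algebraMap k L (a.2 : k)) * v y ≤ A * max (v y) 1 := by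
      exact mul_le_mul g2' e3 e4 (by linarith)
    linarith
  have hb0 : 0 < 2 * A := by linarith
  have h5 : ((2 * A) ^ Module.finrank ℚ L)⁻¹ ≤
      ∏ v : InfinitePlace L, (max (v y) 1 / v (ck a y)) ^ v.mult := by
    calc ((2 * A) ^ Module.finrank ℚ L)⁻¹ = ∏ v : InfinitePlace L, ((2 * A)⁻¹) ^ v.mult := by
          rw [Finset.prod_pow_eq_pow_sum, InfinitePlace.sum_mult_eq, inv_pow]
      _ ≤ _ := by
          refine Finset.prod_le_prod (fun v _ => by positivity) fun v _ => ?_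
          refine pow_le_pow_left₀ (by positivity) ?_ _
          have h3 : 0 < v (ck a y) := InfinitePlace.pos_iff.2 h
          rw [le_div_iff₀ h3]
          calc (2 * A)⁻¹ * v (ck a y) ≤ (2 * A)⁻¹ * ((2 * A) * max (v y) 1) := by
                gcongr
                exact hv v
            _ = max (v y) 1 := by field_simp
  have hn0 : 0 ≤ ∏ᶠ w : FinitePlace L, max (w y) 1 / w (ck a y) :=
    finprod_nonneg fun w => (div_pos (lt_max_of_lt_right one_pos) (FinitePlace.pos_iff.2 h)).le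
  rw [← h1]
  calc (∏ᶠ w : FinitePlace L, max (w y) 1 / w (ck a y))
      = (2 * A) ^ Module.finrank ℚ L * ((∏ᶠ w : FinitePlace L, max (w y) 1 / w (ck a y)) *
          ((2 * A) ^ Module.finrank ℚ L)⁻¹) := by field_simp
    _ ≤ _ := by gcongr

theorem ht_const (x : 𝓞 k) (A : ℝ) (hA : 1 ≤ A) (hx : ∀ v : InfinitePlace k, v (x : k) ≤ A) :
    mulHeight₁ (algebraMap k L (x : k)) ≤ A ^ Module.finrank ℚ L := by
  rw [NumberField.mulHeight₁_eq]
  have e1 : ∏ᶠ v : FinitePlace L, max (v (algebraMap k L (x : k))) 1 = 1 := by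
    refine finprod_eq_one_of_forall_eq_one fun v => ?_
    exact max_eq_right (fin_of_int v x)
  rw [e1, mul_one]
  calc ∏ v : InfinitePlace L, max (v (algebraMap k L (x : k))) 1 ^ v.mult
      ≤ ∏ v : InfinitePlace L, A ^ v.mult := by
        refine Finset.prod_le_prod (fun v _ => by positivity) fun v _ => ?_
        exact pow_le_pow_left₀ (by positivity) (max_le (hx (v.comap (algebraMap k L))) hA) _
    _ = A ^ Module.finrank ℚ L := by rw [Finset.prod_pow_eq_pow_sum, InfinitePlace.sum_mult_eq]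

theorem ht_ck (y : L) (a : 𝓞 k × 𝓞 k) (A : ℝ) (hA : 1 ≤ A)
    (hDA : ∀ v : InfinitePlace k, v (a.1 : k) ≤ A ∧ v (a.2 : k) ≤ A) :
    mulHeight₁ (ck a y) ≤ (2 * A ^ 2) ^ Module.finrank ℚ L * mulHeight₁ y := by
  have e : ck a y = algebraMap k L (a.1 : k) + algebraMap k L ((-a.2 : 𝓞 k) : k) * y := by
    unfold ck
    rw [show ((-a.2 : 𝓞 k) : k) = -(a.2 : k) from rfl, map_neg]
    ring
  have h0 : 0 < mulHeight₁ y := mulHeight₁_pos y
  rw [e]
  refine (mulHeight₁_add_le _ _).trans ?_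
  rw [totalWeight_eq_finrank]
  have h1 := ht_const (L := L) a.1 A hA fun v => (hDA v).1
  have h2 := ht_const (L := L) (-a.2) A hA fun v => by
    rw [show ((-a.2 : 𝓞 k) : k) = -(a.2 : k) from rfl]
    have : v (-(a.2 : k)) = v (a.2 : k) := by
      rw [← InfinitePlace.norm_embedding_eq v, ← InfinitePlace.norm_embedding_eq v, map_neg,
        norm_neg]
    rw [this]
    exact (hDA v).2
  have h3 : mulHeight₁ (algebraMap k L ((-a.2 : 𝓞 k) : k) * y) ≤
      A ^ Module.finrank ℚ L * mulHeight₁ y :=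
    (mulHeight₁_mul_le _ _).trans (mul_le_mul_of_nonneg_right h2 h0.le)
  calc 2 ^ Module.finrank ℚ L * mulHeight₁ (algebraMap k L (a.1 : k)) *
        mulHeight₁ (algebraMap k L ((-a.2 : 𝓞 k) : k) * y)
      ≤ 2 ^ Module.finrank ℚ L * A ^ Module.finrank ℚ L *
        (A ^ Module.finrank ℚ L * mulHeight₁ y) := by
        gcongr
    _ = (2 * A ^ 2) ^ Module.finrank ℚ L * mulHeight₁ y := by
        rw [mul_pow, ← pow_mul, mul_comm 2 (Module.finrank ℚ L), pow_mul]
        ring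

/-- arithmetic data of all values -/
theorem data_k (S : Finset (HeightOneSpectrum (𝓞 k))) (pb : PowerBasis k L) (A : ℝ) (hA : 1 ≤ A) :
    ∃ (l : k) (n : Ideal (𝓞 k)) (z : 𝓞 k × 𝓞 k → 𝓞 k) (s m : 𝓞 k × 𝓞 k → Ideal (𝓞 k)),
      l ≠ 0 ∧ n ≠ ⊥ ∧ ∀ a : 𝓞 k × 𝓞 k, ck a pb.gen ≠ 0 →
        z a ≠ 0 ∧ ((z a : 𝓞 k) : k) = l * homk (minpoly k pb.gen) (Module.finrank k L) a ∧
        Ideal.span {z a} = n * (s a * m a) ∧ smI k S (s a) ∧ m a ≠ ⊥ ∧
        Pk S pb.gen a * (Ideal.absNorm (m a) : ℝ) = mulHeight₁ pb.gen ∧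
        ((∀ v : InfinitePlace k, v (a.1 : k) ≤ A ∧ v (a.2 : k) ≤ A) →
          (Ideal.absNorm (s a * m a) : ℝ) ≤ (2 * A) ^ Module.finrank ℚ L * mulHeight₁ pb.gen) := by
  classical
  haveI : Module.Finite k L := Module.Finite.of_restrictScalars_finite ℚ k L
  set y := pb.gen with hy
  obtain ⟨β, J, hβ, hJ, hloc⟩ := local_data_k (k := k) y
  have hβL : (β : L) ≠ 0 := by
    intro h
    exact hβ (RingOfIntegers.coe_eq_zero_iff.1 h)
  have hex : ∀ a : 𝓞 k × 𝓞 k, ∃ (z : 𝓞 k) (s m : Ideal (𝓞 k)), ck a y ≠ 0 →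
        z ≠ 0 ∧ ((z : 𝓞 k) : k) = Algebra.norm k (β : L) *
          homk (minpoly k y) (Module.finrank k L) a ∧
        Ideal.span {z} = Ideal.relNorm (𝓞 k) J * (s * m) ∧ smI k S s ∧ m ≠ ⊥ ∧
        Pk S y a * (Ideal.absNorm m : ℝ) = mulHeight₁ y ∧
        ((∀ v : InfinitePlace k, v (a.1 : k) ≤ A ∧ v (a.2 : k) ≤ A) →
          (Ideal.absNorm (s * m) : ℝ) ≤ (2 * A) ^ Module.finrank ℚ L * mulHeight₁ y) := by
    intro a
    by_cases h : ck a y = 0
    · exact ⟨0, ⊥, ⊥, fun h' => absurd h h'⟩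
    · obtain ⟨γ, C, hγ0, hγ, hC, hspan, hw⟩ := hloc a h
      obtain ⟨s, m, hs, hm, hsm, hsN, hN⟩ := split_k S C hC
      have hz : ((Algebra.intNorm (𝓞 k) (𝓞 L) γ : 𝓞 k) : k) = Algebra.norm k (γ : L) :=
        Algebra.algebraMap_intNorm (A := 𝓞 k) (K := k) (L := L) (B := 𝓞 L) γ
      have hprodN : (∏ᶠ w : FinitePlace L, max (w y) 1 / w (ck a y)) =
          (Ideal.absNorm (s * m) : ℝ) := by
        rw [hN, ← finprod_q C hC]
        exact finprod_congr fun w => hw w
      refine ⟨Algebra.intNorm (𝓞 k) (𝓞 L) γ, s, m, fun _ => ⟨?_, ?_, ?_, hs, hm, ?_, ?_⟩⟩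
      · intro h0
        have h1 : Algebra.norm k (γ : L) = 0 := by
          rw [← hz, h0]
          exact RingOfIntegers.coe_eq_zero_iff.2 rfl
        rw [Algebra.norm_eq_zero_iff] at h1
        exact hγ0 (RingOfIntegers.coe_eq_zero_iff.1 h1)
      · rw [hz, hγ, map_mul, norm_homk pb a, mul_comm]
      · rw [← Ideal.relNorm_singleton, hspan, map_mul, hsm]
      · rw [← prod_arch_k y (ck a y) h, hprodN]
        unfold Pk
        have e1 : ∏ w ∈ abK L S, max (w y) 1 / w (ck a y) = (Ideal.absNorm s : ℝ) := by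
          rw [hsN]
          exact Finset.prod_congr rfl fun w _ => hw w
        rw [e1, map_mul]
        push_cast
        ring
      · intro hAa
        rw [← hprodN]
        exact val_le_k y a h A hA hAa
  choose z s m hzsm using hex
  refine ⟨Algebra.norm k (β : L), Ideal.relNorm (𝓞 k) J, z, s, m, ?_, ?_, hzsm⟩
  · exact Algebra.norm_ne_zero_iff.2 hβL
  · rwa [Ne, Ideal.relNorm_eq_bot_iff]

/-- archimedean bound for the ratios -/
theorem ratio_k (pb : PowerBasis k L) (A : ℝ) (hA : 1 ≤ A) (a b : 𝓞 k × 𝓞 k)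
    (ha : ∀ v : InfinitePlace k, v (a.1 : k) ≤ A ∧ v (a.2 : k) ≤ A)
    (hb : ∀ v : InfinitePlace k, v (b.1 : k) ≤ A ∧ v (b.2 : k) ≤ A) (v : InfinitePlace k) :
    v (homk (minpoly k pb.gen) (Module.finrank k L) a /
      homk (minpoly k pb.gen) (Module.finrank k L) b) ≤
      (((2 * A ^ 2) ^ Module.finrank ℚ L * mulHeight₁ pb.gen) ^ 2) ^ Module.finrank k L := by
  haveI : Module.Finite k L := Module.Finite.of_restrictScalars_finite ℚ k L
  have hdiv : Algebra.norm k (ck a pb.gen) / Algebra.norm k (ck b pb.gen) =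
      Algebra.norm k (ck a pb.gen / ck b pb.gen) := by
    by_cases h : ck b pb.gen = 0
    · rw [h, Algebra.norm_zero, div_zero, div_zero, Algebra.norm_zero]
    · rw [div_eq_iff (Algebra.norm_ne_zero_iff.2 h), ← map_mul, div_mul_cancel₀ _ h]
  rw [← norm_homk, ← norm_homk, hdiv]
  refine (norm_le _ v).trans ?_
  refine pow_le_pow_left₀ (mulHeight₁_nonneg _) ?_ _
  rw [div_eq_mul_inv]
  refine (mulHeight₁_mul_le _ _).trans ?_
  rw [mulHeight₁_inv, pow_two]
  exact mul_le_mul (ht_ck pb.gen a A hA ha) (ht_ck pb.gen b A hA hb) (mulHeight₁_nonneg _)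
    (mul_nonneg (by positivity) (mulHeight₁_nonneg _))

end H645.VK
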