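import Mathlib
import Pool.Agent.H645R3.VK5
import Pool.Agent.H645R3.VK6
import Pool.Agent.H645R3.VB6

set_option autoImplicit false

namespace H645.VK

open Finset NumberField IsDedekindDomain Height H645.VB

open scoped Classical

variable {k : Type} [Field k] [NumberField k]

/-- auxiliary points -/
theorem exists_aux (D : Finset (𝓞 k × 𝓞 k)) (hD0 : ∀ a ∈ D, a ≠ (0, 0)) (n : ℕ) :
    ∃ E : Finset (𝓞 k × 𝓞 k), E.card = n ∧
      (∀ a ∈ E, ∀ b ∈ E, a ≠ b → a.1 * b.2 ≠ a.2 * b.1) ∧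
      (∀ a ∈ D, ∀ b ∈ E, a.1 * b.2 ≠ a.2 * b.1) ∧ ∀ b ∈ E, b.1 = 1 := by
  have hinf : {t : ℕ | ∀ a ∈ D, a.1 * (t : 𝓞 k) ≠ a.2}.Infinite := by
    have hfin : (⋃ a ∈ D, {t : ℕ | a.1 * (t : 𝓞 k) = a.2}).Finite := by
      refine Set.Finite.biUnion D.finite_toSet fun a ha => ?_
      refine Set.Subsingleton.finite ?_
      intro t ht t' ht'
      have h1 : a.1 * (t : 𝓞 k) = a.2 := ht
      have h2 : a.1 * (t' : 𝓞 k) = a.2 := ht'
      by_cases h0 : a.1 = 0
      · rw [h0, zero_mul] at h1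
        exact absurd (Prod.ext h0 h1.symm) (hD0 a ha)
      · have := mul_left_cancel₀ h0 (h1.trans h2.symm)
        exact_mod_cast this
    have : {t : ℕ | ∀ a ∈ D, a.1 * (t : 𝓞 k) ≠ a.2} = (⋃ a ∈ D, {t : ℕ | a.1 * (t : 𝓞 k) = a.2})ᶜ := by
      ext t
      simp
    rw [this]
    exact hfin.infinite_compl
  obtain ⟨T, hT, hTc⟩ := hinf.exists_subset_card_eq n
  refine ⟨T.image fun t : ℕ => ((1 : 𝓞 k), (t : 𝓞 k)), ?_, ?_, ?_, ?_⟩
  · rw [Finset.card_image_of_injective, hTc]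
    intro i j h
    have := congrArg Prod.snd h
    simp only at this
    exact_mod_cast this
  · intro a ha b hb hab h
    obtain ⟨i, -, rfl⟩ := Finset.mem_image.1 ha
    obtain ⟨j, -, rfl⟩ := Finset.mem_image.1 hb
    simp only [one_mul, mul_one] at h
    apply hab
    rw [h]
  · intro a ha b hb h
    obtain ⟨j, hj, rfl⟩ := Finset.mem_image.1 hb
    simp only [mul_one] at h
    exact hT hj a ha h
  · intro b hb
    obtain ⟨j, -, rfl⟩ := Finset.mem_image.1 hb
    rfl

/-- from the data of a point to `GoodK` -/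
theorem classify_k (S : Finset (HeightOneSpectrum (𝓞 k))) (D E : Finset (𝓞 k × 𝓞 k)) (r : ℕ)
    (hr : 1 ≤ r) (hEc : E.card = r + 1)
    (κ : ℝ) (hκ : 0 ≤ κ) (K B e : ℝ) (hK : 1 ≤ K) (hB1 : 1 ≤ B) (m0 : ℕ)
    (he : e = (r + 1 : ℝ) - κ * min 1 ((r + 1 : ℝ) / m0)) :
    ∃ H0 : ℝ, 1 ≤ H0 ∧ ∀ (H X : ℝ) (x : Om k), 1 ≤ H → H ≤ X →
      (minpoly k x).natDegree = r →
      (∃ (l : k) (n : Ideal (𝓞 k)) (z : 𝓞 k × 𝓞 k → 𝓞 k) (s m : 𝓞 k × 𝓞 k → Ideal (𝓞 k)),
        l ≠ 0 ∧ n ≠ ⊥ ∧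
        (∀ a ∈ D ∪ E, z a ≠ 0 ∧ ((z a : 𝓞 k) : k) = l * homk (minpoly k x) r a ∧
          Ideal.span {z a} = n * (s a * m a) ∧ smI k S (s a) ∧ m a ≠ ⊥ ∧
          (Ideal.absNorm (s a * m a) : ℝ) ≤ B * H) ∧
        (∀ a ∈ D ∪ E, ∀ b ∈ D ∪ E, ∀ v : InfinitePlace k,
          v (homk (minpoly k x) r a / homk (minpoly k x) r b) ≤ ((B * H) ^ 2) ^ r) ∧
        ∃ D' ⊆ D, D'.card ≤ m0 ∧
          ∏ a ∈ D', (Ideal.absNorm (m a) : ℝ) ≤ K * H ^ ((D'.card : ℝ) - κ)) →
      GoodK S r ∅ E (B * H0) 1 (((B * H0) ^ 2) ^ r) x ∨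
      ∃ J ∈ (D.powerset ×ˢ E.powerset).filter (fun J => J.1.card + J.2.card = r + 1),
        GoodK S r J.1 J.2 (B * X) (K * X ^ (e - J.2.card)) (((B * X) ^ 2) ^ r) x := by
  set H0 : ℝ := 1 + ∑ q ∈ Finset.range (D.card + 1),
    (if (q : ℝ) < κ then K ^ (1 / (κ - q)) else 0) with hH0
  have hterm : ∀ q : ℕ, 0 ≤ (if (q : ℝ) < κ then K ^ (1 / (κ - q)) else 0) := by
    intro q
    split_ifs
    · positivity
    · exact le_rfl
  have hH01 : 1 ≤ H0 := by
    have := Finset.sum_nonneg (s := Finset.range (D.card + 1)) fun q _ => hterm q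
    linarith
  refine ⟨H0, hH01, fun H X x hH hHX hdeg => ?_⟩
  rintro ⟨l, n, z, s, m, hl, hn, hz, hY, D', hD', hq0, hprod⟩
  have hX1 : 1 ≤ X := hH.trans hHX
  have hH0' : 0 < H := by linarith
  have hX0 : 0 < X := by linarith
  set q := D'.card with hq
  have hqD : q ≤ D.card := Finset.card_le_card hD'
  have hm1 : ∀ a ∈ D', (1 : ℝ) ≤ Ideal.absNorm (m a) := fun a ha =>
    absNorm_pos_real k _ (hz a (Finset.mem_union_left _ (hD' ha))).2.2.2.2.1
  have hP1 : 1 ≤ ∏ a ∈ D', (Ideal.absNorm (m a) : ℝ) := by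
    calc (1 : ℝ) = ∏ a ∈ D', (1 : ℝ) := by simp
      _ ≤ _ := Finset.prod_le_prod (fun _ _ => zero_le_one) hm1
  have hr1 : (0 : ℝ) ≤ (r : ℝ) + 1 := by positivity
  -- general constructor
  have mk : ∀ (J1 J2 : Finset (𝓞 k × 𝓞 k)) (H' Z : ℝ), J1 ⊆ D → J2 ⊆ E → H ≤ H' →
      ∏ a ∈ J1, (Ideal.absNorm (m a) : ℝ) ≤ Z →
      GoodK S r J1 J2 (B * H') Z (((B * H') ^ 2) ^ r) x := by
    intro J1 J2 H' Z h1 h2 hHH hZ
    have hBH : B * H ≤ B * H' := by gcongr
    have hsub : J1 ∪ J2 ⊆ D ∪ E := Finset.union_subset_union h1 h2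
    refine ⟨hdeg, l, n, z, s, m, hl, hn, fun a ha => ?_, hZ, fun a ha b hb v => ?_⟩
    · obtain ⟨g1, g2, g3, g4, g5, g6⟩ := hz a (hsub ha)
      exact ⟨g1, g2, g3, g4, g5, g6.trans hBH⟩
    · refine (hY a (hsub ha) b (hsub hb) v).trans ?_
      have : 0 ≤ B * H := by positivity
      gcongr
  rcases lt_or_ge (q : ℝ) κ with hlt | hge
  · left
    have h1 : H ^ (κ - q) ≤ K := by
      have h2 : 1 ≤ K * H ^ ((q : ℝ) - κ) := hP1.trans hprod
      have h3 : H ^ (κ - q) * H ^ ((q : ℝ) - κ) = 1 := by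
        rw [← Real.rpow_add hH0']
        simp
      have h4 : 0 < H ^ ((q : ℝ) - κ) := Real.rpow_pos_of_pos hH0' _
      have h5 : H ^ (κ - q) * H ^ ((q : ℝ) - κ) ≤ K * H ^ ((q : ℝ) - κ) := by rw [h3]; exact h2
      exact le_of_mul_le_mul_right h5 h4
    have hκq : 0 < κ - q := by linarith
    have h2 : H ≤ K ^ (1 / (κ - q)) := by
      calc H = (H ^ (κ - q)) ^ (1 / (κ - q)) := by
            rw [← Real.rpow_mul hH0'.le, mul_one_div_cancel hκq.ne', Real.rpow_one]
        _ ≤ K ^ (1 / (κ - q)) := Real.rpow_le_rpow (by positivity) h1 (by positivity)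
    have h3 : H ≤ H0 := by
      have h4 : (if (q : ℝ) < κ then K ^ (1 / (κ - q)) else 0) ≤
          ∑ q ∈ Finset.range (D.card + 1), (if (q : ℝ) < κ then K ^ (1 / (κ - q)) else 0) :=
        Finset.single_le_sum (f := fun q : ℕ => (if (q : ℝ) < κ then K ^ (1 / (κ - q)) else 0))
          (fun q _ => hterm q) (Finset.mem_range.2 (by omega))
      rw [if_pos hlt] at h4
      rw [hH0]
      linarith
    exact mk ∅ E H0 1 (by simp) le_rfl h3 (by simp)
  · right
    by_cases hqr : q ≤ r + 1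
    · obtain ⟨J2, hJ2, hJ2c⟩ := Finset.exists_subset_card_eq
        (show r + 1 - q ≤ E.card by rw [hEc]; omega)
      refine ⟨(D', J2), ?_, ?_⟩
      · rw [Finset.mem_filter, Finset.mem_product, Finset.mem_powerset, Finset.mem_powerset]
        refine ⟨⟨hD', hJ2⟩, ?_⟩
        simp only
        omega
      · refine mk D' J2 X _ hD' hJ2 hHX ?_
        refine hprod.trans ?_
        have h1 : H ^ ((q : ℝ) - κ) ≤ X ^ ((q : ℝ) - κ) :=
          Real.rpow_le_rpow hH0'.le hHX (by linarith)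
        have h2 : X ^ ((q : ℝ) - κ) ≤ X ^ (e - (J2.card : ℝ)) := by
          refine Real.rpow_le_rpow_of_exponent_le hX1 ?_
          have h3 : (J2.card : ℝ) = r + 1 - q := by
            rw [hJ2c, Nat.cast_sub hqr]; push_cast; ring
          rw [h3, he]
          have h4 : min 1 ((r + 1 : ℝ) / m0) ≤ 1 := min_le_left _ _
          nlinarith
        exact mul_le_mul_of_nonneg_left (h1.trans h2) (by linarith)
    · have hqr' : r + 1 ≤ q := by omega
      obtain ⟨J, hJ, hJc, hJle⟩ := small_sub (fun a => Real.log (Ideal.absNorm (m a) : ℝ)) (r + 1) q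
        D' rfl hqr'
      refine ⟨(J, ∅), ?_, ?_⟩
      · rw [Finset.mem_filter, Finset.mem_product, Finset.mem_powerset, Finset.mem_powerset]
        refine ⟨⟨hJ.trans hD', by simp⟩, ?_⟩
        simp only [Finset.card_empty]
        omega
      · refine mk J ∅ X _ (hJ.trans hD') (by simp) hHX ?_
        have hq0' : (0 : ℝ) < q := by
          have : 0 < q := by omega
          exact_mod_cast this
        have hm0q : (q : ℝ) ≤ m0 := by exact_mod_cast hq0
        have hJpos : 0 < ∏ a ∈ J, (Ideal.absNorm (m a) : ℝ) := Finset.prod_pos fun a ha => by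
          have := hm1 a (hJ ha); linarith
        rw [← Real.log_prod (fun a ha => by have := hm1 a (hJ ha); positivity),
          ← Real.log_prod (fun a ha => by have := hm1 a ha; positivity)] at hJle
        have hlogH : 0 ≤ Real.log H := Real.log_nonneg hH
        have hlogHX : Real.log H ≤ Real.log X := Real.log_le_log hH0' hHX
        have hlogK : 0 ≤ Real.log K := Real.log_nonneg hK
        have h1 : Real.log (∏ a ∈ D', (Ideal.absNorm (m a) : ℝ)) ≤
            Real.log K + (q - κ) * Real.log H := by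
          have h2 := Real.log_le_log (by linarith) hprod
          rw [Real.log_mul (by positivity) (Real.rpow_pos_of_pos hH0' _).ne',
            Real.log_rpow hH0'] at h2
          exact h2
        have h2 : Real.log (∏ a ∈ J, (Ideal.absNorm (m a) : ℝ)) ≤ Real.log K + e * Real.log X := by
          have h3 : (q : ℝ) * Real.log (∏ a ∈ J, (Ideal.absNorm (m a) : ℝ)) ≤
              q * (Real.log K + e * Real.log X) := by
            have e1 : (r + 1 : ℝ) * Real.log K ≤ q * Real.log K := by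
              have : ((r + 1 : ℕ) : ℝ) ≤ q := by exact_mod_cast hqr'
              push_cast at this
              gcongr
            have e2 : (r + 1 : ℝ) * ((q - κ) * Real.log H) ≤ q * (e * Real.log X) := by
              have h5 : (r + 1 : ℝ) * (q - κ) ≤ q * e := by
                have h6 : min 1 ((r + 1 : ℝ) / m0) ≤ (r + 1 : ℝ) / q := by
                  refine (min_le_right _ _).trans ?_
                  gcongr
                have h7 : (q : ℝ) * (κ * min 1 ((r + 1 : ℝ) / m0)) ≤ κ * (r + 1) := by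
                  calc (q : ℝ) * (κ * min 1 ((r + 1 : ℝ) / m0)) ≤
                      q * (κ * ((r + 1 : ℝ) / q)) := by gcongr
                    _ = κ * (r + 1) := by field_simp
                rw [he]
                nlinarith
              have h8 : 0 ≤ (q : ℝ) - κ := by linarith
              calc (r + 1 : ℝ) * ((q - κ) * Real.log H) = ((r + 1 : ℝ) * (q - κ)) * Real.log H := by
                    ring
                _ ≤ ((r + 1 : ℝ) * (q - κ)) * Real.log X := by gcongr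
                _ ≤ (q * e) * Real.log X := by
                    have : 0 ≤ Real.log X := hlogH.trans hlogHX
                    gcongr
                _ = q * (e * Real.log X) := by ring
            calc (q : ℝ) * Real.log (∏ a ∈ J, (Ideal.absNorm (m a) : ℝ))
                ≤ ((r + 1 : ℕ) : ℝ) * Real.log (∏ a ∈ D', (Ideal.absNorm (m a) : ℝ)) := hJle
              _ ≤ ((r + 1 : ℕ) : ℝ) * (Real.log K + (q - κ) * Real.log H) := by gcongr
              _ = (r + 1 : ℝ) * Real.log K + (r + 1 : ℝ) * ((q - κ) * Real.log H) := by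
                  push_cast; ring
              _ ≤ q * Real.log K + q * (e * Real.log X) := add_le_add e1 e2
              _ = q * (Real.log K + e * Real.log X) := by ring
          exact le_of_mul_le_mul_left h3 hq0'
        have h3 : Real.log (∏ a ∈ J, (Ideal.absNorm (m a) : ℝ)) ≤
            Real.log (K * X ^ (e - (((∅ : Finset (𝓞 k × 𝓞 k)).card : ℕ) : ℝ))) := by
          rw [Real.log_mul (by positivity) (Real.rpow_pos_of_pos hX0 _).ne', Real.log_rpow hX0]
          simpa using h2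
        have hZ : 0 < K * X ^ (e - (((∅ : Finset (𝓞 k × 𝓞 k)).card : ℕ) : ℝ)) := by positivity
        exact (Real.log_le_log_iff hJpos hZ).1 h3

theorem count_good_k (S : Finset (HeightOneSpectrum (𝓞 k))) (r : ℕ) (hr : 1 ≤ r)
    (J1 J2 : Finset (𝓞 k × 𝓞 k))
    (hdisj : Disjoint J1 J2) (hJc : J1.card + J2.card = r + 1)
    (hJ : ∀ a ∈ J1 ∪ J2, ∀ b ∈ J1 ∪ J2, a ≠ b → a.1 * b.2 ≠ a.2 * b.1) (B K e δ : ℝ)
    (hB : 1 ≤ B) (hK : 1 ≤ K) (he : e ≤ r + 1) (hδ : 0 < δ) :
    ∃ C : ℝ, 0 < C ∧ ∀ X : ℝ, 1 ≤ X →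
      ({x : Om k | GoodK S r J1 J2 (B * X) (K * X ^ (e - J2.card)) (((B * X) ^ 2) ^ r) x}.ncard : ℝ)
        ≤ C * X ^ (e + δ) := by
  set M : ℝ := (r + 1) + (r + 1) + 4 * r * (r + 1) with hM
  have hM0 : 0 < M := by positivity
  set ε := δ / M with hε
  have hε0 : 0 < ε := by positivity
  obtain ⟨C1, hC1, h1⟩ := smIF_card k S ε hε0
  obtain ⟨C2, hC2, h2⟩ := prI_card k J1 ε hε0
  obtain ⟨C3, hC3, h3⟩ := idF_card k
  obtain ⟨C4, hC4, h4⟩ := unF_card k ε hε0
  refine ⟨r * (((C1 * B ^ ε) ^ J1.card * (C2 * K ^ (1 + ε)) * (C3 * B) ^ J2.card) *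
    (C4 * B ^ (4 * r * ε)) ^ (r + 1)), by positivity, fun X hX => ?_⟩
  have hX0 : 0 < X := by linarith
  have hBX : 1 ≤ B * X := by nlinarith
  have hBX0 : 0 < B * X := by linarith
  have hZ : 0 < K * X ^ (e - (J2.card : ℝ)) := by positivity
  have g0 := (good_count_k S r hr J1 J2 hdisj hJc hJ (B * X) (K * X ^ (e - J2.card))
    (((B * X) ^ 2) ^ r)).2
  have hYY : 1 ≤ ((B * X) ^ 2) ^ r * ((B * X) ^ 2) ^ r := by
    have := one_le_pow₀ (n := r) (one_le_pow₀ (n := 2) hBX)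
    nlinarith
  have g1 := h1 (B * X) hBX
  have g2 := h2 (K * X ^ (e - (J2.card : ℝ))) hZ
  have g3 := h3 (B * X) hBX
  have g4 := h4 _ hYY
  have e1 : (((B * X) ^ 2) ^ r * ((B * X) ^ 2) ^ r) ^ ε = (B * X) ^ (4 * r * ε) := by
    rw [← pow_mul, ← pow_add, ← Real.rpow_natCast, ← Real.rpow_mul hBX0.le]
    congr 1
    push_cast
    ring
  rw [e1] at g4
  calc ({x : Om k | GoodK S r J1 J2 (B * X) (K * X ^ (e - J2.card)) (((B * X) ^ 2) ^ r) x}.ncard : ℝ)
      ≤ r * ((((smIF k S (B * X)).card ^ J1.card * (prI k J1 (K * X ^ (e - J2.card))).card) *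
        (idF k (B * X)).card ^ J2.card) *
          (unF k (((B * X) ^ 2) ^ r * ((B * X) ^ 2) ^ r)).card ^ (r + 1)) := g0
    _ ≤ r * ((((C1 * (B * X) ^ ε) ^ J1.card * (C2 * (K * X ^ (e - (J2.card : ℝ))) ^ (1 + ε))) *
        (C3 * (B * X)) ^ J2.card) * (C4 * (B * X) ^ (4 * r * ε)) ^ (r + 1)) := by
        gcongr
    _ = r * (((C1 * B ^ ε) ^ J1.card * (C2 * K ^ (1 + ε)) * (C3 * B) ^ J2.card) *
    (C4 * B ^ (4 * r * ε)) ^ (r + 1)) *
          X ^ (ε * J1.card + (e - (J2.card : ℝ)) * (1 + ε) + J2.card + 4 * r * ε * (r + 1)) := by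
        have f1 : (C1 * (B * X) ^ ε) ^ J1.card = (C1 * B ^ ε) ^ J1.card * X ^ (ε * J1.card) := by
          rw [Real.mul_rpow (by linarith) hX0.le, ← mul_assoc, mul_pow, ← Real.rpow_natCast (X ^ ε),
            ← Real.rpow_mul hX0.le]
        have f2 : (K * X ^ (e - (J2.card : ℝ))) ^ (1 + ε) =
            K ^ (1 + ε) * X ^ ((e - (J2.card : ℝ)) * (1 + ε)) := by
          rw [Real.mul_rpow (by linarith) (by positivity), ← Real.rpow_mul hX0.le]
        have f3 : (C3 * (B * X)) ^ J2.card = (C3 * B) ^ J2.card * X ^ (J2.card : ℝ) := by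
          rw [← mul_assoc, mul_pow, Real.rpow_natCast]
        have f4 : (C4 * (B * X) ^ (4 * r * ε)) ^ (r + 1) =
            (C4 * B ^ (4 * r * ε)) ^ (r + 1) * X ^ (4 * r * ε * (r + 1)) := by
          rw [Real.mul_rpow (by linarith) hX0.le, ← mul_assoc, mul_pow,
            ← Real.rpow_natCast (X ^ (4 * (r : ℝ) * ε)), ← Real.rpow_mul hX0.le]
          push_cast
          ring_nf
        rw [f1, f2, f3, f4, Real.rpow_add hX0, Real.rpow_add hX0, Real.rpow_add hX0]
        ring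
    _ ≤ r * (((C1 * B ^ ε) ^ J1.card * (C2 * K ^ (1 + ε)) * (C3 * B) ^ J2.card) *
    (C4 * B ^ (4 * r * ε)) ^ (r + 1)) * X ^ (e + δ) := by
        refine mul_le_mul_of_nonneg_left (Real.rpow_le_rpow_of_exponent_le hX ?_) (by positivity)
        have i1 : (0 : ℝ) ≤ J2.card := Nat.cast_nonneg _
        have i2 : (J1.card : ℝ) ≤ r + 1 := by
          have : J1.card ≤ r + 1 := by omega
          exact_mod_cast this
        have i3 : ε * M = δ := by rw [hε]; field_simp
        have i4 : ε * J1.card ≤ ε * (r + 1) := by gcongr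
        have i5 : ε * (e - J2.card) ≤ ε * (r + 1) := by
          refine mul_le_mul_of_nonneg_left ?_ hε0.le
          linarith
        rw [hM] at i3
        nlinarith

end H645.VK
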