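import Mathlib
import Pool.Agent.H645R3.VK7

set_option autoImplicit false

namespace H645.VK

open Finset NumberField IsDedekindDomain Height H645.VB IntermediateField

open scoped Classical

section

variable {k : Type} [Field k] [NumberField k]

instance instFD (x : Om k) : FiniteDimensional k k⟮x⟯ :=
  adjoin.finiteDimensional (Algebra.IsIntegral.isIntegral x)

instance instNF (x : Om k) : NumberField k⟮x⟯ := NumberField.of_module_finite k k⟮x⟯

/-- absolute logarithmic height -/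
noncomputable def ht (x : Om k) : ℝ :=
  logHeight₁ (AdjoinSimple.gen k x) / Module.finrank ℚ k⟮x⟯

/-- the points near `D` -/
def Near (r : ℕ) (S : Finset (HeightOneSpectrum (𝓞 k))) (D : Finset (𝓞 k × 𝓞 k)) (κ c T : ℝ) :
    Set (Om k) :=
  {x | Module.finrank k k⟮x⟯ = r ∧ ht x ≤ T ∧
    (∀ a ∈ D, algebraMap k (Om k) (a.1 : k) ≠ algebraMap k (Om k) (a.2 : k) * x) ∧
    κ * ht x - c ≤ proxk S D (AdjoinSimple.gen k x)}

theorem main (r : ℕ) (hr : 1 ≤ r) (S : Finset (HeightOneSpectrum (𝓞 k)))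
    (D : Finset (𝓞 k × 𝓞 k)) (hD0 : ∀ a ∈ D, a ≠ (0, 0))
    (hD : ∀ a ∈ D, ∀ b ∈ D, a ≠ b → a.1 * b.2 ≠ a.2 * b.1) (κ : ℝ) (hκ : 0 ≤ κ)
    (hκ1 : κ ≤ r + 1) (c δ : ℝ) (hδ : 0 < δ) :
    ∃ C : ℝ, 0 < C ∧ ∀ T : ℝ, 0 ≤ T → (Near r S D κ c T).Finite ∧
      ((Near r S D κ c T).ncard : ℝ) ≤ C * Real.exp
        ((Module.finrank ℚ k * r * ((r + 1 : ℝ) - κ * min 1 ((r + 1 : ℝ) /
          ((min D.card (r * (S.card + Fintype.card (InfinitePlace k))) : ℕ) : ℝ))) + δ) * T) := by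
  set d := Module.finrank ℚ k with hd
  have hd0 : 0 < d := Module.finrank_pos
  obtain ⟨E, hEc, hEdet, hDE, hE1⟩ := exists_aux D hD0 (r + 1)
  -- constants
  set A : ℝ := 1 + ∑ a ∈ D ∪ E, ∑ v : InfinitePlace k, (v (a.1 : k) + v (a.2 : k)) with hAdef
  have hAnn : ∀ a : 𝓞 k × 𝓞 k, 0 ≤ ∑ v : InfinitePlace k, (v (a.1 : k) + v (a.2 : k)) :=
    fun a => Finset.sum_nonneg fun v _ => add_nonneg (apply_nonneg v _) (apply_nonneg v _)
  have hA : 1 ≤ A := by
    have := Finset.sum_nonneg (s := D ∪ E) fun a _ => hAnn a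
    linarith
  have hDA : ∀ a ∈ D ∪ E, ∀ v : InfinitePlace k, v (a.1 : k) ≤ A ∧ v (a.2 : k) ≤ A := by
    intro a ha v
    have h1 := Finset.single_le_sum
      (f := fun a : 𝓞 k × 𝓞 k => ∑ v : InfinitePlace k, (v (a.1 : k) + v (a.2 : k)))
      (fun a _ => hAnn a) ha
    have h2 := Finset.single_le_sum
      (f := fun v : InfinitePlace k => (v (a.1 : k) + v (a.2 : k)))
      (fun v _ => add_nonneg (apply_nonneg v _) (apply_nonneg v _)) (Finset.mem_univ v)
    have h3 : 0 ≤ v (a.1 : k) := apply_nonneg v _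
    have h4 : 0 ≤ v (a.2 : k) := apply_nonneg v _
    constructor <;> linarith
  set Q : ℝ := 1 + ∑ a ∈ D, ∑ b ∈ D,
    ((∑ v : InfinitePlace k, (v ((a.1 * b.2 - a.2 * b.1 : 𝓞 k) : k))⁻¹) +
      (Ideal.absNorm (Ideal.span {(a.1 * b.2 - a.2 * b.1 : 𝓞 k)}) : ℝ) ^ r) with hQdef
  have hq1 : ∀ a b : 𝓞 k × 𝓞 k, 0 ≤ (∑ v : InfinitePlace k,
      (v ((a.1 * b.2 - a.2 * b.1 : 𝓞 k) : k))⁻¹) := fun a b =>
    Finset.sum_nonneg fun v _ => inv_nonneg.2 (apply_nonneg v _)
  have hq2 : ∀ a b : 𝓞 k × 𝓞 k, 0 ≤ (∑ v : InfinitePlace k,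
      (v ((a.1 * b.2 - a.2 * b.1 : 𝓞 k) : k))⁻¹) +
      (Ideal.absNorm (Ideal.span {(a.1 * b.2 - a.2 * b.1 : 𝓞 k)}) : ℝ) ^ r := fun a b =>
    add_nonneg (hq1 a b) (by positivity)
  have hQ1 : 1 ≤ Q := by
    have := Finset.sum_nonneg (s := D) fun a _ => Finset.sum_nonneg (s := D) fun b _ => hq2 a b
    linarith
  have hQle : ∀ a ∈ D, ∀ b ∈ D, (∑ v : InfinitePlace k,
      (v ((a.1 * b.2 - a.2 * b.1 : 𝓞 k) : k))⁻¹) +
      (Ideal.absNorm (Ideal.span {(a.1 * b.2 - a.2 * b.1 : 𝓞 k)}) : ℝ) ^ r ≤ Q := by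
    intro a ha b hb
    have h1 := Finset.single_le_sum (s := D) (f := fun b : 𝓞 k × 𝓞 k => (∑ v : InfinitePlace k,
      (v ((a.1 * b.2 - a.2 * b.1 : 𝓞 k) : k))⁻¹) +
      (Ideal.absNorm (Ideal.span {(a.1 * b.2 - a.2 * b.1 : 𝓞 k)}) : ℝ) ^ r)
      (fun b _ => hq2 a b) hb
    have h2 := Finset.single_le_sum (s := D) (f := fun a : 𝓞 k × 𝓞 k => ∑ b ∈ D,
      ((∑ v : InfinitePlace k, (v ((a.1 * b.2 - a.2 * b.1 : 𝓞 k) : k))⁻¹) +
      (Ideal.absNorm (Ideal.span {(a.1 * b.2 - a.2 * b.1 : 𝓞 k)}) : ℝ) ^ r))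
      (fun a _ => Finset.sum_nonneg fun b _ => hq2 a b) ha
    linarith
  set N : ℝ := 2 * A * Q with hNdef
  have hN1 : 1 ≤ N := by nlinarith
  have hN : ∀ a ∈ D, ∀ b ∈ D, a ≠ b →
      (∀ v : InfinitePlace k, 2 * A ≤ v ((a.1 * b.2 - a.2 * b.1 : 𝓞 k) : k) * N) ∧
      2 * A ≤ ((Ideal.absNorm (Ideal.span {(a.1 * b.2 - a.2 * b.1 : 𝓞 k)}) : ℝ) ^ r)⁻¹ * N := by
    intro a ha b hb hab
    have hdet := det_ne a b (hD a ha b hb hab)
    have hle := hQle a ha b hb
    constructor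
    · intro v
      have hv : 0 < v ((a.1 * b.2 - a.2 * b.1 : 𝓞 k) : k) := InfinitePlace.pos_iff.2 (coe_ne _ hdet)
      have h1 := Finset.single_le_sum (f := fun v : InfinitePlace k =>
        (v ((a.1 * b.2 - a.2 * b.1 : 𝓞 k) : k))⁻¹) (fun v _ => inv_nonneg.2 (apply_nonneg v _))
        (Finset.mem_univ v)
      have h2 : (0 : ℝ) ≤ (Ideal.absNorm (Ideal.span {(a.1 * b.2 - a.2 * b.1 : 𝓞 k)}) : ℝ) ^ r := by
        positivity
      have h3 : (v ((a.1 * b.2 - a.2 * b.1 : 𝓞 k) : k))⁻¹ ≤ Q := by linarith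
      have h4 : 1 ≤ v ((a.1 * b.2 - a.2 * b.1 : 𝓞 k) : k) * Q := by
        rw [inv_le_iff_one_le_mul₀ hv] at h3
        linarith
      calc 2 * A = 2 * A * 1 := by ring
        _ ≤ 2 * A * (v ((a.1 * b.2 - a.2 * b.1 : 𝓞 k) : k) * Q) := by gcongr
        _ = _ := by rw [hNdef]; ring
    · have hn : (0 : ℝ) < (Ideal.absNorm (Ideal.span {(a.1 * b.2 - a.2 * b.1 : 𝓞 k)}) : ℝ) ^ r := by
        refine pow_pos ?_ _
        have := absNorm_pos_real k (Ideal.span {(a.1 * b.2 - a.2 * b.1 : 𝓞 k)})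
          (mt Submodule.span_singleton_eq_bot.mp hdet)
        linarith
      have h3 : (Ideal.absNorm (Ideal.span {(a.1 * b.2 - a.2 * b.1 : 𝓞 k)}) : ℝ) ^ r ≤ Q := by
        have := hq1 a b
        linarith
      have h4 : 1 ≤ ((Ideal.absNorm (Ideal.span {(a.1 * b.2 - a.2 * b.1 : 𝓞 k)}) : ℝ) ^ r)⁻¹ * Q := by
        rw [← div_eq_inv_mul, one_le_div hn]
        exact h3
      calc 2 * A = 2 * A * 1 := by ring
        _ ≤ 2 * A *
          (((Ideal.absNorm (Ideal.span {(a.1 * b.2 - a.2 * b.1 : 𝓞 k)}) : ℝ) ^ r)⁻¹ * Q) := by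
            gcongr
        _ = _ := by rw [hNdef]; ring
  set m0 : ℕ := min D.card (r * (S.card + Fintype.card (InfinitePlace k))) with hm0
  set e : ℝ := (r + 1 : ℝ) - κ * min 1 ((r + 1 : ℝ) / m0) with he
  have he1 : e ≤ r + 1 := by
    have : 0 ≤ min 1 ((r + 1 : ℝ) / m0) := le_min zero_le_one (by positivity)
    nlinarith
  have he0 : 0 ≤ e := by
    have : min 1 ((r + 1 : ℝ) / m0) ≤ 1 := min_le_left _ _
    nlinarith
  set nL : ℕ := d * r with hnL
  set P0 : ℝ := N ^ (r * S.card) * N ^ nL with hP0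
  have hP01 : 1 ≤ P0 := by
    have h1 := one_le_pow₀ (n := r * S.card) hN1
    have h2 := one_le_pow₀ (n := nL) hN1
    nlinarith
  set K0 : ℝ := P0 ^ D.card * Real.exp (nL * c) with hK0
  set K : ℝ := max K0 1 with hK
  have hK1 : 1 ≤ K := le_max_right _ _
  set B : ℝ := (2 * A ^ 2) ^ nL with hB
  have hA2 : 1 ≤ A ^ 2 := one_le_pow₀ hA
  have hB1 : 1 ≤ B := one_le_pow₀ (by linarith)
  have hBB : (2 * A) ^ nL ≤ B := by
    refine pow_le_pow_left₀ (by linarith) ?_ _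
    nlinarith
  obtain ⟨H0, hH01, hcl⟩ := classify_k S D E r hr hEc κ hκ K B e hK1 hB1 m0 he
  -- disjointness and determinants
  have hdE : Disjoint D E := by
    rw [Finset.disjoint_left]
    intro a ha hb
    exact hDE a ha a hb (mul_comm _ _)
  have hdet : ∀ J1 ⊆ D, ∀ J2 ⊆ E, ∀ a ∈ J1 ∪ J2, ∀ b ∈ J1 ∪ J2, a ≠ b →
      a.1 * b.2 ≠ a.2 * b.1 := by
    intro J1 h1 J2 h2 a ha b hb hab
    rcases Finset.mem_union.1 ha with ha | ha
    · rcases Finset.mem_union.1 hb with hb | hb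
      · exact hD a (h1 ha) b (h1 hb) hab
      · exact hDE a (h1 ha) b (h2 hb)
    · rcases Finset.mem_union.1 hb with hb | hb
      · intro h
        refine hDE b (h1 hb) a (h2 ha) ?_
        rw [mul_comm b.1, mul_comm b.2]
        exact h.symm
      · exact hEdet a (h2 ha) b (h2 hb) hab
  set I := (D.powerset ×ˢ E.powerset).filter (fun J => J.1.card + J.2.card = r + 1) with hI
  have hImem : ∀ J ∈ I, J.1 ⊆ D ∧ J.2 ⊆ E ∧ J.1.card + J.2.card = r + 1 := by
    intro J hJ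
    rw [hI, Finset.mem_filter, Finset.mem_product, Finset.mem_powerset, Finset.mem_powerset] at hJ
    exact ⟨hJ.1.1, hJ.1.2, hJ.2⟩
  have hcount : ∀ J : Finset (𝓞 k × 𝓞 k) × Finset (𝓞 k × 𝓞 k), ∃ C : ℝ, 0 < C ∧
      (J ∈ I → ∀ X : ℝ, 1 ≤ X →
      ({x : Om k | GoodK S r J.1 J.2 (B * X) (K * X ^ (e - J.2.card))
        (((B * X) ^ 2) ^ r) x}.ncard : ℝ) ≤ C * X ^ (e + δ / nL)) := by
    intro J
    by_cases hJ : J ∈ I
    · obtain ⟨h1, h2, h3⟩ := hImem J hJ
      obtain ⟨C, hC, h⟩ := count_good_k S r hr J.1 J.2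
        (Finset.disjoint_of_subset_left h1 (Finset.disjoint_of_subset_right h2 hdE)) h3
        (hdet _ h1 _ h2) B K e (δ / nL) hB1 hK1 he1 (by positivity)
      exact ⟨C, hC, fun _ => h⟩
    · exact ⟨1, one_pos, fun h => absurd h hJ⟩
  choose Cf hCf hCb using hcount
  have hfin0 := good_count_k S r hr ∅ E (Finset.disjoint_empty_left _)
    (by rw [Finset.card_empty, hEc, zero_add]) (hdet ∅ (by simp) _ le_rfl) (B * H0) 1
    (((B * H0) ^ 2) ^ r)
  have hfinE : {x : Om k | ∃ b ∈ E,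
      algebraMap k (Om k) (b.1 : k) = algebraMap k (Om k) (b.2 : k) * x}.Finite := by
    have : {x : Om k | ∃ b ∈ E,
      algebraMap k (Om k) (b.1 : k) = algebraMap k (Om k) (b.2 : k) * x} = ⋃ b ∈ E, {x : Om k |
      algebraMap k (Om k) (b.1 : k) = algebraMap k (Om k) (b.2 : k) * x} := by
      ext x; simp
    rw [this]
    refine Set.Finite.biUnion E.finite_toSet fun b hb => Set.Subsingleton.finite ?_
    intro x hx x' hx'
    have h1 : algebraMap k (Om k) (b.1 : k) = algebraMap k (Om k) (b.2 : k) * x := hx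
    have h2 : algebraMap k (Om k) (b.1 : k) = algebraMap k (Om k) (b.2 : k) * x' := hx'
    have hb1 : algebraMap k (Om k) (b.1 : k) = 1 := by
      rw [hE1 b hb]
      have : ((1 : 𝓞 k) : k) = 1 := rfl
      rw [this, map_one]
    have hne : algebraMap k (Om k) (b.2 : k) ≠ 0 := by
      intro h
      rw [h, zero_mul, hb1] at h1
      exact one_ne_zero h1
    exact mul_left_cancel₀ hne (h1.symm.trans h2)
  set V0 : Set (Om k) := {x : Om k | GoodK S r ∅ E (B * H0) 1 (((B * H0) ^ 2) ^ r) x} ∪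
    {x : Om k | ∃ b ∈ E,
      algebraMap k (Om k) (b.1 : k) = algebraMap k (Om k) (b.2 : k) * x} with hV0
  have hV0f : V0.Finite := hfin0.1.union hfinE
  set N0 : ℝ := (V0.ncard : ℝ) with hN0
  refine ⟨N0 + ∑ J ∈ I, Cf J + 1, ?_, fun T hT => ?_⟩
  · have : 0 ≤ ∑ J ∈ I, Cf J := Finset.sum_nonneg fun J _ => (hCf J).le
    have : 0 ≤ N0 := Nat.cast_nonneg _
    linarith
  set X : ℝ := Real.exp (nL * T) with hX
  have hX1 : 1 ≤ X := Real.one_le_exp (by positivity)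
  have hnL0 : (nL : ℝ) ≠ 0 := by
    have : nL ≠ 0 := Nat.mul_ne_zero (by omega) (by omega)
    exact_mod_cast this
  -- inclusion
  have hsub : Near r S D κ c T ⊆ V0 ∪
      ⋃ J ∈ I, {x : Om k | GoodK S r J.1 J.2 (B * X) (K * X ^ (e - J.2.card))
        (((B * X) ^ 2) ^ r) x} := by
    rintro x ⟨hdeg, hht, hne, hpr⟩
    by_cases hxE : ∃ b ∈ E, algebraMap k (Om k) (b.1 : k) = algebraMap k (Om k) (b.2 : k) * x
    · exact Or.inl (Or.inr hxE)
    have hxint : IsIntegral k x := Algebra.IsIntegral.isIntegral x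
    set pb := adjoin.powerBasis hxint with hpb
    have hgen : pb.gen = AdjoinSimple.gen k x := adjoin.powerBasis_gen hxint
    have hmin : minpoly k pb.gen = minpoly k x := by
      rw [hgen]; exact IntermediateField.minpoly_gen k x
    have hmdeg : (minpoly k x).natDegree = r := by rw [← hdeg, adjoin.finrank hxint]
    have hfrQ : Module.finrank ℚ k⟮x⟯ = nL := by
      rw [hnL, ← hdeg, hd, Module.finrank_mul_finrank]
    set H := mulHeight₁ pb.gen with hH
    have hH1 : 1 ≤ H := one_le_mulHeight₁ _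
    have hHpos : 0 < H := by linarith
    have habs : nL * ht x = Real.log H := by
      unfold ht
      rw [hfrQ, mul_div_cancel₀ _ hnL0, hH, hgen]
      exact logHeight₁_eq_log_mulHeight₁ _
    have hHX : H ≤ X := by
      rw [← Real.exp_log hHpos, ← habs, hX]
      apply Real.exp_le_exp.2
      gcongr
    have hckne : ∀ a : 𝓞 k × 𝓞 k,
        algebraMap k (Om k) (a.1 : k) ≠ algebraMap k (Om k) (a.2 : k) * x → ck a pb.gen ≠ 0 := by
      intro a hane h
      apply hane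
      have h1 : algebraMap k⟮x⟯ (Om k) (ck a pb.gen) = 0 := by rw [h, map_zero]
      unfold ck at h1
      rw [map_sub, map_mul, hgen, AdjoinSimple.algebraMap_gen,
        ← IsScalarTower.algebraMap_apply, ← IsScalarTower.algebraMap_apply] at h1
      exact sub_eq_zero.1 h1
    have hckD : ∀ a ∈ D, ck a pb.gen ≠ 0 := fun a ha => hckne a (hne a ha)
    have hckE : ∀ a ∈ E, ck a pb.gen ≠ 0 := fun a ha => hckne a fun h => hxE ⟨a, ha, h⟩
    have hckDE : ∀ a ∈ D ∪ E, ck a pb.gen ≠ 0 := by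
      intro a ha
      rcases Finset.mem_union.1 ha with h | h
      · exact hckD a h
      · exact hckE a h
    obtain ⟨l, n, z, s, m, hl, hn, hz⟩ := data_k S pb A hA
    rw [hmin, hdeg, hfrQ] at hz
    obtain ⟨D', hD', hc', hout⟩ := point_k S D A N hA hN1
      (fun a ha => hDA a (Finset.mem_union_left _ ha)) hD (by rw [hdeg]; exact hN) pb.gen hckD
    rw [hdeg] at hc' hout
    rw [hfrQ, ← hP0] at hout
    -- the product bound
    have hprodD : ∏ a ∈ D', (Ideal.absNorm (m a) : ℝ) ≤ K * H ^ ((D'.card : ℝ) - κ) := by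
      have hpos : ∀ a ∈ D, 0 < Pk S pb.gen a := fun a ha => Pk_pos S pb.gen a (hckD a ha)
      have hpe := proxk_eq S D pb.gen hckD
      rw [hfrQ] at hpe
      have hprox : κ * Real.log H - nL * c ≤ ∑ a ∈ D, Real.log (Pk S pb.gen a) := by
        rw [← hpe, ← habs]
        have hpr' : κ * ht x - c ≤ proxk S D pb.gen := by
          rw [hgen]; exact hpr
        have h0 : (0 : ℝ) ≤ nL := Nat.cast_nonneg _
        nlinarith
      rw [← Real.log_prod (fun a ha => (hpos a ha).ne')] at hprox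
      have hprod : H ^ κ * Real.exp (-(nL * c)) ≤ ∏ a ∈ D, Pk S pb.gen a := by
        have hP : 0 < ∏ a ∈ D, Pk S pb.gen a := Finset.prod_pos hpos
        rw [← Real.exp_log hP, Real.rpow_def_of_pos hHpos, ← Real.exp_add]
        apply Real.exp_le_exp.2
        linarith
      have hsplit : ∏ a ∈ D, Pk S pb.gen a ≤ (∏ a ∈ D', Pk S pb.gen a) * P0 ^ D.card := by
        rw [← Finset.prod_sdiff hD', mul_comm]
        have h1 : ∏ a ∈ D \ D', Pk S pb.gen a ≤ P0 ^ D.card := by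
          calc ∏ a ∈ D \ D', Pk S pb.gen a ≤ ∏ _a ∈ D \ D', P0 :=
                Finset.prod_le_prod (fun a ha => (hpos a (Finset.mem_sdiff.1 ha).1).le)
                  fun a ha => hout a (Finset.mem_sdiff.1 ha).1 (Finset.mem_sdiff.1 ha).2
            _ = P0 ^ (D \ D').card := by rw [Finset.prod_const]
            _ ≤ P0 ^ D.card := pow_le_pow_right₀ hP01 (Finset.card_le_card Finset.sdiff_subset)
        exact mul_le_mul_of_nonneg_left h1 (Finset.prod_nonneg fun a ha => (hpos a (hD' ha)).le)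
      have hPm : (∏ a ∈ D', Pk S pb.gen a) * ∏ a ∈ D', (Ideal.absNorm (m a) : ℝ) = H ^ D'.card := by
        rw [← Finset.prod_mul_distrib]
        rw [Finset.prod_congr rfl fun a ha => (hz a (hckD a (hD' ha))).2.2.2.2.2.1]
        rw [Finset.prod_const]
      have hm0' : 0 < ∏ a ∈ D', (Ideal.absNorm (m a) : ℝ) := Finset.prod_pos fun a ha => by
        have := absNorm_pos_real k _ (hz a (hckD a (hD' ha))).2.2.2.2.1
        linarith
      have hfin : H ^ κ * Real.exp (-(nL * c)) * ∏ a ∈ D', (Ideal.absNorm (m a) : ℝ) ≤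
          H ^ D'.card * P0 ^ D.card := by
        calc H ^ κ * Real.exp (-(nL * c)) * ∏ a ∈ D', (Ideal.absNorm (m a) : ℝ)
            ≤ ((∏ a ∈ D', Pk S pb.gen a) * P0 ^ D.card) *
              ∏ a ∈ D', (Ideal.absNorm (m a) : ℝ) := by
              have := hprod.trans hsplit
              gcongr
          _ = ((∏ a ∈ D', Pk S pb.gen a) * ∏ a ∈ D', (Ideal.absNorm (m a) : ℝ)) *
              P0 ^ D.card := by ring
          _ = _ := by rw [hPm]
      have hHκ : 0 < H ^ κ := Real.rpow_pos_of_pos hHpos _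
      have e1 : H ^ ((D'.card : ℝ) - κ) = H ^ D'.card / H ^ κ := by
        rw [Real.rpow_sub hHpos, Real.rpow_natCast]
      have e2 : Real.exp (nL * c) = (Real.exp (-(nL * c)))⁻¹ := by rw [Real.exp_neg, inv_inv]
      have hec := Real.exp_pos (-(nL * c))
      have hle0 : ∏ a ∈ D', (Ideal.absNorm (m a) : ℝ) ≤ K0 * H ^ ((D'.card : ℝ) - κ) := by
        rw [hK0, e1, e2]
        have : ∏ a ∈ D', (Ideal.absNorm (m a) : ℝ) ≤
            (H ^ D'.card * P0 ^ D.card) / (H ^ κ * Real.exp (-(nL * c))) := by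
          rw [le_div_iff₀ (by positivity)]
          linarith
        refine this.trans (le_of_eq ?_)
        field_simp
      refine hle0.trans ?_
      have : 0 < H ^ ((D'.card : ℝ) - κ) := Real.rpow_pos_of_pos hHpos _
      exact mul_le_mul_of_nonneg_right (le_max_left _ _) this.le
    have hratio : ∀ a ∈ D ∪ E, ∀ b ∈ D ∪ E, ∀ v : InfinitePlace k,
        v (homk (minpoly k x) r a / homk (minpoly k x) r b) ≤ ((B * H) ^ 2) ^ r := by
      intro a ha b hb v
      have := ratio_k pb A hA a b (hDA a ha) (hDA b hb) v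
      rw [hmin, hdeg, hfrQ] at this
      exact this
    have hcl' := hcl H X x hH1 hHX hmdeg ⟨l, n, z, s, m, hl, hn, fun a ha => ?_, hratio, D', hD',
      le_min (Finset.card_le_card hD') hc', hprodD⟩
    · rcases hcl' with h | ⟨J, hJ, h⟩
      · exact Or.inl (Or.inl h)
      · exact Or.inr (Set.mem_biUnion hJ h)
    · obtain ⟨g1, g2, g3, g4, g5, -, g7⟩ := hz a (hckDE a ha)
      refine ⟨g1, g2, g3, g4, g5, (g7 (hDA a ha)).trans ?_⟩
      gcongr
  have hfinJ : ∀ J ∈ I, {x : Om k | GoodK S r J.1 J.2 (B * X) (K * X ^ (e - J.2.card))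
      (((B * X) ^ 2) ^ r) x}.Finite := by
    intro J hJ
    obtain ⟨h1, h2, h3⟩ := hImem J hJ
    exact (good_count_k S r hr J.1 J.2
        (Finset.disjoint_of_subset_left h1 (Finset.disjoint_of_subset_right h2 hdE)) h3
        (hdet _ h1 _ h2) _ _ _).1
  have hfinU : (⋃ J ∈ I, {x : Om k | GoodK S r J.1 J.2 (B * X) (K * X ^ (e - J.2.card))
      (((B * X) ^ 2) ^ r) x}).Finite :=
    Set.Finite.biUnion I.finite_toSet hfinJ
  refine ⟨(hV0f.union hfinU).subset hsub, ?_⟩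
  have hunion : ((⋃ J ∈ I, {x : Om k | GoodK S r J.1 J.2 (B * X) (K * X ^ (e - J.2.card))
      (((B * X) ^ 2) ^ r) x}).ncard : ℝ)
      ≤ ∑ J ∈ I, ({x : Om k | GoodK S r J.1 J.2 (B * X) (K * X ^ (e - J.2.card))
      (((B * X) ^ 2) ^ r) x}.ncard : ℝ) := by
    have : (⋃ J ∈ I, {x : Om k | GoodK S r J.1 J.2 (B * X) (K * X ^ (e - J.2.card))
      (((B * X) ^ 2) ^ r) x}).ncard
        ≤ ∑ J ∈ I, {x : Om k | GoodK S r J.1 J.2 (B * X) (K * X ^ (e - J.2.card))
      (((B * X) ^ 2) ^ r) x}.ncard := by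
      clear_value I
      clear hsub hcl hfinU hI hImem hCb
      induction I using Finset.induction_on with
      | empty => simp
      | insert J I' hJ ih =>
        rw [Finset.sum_insert hJ, Finset.set_biUnion_insert]
        refine (Set.ncard_union_le _ _).trans ?_
        exact Nat.add_le_add_left (ih fun J hJ => hfinJ J (Finset.mem_insert_of_mem hJ)) _
    exact_mod_cast this
  have hE1 : 1 ≤ X ^ (e + δ / nL) := Real.one_le_rpow hX1 (by positivity)
  have hexp : X ^ (e + δ / nL) = Real.exp ((d * r * e + δ) * T) := by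
    rw [hX, ← Real.exp_mul]
    congr 1
    have hc1 : (nL : ℝ) = d * r := by rw [hnL]; push_cast; ring
    rw [← hc1]
    field_simp
  rw [← hexp]
  calc ((Near r S D κ c T).ncard : ℝ)
      ≤ ((V0 ∪ ⋃ J ∈ I, {x : Om k | GoodK S r J.1 J.2 (B * X) (K * X ^ (e - J.2.card))
        (((B * X) ^ 2) ^ r) x}).ncard : ℝ) := by
        exact_mod_cast Set.ncard_le_ncard hsub (hV0f.union hfinU)
    _ ≤ N0 + ((⋃ J ∈ I, {x : Om k | GoodK S r J.1 J.2 (B * X) (K * X ^ (e - J.2.card))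
        (((B * X) ^ 2) ^ r) x}).ncard : ℝ) := by
        rw [hN0]
        exact_mod_cast Set.ncard_union_le _ _
    _ ≤ N0 + ∑ J ∈ I, Cf J * X ^ (e + δ / nL) := by
        refine add_le_add_right ?_ _ |>.trans (le_of_eq rfl)
        exact hunion.trans (Finset.sum_le_sum fun J hJ => hCb J hJ X hX1)
    _ = N0 + (∑ J ∈ I, Cf J) * X ^ (e + δ / nL) := by rw [Finset.sum_mul]
    _ ≤ N0 * X ^ (e + δ / nL) + (∑ J ∈ I, Cf J) * X ^ (e + δ / nL) + 1 * X ^ (e + δ / nL) := by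
        have h0 : 0 ≤ N0 := Nat.cast_nonneg _
        nlinarith
    _ = (N0 + ∑ J ∈ I, Cf J + 1) * X ^ (e + δ / nL) := by ring

end

end H645.VK
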